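import Pool.Agent.U556.GS5

set_option autoImplicit false

/-! # Gap series in the class `Σ`: the mean square and the uniform bound -/

namespace Pool.Agent.U556.GS

open Complex Metric Set Filter Topology MeasureTheory
open Pool.Agent.W677.Mar
open Pool.Agent.R250.MC

variable {q : ℝ} {c : ℕ → ℂ} {n : ℕ → ℕ} {h : ℂ → ℂ}

theorem pow_lower {N : ℕ} (hN : 1 ≤ N) : Real.exp (-1) ≤ (((N : ℝ) + 1) / N)⁻¹ ^ N := by
  have hN' : (1 : ℝ) ≤ N := by exact_mod_cast hN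
  have h1 : ((N : ℝ) + 1) / N ≤ Real.exp (1 / N) := by
    have := Real.add_one_le_exp (1 / (N : ℝ))
    refine le_trans (le_of_eq ?_) this
    field_simp
    ring
  have h2 : (((N : ℝ) + 1) / N) ^ N ≤ Real.exp 1 := by
    calc (((N : ℝ) + 1) / N) ^ N ≤ Real.exp (1 / N) ^ N := pow_le_pow_left₀ (by positivity) h1 N
      _ = Real.exp 1 := by
          rw [← Real.exp_nat_mul]
          congr 1
          field_simp
  rw [inv_pow, Real.exp_neg]
  exact inv_anti₀ (by positivity) h2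

/-- **the coefficients** -/
theorem coeff_le (hq : 1 < q) (G : Gap q c n h) (hH : Hol h 0) {Y : ℂ → ℂ} (S : Sg Y (hat h 0))
    (k : ℕ) {m : ℕ} (hm : 2 ≤ m) (hmq : (m : ℝ) ≤ q) :
    ‖c k‖ ≤ Real.exp 1 * (1 + 2 / n k) * (m / (m - 1)) := by
  have hp := n_pos hq G.pos G.gap
  obtain ⟨N, hN⟩ : ∃ N, N = n k := ⟨_, rfl⟩
  have hN1 : 1 ≤ N := hN ▸ hp k
  have hN' : (1 : ℝ) ≤ N := by exact_mod_cast hN1
  have hm' : (2 : ℝ) ≤ m := by exact_mod_cast hm
  obtain ⟨R, hR⟩ : ∃ R : ℝ, R = ((N : ℝ) + 1) / N := ⟨_, rfl⟩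
  have hR1 : 1 < R := by rw [hR, one_lt_div (by positivity)]; linarith
  have h1 := coeff_bound hq G hH S hR1 k (by omega : 1 ≤ m) hmq
  have h2 := pow_lower hN1
  rw [← hR] at h2
  rw [← hN] at h1 ⊢
  have hri : R⁻¹ = (N : ℝ) / (N + 1) := by rw [hR, inv_div]
  have e1 : 1 - R⁻¹ ^ 2 = (2 * N + 1) / ((N : ℝ) + 1) ^ 2 := by
    rw [hri]
    field_simp
    ring
  have e2 : 4 * R⁻¹ - 2 * R⁻¹ ^ 2 ≤ 2 := by nlinarith [sq_nonneg (R⁻¹ - 1)]
  have h3 : (m : ℝ) * (4 * R⁻¹ - 2 * R⁻¹ ^ 2) ≤ m * 2 := mul_le_mul_of_nonneg_left e2 (by linarith)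
  have hc := norm_nonneg (c k)
  have h4 : (1 - R⁻¹ ^ 2) * ((m : ℝ) - 1) * (N * (‖c k‖ * Real.exp (-1))) ≤
      (1 - R⁻¹ ^ 2) * ((m : ℝ) - 1) * (N * (‖c k‖ * R⁻¹ ^ N)) := by
    apply mul_le_mul_of_nonneg_left
    · apply mul_le_mul_of_nonneg_left _ (by linarith)
      exact mul_le_mul_of_nonneg_left h2 hc
    · apply mul_nonneg _ (by linarith)
      rw [e1]
      positivity
  have h5 := (h4.trans h1).trans h3
  rw [e1] at h5
  -- `2 (N + 1)² ≤ N (2 N + 1) (1 + 2 / N)`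
  have h6 : 2 * ((N : ℝ) + 1) ^ 2 ≤ (2 * N + 1) * N * (1 + 2 / N) := by
    have : (2 * (N : ℝ) + 1) * N * (1 + 2 / N) = (2 * N + 1) * (N + 2) := by field_simp
    rw [this]
    nlinarith
  have hm1 : (0 : ℝ) < m - 1 := by linarith
  have hE := Real.exp_pos 1
  rw [Real.exp_neg] at h5
  have h7 : ‖c k‖ * ((2 * N + 1) * N * ((m : ℝ) - 1)) ≤ Real.exp 1 * (2 * ((N : ℝ) + 1) ^ 2) * m := by
    have e3 : (2 * (N : ℝ) + 1) / ((N : ℝ) + 1) ^ 2 * ((m : ℝ) - 1) * (N * (‖c k‖ * (Real.exp 1)⁻¹)) =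
        ‖c k‖ * ((2 * N + 1) * N * ((m : ℝ) - 1)) / (Real.exp 1 * ((N : ℝ) + 1) ^ 2) := by
      field_simp
    rw [e3, div_le_iff₀ (by positivity)] at h5
    linarith
  have h8 : ‖c k‖ * ((2 * N + 1) * N * ((m : ℝ) - 1)) ≤
      (Real.exp 1 * (1 + 2 / N) * (m / (m - 1))) * ((2 * N + 1) * N * ((m : ℝ) - 1)) := by
    have e4 : (Real.exp 1 * (1 + 2 / N) * (m / (m - 1))) * ((2 * N + 1) * N * ((m : ℝ) - 1)) =
        Real.exp 1 * ((2 * N + 1) * N * (1 + 2 / N)) * m := by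
      field_simp
    rw [e4]
    refine h7.trans ?_
    apply mul_le_mul_of_nonneg_right _ (by linarith)
    exact mul_le_mul_of_nonneg_left h6 hE.le
  exact le_of_mul_le_mul_right h8 (by positivity)

/-- the bound of the coefficients from the second one on -/
noncomputable def B1 (q : ℝ) : ℝ := (Real.exp 1 * (1 + 2 / q) * ((q - 1) / (q - 2))) ^ 2

/-- the bound of the first coefficient -/
noncomputable def B0 (q : ℝ) : ℝ := (Real.exp 1 * 3 * ((q - 1) / (q - 2))) ^ 2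

theorem ratio_le (hq : 2 < q) {m : ℕ} (hm : m = ⌊q⌋₊) : 2 ≤ m ∧ (m : ℝ) ≤ q ∧
    (m : ℝ) / (m - 1) ≤ (q - 1) / (q - 2) := by
  have h1 : 2 ≤ m := by
    rw [hm]
    exact Nat.le_floor (by exact_mod_cast hq.le)
  have h2 : (m : ℝ) ≤ q := by rw [hm]; exact Nat.floor_le (by linarith)
  have h3 : q < m + 1 := by rw [hm]; exact Nat.lt_floor_add_one q
  have h4 : (2 : ℝ) ≤ m := by exact_mod_cast h1
  refine ⟨h1, h2, ?_⟩
  rw [div_le_div_iff₀ (by linarith) (by linarith)]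
  nlinarith

theorem coeff_sq (hq : 2 < q) (G : Gap q c n h) (hH : Hol h 0) {Y : ℂ → ℂ} (S : Sg Y (hat h 0)) :
    ‖c 0‖ ^ 2 ≤ B0 q ∧ ∀ k, ‖c (k + 1)‖ ^ 2 ≤ B1 q := by
  have hq1 : 1 < q := by linarith
  have hp := n_pos hq1 G.pos G.gap
  obtain ⟨m, hm⟩ : ∃ m, m = ⌊q⌋₊ := ⟨_, rfl⟩
  obtain ⟨h1, h2, h3⟩ := ratio_le hq hm
  have h4 : (2 : ℝ) ≤ m := by exact_mod_cast h1
  have hE := Real.exp_pos 1
  have hr : 0 ≤ (m : ℝ) / (m - 1) := div_nonneg (by linarith) (by linarith)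
  constructor
  · unfold B0
    apply pow_le_pow_left₀ (norm_nonneg _)
    refine (coeff_le hq1 G hH S 0 h1 h2).trans ?_
    apply mul_le_mul _ h3 hr (by positivity)
    apply mul_le_mul_of_nonneg_left _ hE.le
    have h5 : (1 : ℝ) ≤ n 0 := by exact_mod_cast hp 0
    have : 2 / (n 0 : ℝ) ≤ 2 := by
      rw [div_le_iff₀ (by linarith)]
      linarith
    linarith
  · intro k
    unfold B1
    apply pow_le_pow_left₀ (norm_nonneg _)
    refine (coeff_le hq1 G hH S (k + 1) h1 h2).trans ?_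
    apply mul_le_mul _ h3 hr (by positivity)
    apply mul_le_mul_of_nonneg_left _ hE.le
    have h5 : (1 : ℝ) ≤ n k := by exact_mod_cast hp k
    have h6 : q ≤ n (k + 1) := by
      have := G.gap k
      nlinarith
    have : 2 / (n (k + 1) : ℝ) ≤ 2 / q := div_le_div_of_nonneg_left (by norm_num) (by linarith) h6
    linarith

theorem log_le_sum {a b : ℕ} (ha : 1 ≤ a) (hab : a ≤ b) :
    Real.log b - Real.log a ≤ ∑ j ∈ Finset.Ico a b, (1 : ℝ) / j := by
  induction b, hab using Nat.le_induction with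
  | base => simp
  | succ b hb ih =>
    rw [Finset.sum_Ico_succ_top hb]
    have hb0 : (0 : ℝ) < b := by exact_mod_cast (by omega : 0 < b)
    have h1 : Real.log ((b + 1 : ℕ) : ℝ) - Real.log b ≤ 1 / b := by
      rw [← Real.log_div (by positivity) (by positivity)]
      refine (Real.log_le_sub_one_of_pos (by positivity)).trans (le_of_eq ?_)
      push_cast
      field_simp
      ring
    linarith

theorem sum_lac (hq : 1 < q) (h0 : 1 ≤ n 0) (hg : ∀ k, q * n k ≤ n (k + 1)) {x : ℝ} (hx0 : 0 ≤ x) (hx1 : x < 1)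
    (N : ℕ) : ∑ k ∈ Finset.range N, Real.log q * x ^ n (k + 1) ≤ ∑ j ∈ Finset.Ico (n 0) (n N), x ^ j / j := by
  have hp := n_pos hq h0 hg
  have hm := (n_mono hq h0 hg).monotone
  induction N with
  | zero => simp
  | succ N ih =>
    rw [Finset.sum_range_succ, ← Finset.sum_Ico_consecutive _ (hm (Nat.zero_le N)) (hm (Nat.le_succ N))]
    apply add_le_add ih
    have hN : (1 : ℝ) ≤ n N := by exact_mod_cast hp N
    have h1 : Real.log q ≤ ∑ j ∈ Finset.Ico (n N) (n (N + 1)), (1 : ℝ) / j := by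
      refine le_trans ?_ (log_le_sum (hp N) (hm (Nat.le_succ N)))
      have hN1 : (0 : ℝ) < n (N + 1) := by exact_mod_cast hp (N + 1)
      rw [← Real.log_div hN1.ne' (ne_of_gt (by linarith))]
      apply Real.log_le_log (by linarith)
      rw [le_div_iff₀ (by linarith)]
      exact hg N
    calc Real.log q * x ^ n (N + 1) ≤ (∑ j ∈ Finset.Ico (n N) (n (N + 1)), (1 : ℝ) / j) * x ^ n (N + 1) :=
          mul_le_mul_of_nonneg_right h1 (by positivity)
      _ ≤ _ := by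
          rw [Finset.sum_mul]
          refine Finset.sum_le_sum fun j hj => ?_
          rw [Finset.mem_Ico] at hj
          rw [div_mul_eq_mul_div, one_mul]
          apply div_le_div_of_nonneg_right _ (by positivity)
          exact pow_le_pow_of_le_one hx0 hx1.le hj.2.le

theorem sum_log {x : ℝ} (hx0 : 0 ≤ x) (hx1 : x < 1) (s : Finset ℕ) :
    ∑ j ∈ s, x ^ j / (j : ℝ) ≤ -Real.log (1 - x) := by
  have h1 := Real.hasSum_pow_div_log_of_abs_lt_one (x := x) (by rw [abs_of_nonneg hx0]; exact hx1)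
  have h2 : HasSum (fun j : ℕ => x ^ j / (j : ℝ)) (-Real.log (1 - x)) := by
    rw [← hasSum_nat_add_iff' 1]
    simpa using h1
  exact sum_le_hasSum s (fun j _ => by positivity) h2

/-- **the mean square** -/
theorem gap_V (hq : 2 < q) (G : Gap q c n h) (hH : Hol h 0) {Y : ℂ → ℂ} (S : Sg Y (hat h 0))
    {R : ℝ} (hR : 1 < R) :
    ∑' k, (‖c k‖ * R⁻¹ ^ n k) ^ 2 ≤ B0 q + B1 q / Real.log q * Real.log (R ^ 2 / (R ^ 2 - 1)) := by
  have hq1 : 1 < q := by linarith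
  have hR0 : 0 < R := by linarith
  have hlq : 0 < Real.log q := Real.log_pos hq1
  obtain ⟨h1, h2⟩ := coeff_sq hq G hH S
  obtain ⟨x, hx⟩ : ∃ x, x = R⁻¹ ^ 2 := ⟨_, rfl⟩
  have hr1 : R⁻¹ < 1 := inv_lt_one_of_one_lt₀ hR
  have hr0 : 0 < R⁻¹ := by positivity
  have hx0 : 0 ≤ x := by rw [hx]; positivity
  have hx1 : x < 1 := by rw [hx]; nlinarith
  have hB1 : 0 ≤ B1 q := by unfold B1; positivity
  have hL : Real.log (R ^ 2 / (R ^ 2 - 1)) = -Real.log (1 - x) := by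
    rw [← lam_R hR, lam, hx]
  have e : ∀ k, (‖c k‖ * R⁻¹ ^ n k) ^ 2 = ‖c k‖ ^ 2 * x ^ n k := by
    intro k
    rw [hx, mul_pow, ← pow_mul, ← pow_mul, mul_comm 2]
  rw [(gap_w2 G hR).tsum_eq_zero_add]
  apply add_le_add
  · rw [e]
    have h3 : x ^ n 0 ≤ 1 := pow_le_one₀ hx0 hx1.le
    calc ‖c 0‖ ^ 2 * x ^ n 0 ≤ ‖c 0‖ ^ 2 * 1 := mul_le_mul_of_nonneg_left h3 (sq_nonneg _)
      _ ≤ B0 q := by rw [mul_one]; exact h1
  · apply Real.tsum_le_of_sum_range_le (fun k => sq_nonneg _)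
    intro N
    have h3 : ∑ k ∈ Finset.range N, (‖c (k + 1)‖ * R⁻¹ ^ n (k + 1)) ^ 2 ≤
        ∑ k ∈ Finset.range N, B1 q / Real.log q * (Real.log q * x ^ n (k + 1)) := by
      refine Finset.sum_le_sum fun k _ => ?_
      rw [e]
      have : B1 q / Real.log q * (Real.log q * x ^ n (k + 1)) = B1 q * x ^ n (k + 1) := by field_simp
      rw [this]
      exact mul_le_mul_of_nonneg_right (h2 k) (by positivity)
    refine h3.trans ?_
    rw [← Finset.mul_sum]
    apply mul_le_mul_of_nonneg_left _ (by positivity)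
    rw [hL]
    exact (sum_lac hq1 G.pos G.gap hx0 hx1 N).trans (sum_log hx0 hx1 _)

/-- **the uniform bound** -/
theorem gap_uniform {a : ℝ} (ha : 0 < a) (hq : 2 < q)
    (haq : a * ((1 + 8 / (q - 1)) * B1 q) < Real.log q) :
    ∃ C : ℝ, ∀ (R : ℝ) (Y h : ℂ → ℂ) (c : ℕ → ℂ) (n : ℕ → ℕ), 1 < R → Hol h 0 → Sg Y (hat h 0) →
      Gap q c n h → mar a R h ≤ C := by
  have hq1 : 0 < q - 1 := by linarith
  have hlq : 0 < Real.log q := Real.log_pos (by linarith)
  obtain ⟨C, hC⟩ := uniform_gen (a := a) (B := (1 + 8 / (q - 1)) * (B1 q / Real.log q))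
    (K := (1 + 8 / (q - 1)) * B0 q) ha (by
      rw [← mul_div_assoc, ← mul_div_assoc, div_lt_one hlq]
      exact haq) (by unfold B0; positivity)
  refine ⟨C, fun R Y h c n hR hH S G => ?_⟩
  refine hC R _ Y h hR hH S ?_ (gap_mom (by linarith) G hR)
  have h1 := gap_V hq G hH S hR
  have h2 : 0 ≤ 1 + 8 / (q - 1) := by positivity
  have h3 := mul_le_mul_of_nonneg_left h1 h2
  have e : 4 * ((1 / 4 + 2 / (q - 1)) * ∑' k, (‖c k‖ * R⁻¹ ^ n k) ^ 2) =
      (1 + 8 / (q - 1)) * ∑' k, (‖c k‖ * R⁻¹ ^ n k) ^ 2 := by ring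
  rw [e]
  refine h3.trans (le_of_eq ?_)
  ring

/-- the condition holds for `a ≤ 1` and all `q ≥ 2000` -/
theorem cond {a : ℝ} (ha : 0 < a) (ha1 : a ≤ 1) (hq : 2000 ≤ q) :
    a * ((1 + 8 / (q - 1)) * B1 q) < Real.log q := by
  have hE := Real.exp_one_lt_d9
  have hE0 := Real.exp_pos 1
  have h1 : 8 / (q - 1) ≤ 8 / 1999 := div_le_div_of_nonneg_left (by norm_num) (by norm_num) (by linarith)
  have h2 : 2 / q ≤ 2 / 2000 := div_le_div_of_nonneg_left (by norm_num) (by norm_num) hq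
  have h3 : (q - 1) / (q - 2) ≤ 1999 / 1998 := by
    rw [div_le_div_iff₀ (by linarith) (by norm_num)]
    linarith
  have h4 : 0 ≤ (q - 1) / (q - 2) := div_nonneg (by linarith) (by linarith)
  have h5 : 0 < 2 / q := by positivity
  have hB : B1 q ≤ (2.7182818286 * (1 + 2 / 2000) * (1999 / 1998)) ^ 2 := by
    unfold B1
    apply pow_le_pow_left₀ (by positivity)
    apply mul_le_mul _ h3 h4 (by norm_num)
    apply mul_le_mul (by linarith) (by linarith) (by positivity) (by norm_num)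
  have hB0 : 0 ≤ B1 q := by unfold B1; positivity
  have h6 : (1 + 8 / (q - 1)) * B1 q ≤ (1 + 8 / 1999) * (2.7182818286 * (1 + 2 / 2000) * (1999 / 1998)) ^ 2 :=
    mul_le_mul (by linarith) hB hB0 (by norm_num)
  have h7 : (1 + 8 / 1999) * (2.7182818286 * (1 + 2 / 2000) * (1999 / 1998) : ℝ) ^ 2 < 7.5 := by norm_num
  have h8 : (7.6 : ℝ) ≤ Real.log q := by
    have h9 : Real.log 2000 ≤ Real.log q := Real.log_le_log (by norm_num) hq
    have h10 : Real.log 2000 = 11 * Real.log 2 + Real.log (2000 / 2048) := by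
      have : (2000 : ℝ) = 2 ^ 11 * (2000 / 2048) := by norm_num
      conv_lhs => rw [this]
      rw [Real.log_mul (by norm_num) (by norm_num), Real.log_pow]
      norm_num
    have h11 := Real.log_two_gt_d9
    have h12 := Real.one_sub_inv_le_log_of_pos (show (0 : ℝ) < 2000 / 2048 by norm_num)
    have h13 : 1 - ((2000 : ℝ) / 2048)⁻¹ = -(48 / 2000) := by norm_num
    rw [h13] at h12
    linarith
  have h9 : 0 ≤ (1 + 8 / (q - 1)) * B1 q := mul_nonneg (by
    have : 0 < 8 / (q - 1) := div_pos (by norm_num) (by linarith)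
    linarith) hB0
  nlinarith

end Pool.Agent.U556.GS
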