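import Pool.Agent.U556.GS2

set_option autoImplicit false

/-! # The majorant of the derivative in integral form -/

namespace Pool.Agent.U556.GS

open Complex Metric Set Filter Topology MeasureTheory
open Pool.Agent.W677.Mar
open Pool.Agent.R250.MC

theorem ioi_deriv {f : ℝ → ℝ} (hc : ContinuousOn f (Ioi 0)) (hi : ∀ s, 0 < s → IntegrableOn f (Ioi s))
    {s : ℝ} (hs : 0 < s) : HasDerivAt (fun s => ∫ v in Ioi s, f v) (-f s) s := by
  have hs2 : 0 < s / 2 := by linarith
  have h1 : HasDerivAt (fun u => ∫ v in (s / 2)..u, f v) (f s) s := by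
    apply intervalIntegral.integral_hasDerivAt_right
    · apply ContinuousOn.intervalIntegrable
      apply hc.mono
      intro v hv
      rw [uIcc_of_le (by linarith)] at hv
      exact lt_of_lt_of_le hs2 hv.1
    · exact hc.stronglyMeasurableAtFilter isOpen_Ioi s hs
    · exact hc.continuousAt (isOpen_Ioi.mem_nhds hs)
  have h2 := (h1.const_sub (∫ v in Ioi (s / 2), f v))
  refine h2.congr_of_eventuallyEq ?_
  filter_upwards [lt_mem_nhds (show s / 2 < s by linarith)] with u hu
  have h3 := intervalIntegral.integral_Ioi_sub_Ioi (hi (s / 2) hs2) (le_of_lt hu)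
  rw [← h3]
  ring

/-- the integral of the majorant -/
noncomputable def Psi (m : ℝ → ℝ) (s : ℝ) : ℝ := ∫ v in Ioi s, (v - s) * m v ^ 2

theorem mom_of_integral {h : ℂ → ℂ} (hH : Hol h 0) {m : ℝ → ℝ} (hc : ContinuousOn m (Ioi 0))
    (hi : IntegrableOn (fun v => v * m v ^ 2) (Ioi 1))
    (hD : ∀ z : ℂ, 1 < ‖z‖ → ‖z * deriv h z‖ ≤ m (Real.log ‖z‖)) {R : ℝ} (hR : 1 < R) :
    Mom h R (Psi m (Real.log R)) := by
  have c1 : ContinuousOn (fun v => v * m v ^ 2) (Ioi 0) := continuousOn_id.mul (hc.pow 2)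
  have c2 : ContinuousOn (fun v => m v ^ 2) (Ioi 0) := hc.pow 2
  have i1 : ∀ s, 0 < s → IntegrableOn (fun v => v * m v ^ 2) (Ioi s) := by
    intro s hs
    rcases le_or_gt 1 s with h1 | h1
    · exact hi.mono_set (Ioi_subset_Ioi h1)
    · rw [← Ioc_union_Ioi_eq_Ioi h1.le]
      refine IntegrableOn.union ?_ hi
      refine IntegrableOn.mono_set ?_ Ioc_subset_Icc_self
      apply ContinuousOn.integrableOn_Icc
      apply c1.mono
      intro v hv
      exact lt_of_lt_of_le hs hv.1
  have i2 : ∀ s, 0 < s → IntegrableOn (fun v => m v ^ 2) (Ioi s) := by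
    intro s hs
    have h1 : IntegrableOn (fun v => s⁻¹ * (v * m v ^ 2)) (Ioi s) := (i1 s hs).const_mul _
    refine Integrable.mono h1 ?_ ?_
    · exact (c2.mono (Ioi_subset_Ioi hs.le)).aestronglyMeasurable measurableSet_Ioi
    · refine (ae_restrict_iff' measurableSet_Ioi).2 (Eventually.of_forall fun v hv => ?_)
      have hv' : s < v := hv
      have hv0 : 0 < v := hs.trans hv'
      rw [Real.norm_of_nonneg (sq_nonneg _), Real.norm_of_nonneg (by positivity)]
      have : m v ^ 2 = s⁻¹ * (s * m v ^ 2) := by field_simp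
      calc m v ^ 2 = s⁻¹ * (s * m v ^ 2) := this
        _ ≤ _ := by
            apply mul_le_mul_of_nonneg_left _ (by positivity)
            exact mul_le_mul_of_nonneg_right hv'.le (sq_nonneg _)
  have hg : ∀ s, 0 < s → Psi m s = (∫ v in Ioi s, v * m v ^ 2) - s * ∫ v in Ioi s, m v ^ 2 := by
    intro s hs
    unfold Psi
    rw [← integral_const_mul, ← integral_sub (i1 s hs) ((i2 s hs).const_mul s)]
    refine integral_congr_ae (Eventually.of_forall fun v => ?_)
    simp only
    ring
  have d0 : ∀ s, 0 < s → HasDerivAt (Psi m) (-∫ v in Ioi s, m v ^ 2) s := by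
    intro s hs
    have h1 := (ioi_deriv c1 i1 hs).sub ((hasDerivAt_id s).mul (ioi_deriv c2 i2 hs))
    refine (h1.congr_deriv ?_).congr_of_eventuallyEq ?_
    · simp only [id]
      ring
    · filter_upwards [lt_mem_nhds hs] with u hu
      exact hg u hu
  have d1 : ∀ s, 0 < s → HasDerivAt (fun s => -∫ v in Ioi s, m v ^ 2) (m s ^ 2) s := by
    intro s hs
    exact (ioi_deriv c2 i2 hs).neg.congr_deriv (neg_neg _)
  refine mom_of_majorant hH d0 d1 (fun s hs => ?_) (fun s hs => ?_) (fun z hz => ?_) hR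
  · apply setIntegral_nonneg measurableSet_Ioi
    intro v hv
    have : s < v := hv
    exact mul_nonneg (by linarith) (sq_nonneg _)
  · have : 0 ≤ ∫ v in Ioi s, m v ^ 2 := setIntegral_nonneg measurableSet_Ioi fun v _ => sq_nonneg _
    linarith
  · exact pow_le_pow_left₀ (norm_nonneg _) (hD z hz) 2

end Pool.Agent.U556.GS
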