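import Mathlib

/-!
A maximal inequality for block sums (Christ-Kiselev, by halving the mass).
-/

set_option autoImplicit false
set_option linter.unusedSectionVars false

open MeasureTheory Set Filter Topology
open scoped ENNReal NNReal

namespace Pool.Agent.U556.CK

variable {Y : Type*} [MeasurableSpace Y]

/-- block sums -/
noncomputable def bs (g : ℕ → Y → ℂ) (a b : ℕ) (y : Y) : ℂ := ∑ i ∈ Finset.Ico a b, g i y

/-- the largest partial sum of a block -/
noncomputable def mx (g : ℕ → Y → ℂ) (a b : ℕ) (y : Y) : ℝ≥0∞ :=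
  (Finset.Icc a b).sup fun j => ‖bs g a j y‖ₑ

/-- the `L^q` norm -/
noncomputable def nq (q : ℝ) (ν : Measure Y) (f : Y → ℝ≥0∞) : ℝ≥0∞ :=
  (∫⁻ y, f y ^ q ∂ν) ^ (1 / q)

lemma bs_meas {g : ℕ → Y → ℂ} (hg : ∀ i, Measurable (g i)) (a b : ℕ) : Measurable (bs g a b) := by
  unfold bs
  exact Finset.measurable_sum _ fun i _ => hg i

lemma mx_meas {g : ℕ → Y → ℂ} (hg : ∀ i, Measurable (g i)) (a b : ℕ) : Measurable (mx g a b) := by
  have : mx g a b = fun y => ⨆ j ∈ Finset.Icc a b, ‖bs g a j y‖ₑ := by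
    funext y
    rw [mx, Finset.sup_eq_iSup]
  rw [this]
  exact Measurable.iSup fun j => Measurable.iSup fun _ => (bs_meas hg a j).enorm

lemma nq_mono {q : ℝ} (hq : 0 < q) {ν : Measure Y} {f g : Y → ℝ≥0∞} (h : ∀ y, f y ≤ g y) :
    nq q ν f ≤ nq q ν g := by
  unfold nq
  refine ENNReal.rpow_le_rpow (lintegral_mono fun y => ?_) (by positivity)
  exact ENNReal.rpow_le_rpow (h y) hq.le

/-- the pointwise step -/
lemma mx_le {q : ℝ} (hq : 0 < q) (g : ℕ → Y → ℂ) {a k b : ℕ} (hak : a ≤ k) (y : Y) :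
    mx g a b y ≤ ‖bs g a (k + 1) y‖ₑ + (mx g a k y ^ q + mx g (k + 1) b y ^ q) ^ (1 / q) := by
  unfold mx
  refine Finset.sup_le fun j hj => ?_
  rw [Finset.mem_Icc] at hj
  rcases Nat.lt_or_ge k j with h | h
  · have h1 : bs g a j y = bs g a (k + 1) y + bs g (k + 1) j y := by
      unfold bs
      rw [Finset.sum_Ico_consecutive _ (by omega) h]
    rw [h1]
    refine (enorm_add_le _ _).trans (add_le_add le_rfl ?_)
    have h2 : ‖bs g (k + 1) j y‖ₑ ≤ (Finset.Icc (k + 1) b).sup fun j => ‖bs g (k + 1) j y‖ₑ :=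
      Finset.le_sup (f := fun j => ‖bs g (k + 1) j y‖ₑ) (Finset.mem_Icc.2 ⟨h, hj.2⟩)
    calc ‖bs g (k + 1) j y‖ₑ = (‖bs g (k + 1) j y‖ₑ ^ q) ^ (1 / q) := by
          rw [← ENNReal.rpow_mul, mul_one_div_cancel hq.ne', ENNReal.rpow_one]
      _ ≤ _ := by
          refine ENNReal.rpow_le_rpow ?_ (by positivity)
          exact (ENNReal.rpow_le_rpow h2 hq.le).trans le_add_self
  · refine le_trans ?_ le_add_self
    have h2 : ‖bs g a j y‖ₑ ≤ (Finset.Icc a k).sup fun j => ‖bs g a j y‖ₑ :=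
      Finset.le_sup (f := fun j => ‖bs g a j y‖ₑ) (Finset.mem_Icc.2 ⟨hj.1, h⟩)
    calc ‖bs g a j y‖ₑ = (‖bs g a j y‖ₑ ^ q) ^ (1 / q) := by
          rw [← ENNReal.rpow_mul, mul_one_div_cancel hq.ne', ENNReal.rpow_one]
      _ ≤ _ := by
          refine ENNReal.rpow_le_rpow ?_ (by positivity)
          exact (ENNReal.rpow_le_rpow h2 hq.le).trans le_self_add

lemma nq_pow {q : ℝ} (hq : 0 < q) (ν : Measure Y) (f : Y → ℝ≥0∞) :
    nq q ν f ^ q = ∫⁻ y, f y ^ q ∂ν := by
  unfold nq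
  rw [← ENNReal.rpow_mul, one_div_mul_cancel hq.ne', ENNReal.rpow_one]

/-- **the maximal inequality for block sums** -/
theorem ck {q : ℝ} (hq : 2 < q) (ν : Measure Y) {g : ℕ → Y → ℂ} (hg : ∀ i, Measurable (g i))
    {m : ℕ → ℝ≥0∞} (hm : ∀ i, m i ≠ ∞) {A K : ℝ≥0∞}
    (hA : ∀ a b, nq q ν (fun y => ‖bs g a b y‖ₑ) ≤ A * (∑ i ∈ Finset.Ico a b, m i) ^ (1 / 2 : ℝ))
    (hK : 1 + K * 2 ^ (1 / q - 1 / 2) ≤ K) :
    ∀ d a : ℕ, nq q ν (mx g a (a + d)) ≤
      K * A * (∑ i ∈ Finset.Ico a (a + d), m i) ^ (1 / 2 : ℝ) := by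
  have hq0 : 0 < q := by linarith
  intro d
  induction d using Nat.strong_induction_on with
  | _ d ih =>
    intro a
    rcases Nat.eq_zero_or_pos d with rfl | hd
    · have h0 : ∀ y, mx g a (a + 0) y = 0 := by
        intro y
        simp [mx, bs]
      have : nq q ν (mx g a (a + 0)) = 0 := by
        unfold nq
        simp_rw [h0]
        rw [ENNReal.zero_rpow_of_pos hq0]
        simp [hq0]
      rw [this]
      exact zero_le
    set S : ℝ≥0∞ := ∑ i ∈ Finset.Ico a (a + d), m i with hS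
    have hSt : S ≠ ∞ := ENNReal.sum_ne_top.2 fun i _ => hm i
    have hPmono : ∀ k k', k ≤ k' → ∑ i ∈ Finset.Ico a k, m i ≤ ∑ i ∈ Finset.Ico a k', m i :=
      fun k k' h => Finset.sum_le_sum_of_subset (Finset.Ico_subset_Ico_right h)
    -- the index where half of the mass is reached
    obtain ⟨k, hak, hkb, h1, h2⟩ : ∃ k, a ≤ k ∧ k < a + d ∧
        ∑ i ∈ Finset.Ico a k, m i ≤ S / 2 ∧ S / 2 ≤ ∑ i ∈ Finset.Ico a (k + 1), m i := by
      have hex : ∃ k, S / 2 ≤ ∑ i ∈ Finset.Ico a (a + k + 1), m i := by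
        refine ⟨d - 1, ?_⟩
        have : a + (d - 1) + 1 = a + d := by omega
        rw [this]
        exact ENNReal.half_le_self
      classical
      have hle : Nat.find hex ≤ d - 1 := by
        refine Nat.find_min' hex ?_
        have : a + (d - 1) + 1 = a + d := by omega
        rw [this]
        exact ENNReal.half_le_self
      refine ⟨a + Nat.find hex, by omega, by omega, ?_, Nat.find_spec hex⟩
      rcases Nat.eq_zero_or_pos (Nat.find hex) with h | h
      · rw [h]; simp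
      · have h3 := Nat.find_min hex (m := Nat.find hex - 1) (by omega)
        have h4 : a + (Nat.find hex - 1) + 1 = a + Nat.find hex := by omega
        rw [h4] at h3
        exact (not_le.1 h3).le
    -- the remaining mass
    have h3 : ∑ i ∈ Finset.Ico (k + 1) (a + d), m i ≤ S / 2 := by
      have e : S = ∑ i ∈ Finset.Ico a (k + 1), m i + ∑ i ∈ Finset.Ico (k + 1) (a + d), m i := by
        rw [hS, Finset.sum_Ico_consecutive _ (by omega) (by omega)]
      have h4 : S / 2 + ∑ i ∈ Finset.Ico (k + 1) (a + d), m i ≤ S / 2 + S / 2 := by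
        rw [ENNReal.add_halves]
        conv_rhs => rw [e]
        exact add_le_add h2 le_rfl
      exact (ENNReal.add_le_add_iff_left (ENNReal.div_ne_top hSt (by norm_num))).1 h4
    have e1 : a + (k - a) = k := by omega
    have e2 : (k + 1) + (a + d - (k + 1)) = a + d := by omega
    have i1 := ih (k - a) (by omega) a
    rw [e1] at i1
    have i2 := ih (a + d - (k + 1)) (by omega) (k + 1)
    rw [e2] at i2
    set W : ℝ≥0∞ := K * A * (S / 2) ^ (1 / 2 : ℝ) with hW
    have j1 : nq q ν (mx g a k) ≤ W := i1.trans (by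
      rw [hW]; gcongr)
    have j2 : nq q ν (mx g (k + 1) (a + d)) ≤ W := i2.trans (by
      rw [hW]; gcongr)
    have hmeas1 : AEMeasurable (fun y => ‖bs g a (k + 1) y‖ₑ) ν := (bs_meas hg _ _).enorm.aemeasurable
    have hmeas2 : AEMeasurable
        (fun y => (mx g a k y ^ q + mx g (k + 1) (a + d) y ^ q) ^ (1 / q)) ν :=
      ((((mx_meas hg _ _).pow_const q).add ((mx_meas hg _ _).pow_const q)).pow_const _).aemeasurable
    have step1 : nq q ν (mx g a (a + d)) ≤ nq q ν (fun y => ‖bs g a (k + 1) y‖ₑ) +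
        nq q ν (fun y => (mx g a k y ^ q + mx g (k + 1) (a + d) y ^ q) ^ (1 / q)) := by
      refine (nq_mono hq0 fun y => mx_le hq0 g hak y).trans ?_
      exact ENNReal.lintegral_Lp_add_le hmeas1 hmeas2 (by linarith)
    have step2 : nq q ν (fun y => (mx g a k y ^ q + mx g (k + 1) (a + d) y ^ q) ^ (1 / q)) ≤
        W * 2 ^ (1 / q) := by
      have e3 : ∀ y, ((mx g a k y ^ q + mx g (k + 1) (a + d) y ^ q) ^ (1 / q)) ^ q =
          mx g a k y ^ q + mx g (k + 1) (a + d) y ^ q := by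
        intro y
        rw [← ENNReal.rpow_mul, one_div_mul_cancel hq0.ne', ENNReal.rpow_one]
      unfold nq
      simp_rw [e3]
      rw [lintegral_add_left ((mx_meas hg _ _).pow_const q), ← nq_pow hq0, ← nq_pow hq0]
      calc (nq q ν (mx g a k) ^ q + nq q ν (mx g (k + 1) (a + d)) ^ q) ^ (1 / q)
          ≤ (W ^ q + W ^ q) ^ (1 / q) := by
            refine ENNReal.rpow_le_rpow ?_ (by positivity)
            exact add_le_add (ENNReal.rpow_le_rpow j1 hq0.le) (ENNReal.rpow_le_rpow j2 hq0.le)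
        _ = (W ^ q * 2) ^ (1 / q) := by rw [mul_two]
        _ = W * 2 ^ (1 / q) := by
            rw [ENNReal.mul_rpow_of_nonneg _ _ (by positivity), ← ENNReal.rpow_mul,
              mul_one_div_cancel hq0.ne', ENNReal.rpow_one]
    have step3 : nq q ν (fun y => ‖bs g a (k + 1) y‖ₑ) ≤ A * S ^ (1 / 2 : ℝ) := by
      refine (hA a (k + 1)).trans ?_
      gcongr
      exact hPmono _ _ (by omega)
    refine step1.trans ((add_le_add step3 step2).trans ?_)
    have e4 : W * 2 ^ (1 / q) = (K * 2 ^ (1 / q - 1 / 2)) * (A * S ^ (1 / 2 : ℝ)) := by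
      rw [hW, ENNReal.div_rpow_of_nonneg _ _ (by norm_num), ENNReal.rpow_sub _ _ (by norm_num)
        (by norm_num)]
      simp only [div_eq_mul_inv]
      ring
    rw [e4]
    calc A * S ^ (1 / 2 : ℝ) + K * 2 ^ (1 / q - 1 / 2) * (A * S ^ (1 / 2 : ℝ))
        = (1 + K * 2 ^ (1 / q - 1 / 2)) * (A * S ^ (1 / 2 : ℝ)) := by ring
      _ ≤ K * (A * S ^ (1 / 2 : ℝ)) := by gcongr
      _ = _ := by ring

end Pool.Agent.U556.CK
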