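import Mathlib
import Pool.Agent.U37.Sch.F
import Pool.Agent.U556.CK1

/-!
The `L⁴` estimate for functions whose Fourier transform lives on a set with small sum multiplicity.
-/

set_option autoImplicit false
set_option linter.unusedSectionVars false

open MeasureTheory Real Set Filter Topology FourierTransform
open scoped ENNReal RealInnerProductSpace

namespace Pool.Agent.U556.CK

open Pool.Agent.Helper93.Sph Pool.Agent.U37.Sch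

lemma eLp2 {n : ℕ} (g : En n → ℂ) : eLpNorm g 2 ^ 2 = ∫⁻ ξ, ‖g ξ‖ₑ ^ 2 := by
  rw [eLpNorm_eq_lintegral_rpow_enorm_toReal (by norm_num) (by norm_num), ← ENNReal.rpow_natCast,
    ← ENNReal.rpow_mul]
  norm_num

/-- Plancherel for `L¹ ∩ L²` -/
lemma planch {n : ℕ} {H : En n → ℂ} (h1 : Integrable H) (h2 : MemLp H 2) :
    ∫⁻ x, ‖Fi H x‖ₑ ^ 2 = ∫⁻ ξ, ‖H ξ‖ₑ ^ 2 := by
  set U : Lp ℂ 2 (volume : Measure (En n)) := 𝓕⁻ (h2.toLp H) with hU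
  have h3 : (U : En n → ℂ) =ᵐ[volume] fun x => Fi H x := by
    filter_upwards [finv_ae_eq _ h1 h2] with x hx
    rw [hx, Fi_eq]
  have h4 : ‖U‖ₑ = eLpNorm H 2 := by
    have e2 : ‖U‖ₑ = ‖h2.toLp H‖ₑ := by
      have := (Lp.fourierTransformₗᵢ (En n) ℂ).symm.norm_map (h2.toLp H)
      rw [← ofReal_norm, ← ofReal_norm]
      exact congrArg ENNReal.ofReal this
    rw [e2, Lp.enorm_toLp]
  rw [← eLp2 H, ← h4, Lp.enorm_def, eLp2]
  refine lintegral_congr_ae ?_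
  filter_upwards [h3] with x hx
  rw [hx]

/-- the convolution square -/
noncomputable def cv {n : ℕ} (G : En n → ℂ) : En n → ℂ :=
  convolution G G (ContinuousLinearMap.mul ℂ ℂ) volume

lemma cv_int {n : ℕ} {G : En n → ℂ} (hG : Integrable G) : Integrable (cv G) :=
  hG.integrable_convolution _ hG

lemma cv_Fi {n : ℕ} {G : En n → ℂ} (hG : Integrable G) (x : En n) :
    Fi (cv G) x = Fi G x ^ 2 := by
  rw [Fi_eq, Fi_eq, Real.fourierInv_eq_fourier_neg, Real.fourierInv_eq_fourier_neg, cv,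
    Real.fourier_mul_convolution_eq hG hG, sq]

lemma cv_le {n : ℕ} (G : En n → ℂ) (z : En n) :
    ‖cv G z‖ₑ ≤ ∫⁻ ξ, ‖G ξ‖ₑ * ‖G (z - ξ)‖ₑ := by
  unfold cv convolution
  refine (enorm_integral_le_lintegral_enorm _).trans (le_of_eq ?_)
  refine lintegral_congr fun ξ => ?_
  simp

/-- Cauchy-Schwarz -/
lemma cs_set {n : ℕ} {f : En n → ℝ≥0∞} (hf : Measurable f) {T : Set (En n)} (hT : MeasurableSet T)
    (h0 : ∀ ξ ∉ T, f ξ = 0) : (∫⁻ ξ, f ξ) ^ 2 ≤ volume T * ∫⁻ ξ, f ξ ^ 2 := by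
  have h1 : ∫⁻ ξ, f ξ = ∫⁻ ξ, (f * T.indicator (1 : En n → ℝ≥0∞)) ξ := by
    refine lintegral_congr fun ξ => ?_
    by_cases h : ξ ∈ T
    · simp [h]
    · simp [h, h0 ξ h]
  have h2 := ENNReal.lintegral_mul_le_Lp_mul_Lq (μ := (volume : Measure (En n)))
    Real.HolderConjugate.two_two hf.aemeasurable
    (g := T.indicator (1 : En n → ℝ≥0∞)) ((measurable_one.indicator hT).aemeasurable)
  have h3 : ∫⁻ ξ, (T.indicator (1 : En n → ℝ≥0∞) ξ) ^ (2 : ℝ) = volume T := by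
    rw [← lintegral_indicator_one hT]
    refine lintegral_congr fun ξ => ?_
    by_cases h : ξ ∈ T
    · simp [h]
    · simp [h]
  rw [h3] at h2
  rw [h1]
  calc (∫⁻ ξ, (f * T.indicator (1 : En n → ℝ≥0∞)) ξ) ^ 2
      ≤ ((∫⁻ ξ, f ξ ^ (2 : ℝ)) ^ (1 / (2 : ℝ)) * volume T ^ (1 / (2 : ℝ))) ^ 2 :=
        pow_le_pow_left' h2 2
    _ = volume T * ∫⁻ ξ, f ξ ^ 2 := by
        rw [mul_pow, ← ENNReal.rpow_natCast, ← ENNReal.rpow_natCast, ← ENNReal.rpow_mul,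
          ← ENNReal.rpow_mul]
        norm_num
        rw [mul_comm]

/-- the sums `ξ + η = z` with `ξ, η ∈ Λ` form a set of measure at most `K` -/
def SumB {n : ℕ} (Λ : Set (En n)) (K : ℝ≥0∞) : Prop :=
  ∀ z : En n, volume {ξ | ξ ∈ Λ ∧ z - ξ ∈ Λ} ≤ K

lemma cv_sq {n : ℕ} {G : En n → ℂ} (hGm : Measurable G) {Λ : Set (En n)} (hΛ : MeasurableSet Λ)
    {K : ℝ≥0∞} (hK : SumB Λ K) (h0 : ∀ ξ ∉ Λ, G ξ = 0) (z : En n) :
    ‖cv G z‖ₑ ^ 2 ≤ K * ∫⁻ ξ, ‖G ξ‖ₑ ^ 2 * ‖G (z - ξ)‖ₑ ^ 2 := by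
  have hsub : Measurable fun ξ : En n => z - ξ := measurable_const.sub measurable_id
  have h1 : Measurable fun ξ : En n => ‖G ξ‖ₑ * ‖G (z - ξ)‖ₑ :=
    hGm.enorm.mul (hGm.comp hsub).enorm
  have h2 : MeasurableSet {ξ : En n | ξ ∈ Λ ∧ z - ξ ∈ Λ} := hΛ.inter (hsub hΛ)
  have h3 := cs_set h1 h2 (fun ξ hξ => by
    have : ¬ (ξ ∈ Λ ∧ z - ξ ∈ Λ) := hξ
    rw [not_and_or] at this
    rcases this with h | h
    · simp [h0 ξ h]
    · simp [h0 _ h])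
  refine (pow_le_pow_left' (cv_le G z) 2).trans (h3.trans ?_)
  simp_rw [mul_pow]
  exact mul_le_mul' (hK z) le_rfl

lemma double {n : ℕ} {f : En n → ℝ≥0∞} (hf : Measurable f) :
    ∫⁻ z, ∫⁻ ξ, f ξ * f (z - ξ) = (∫⁻ ξ, f ξ) ^ 2 := by
  rw [lintegral_lintegral_swap]
  · have : ∀ ξ : En n, ∫⁻ z, f ξ * f (z - ξ) = f ξ * ∫⁻ z, f z := by
      intro ξ
      rw [lintegral_const_mul (f ξ) (show Measurable fun z : En n => f (z - ξ) from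
        hf.comp (measurable_id.sub_const ξ)), lintegral_sub_right_eq_self f ξ]
    simp_rw [this]
    rw [lintegral_mul_const _ hf, sq]
  · exact ((hf.comp measurable_snd).mul (hf.comp (measurable_fst.sub measurable_snd))).aemeasurable

lemma cv_L2 {n : ℕ} {G : En n → ℂ} (hGm : Measurable G) {Λ : Set (En n)} (hΛ : MeasurableSet Λ)
    {K : ℝ≥0∞} (hK : SumB Λ K) (h0 : ∀ ξ ∉ Λ, G ξ = 0) :
    ∫⁻ z, ‖cv G z‖ₑ ^ 2 ≤ K * (∫⁻ ξ, ‖G ξ‖ₑ ^ 2) ^ 2 := by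
  have hf : Measurable fun ξ : En n => ‖G ξ‖ₑ ^ 2 := hGm.enorm.pow_const 2
  rw [← double hf, ← lintegral_const_mul]
  · exact lintegral_mono fun z => cv_sq hGm hΛ hK h0 z
  · exact Measurable.lintegral_prod_right'
      (f := fun p : En n × En n => ‖G p.2‖ₑ ^ 2 * ‖G (p.1 - p.2)‖ₑ ^ 2)
      ((hf.comp measurable_snd).mul (hf.comp (measurable_fst.sub measurable_snd)))

/-- **the `L⁴` estimate** -/
theorem l4 {n : ℕ} {G : En n → ℂ} (hGm : Measurable G) (hGi : Integrable G) (hG : MemLp G 2)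
    {Λ : Set (En n)} (hΛ : MeasurableSet Λ) {K : ℝ≥0∞} (hKt : K ≠ ∞) (hK : SumB Λ K)
    (h0 : ∀ ξ ∉ Λ, G ξ = 0) : ∫⁻ x, ‖Fi G x‖ₑ ^ 4 ≤ K * (∫⁻ ξ, ‖G ξ‖ₑ ^ 2) ^ 2 := by
  have h1 := cv_L2 hGm hΛ hK h0
  have h2 : ∫⁻ ξ, ‖G ξ‖ₑ ^ 2 ≠ ∞ := by
    rw [← eLp2]
    exact ENNReal.pow_ne_top hG.2.ne
  have h3 : MemLp (cv G) 2 := by
    refine ⟨(cv_int hGi).aestronglyMeasurable, ?_⟩
    have h4 : eLpNorm (cv G) 2 ^ 2 ≠ ∞ := by
      rw [eLp2]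
      exact ne_top_of_le_ne_top (ENNReal.mul_ne_top hKt (ENNReal.pow_ne_top h2)) h1
    rw [lt_top_iff_ne_top]
    intro h
    rw [h] at h4
    exact h4 (by simp)
  have h5 := planch (cv_int hGi) h3
  simp_rw [cv_Fi hGi] at h5
  calc ∫⁻ x, ‖Fi G x‖ₑ ^ 4 = ∫⁻ x, ‖Fi G x ^ 2‖ₑ ^ 2 := by
        refine lintegral_congr fun x => ?_
        rw [enorm_pow, ← pow_mul]
    _ = ∫⁻ ξ, ‖cv G ξ‖ₑ ^ 2 := h5
    _ ≤ _ := h1

end Pool.Agent.U556.CK
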