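import Mathlib
import Pool.Agent.U588.SphC
import Pool.Agent.U556.CK2

/-!
Maximal ball partial sums from the extension inequality with an exponent larger than two.
-/

set_option autoImplicit false
set_option linter.unusedSectionVars false

open MeasureTheory Real Set Filter Topology
open scoped ENNReal NNReal RealInnerProductSpace

namespace Pool.Agent.U556.CK

open Pool.Agent.Helper93.Sph Pool.Agent.U588.Sph

/-- the extension inequality: `‖S_R f‖_{L^q(ν)} ≤ A ‖f‖₂` for all `f` with spectrum in `Λ` -/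
def Ext {n : ℕ} (q : ℝ) (ν : Measure (En n)) (Λ : Set (En n)) (A : ℝ≥0∞) : Prop :=
  ∀ G : En n → ℂ, MemLp G 2 → (∀ ξ ∉ Λ, G ξ = 0) → ∀ R : ℝ,
    nq q ν (fun x => ‖ps G R x‖ₑ) ≤ A * (∫⁻ ξ, ‖G ξ‖ₑ ^ 2) ^ (1 / 2 : ℝ)

/-- the mass in a shell -/
noncomputable def ms {n : ℕ} (G : En n → ℂ) (a b : ℝ) : ℝ≥0∞ := ∫⁻ ξ in shell n a b, ‖G ξ‖ₑ ^ 2

lemma ms_add {n : ℕ} (G : En n → ℂ) {a b c : ℝ} (hab : a ≤ b) (hbc : b ≤ c) :
    ms G a c = ms G a b + ms G b c := by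
  have h1 : shell n a c = shell n a b ∪ shell n b c := by
    ext ξ
    simp only [shell, mem_ofPred_eq, mem_union]
    constructor
    · rintro ⟨h, h'⟩
      rcases lt_or_ge ‖ξ‖ b with h3 | h3
      · exact Or.inl ⟨h, h3⟩
      · exact Or.inr ⟨h3, h'⟩
    · rintro (⟨h, h'⟩ | ⟨h, h'⟩)
      · exact ⟨h, h'.trans_le hbc⟩
      · exact ⟨hab.trans h, h'⟩
  have h2 : Disjoint (shell n a b) (shell n b c) := by
    rw [Set.disjoint_left]
    rintro ξ ⟨_, h⟩ ⟨h', _⟩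
    exact absurd h (not_lt.2 h')
  rw [ms, h1, lintegral_union (shell_meas _ _ _) h2]
  rfl

lemma ms_sum {n : ℕ} (G : En n → ℂ) {R : ℕ → ℝ} (hR : Monotone R) (a : ℕ) :
    ∀ b, a ≤ b → ∑ i ∈ Finset.Ico a b, ms G (R i) (R (i + 1)) = ms G (R a) (R b) := by
  intro b hab
  induction b, hab using Nat.le_induction with
  | base =>
    have : shell n (R a) (R a) = ∅ := by
      ext ξ
      simp only [shell, mem_ofPred_eq, mem_empty_iff_false, iff_false, not_and, not_lt]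
      exact fun h => h
    simp [ms, this]
  | succ b hab ih =>
    rw [Finset.sum_Ico_succ_top hab, ih, ← ms_add G (hR hab) (hR (Nat.le_succ b))]

lemma ms_le {n : ℕ} (G : En n → ℂ) (a b : ℝ) : ms G a b ≤ ∫⁻ ξ, ‖G ξ‖ₑ ^ 2 :=
  setLIntegral_le_lintegral _ _

lemma ms_ind {n : ℕ} (G : En n → ℂ) (a b : ℝ) :
    ∫⁻ ξ, ‖(shell n a b).indicator G ξ‖ₑ ^ 2 = ms G a b := by
  rw [ms, ← lintegral_indicator (shell_meas _ _ _)]
  refine lintegral_congr fun ξ => ?_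
  by_cases h : ξ ∈ shell n a b
  · rw [indicator_of_mem h, indicator_of_mem h]
  · rw [indicator_of_notMem h, indicator_of_notMem h]; simp

lemma en2_ne_top {n : ℕ} {G : En n → ℂ} (hG : MemLp G 2) : ∫⁻ ξ, ‖G ξ‖ₑ ^ 2 ≠ ∞ := by
  rw [← eLp2]
  exact ENNReal.pow_ne_top hG.2.ne

/-- differences of ball partial sums are ball partial sums of the part in the shell -/
lemma ps_shell {m : ℕ} {G : En (m + 1) → ℂ} (hG : MemLp G 2) {a b : ℝ} (h0 : 0 ≤ a) (hab : a ≤ b)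
    (x : En (m + 1)) : ps G b x - ps G a x = ps ((shell (m + 1) a b).indicator G) b x := by
  rw [ps_sub hG h0 hab, ps_eq]
  congr 1
  funext ξ
  by_cases h : ξ ∈ shell (m + 1) a b
  · rw [indicator_of_mem (show ξ ∈ shell (m + 1) 0 b from ⟨norm_nonneg _, h.2⟩)]
  · rw [indicator_of_notMem h]
    by_cases h' : ξ ∈ shell (m + 1) 0 b
    · rw [indicator_of_mem h', indicator_of_notMem h]
    · rw [indicator_of_notMem h']

/-- the maximal inequality for finitely many radii -/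
lemma fin_max' {m : ℕ} {q : ℝ} (hq : 2 < q) {ν : Measure (En (m + 1))} {Λ : Set (En (m + 1))}
    {A K : ℝ≥0∞} (hE : Ext q ν Λ A) (hK : 1 + K * 2 ^ (1 / q - 1 / 2) ≤ K)
    {G : En (m + 1) → ℂ} (hG : MemLp G 2) (h0 : ∀ ξ ∉ Λ, G ξ = 0) {R : ℕ → ℝ} (hR : Monotone R)
    (hR0 : R 0 = 0) (N : ℕ) :
    nq q ν (fun x => (Finset.Icc 0 N).sup fun j => ‖ps G (R j) x‖ₑ) ≤
      K * A * (∫⁻ ξ, ‖G ξ‖ₑ ^ 2) ^ (1 / 2 : ℝ) := by
  have hRn : ∀ i, 0 ≤ R i := fun i => hR0 ▸ hR (Nat.zero_le i)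
  set g : ℕ → En (m + 1) → ℂ := fun i x => ps G (R (i + 1)) x - ps G (R i) x with hg
  have hgm : ∀ i, Measurable (g i) := fun i =>
    (ps_cont_x hG _).measurable.sub (ps_cont_x hG _).measurable
  have hbs : ∀ a b, a ≤ b → ∀ x, bs g a b x = ps G (R b) x - ps G (R a) x := by
    intro a b hab x
    unfold bs
    rw [hg]
    exact Finset.sum_Ico_sub (fun i => ps G (R i) x) hab
  have hne : ∀ i, ms G (R i) (R (i + 1)) ≠ ∞ := fun i =>
    ne_top_of_le_ne_top (en2_ne_top hG) (ms_le G _ _)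
  have hA : ∀ a b, nq q ν (fun x => ‖bs g a b x‖ₑ) ≤
      A * (∑ i ∈ Finset.Ico a b, ms G (R i) (R (i + 1))) ^ (1 / 2 : ℝ) := by
    intro a b
    rcases le_total a b with hab | hab
    · rw [ms_sum G hR a b hab, ← ms_ind]
      have h1 := hE ((shell (m + 1) (R a) (R b)).indicator G) (hG.indicator (shell_meas _ _ _))
        (fun ξ hξ => by
          by_cases h : ξ ∈ shell (m + 1) (R a) (R b)
          · rw [indicator_of_mem h, h0 ξ hξ]
          · rw [indicator_of_notMem h]) (R b)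
      refine le_trans (le_of_eq ?_) h1
      congr 1
      funext x
      rw [hbs a b hab, ps_shell hG (hRn a) (hR hab)]
    · have h1 : ∀ x, bs g a b x = 0 := fun x => by
        unfold bs
        rw [Finset.Ico_eq_empty (by omega), Finset.sum_empty]
      have h2 : nq q ν (fun x => ‖bs g a b x‖ₑ) = 0 := by
        unfold nq
        simp_rw [h1]
        have hq0 : 0 < q := by linarith
        rw [enorm_zero, ENNReal.zero_rpow_of_pos hq0]
        simp [hq0]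
      rw [h2]
      exact zero_le
  have h := ck hq ν hgm hne hA hK N 0
  rw [zero_add, ms_sum G hR 0 N (Nat.zero_le N)] at h
  refine le_trans (nq_mono (by linarith) fun x => ?_) (h.trans ?_)
  · unfold mx
    refine Finset.sup_mono_fun fun j _ => ?_
    rw [hbs 0 j (Nat.zero_le j), hR0, Pool.Agent.U588.Sph.ps_zero, sub_zero]
  · gcongr
    exact ms_le G _ _

/-- **the maximal inequality** -/
theorem max_all {m : ℕ} {q : ℝ} (hq : 2 < q) {ν : Measure (En (m + 1))} {Λ : Set (En (m + 1))}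
    {A K : ℝ≥0∞} (hE : Ext q ν Λ A) (hK : 1 + K * 2 ^ (1 / q - 1 / 2) ≤ K)
    {G : En (m + 1) → ℂ} (hG : MemLp G 2) (h0 : ∀ ξ ∉ Λ, G ξ = 0) :
    nq q ν (fun x => ⨆ R : ℝ, ‖ps G R x‖ₑ) ≤ K * A * (∫⁻ ξ, ‖G ξ‖ₑ ^ 2) ^ (1 / 2 : ℝ) := by
  have hq0 : 0 < q := by linarith
  have hq2 : 0 < q / 2 := by linarith
  have e1 : ∀ x, (⨆ R : ℝ, ‖ps G R x‖ₑ) ^ q = ⨆ j, (gmax G j x) ^ (q / 2) := by
    intro x
    have h1 : (⨆ R : ℝ, ‖ps G R x‖ₑ) ^ q = ((⨆ R : ℝ, ‖ps G R x‖ₑ) ^ 2) ^ (q / 2) := by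
      rw [← ENNReal.rpow_natCast, ← ENNReal.rpow_mul]
      congr 1
      push_cast
      ring
    rw [h1, sup_eq hG]
    exact (ENNReal.orderIsoRpow (q / 2) hq2).map_iSup _
  unfold nq
  simp_rw [e1]
  rw [lintegral_iSup (fun j => (gmax_meas hG j).pow_const _)
    (fun i j hij x => ENNReal.rpow_le_rpow (gmax_mono G hij x) hq2.le)]
  have e2 : (⨆ j, ∫⁻ x, gmax G j x ^ (q / 2) ∂ν) ≤
      (K * A * (∫⁻ ξ, ‖G ξ‖ₑ ^ 2) ^ (1 / 2 : ℝ)) ^ q := by
    refine iSup_le fun j => ?_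
    have h1 := fin_max' hq hE hK hG h0 (R := fun i : ℕ => (i : ℝ) / 2 ^ j) (by
      intro a b hab
      have : (0 : ℝ) < 2 ^ j := by positivity
      exact div_le_div_of_nonneg_right (by exact_mod_cast hab) this.le) (by simp) (4 ^ j)
    have h2 := ENNReal.rpow_le_rpow h1 hq0.le
    rw [nq_pow hq0] at h2
    refine le_trans (lintegral_mono fun x => ?_) h2
    have h3 : gmax G j x ≤
        ((Finset.Icc 0 (4 ^ j)).sup fun i : ℕ => ‖ps G ((i : ℝ) / 2 ^ j) x‖ₑ) ^ 2 := by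
      unfold gmax
      refine iSup_le fun i => pow_le_pow_left' ?_ 2
      exact Finset.le_sup (f := fun i : ℕ => ‖ps G ((i : ℝ) / 2 ^ j) x‖ₑ)
        (Finset.mem_Icc.2 ⟨Nat.zero_le _, Nat.lt_succ_iff.1 i.2⟩)
    refine (ENNReal.rpow_le_rpow h3 hq2.le).trans (le_of_eq ?_)
    rw [← ENNReal.rpow_natCast, ← ENNReal.rpow_mul]
    congr 1
    push_cast
    ring
  refine (ENNReal.rpow_le_rpow e2 (by positivity)).trans (le_of_eq ?_)
  rw [← ENNReal.rpow_mul, mul_one_div_cancel hq0.ne', ENNReal.rpow_one]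

end Pool.Agent.U556.CK
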