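import Mathlib
import Pool.Agent.U556.CL1

/-!
The Sobolev inequality for functions with Fourier transform in a weighted space (Chemin and Xu).
-/

set_option autoImplicit false
set_option linter.unusedSectionVars false

open MeasureTheory Real Set Filter Topology
open scoped ENNReal NNReal RealInnerProductSpace

namespace Pool.Agent.U556.CL

open Pool.Agent.Helper93.Sph Pool.Agent.U588.Sph Pool.Agent.U556.CK

/-- the volume of the unit ball -/
noncomputable def vb (n : ℕ) : ℝ := (volume : Measure (En n)).real (Metric.ball 0 1)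

lemma vb_pos (n : ℕ) : 0 < vb n := by
  unfold vb
  exact ENNReal.toReal_pos (Metric.measure_ball_pos _ _ one_pos).ne' measure_ball_lt_top.ne

lemma rad {m : ℕ} {s : ℝ} (hs : 2 * s < (m : ℝ) + 1) {A : ℝ} (hA : 0 ≤ A) :
    ∫⁻ ξ in Metric.closedBall (0 : En (m + 1)) A, ENNReal.ofReal (‖ξ‖ ^ (-(2 * s))) =
      ENNReal.ofReal (((m : ℝ) + 1) * vb (m + 1) / ((m : ℝ) + 1 - 2 * s) *
        A ^ ((m : ℝ) + 1 - 2 * s)) := by
  set f : ℝ → ℝ := (Iic A).indicator fun r => r ^ (-(2 * s)) with hf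
  have h1 : ∫⁻ ξ in Metric.closedBall (0 : En (m + 1)) A, ENNReal.ofReal (‖ξ‖ ^ (-(2 * s))) =
      ∫⁻ ξ : En (m + 1), ENNReal.ofReal (f ‖ξ‖) := by
    rw [← lintegral_indicator measurableSet_closedBall]
    refine lintegral_congr fun ξ => ?_
    by_cases h : ξ ∈ Metric.closedBall (0 : En (m + 1)) A
    · rw [indicator_of_mem h, hf, indicator_of_mem (by simpa using h)]
    · rw [indicator_of_notMem h, hf, indicator_of_notMem (by simpa using h)]; simp
  have hnn : ∀ r, 0 ≤ r → 0 ≤ f r := fun r hr => by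
    rw [hf]
    by_cases h : r ∈ Iic A
    · rw [indicator_of_mem h]; exact Real.rpow_nonneg hr _
    · rw [indicator_of_notMem h]
  have hfin : Module.finrank ℝ (En (m + 1)) = m + 1 := finrank_euclideanSpace_fin
  have hcong : ∀ y ∈ Ioi (0 : ℝ), y ^ m • f y =
      (Ioc 0 A).indicator (fun y => y ^ ((m : ℝ) - 2 * s)) y := by
    intro y hy
    have hy0 : (0 : ℝ) < y := hy
    rw [hf]
    by_cases h : y ≤ A
    · rw [indicator_of_mem (show y ∈ Iic A from h), indicator_of_mem (show y ∈ Ioc 0 A from ⟨hy, h⟩),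
        smul_eq_mul, ← Real.rpow_natCast, ← Real.rpow_add hy0]
      congr 1
    · rw [indicator_of_notMem (show y ∉ Iic A from h),
        indicator_of_notMem (show y ∉ Ioc 0 A from fun h' => h h'.2), smul_zero]
  have hioc : IntegrableOn (fun y : ℝ => y ^ ((m : ℝ) - 2 * s)) (Ioc 0 A) := by
    have := (intervalIntegral.intervalIntegrable_rpow' (a := 0) (b := A)
      (r := (m : ℝ) - 2 * s) (by linarith))
    exact (intervalIntegrable_iff_integrableOn_Ioc_of_le hA).1 this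
  have hint : Integrable (fun ξ : En (m + 1) => f ‖ξ‖) := by
    rw [integrable_fun_norm_addHaar volume, hfin, show m + 1 - 1 = m by omega]
    rw [integrableOn_congr_fun (g := (Ioc 0 A).indicator (fun y => y ^ ((m : ℝ) - 2 * s))) 
      (fun y hy => hcong y hy) measurableSet_Ioi]
    exact (hioc.integrable_indicator measurableSet_Ioc).integrableOn
  rw [h1, ← ofReal_integral_eq_lintegral_ofReal hint (Eventually.of_forall fun ξ => hnn _ (norm_nonneg _)),
    integral_fun_norm_addHaar volume f, hfin]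
  congr 1
  rw [show m + 1 - 1 = m by omega, setIntegral_congr_fun measurableSet_Ioi hcong,
    setIntegral_indicator measurableSet_Ioc,
    show Ioi (0 : ℝ) ∩ Ioc 0 A = Ioc 0 A from inter_eq_right.2 fun y hy => hy.1,
    ← intervalIntegral.integral_of_le hA, integral_rpow (Or.inl (by linarith))]
  rw [Real.zero_rpow (by linarith), sub_zero, nsmul_eq_mul, smul_eq_mul]
  unfold vb
  rw [show (m : ℝ) - 2 * s + 1 = m + 1 - 2 * s by ring]
  push_cast
  ring

/-- the weight `|ξ|^(2s)` -/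
noncomputable def wt {n : ℕ} (s : ℝ) (ξ : En n) : ℝ≥0∞ := ENNReal.ofReal (‖ξ‖ ^ (2 * s))

lemma wt_meas {n : ℕ} (s : ℝ) : Measurable (wt s : En n → ℝ≥0∞) :=
  (measurable_norm.pow_const (2 * s)).ennreal_ofReal

/-- the low frequencies -/
lemma low {m : ℕ} {s : ℝ} (hs : 2 * s < (m : ℝ) + 1) {A : ℝ} (hA : 0 ≤ A) {H : En (m + 1) → ℂ}
    (hH : Measurable H) :
    (∫⁻ ξ in Metric.closedBall (0 : En (m + 1)) A, ‖H ξ‖ₑ) ^ 2 ≤
      ENNReal.ofReal (((m : ℝ) + 1) * vb (m + 1) / ((m : ℝ) + 1 - 2 * s) *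
        A ^ ((m : ℝ) + 1 - 2 * s)) * ∫⁻ ξ, wt s ξ * ‖H ξ‖ₑ ^ 2 := by
  set B := Metric.closedBall (0 : En (m + 1)) A with hB
  have h1 : ∫⁻ ξ in B, ‖H ξ‖ₑ = ∫⁻ ξ in B, ((fun ξ : En (m + 1) => ENNReal.ofReal (‖ξ‖ ^ (-s))) *
      (fun ξ => ENNReal.ofReal (‖ξ‖ ^ s) * ‖H ξ‖ₑ)) ξ := by
    refine lintegral_congr_ae ?_
    have h0 : ∀ᵐ ξ ∂(volume.restrict B), ξ ≠ (0 : En (m + 1)) := by
      refine ae_restrict_of_ae ?_
      have : ∀ᵐ ξ : En (m + 1), ξ ∉ ({0} : Set (En (m + 1))) :=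
        measure_eq_zero_iff_ae_notMem.1 (measure_singleton _)
      simpa using this
    filter_upwards [h0] with ξ hξ
    have hp : 0 < ‖ξ‖ := norm_pos_iff.2 hξ
    simp only [Pi.mul_apply]
    rw [← mul_assoc, ← ENNReal.ofReal_mul (by positivity), ← Real.rpow_add hp]
    simp
  have h2 := ENNReal.lintegral_mul_le_Lp_mul_Lq (μ := volume.restrict B)
    Real.HolderConjugate.two_two (f := fun ξ : En (m + 1) => ENNReal.ofReal (‖ξ‖ ^ (-s)))
    (g := fun ξ => ENNReal.ofReal (‖ξ‖ ^ s) * ‖H ξ‖ₑ)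
    ((measurable_norm.pow_const _).ennreal_ofReal.aemeasurable)
    (((measurable_norm.pow_const _).ennreal_ofReal.mul hH.enorm).aemeasurable)
  rw [← h1] at h2
  have e1 : ∫⁻ ξ in B, ENNReal.ofReal (‖ξ‖ ^ (-s)) ^ (2 : ℝ) =
      ∫⁻ ξ in B, ENNReal.ofReal (‖ξ‖ ^ (-(2 * s))) := by
    refine lintegral_congr fun ξ => ?_
    rw [ENNReal.ofReal_rpow_of_nonneg (by positivity) (by norm_num), ← Real.rpow_mul (norm_nonneg _)]
    congr 2
    ring
  have e2 : ∫⁻ ξ in B, (ENNReal.ofReal (‖ξ‖ ^ s) * ‖H ξ‖ₑ) ^ (2 : ℝ) ≤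
      ∫⁻ ξ, wt s ξ * ‖H ξ‖ₑ ^ 2 := by
    refine (setLIntegral_le_lintegral _ _).trans (lintegral_mono fun ξ => le_of_eq ?_)
    rw [ENNReal.mul_rpow_of_nonneg _ _ (by norm_num),
      ENNReal.ofReal_rpow_of_nonneg (by positivity) (by norm_num), ← Real.rpow_mul (norm_nonneg _),
      ENNReal.rpow_two, wt, mul_comm s 2]
  have h3 : (∫⁻ ξ in B, ‖H ξ‖ₑ) ^ 2 ≤ ((∫⁻ ξ in B, ENNReal.ofReal (‖ξ‖ ^ (-s)) ^ (2 : ℝ)) ^
      (1 / 2 : ℝ) * (∫⁻ ξ in B, (ENNReal.ofReal (‖ξ‖ ^ s) * ‖H ξ‖ₑ) ^ (2 : ℝ)) ^ (1 / 2 : ℝ)) ^ 2 :=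
    pow_le_pow_left' h2 2
  refine h3.trans ?_
  rw [mul_pow, ← ENNReal.rpow_natCast, ← ENNReal.rpow_natCast, ← ENNReal.rpow_mul,
    ← ENNReal.rpow_mul, e1, hB, rad hs hA]
  norm_num
  refine mul_le_mul' le_rfl (le_trans (le_of_eq ?_) e2)
  refine lintegral_congr fun ξ => ?_
  rw [ENNReal.rpow_two]

/-- the constant -/
noncomputable def cn (m : ℕ) (s : ℝ) : ℝ := ((m : ℝ) + 1) * vb (m + 1) / ((m : ℝ) + 1 - 2 * s)

lemma cn_pos {m : ℕ} {s : ℝ} (hs : 2 * s < (m : ℝ) + 1) : 0 < cn m s := by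
  unfold cn
  have := vb_pos (m + 1)
  have h2 : 0 < (m : ℝ) + 1 - 2 * s := by linarith
  positivity

/-- the height at which a frequency is used -/
noncomputable def Lm {m : ℕ} (s M : ℝ) (ξ : En (m + 1)) : ℝ :=
  2 * (cn m s * M) ^ (1 / 2 : ℝ) * ‖ξ‖ ^ (((m : ℝ) + 1 - 2 * s) / 2)

lemma Lm_meas {m : ℕ} (s M : ℝ) : Measurable (Lm s M : En (m + 1) → ℝ) :=
  (measurable_norm.pow_const _).const_mul _

/-- the level sets -/
lemma level {m : ℕ} {s : ℝ} (hs : 2 * s < (m : ℝ) + 1) {H : En (m + 1) → ℂ}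
    (hH : Measurable H) (h1 : Integrable H) (h2 : MemLp H 2) {M : ℝ} (hM : 0 < M)
    (hW : ∫⁻ ξ, wt s ξ * ‖H ξ‖ₑ ^ 2 = ENNReal.ofReal M) {t : ℝ} (ht : 0 < t) :
    ENNReal.ofReal (t / 2) ^ 2 * volume {x | t < ‖Fi H x‖} ≤
      ∫⁻ ξ, {ξ | t < Lm s M ξ}.indicator (fun ξ => ‖H ξ‖ₑ ^ 2) ξ := by
  have hc := cn_pos hs
  set b : ℝ := 2 * (cn m s * M) ^ (1 / 2 : ℝ) with hb
  have hb0 : 0 < b := by positivity
  set e : ℝ := ((m : ℝ) + 1 - 2 * s) / 2 with he
  have he0 : 0 < e := by rw [he]; linarith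
  set A : ℝ := (t / b) ^ (1 / e) with hA
  have hA0 : 0 ≤ A := by positivity
  set B := Metric.closedBall (0 : En (m + 1)) A with hBdef
  have hBm : MeasurableSet B := measurableSet_closedBall
  have hB : ∀ ξ : En (m + 1), ξ ∈ Bᶜ ↔ t < Lm s M ξ := by
    intro ξ
    rw [mem_compl_iff, hBdef, mem_closedBall_zero_iff, not_le, Lm, ← hb, ← he, hA]
    have e1 : ‖ξ‖ = (‖ξ‖ ^ e) ^ (1 / e) := by
      rw [← Real.rpow_mul (norm_nonneg _), mul_one_div_cancel he0.ne', Real.rpow_one]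
    constructor
    · intro h
      rw [e1] at h
      have h' := (Real.rpow_lt_rpow_iff (by positivity) (by positivity) (by positivity)).1 h
      rw [div_lt_iff₀ hb0] at h'
      linarith
    · intro h
      rw [e1]
      refine (Real.rpow_lt_rpow_iff (by positivity) (by positivity) (by positivity)).2 ?_
      rw [div_lt_iff₀ hb0]
      linarith
  have hlow : ∫⁻ ξ in B, ‖H ξ‖ₑ ≤ ENNReal.ofReal (t / 2) := by
    have h3 := low hs hA0 hH
    rw [hW, ← ENNReal.ofReal_mul (by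
      have := hc.le
      unfold cn at this
      positivity)] at h3
    have e2 : (((m : ℝ) + 1) * vb (m + 1) / ((m : ℝ) + 1 - 2 * s) * A ^ ((m : ℝ) + 1 - 2 * s)) * M =
        (t / 2) ^ 2 := by
      have e3 : A ^ ((m : ℝ) + 1 - 2 * s) = (t / b) ^ 2 := by
        rw [hA, ← Real.rpow_mul (by positivity), show (m : ℝ) + 1 - 2 * s = 2 * e by rw [he]; ring,
          show 1 / e * (2 * e) = 2 by field_simp, Real.rpow_two]
      have e4 : b ^ 2 = 4 * (cn m s * M) := by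
        rw [hb, mul_pow, ← Real.rpow_natCast, ← Real.rpow_natCast, ← Real.rpow_mul (by positivity)]
        norm_num
      rw [e3, div_pow, e4]
      change cn m s * (t ^ 2 / (4 * (cn m s * M))) * M = _
      field_simp
      norm_num
    rw [e2, ENNReal.ofReal_pow (by positivity)] at h3
    exact (ENNReal.pow_le_pow_left_iff (by norm_num)).1 h3
  have hsplit : ∀ x, ‖Fi H x‖ₑ ≤ ENNReal.ofReal (t / 2) + ‖Fi (Bᶜ.indicator H) x‖ₑ := by
    intro x
    have e5 : Fi H x = (∫ ξ in B, ek x ξ * H ξ) + Fi (Bᶜ.indicator H) x := by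
      rw [Fi, ← integral_add_compl hBm (ek_int h1 x), Fi, ← integral_indicator hBm.compl]
      congr 2
      funext ξ
      by_cases h : ξ ∈ Bᶜ
      · rw [indicator_of_mem h, indicator_of_mem h]
      · rw [indicator_of_notMem h, indicator_of_notMem h, mul_zero]
    rw [e5]
    refine (enorm_add_le _ _).trans (add_le_add ?_ le_rfl)
    refine (enorm_integral_le_lintegral_enorm _).trans (le_trans (le_of_eq ?_) hlow)
    refine lintegral_congr fun ξ => ?_
    rw [enorm_mul, ← ofReal_norm (ek x ξ), ek_norm]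
    simp
  have hsub : {x | t < ‖Fi H x‖} ⊆ {x | ENNReal.ofReal (t / 2) ^ 2 ≤ ‖Fi (Bᶜ.indicator H) x‖ₑ ^ 2} := by
    intro x hx
    have hx' : t < ‖Fi H x‖ := hx
    change ENNReal.ofReal (t / 2) ^ 2 ≤ ‖Fi (Bᶜ.indicator H) x‖ₑ ^ 2
    refine pow_le_pow_left' ?_ 2
    by_contra hcon
    rw [not_le] at hcon
    have h3 : ‖Fi H x‖ₑ < ENNReal.ofReal (t / 2) + ENNReal.ofReal (t / 2) :=
      (hsplit x).trans_lt (ENNReal.add_lt_add_left ENNReal.ofReal_ne_top hcon)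
    rw [← ENNReal.ofReal_add (by positivity) (by positivity), add_halves, ← ofReal_norm] at h3
    exact absurd ((ENNReal.ofReal_lt_ofReal_iff ht).1 h3) (not_lt.2 hx'.le)
  have hI1 : Integrable (Bᶜ.indicator H) := h1.indicator hBm.compl
  have hI2 : MemLp (Bᶜ.indicator H) 2 := h2.indicator hBm.compl
  calc ENNReal.ofReal (t / 2) ^ 2 * volume {x | t < ‖Fi H x‖}
      ≤ ENNReal.ofReal (t / 2) ^ 2 *
        volume {x | ENNReal.ofReal (t / 2) ^ 2 ≤ ‖Fi (Bᶜ.indicator H) x‖ₑ ^ 2} :=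
        mul_le_mul' le_rfl (measure_mono hsub)
    _ ≤ ∫⁻ x, ‖Fi (Bᶜ.indicator H) x‖ₑ ^ 2 :=
        mul_meas_ge_le_lintegral (((Fi_cont hI1).enorm.measurable).pow_const 2) _
    _ = ∫⁻ ξ, ‖Bᶜ.indicator H ξ‖ₑ ^ 2 := planch hI1 hI2
    _ = _ := by
        refine lintegral_congr fun ξ => ?_
        by_cases h : ξ ∈ Bᶜ
        · rw [indicator_of_mem h, indicator_of_mem (show ξ ∈ {ξ | t < Lm s M ξ} from (hB ξ).1 h)]
        · rw [indicator_of_notMem h, indicator_of_notMem (show ξ ∉ {ξ | t < Lm s M ξ} from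
            fun h' => h ((hB ξ).2 h'))]
          simp

end Pool.Agent.U556.CL
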