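import Mathlib
import Pool.Agent.U556.CL2

/-!
The Sobolev inequality for functions with Fourier transform in a weighted space (Chemin and Xu).
-/

set_option autoImplicit false
set_option linter.unusedSectionVars false

open MeasureTheory Real Set Filter Topology
open scoped ENNReal NNReal RealInnerProductSpace

namespace Pool.Agent.U556.CL

open Pool.Agent.Helper93.Sph Pool.Agent.U588.Sph Pool.Agent.U556.CK

lemma inner_int {q L : ℝ} (hq : 2 < q) (hL : 0 ≤ L) :
    ∫⁻ t in Ioi (0 : ℝ), {t | t < L}.indicator (fun t => ENNReal.ofReal (4 * t ^ (q - 3))) t =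
      ENNReal.ofReal (4 / (q - 2) * L ^ (q - 2)) := by
  rw [← lintegral_indicator measurableSet_Ioi]
  have h1 : ∀ t : ℝ, (Ioi (0 : ℝ)).indicator
      ({t | t < L}.indicator (fun t => ENNReal.ofReal (4 * t ^ (q - 3)))) t =
      (Ioo 0 L).indicator (fun t => ENNReal.ofReal (4 * t ^ (q - 3))) t := by
    intro t
    rw [indicator_indicator]
    rfl
  simp_rw [h1]
  rw [lintegral_indicator measurableSet_Ioo, setLIntegral_congr Ioo_ae_eq_Ioc]
  have hi : IntegrableOn (fun t : ℝ => 4 * t ^ (q - 3)) (Ioc 0 L) := by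
    have := (intervalIntegral.intervalIntegrable_rpow' (a := 0) (b := L)
      (r := q - 3) (by linarith))
    exact ((intervalIntegrable_iff_integrableOn_Ioc_of_le hL).1 this).const_mul 4
  rw [← ofReal_integral_eq_lintegral_ofReal hi]
  · congr 1
    rw [← intervalIntegral.integral_of_le hL, intervalIntegral.integral_const_mul,
      integral_rpow (Or.inl (by linarith)), show q - 3 + 1 = q - 2 by ring,
      Real.zero_rpow (by linarith)]
    ring
  · refine (ae_restrict_iff' measurableSet_Ioc).2 (Eventually.of_forall fun t ht => ?_)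
    have : 0 ≤ t := ht.1.le
    positivity

/-- the exponent -/
noncomputable def qe (m : ℕ) (s : ℝ) : ℝ := 2 * ((m : ℝ) + 1) / ((m : ℝ) + 1 - 2 * s)

lemma qe_gt {m : ℕ} {s : ℝ} (hs0 : 0 < s) (hs : 2 * s < (m : ℝ) + 1) : 2 < qe m s := by
  unfold qe
  rw [lt_div_iff₀ (by linarith)]
  linarith

lemma Lm_pow {m : ℕ} {s : ℝ} (hs0 : 0 < s) (hs : 2 * s < (m : ℝ) + 1) {M : ℝ} (hM : 0 < M)
    (ξ : En (m + 1)) : qe m s * (4 / (qe m s - 2) * Lm s M ξ ^ (qe m s - 2)) =
      2 * ((m : ℝ) + 1) / s * (4 * (cn m s * M)) ^ (2 * s / ((m : ℝ) + 1 - 2 * s)) *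
        ‖ξ‖ ^ (2 * s) := by
  have hc := cn_pos hs
  have hd : 0 < (m : ℝ) + 1 - 2 * s := by linarith
  have e1 : qe m s - 2 = 4 * s / ((m : ℝ) + 1 - 2 * s) := by
    unfold qe; field_simp; ring
  have e2 : qe m s * (4 / (qe m s - 2)) = 2 * ((m : ℝ) + 1) / s := by
    rw [e1, qe]; field_simp
  have e3 : Lm s M ξ ^ (qe m s - 2) =
      (4 * (cn m s * M)) ^ (2 * s / ((m : ℝ) + 1 - 2 * s)) * ‖ξ‖ ^ (2 * s) := by
    rw [Lm, e1, Real.mul_rpow (by positivity) (by positivity), ← Real.rpow_mul (norm_nonneg _)]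
    have e4 : 2 * (cn m s * M) ^ (1 / 2 : ℝ) = (4 * (cn m s * M)) ^ (1 / 2 : ℝ) := by
      have h4 : (4 : ℝ) ^ (1 / 2 : ℝ) = 2 := by
        rw [show (4 : ℝ) = 2 ^ (2 : ℝ) by norm_num, ← Real.rpow_mul (by norm_num)]
        norm_num
      rw [Real.mul_rpow (x := 4) (y := cn m s * M) (by norm_num) (by positivity), h4]
    rw [e4, ← Real.rpow_mul (by positivity)]
    congr 2
    · field_simp; norm_num
    · field_simp; norm_num
  rw [← mul_assoc, e2, e3]
  ring

/-- the constant in the Sobolev inequality -/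
noncomputable def As (m : ℕ) (s : ℝ) : ℝ :=
  (2 * ((m : ℝ) + 1) / s) ^ (1 / qe m s) * (4 * cn m s) ^ (s / ((m : ℝ) + 1))

lemma As_pos {m : ℕ} {s : ℝ} (hs0 : 0 < s) (hs : 2 * s < (m : ℝ) + 1) : 0 < As m s := by
  have := cn_pos hs
  unfold As
  positivity

/-- the Sobolev inequality -/
lemma sob {m : ℕ} {s : ℝ} (hs0 : 0 < s) (hs : 2 * s < (m : ℝ) + 1) {H : En (m + 1) → ℂ}
    (hH : Measurable H) (h1 : Integrable H) (h2 : MemLp H 2) :
    nq (qe m s) volume (fun x => ‖Fi H x‖ₑ) ≤
      ENNReal.ofReal (As m s) * (∫⁻ ξ, wt s ξ * ‖H ξ‖ₑ ^ 2) ^ (1 / 2 : ℝ) := by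
  have hq := qe_gt hs0 hs
  set q := qe m s with hqdef
  have hq0 : 0 < q := by linarith
  have hAp := As_pos hs0 hs
  have hc := cn_pos hs
  set W := ∫⁻ ξ, wt s ξ * ‖H ξ‖ₑ ^ 2 with hWdef
  rcases eq_or_ne W ∞ with hW | hW
  · rw [hW, ENNReal.top_rpow_of_pos (by norm_num), ENNReal.mul_top (by positivity)]
    exact le_top
  rcases eq_or_ne W 0 with hW0 | hW0
  · have h3 : ∀ᵐ ξ : En (m + 1), H ξ = 0 := by
      rw [hWdef] at hW0
      replace hW0 := (lintegral_eq_zero_iff (μ := volume)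
        (f := fun ξ : En (m + 1) => wt s ξ * ‖H ξ‖ₑ ^ 2)
        ((wt_meas s).mul (hH.enorm.pow_const 2))).1 hW0
      have h0 : ∀ᵐ ξ : En (m + 1), ξ ≠ (0 : En (m + 1)) := by
        have : ∀ᵐ ξ : En (m + 1), ξ ∉ ({0} : Set (En (m + 1))) :=
          measure_eq_zero_iff_ae_notMem.1 (measure_singleton _)
        simpa using this
      filter_upwards [hW0, h0] with ξ h h'
      have hp : 0 < ‖ξ‖ := norm_pos_iff.2 h'
      simp only [Pi.zero_apply, mul_eq_zero, wt, ENNReal.ofReal_eq_zero] at h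
      rcases h with h | h
      · exact absurd h (not_le.2 (by positivity))
      · simpa using h
    have h4 : ∀ x, Fi H x = 0 := by
      intro x
      unfold Fi
      rw [integral_congr_ae (g := fun _ => (0 : ℂ))]
      · simp
      · filter_upwards [h3] with ξ h
        rw [h, mul_zero]
    have h5 : nq q volume (fun x => ‖Fi H x‖ₑ) = 0 := by
      unfold nq
      simp_rw [h4]
      rw [enorm_zero, ENNReal.zero_rpow_of_pos hq0]
      simp [hq0]
    rw [h5]
    exact zero_le
  set M := W.toReal with hMdef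
  have hM : 0 < M := ENNReal.toReal_pos hW0 hW
  have hWM : W = ENNReal.ofReal M := (ENNReal.ofReal_toReal hW).symm
  have hlay := lintegral_rpow_eq_lintegral_meas_lt_mul (volume : Measure (En (m + 1)))
    (f := fun x => ‖Fi H x‖) (Eventually.of_forall fun x => norm_nonneg _)
    (Fi_cont h1).norm.measurable.aemeasurable hq0
  have hmeas2 : Measurable (Function.uncurry fun (t : ℝ) (ξ : En (m + 1)) =>
      {t | t < Lm s M ξ}.indicator (fun t => ENNReal.ofReal (4 * t ^ (q - 3))) t * ‖H ξ‖ₑ ^ 2) := by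
    have hS : MeasurableSet {p : ℝ × En (m + 1) | p.1 < Lm s M p.2} :=
      measurableSet_lt measurable_fst ((Lm_meas s M).comp measurable_snd)
    have e : (Function.uncurry fun (t : ℝ) (ξ : En (m + 1)) =>
        {t | t < Lm s M ξ}.indicator (fun t => ENNReal.ofReal (4 * t ^ (q - 3))) t * ‖H ξ‖ₑ ^ 2) =
        fun p => {p : ℝ × En (m + 1) | p.1 < Lm s M p.2}.indicator
          (fun p => ENNReal.ofReal (4 * p.1 ^ (q - 3))) p * ‖H p.2‖ₑ ^ 2 := by
      funext p
      rfl
    rw [e]
    exact (((measurable_fst.pow_const _).const_mul 4).ennreal_ofReal.indicator hS).mul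
      ((hH.comp measurable_snd).enorm.pow_const 2)
  have hkey : ∫⁻ x, ‖Fi H x‖ₑ ^ q ≤ ENNReal.ofReal (2 * ((m : ℝ) + 1) / s *
      (4 * (cn m s * M)) ^ (2 * s / ((m : ℝ) + 1 - 2 * s))) * W := by
    calc ∫⁻ x, ‖Fi H x‖ₑ ^ q = ∫⁻ x, ENNReal.ofReal (‖Fi H x‖ ^ q) := by
          refine lintegral_congr fun x => ?_
          rw [← ofReal_norm, ENNReal.ofReal_rpow_of_nonneg (norm_nonneg _) hq0.le]
      _ = ENNReal.ofReal q * ∫⁻ t in Ioi 0, volume {x | t < ‖Fi H x‖} *
            ENNReal.ofReal (t ^ (q - 1)) := hlay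
      _ ≤ ENNReal.ofReal q * ∫⁻ t in Ioi (0 : ℝ), ∫⁻ ξ, {t | t < Lm s M ξ}.indicator
            (fun t => ENNReal.ofReal (4 * t ^ (q - 3))) t * ‖H ξ‖ₑ ^ 2 := by
          refine mul_le_mul' le_rfl (setLIntegral_mono' measurableSet_Ioi fun t ht => ?_)
          have ht0 : (0 : ℝ) < t := ht
          have h3 := level hs hH h1 h2 hM hWM ht0
          have e1 : t ^ (q - 1) = (4 * t ^ (q - 3)) * (t / 2) ^ 2 := by
            have : t ^ (q - 1) = t ^ (q - 3) * t ^ (2 : ℝ) := by
              rw [← Real.rpow_add ht0]; congr 1; ring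
            rw [this, Real.rpow_two]
            ring
          rw [e1, ENNReal.ofReal_mul (by positivity), ENNReal.ofReal_pow (by positivity)]
          calc volume {x | t < ‖Fi H x‖} *
                (ENNReal.ofReal (4 * t ^ (q - 3)) * ENNReal.ofReal (t / 2) ^ 2)
              = ENNReal.ofReal (4 * t ^ (q - 3)) *
                (ENNReal.ofReal (t / 2) ^ 2 * volume {x | t < ‖Fi H x‖}) := by ring
            _ ≤ ENNReal.ofReal (4 * t ^ (q - 3)) *
                ∫⁻ ξ, {ξ | t < Lm s M ξ}.indicator (fun ξ => ‖H ξ‖ₑ ^ 2) ξ :=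
                mul_le_mul' le_rfl h3
            _ = _ := by
                rw [← lintegral_const_mul _ ((hH.enorm.pow_const 2).indicator
                  (measurableSet_lt measurable_const (Lm_meas s M)))]
                refine lintegral_congr fun ξ => ?_
                by_cases h : t < Lm s M ξ
                · rw [indicator_of_mem (show ξ ∈ {ξ | t < Lm s M ξ} from h),
                    indicator_of_mem (show t ∈ {t | t < Lm s M ξ} from h)]
                · rw [indicator_of_notMem (show ξ ∉ {ξ | t < Lm s M ξ} from h),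
                    indicator_of_notMem (show t ∉ {t | t < Lm s M ξ} from h), zero_mul, mul_zero]
      _ = ENNReal.ofReal q * ∫⁻ ξ, ∫⁻ t in Ioi (0 : ℝ), {t | t < Lm s M ξ}.indicator
            (fun t => ENNReal.ofReal (4 * t ^ (q - 3))) t * ‖H ξ‖ₑ ^ 2 := by
          rw [lintegral_lintegral_swap hmeas2.aemeasurable]
      _ = ENNReal.ofReal q * ∫⁻ ξ, ENNReal.ofReal (4 / (q - 2) * Lm s M ξ ^ (q - 2)) *
            ‖H ξ‖ₑ ^ 2 := by
          congr 1
          refine lintegral_congr fun ξ => ?_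
          rw [lintegral_mul_const' _ _ (by simp), inner_int hq (by unfold Lm; positivity)]
      _ = _ := by
          rw [← lintegral_const_mul' _ _ ENNReal.ofReal_ne_top, hWdef,
            ← lintegral_const_mul' _ _ ENNReal.ofReal_ne_top]
          refine lintegral_congr fun ξ => ?_
          rw [← mul_assoc, ← ENNReal.ofReal_mul hq0.le, hqdef, Lm_pow hs0 hs hM,
            ENNReal.ofReal_mul (by positivity), mul_assoc]
          rfl
  have hd : 0 < (m : ℝ) + 1 - 2 * s := by linarith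
  unfold nq
  refine (ENNReal.rpow_le_rpow hkey (by positivity)).trans (le_of_eq ?_)
  rw [hWM, ← ENNReal.ofReal_mul (by positivity), ENNReal.ofReal_rpow_of_nonneg (by positivity)
    (by positivity), ENNReal.ofReal_rpow_of_nonneg (by positivity) (by positivity),
    ← ENNReal.ofReal_mul (by positivity)]
  congr 1
  rw [Real.mul_rpow (by positivity) (by positivity), Real.mul_rpow (by positivity) (by positivity),
    ← Real.rpow_mul (by positivity), ← mul_assoc 4, Real.mul_rpow (by positivity) (by positivity),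
    As, ← hqdef]
  have e5 : 2 * s / ((m : ℝ) + 1 - 2 * s) * (1 / q) = s / ((m : ℝ) + 1) := by
    rw [hqdef, qe]; field_simp
  have e6 : M ^ (s / ((m : ℝ) + 1)) * M ^ (1 / q) = M ^ (1 / 2 : ℝ) := by
    rw [← Real.rpow_add hM]
    congr 1
    rw [hqdef, qe]; field_simp; ring
  rw [e5, ← e6]
  ring

end Pool.Agent.U556.CL
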