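import Mathlib
import Pool.Agent.U556.CL3
import Pool.Agent.U588.SphE

/-!
The maximal inequality in the homogeneous Sobolev space.
-/

set_option autoImplicit false
set_option linter.unusedSectionVars false

open MeasureTheory Real Set Filter Topology
open scoped ENNReal NNReal RealInnerProductSpace

namespace Pool.Agent.U556.CL

open Pool.Agent.Helper93.Sph Pool.Agent.U588.Sph Pool.Agent.U556.CK

lemma emb {m : ℕ} {s : ℝ} (hs0 : 0 < s) (hs : 2 * s < (m : ℝ) + 1) :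
    Emb (n := m + 1) (qe m s) (wt s) (ENNReal.ofReal (As m s)) := by
  intro G hG R
  set G' := hG.1.mk G with hG'
  have hGG : G =ᵐ[volume] G' := hG.1.ae_eq_mk
  have hm : Measurable G' := hG.1.stronglyMeasurable_mk.measurable
  have hL : MemLp G' 2 := (memLp_congr_ae hGG).1 hG
  have h1 : ∀ x, ps G R x = Fi ((shell (m + 1) 0 R).indicator G') x := by
    intro x
    rw [← ps_eq]
    unfold ps
    refine integral_congr_ae (ae_restrict_of_ae ?_)
    filter_upwards [hGG] with ξ h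
    rw [h]
  simp_rw [h1]
  refine (sob hs0 hs (hm.indicator (shell_meas _ _ _)) (ind_int hL _ _)
    (hL.indicator (shell_meas _ _ _))).trans ?_
  refine mul_le_mul' le_rfl (ENNReal.rpow_le_rpow (lintegral_mono_ae ?_) (by norm_num))
  filter_upwards [hGG] with ξ h
  by_cases h' : ξ ∈ shell (m + 1) 0 R
  · rw [indicator_of_mem h', h]
  · rw [indicator_of_notMem h']; simp

/-- the constant of the maximal lemma -/
noncomputable def Kc (m : ℕ) (s : ℝ) : ℝ := (1 - 2 ^ (-(s / ((m : ℝ) + 1))))⁻¹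

lemma two_lt {m : ℕ} {s : ℝ} (hs0 : 0 < s) : (2 : ℝ) ^ (-(s / ((m : ℝ) + 1))) < 1 :=
  Real.rpow_lt_one_of_one_lt_of_neg (by norm_num) (by
    have : 0 < s / ((m : ℝ) + 1) := by positivity
    linarith)

lemma Kc_pos {m : ℕ} {s : ℝ} (hs0 : 0 < s) : 0 < Kc m s := by
  have := two_lt (m := m) hs0
  unfold Kc
  exact inv_pos.2 (by linarith)

lemma Kc_spec {m : ℕ} {s : ℝ} (hs0 : 0 < s) (hs : 2 * s < (m : ℝ) + 1) :
    1 + ENNReal.ofReal (Kc m s) * 2 ^ (1 / qe m s - 1 / 2) ≤ ENNReal.ofReal (Kc m s) := by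
  have h1 := two_lt (m := m) hs0
  have hK := Kc_pos (m := m) hs0
  have e1 : 1 / qe m s - 1 / 2 = -(s / ((m : ℝ) + 1)) := by
    have : 0 < (m : ℝ) + 1 - 2 * s := by linarith
    unfold qe; field_simp; ring
  have e2 : (2 : ℝ≥0∞) ^ (1 / qe m s - 1 / 2) = ENNReal.ofReal (2 ^ (-(s / ((m : ℝ) + 1)))) := by
    rw [e1, ← ENNReal.ofReal_rpow_of_pos (by norm_num)]
    norm_num
  rw [e2, ← ENNReal.ofReal_mul hK.le, ← ENNReal.ofReal_one, ← ENNReal.ofReal_add (by norm_num)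
    (by positivity)]
  refine ENNReal.ofReal_le_ofReal (le_of_eq ?_)
  have h2 : (1 - (2 : ℝ) ^ (-(s / ((m : ℝ) + 1)))) ≠ 0 := by linarith
  unfold Kc
  field_simp
  ring

lemma mw_fin {m : ℕ} {s : ℝ} (hs0 : 0 < s) {G : En (m + 1) → ℂ} (hG : MemLp G 2) (a b : ℝ) :
    mw (wt s) G a b ≠ ∞ := by
  have h1 : mw (wt s) G a b ≤ ENNReal.ofReal (|b| ^ (2 * s)) * ∫⁻ ξ, ‖G ξ‖ₑ ^ 2 := by
    unfold mw
    refine (setLIntegral_mono' (g := fun ξ => ENNReal.ofReal (|b| ^ (2 * s)) * ‖G ξ‖ₑ ^ 2)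
      (shell_meas _ _ _) fun ξ hξ => ?_).trans ?_
    · refine mul_le_mul' (ENNReal.ofReal_le_ofReal ?_) le_rfl
      exact Real.rpow_le_rpow (norm_nonneg _) (hξ.2.le.trans (le_abs_self b)) (by positivity)
    · rw [← lintegral_const_mul' _ _ ENNReal.ofReal_ne_top]
      exact setLIntegral_le_lintegral _ _
  exact ne_top_of_le_ne_top (ENNReal.mul_ne_top ENNReal.ofReal_ne_top (en2_ne_top hG)) h1

/-- **the maximal inequality in the homogeneous Sobolev space** -/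
theorem max_s {m : ℕ} {s : ℝ} (hs0 : 0 < s) (hs : 2 * s < (m : ℝ) + 1)
    {G : En (m + 1) → ℂ} (hG : MemLp G 2) :
    nq (qe m s) volume (fun x => ⨆ R : ℝ, ‖ps G R x‖ₑ) ≤
      ENNReal.ofReal (Kc m s * As m s) * (∫⁻ ξ, wt s ξ * ‖G ξ‖ₑ ^ 2) ^ (1 / 2 : ℝ) := by
  rw [ENNReal.ofReal_mul (Kc_pos hs0).le]
  exact max_w (qe_gt hs0 hs) (emb hs0 hs) (Kc_spec hs0 hs) hG (mw_fin hs0 hG)

/-- the representation of the partial sums -/
lemma rep_real {s R r : ℝ} (hs0 : 0 < s) (hr : 0 < r) (hrR : r ≤ R) :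
    ∫ t in Ioc 0 R, (if r ≤ t then s * t ^ (-s - 1) else 0) = r ^ (-s) - R ^ (-s) := by
  have hR : 0 < R := hr.trans_le hrR
  have h1 : ∫ t in Ioc 0 R, (if r ≤ t then s * t ^ (-s - 1) else 0) =
      ∫ t in Ioc 0 R, (Ici r).indicator (fun t => s * t ^ (-s - 1)) t := by
    refine integral_congr_ae (Eventually.of_forall fun t => ?_)
    by_cases h : r ≤ t
    · simp [h]
    · simp [h]
  rw [h1, setIntegral_indicator measurableSet_Ici]
  have h2 : Ioc 0 R ∩ Ici r = Icc r R := by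
    ext t
    simp only [mem_inter_iff, mem_Ioc, mem_Ici, mem_Icc]
    constructor
    · rintro ⟨⟨_, h⟩, h'⟩; exact ⟨h', h⟩
    · rintro ⟨h, h'⟩; exact ⟨⟨hr.trans_le h, h'⟩, h⟩
  rw [h2, integral_Icc_eq_integral_Ioc, ← intervalIntegral.integral_of_le hrR,
    intervalIntegral.integral_const_mul, integral_rpow (Or.inr ⟨by linarith, by
      rw [uIcc_of_le hrR]
      exact fun h => absurd h.1 (not_le.2 hr)⟩), show -s - 1 + 1 = -s by ring]
  field_simp
  ring

end Pool.Agent.U556.CL
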