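import Mathlib
import Pool.Agent.U556.CL4

/-!
A pointwise inequality of Hedberg type for the maximal ball partial sums.
-/

set_option autoImplicit false
set_option linter.unusedSectionVars false

open MeasureTheory Real Set Filter Topology
open scoped ENNReal NNReal RealInnerProductSpace

namespace Pool.Agent.U556.CL

open Pool.Agent.Helper93.Sph Pool.Agent.U588.Sph Pool.Agent.U556.CK

lemma int1 {s a d T : ℝ} (hs0 : 0 < s) (hd : 2 * s < d) (ha : 0 ≤ a) (hT : 0 ≤ T) :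
    ∫⁻ t in Ioc 0 T, ENNReal.ofReal (s * t ^ (-s - 1)) * ENNReal.ofReal (a * t ^ (d / 2)) =
      ENNReal.ofReal (s * a * (T ^ (d / 2 - s) / (d / 2 - s))) := by
  have hi : IntegrableOn (fun t : ℝ => s * a * t ^ (d / 2 - s - 1)) (Ioc 0 T) := by
    have := (intervalIntegral.intervalIntegrable_rpow' (a := 0) (b := T)
      (r := d / 2 - s - 1) (by linarith))
    exact ((intervalIntegrable_iff_integrableOn_Ioc_of_le hT).1 this).const_mul _
  have h1 : ∫⁻ t in Ioc 0 T, ENNReal.ofReal (s * t ^ (-s - 1)) * ENNReal.ofReal (a * t ^ (d / 2)) =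
      ∫⁻ t in Ioc 0 T, ENNReal.ofReal (s * a * t ^ (d / 2 - s - 1)) := by
    refine setLIntegral_congr_fun measurableSet_Ioc fun t ht => ?_
    have ht0 : 0 < t := ht.1
    rw [← ENNReal.ofReal_mul (by positivity)]
    congr 1
    rw [show d / 2 - s - 1 = (-s - 1) + d / 2 by ring, Real.rpow_add ht0]
    ring
  rw [h1, ← ofReal_integral_eq_lintegral_ofReal hi]
  · congr 1
    rw [← intervalIntegral.integral_of_le hT, intervalIntegral.integral_const_mul,
      integral_rpow (Or.inl (by linarith)), show d / 2 - s - 1 + 1 = d / 2 - s by ring,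
      Real.zero_rpow (by linarith), sub_zero]
  · refine (ae_restrict_iff' measurableSet_Ioc).2 (Eventually.of_forall fun t ht => ?_)
    have : 0 ≤ t := ht.1.le
    positivity

lemma int2 {s M T R : ℝ} (hs0 : 0 < s) (hM : 0 ≤ M) (hT : 0 < T) (hR : T ≤ R) :
    ∫⁻ t in Ioc T R, ENNReal.ofReal (s * t ^ (-s - 1)) * ENNReal.ofReal M =
      ENNReal.ofReal (M * (T ^ (-s) - R ^ (-s))) := by
  have hn0 : (0 : ℝ) ∉ uIcc T R := by
    rw [uIcc_of_le hR]
    exact fun h => absurd h.1 (not_le.2 hT)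
  have hi : IntegrableOn (fun t : ℝ => M * s * t ^ (-s - 1)) (Ioc T R) := by
    have := (intervalIntegral.intervalIntegrable_rpow (μ := volume) (a := T) (b := R)
      (r := -s - 1) (Or.inr hn0))
    exact ((intervalIntegrable_iff_integrableOn_Ioc_of_le hR).1 this).const_mul _
  have h1 : ∫⁻ t in Ioc T R, ENNReal.ofReal (s * t ^ (-s - 1)) * ENNReal.ofReal M =
      ∫⁻ t in Ioc T R, ENNReal.ofReal (M * s * t ^ (-s - 1)) := by
    refine setLIntegral_congr_fun measurableSet_Ioc fun t ht => ?_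
    have ht0 : 0 < t := hT.trans ht.1
    rw [← ENNReal.ofReal_mul (by positivity)]
    congr 1
    ring
  rw [h1, ← ofReal_integral_eq_lintegral_ofReal hi]
  · congr 1
    rw [← intervalIntegral.integral_of_le hR, intervalIntegral.integral_const_mul,
      integral_rpow (Or.inr ⟨by linarith, hn0⟩), show -s - 1 + 1 = -s by ring]
    field_simp
    ring
  · refine (ae_restrict_iff' measurableSet_Ioc).2 (Eventually.of_forall fun t ht => ?_)
    have : 0 ≤ t := (hT.trans ht.1).le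
    positivity

/-- the mass of `G` in a ball -/
lemma ball_l1 {m : ℕ} {G : En (m + 1) → ℂ} (hGm : Measurable G) (hG : MemLp G 2) {t : ℝ}
    (ht : 0 ≤ t) : ∫⁻ ξ in Metric.closedBall (0 : En (m + 1)) t, ‖G ξ‖ₑ ≤
      ENNReal.ofReal ((vb (m + 1) * (∫⁻ ξ, ‖G ξ‖ₑ ^ 2).toReal) ^ (1 / 2 : ℝ) *
        t ^ (((m : ℝ) + 1) / 2)) := by
  have h := low (s := 0) (by
    have : (0 : ℝ) ≤ m := Nat.cast_nonneg m
    linarith : 2 * (0 : ℝ) < (m : ℝ) + 1) ht hGm
  have e1 : ∫⁻ ξ : En (m + 1), wt 0 ξ * ‖G ξ‖ₑ ^ 2 =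
      ENNReal.ofReal (∫⁻ ξ, ‖G ξ‖ₑ ^ 2).toReal := by
    rw [ENNReal.ofReal_toReal (en2_ne_top hG)]
    refine lintegral_congr fun ξ => ?_
    simp [wt]
  have hv := vb_pos (m + 1)
  have hd1 : (0 : ℝ) < (m : ℝ) + 1 - 2 * 0 := by
    have : (0 : ℝ) ≤ m := Nat.cast_nonneg m
    linarith
  rw [e1, ← ENNReal.ofReal_mul (by positivity)] at h
  have e2 : ((m : ℝ) + 1) * vb (m + 1) / ((m : ℝ) + 1 - 2 * 0) * t ^ ((m : ℝ) + 1 - 2 * 0) *
      (∫⁻ ξ, ‖G ξ‖ₑ ^ 2).toReal = ((vb (m + 1) * (∫⁻ ξ, ‖G ξ‖ₑ ^ 2).toReal) ^ (1 / 2 : ℝ) *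
        t ^ (((m : ℝ) + 1) / 2)) ^ 2 := by
    rw [mul_pow, ← Real.rpow_natCast, ← Real.rpow_natCast, ← Real.rpow_mul (by positivity),
      ← Real.rpow_mul ht]
    norm_num
    field_simp
  rw [e2, ENNReal.ofReal_pow (by positivity)] at h
  exact (ENNReal.pow_le_pow_left_iff (by norm_num)).1 h

lemma ps_l1 {m : ℕ} {G : En (m + 1) → ℂ} (t : ℝ) (x : En (m + 1)) :
    ‖ps G t x‖ₑ ≤ ∫⁻ ξ in Metric.closedBall (0 : En (m + 1)) t, ‖G ξ‖ₑ := by
  unfold ps
  refine (enorm_integral_le_lintegral_enorm _).trans (le_of_eq ?_)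
  refine lintegral_congr fun ξ => ?_
  rw [enorm_mul, ← ofReal_norm (ek x ξ), ek_norm]
  simp

/-- the representation -/
lemma norm_rep {m : ℕ} {s : ℝ} (hs0 : 0 < s) (hs : 2 * s < (m : ℝ) + 1) {G : En (m + 1) → ℂ}
    (hGm : Measurable G) (hG : MemLp G 2) {R : ℝ} (hR : 0 < R) (x : En (m + 1)) :
    ‖ps (fun ξ => ((‖ξ‖ ^ (-s) : ℝ) : ℂ) * G ξ) R x‖ₑ ≤ ENNReal.ofReal (R ^ (-s)) * ‖ps G R x‖ₑ +
      ∫⁻ t in Ioc 0 R, ENNReal.ofReal (s * t ^ (-s - 1)) * ‖ps G t x‖ₑ := by
  set B := Metric.closedBall (0 : En (m + 1)) R with hB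
  have hBm : MeasurableSet B := measurableSet_closedBall
  set κ : ℝ → En (m + 1) → ℝ := fun t ξ => if ‖ξ‖ ≤ t then s * t ^ (-s - 1) else 0 with hκ
  set Φ : ℝ → En (m + 1) → ℂ := fun t ξ => ((κ t ξ : ℝ) : ℂ) * (ek x ξ * G ξ) with hΦ
  have hek : Measurable (fun ξ : En (m + 1) => ek x ξ) :=
    (ek_cont.comp (by fun_prop : Continuous fun ξ : En (m + 1) => (x, ξ))).measurable
  have hκm : Measurable (Function.uncurry κ) := by
    have e : Function.uncurry κ = fun p : ℝ × En (m + 1) =>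
        if ‖p.2‖ ≤ p.1 then s * p.1 ^ (-s - 1) else 0 := by
      funext p; rfl
    rw [e]
    exact Measurable.ite (measurableSet_le measurable_snd.norm measurable_fst)
      ((measurable_fst.pow_const _).const_mul _) measurable_const
  have hΦm : Measurable (Function.uncurry Φ) := by
    have e : Function.uncurry Φ = fun p : ℝ × En (m + 1) =>
        ((Function.uncurry κ p : ℝ) : ℂ) * (ek x p.2 * G p.2) := by
      funext p; rfl
    rw [e]
    exact (Complex.measurable_ofReal.comp hκm).mul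
      ((hek.comp measurable_snd).mul (hGm.comp measurable_snd))
  have hae0 : ∀ᵐ ξ ∂(volume.restrict B), ξ ≠ (0 : En (m + 1)) := by
    refine ae_restrict_of_ae ?_
    have : ∀ᵐ ξ : En (m + 1), ξ ∉ ({0} : Set (En (m + 1))) :=
      measure_eq_zero_iff_ae_notMem.1 (measure_singleton _)
    simpa using this
  set a : ℝ := (vb (m + 1) * (∫⁻ ξ, ‖G ξ‖ₑ ^ 2).toReal) ^ (1 / 2 : ℝ) with ha
  have hv := vb_pos (m + 1)
  have ha0 : 0 ≤ a := by positivity
  -- the inner integral over the ball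
  have hinner : ∀ t ∈ Ioc 0 R, ∫⁻ ξ in B, ‖Φ t ξ‖ₑ =
      ENNReal.ofReal (s * t ^ (-s - 1)) * ∫⁻ ξ in Metric.closedBall (0 : En (m + 1)) t, ‖G ξ‖ₑ := by
    intro t ht
    have ht0 : 0 < t := ht.1
    rw [← lintegral_const_mul _ hGm.enorm, ← lintegral_indicator hBm,
      ← lintegral_indicator measurableSet_closedBall]
    refine lintegral_congr fun ξ => ?_
    by_cases h : ‖ξ‖ ≤ t
    · rw [indicator_of_mem (show ξ ∈ B by simpa [hB] using h.trans ht.2),
        indicator_of_mem (by simpa using h)]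
      simp only [hΦ, hκ, if_pos h]
      rw [enorm_mul, enorm_mul, ← ofReal_norm (ek x ξ), ek_norm, ← ofReal_norm, Complex.norm_real,
        Real.norm_of_nonneg (by positivity)]
      simp
    · rw [indicator_of_notMem (show ξ ∉ Metric.closedBall (0 : En (m + 1)) t by simpa using h)]
      by_cases h' : ξ ∈ B
      · rw [indicator_of_mem h']
        simp [hΦ, hκ, if_neg h]
      · rw [indicator_of_notMem h']
  have hfin : ∫⁻ t in Ioc 0 R, ∫⁻ ξ in B, ‖Φ t ξ‖ₑ < ∞ := by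
    calc ∫⁻ t in Ioc 0 R, ∫⁻ ξ in B, ‖Φ t ξ‖ₑ
        ≤ ∫⁻ t in Ioc 0 R, ENNReal.ofReal (s * t ^ (-s - 1)) *
          ENNReal.ofReal (a * t ^ (((m : ℝ) + 1) / 2)) := by
          refine setLIntegral_mono' measurableSet_Ioc fun t ht => ?_
          rw [hinner t ht]
          exact mul_le_mul' le_rfl (ball_l1 hGm hG ht.1.le)
      _ = _ := int1 hs0 hs ha0 hR.le
      _ < ∞ := ENNReal.ofReal_lt_top
  have hint : Integrable (Function.uncurry Φ) ((volume.restrict (Ioc 0 R)).prod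
      (volume.restrict B)) := by
    refine ⟨hΦm.aestronglyMeasurable, ?_⟩
    rw [HasFiniteIntegral, lintegral_prod _ hΦm.enorm.aemeasurable]
    exact hfin
  have hswap := integral_integral_swap hint
  have hL : ∫ t in Ioc 0 R, ∫ ξ in B, Φ t ξ = ∫ t in Ioc 0 R, ((s * t ^ (-s - 1) : ℝ) : ℂ) *
      ps G t x := by
    refine setIntegral_congr_fun measurableSet_Ioc fun t ht => ?_
    rw [ps, ← integral_const_mul, ← integral_indicator hBm, ← integral_indicator
      measurableSet_closedBall]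
    congr 1
    funext ξ
    by_cases h : ‖ξ‖ ≤ t
    · rw [indicator_of_mem (show ξ ∈ B by simpa [hB] using h.trans ht.2),
        indicator_of_mem (show ξ ∈ Metric.closedBall (0 : En (m + 1)) t by simpa using h)]
      simp only [hΦ, hκ, if_pos h]
    · rw [indicator_of_notMem (show ξ ∉ Metric.closedBall (0 : En (m + 1)) t by simpa using h)]
      by_cases h' : ξ ∈ B
      · rw [indicator_of_mem h']
        simp [hΦ, hκ, if_neg h]
      · rw [indicator_of_notMem h']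
  have hGi : IntegrableOn (fun ξ => ek x ξ * G ξ) B := by
    have : IsFiniteMeasure (volume.restrict B) := ⟨by
      rw [Measure.restrict_apply_univ]; exact measure_closedBall_lt_top⟩
    refine ((hG.restrict B).integrable (by norm_num)).bdd_mul (c := 1) hek.aestronglyMeasurable ?_
    exact Eventually.of_forall fun ξ => (ek_norm x ξ).le
  have hRt : ∀ᵐ ξ ∂(volume.restrict B), ∫ t in Ioc 0 R, Φ t ξ =
      ek x ξ * (((‖ξ‖ ^ (-s) : ℝ) : ℂ) * G ξ) - ((R ^ (-s) : ℝ) : ℂ) * (ek x ξ * G ξ) := by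
    filter_upwards [hae0, ae_restrict_mem hBm] with ξ h0 hξ
    have hp : 0 < ‖ξ‖ := norm_pos_iff.2 h0
    have hle : ‖ξ‖ ≤ R := by simpa [hB] using hξ
    simp only [hΦ]
    rw [integral_mul_const]
    have e3 : ∫ t in Ioc 0 R, ((κ t ξ : ℝ) : ℂ) = ((‖ξ‖ ^ (-s) - R ^ (-s) : ℝ) : ℂ) := by
      refine (integral_ofReal (𝕜 := ℂ) (μ := volume.restrict (Ioc 0 R))
        (f := fun t => κ t ξ)).trans ?_
      exact congrArg (fun r : ℝ => (r : ℂ)) (rep_real hs0 hp hle)
    rw [e3]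
    push_cast
    ring
  have hfirst : IntegrableOn (fun ξ => ek x ξ * (((‖ξ‖ ^ (-s) : ℝ) : ℂ) * G ξ)) B := by
    have h1 : Integrable (fun ξ => ∫ t in Ioc 0 R, Φ t ξ) (volume.restrict B) :=
      hint.integral_prod_right
    have h2 := (h1.congr hRt).add (hGi.const_mul ((R ^ (-s) : ℝ) : ℂ))
    refine h2.congr (Eventually.of_forall fun ξ => ?_)
    simp
  have hsum : ps (fun ξ => ((‖ξ‖ ^ (-s) : ℝ) : ℂ) * G ξ) R x =
      ((R ^ (-s) : ℝ) : ℂ) * ps G R x + ∫ t in Ioc 0 R, ((s * t ^ (-s - 1) : ℝ) : ℂ) *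
      ps G t x := by
    rw [← hL, hswap, integral_congr_ae hRt, integral_sub hfirst (hGi.const_mul _),
      integral_const_mul, ps, ps]
    ring
  rw [hsum]
  refine (enorm_add_le _ _).trans (add_le_add ?_ ?_)
  · rw [enorm_mul, ← ofReal_norm, Complex.norm_real, Real.norm_of_nonneg (by positivity)]
  · refine (enorm_integral_le_lintegral_enorm _).trans (le_of_eq ?_)
    refine setLIntegral_congr_fun measurableSet_Ioc fun t ht => ?_
    have ht0 : 0 < t := ht.1
    rw [enorm_mul, ← ofReal_norm, Complex.norm_real, Real.norm_of_nonneg (by positivity)]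

end Pool.Agent.U556.CL
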