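import Mathlib
import Pool.Agent.U556.CL5

/-!
A pointwise inequality of Hedberg type for the maximal ball partial sums.
-/

set_option autoImplicit false
set_option linter.unusedSectionVars false

open MeasureTheory Real Set Filter Topology FourierTransform
open scoped ENNReal NNReal RealInnerProductSpace SchwartzMap

namespace Pool.Agent.U556.CL

open Pool.Agent.Helper93.Sph Pool.Agent.U588.Sph Pool.Agent.U556.CK

/-- the constant in the pointwise inequality -/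
noncomputable def Ch (m : ℕ) (s : ℝ) : ℝ :=
  ((m : ℝ) + 1) / ((m : ℝ) + 1 - 2 * s) * vb (m + 1) ^ (s / ((m : ℝ) + 1))

lemma Ch_pos {m : ℕ} {s : ℝ} (hs : 2 * s < (m : ℝ) + 1) : 0 < Ch m s := by
  have hv := vb_pos (m + 1)
  have : 0 < (m : ℝ) + 1 - 2 * s := by linarith
  unfold Ch
  positivity

/-- the pointwise inequality -/
lemma hed {m : ℕ} {s : ℝ} (hs0 : 0 < s) (hs : 2 * s < (m : ℝ) + 1) {G : En (m + 1) → ℂ}
    (hGm : Measurable G) (hG : MemLp G 2) {R : ℝ} (hR : 0 < R) (x : En (m + 1)) :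
    ‖ps (fun ξ => ((‖ξ‖ ^ (-s) : ℝ) : ℂ) * G ξ) R x‖ₑ ≤
      ENNReal.ofReal (Ch m s) * (smax (Ioi 0) G x) ^ (1 - 2 * s / ((m : ℝ) + 1)) *
        (∫⁻ ξ, ‖G ξ‖ₑ ^ 2) ^ (s / ((m : ℝ) + 1)) := by
  have hv := vb_pos (m + 1)
  have hC := Ch_pos hs
  set d : ℝ := (m : ℝ) + 1 with hd
  have hd0 : 0 < d := by linarith
  have hd2 : 0 < d - 2 * s := by linarith
  have hEt := en2_ne_top hG
  set E : ℝ := (∫⁻ ξ, ‖G ξ‖ₑ ^ 2).toReal with hE
  have hEE : ∫⁻ ξ, ‖G ξ‖ₑ ^ 2 = ENNReal.ofReal E := (ENNReal.ofReal_toReal hEt).symm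
  have hE0 : 0 ≤ E := ENNReal.toReal_nonneg
  set v : ℝ := vb (m + 1) with hvdef
  set a : ℝ := (v * E) ^ (1 / 2 : ℝ) with ha
  have ha0 : 0 ≤ a := by positivity
  set M : ℝ≥0∞ := smax (Ioi 0) G x with hM
  have hM1 : ∀ t : ℝ, 0 < t → ‖ps G t x‖ₑ ≤ M := fun t ht =>
    le_iSup₂ (f := fun R (_ : R ∈ Ioi (0 : ℝ)) => ‖ps G R x‖ₑ) t ht
  have hA1 : ∀ t : ℝ, 0 < t → ‖ps G t x‖ₑ ≤ ENNReal.ofReal (a * t ^ (d / 2)) := fun t ht =>
    (ps_l1 t x).trans (ball_l1 hGm hG ht.le)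
  have hrep := norm_rep hs0 hs hGm hG hR x
  refine hrep.trans ?_
  have hexp : 0 < 1 - 2 * s / d := by
    rw [sub_pos, div_lt_one hd0]; exact hs
  rcases eq_or_ne M 0 with h0 | h0
  · have h1 : ∀ t : ℝ, 0 < t → ‖ps G t x‖ₑ = 0 := fun t ht => le_antisymm (h0 ▸ hM1 t ht) zero_le
    rw [h1 R hR, mul_zero, zero_add, setLIntegral_congr_fun (g := fun _ => 0) measurableSet_Ioc
      (fun t ht => by rw [h1 t ht.1, mul_zero])]
    simp
  have hE1 : 0 < E := by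
    rcases hE0.eq_or_lt with h | h
    · exfalso
      apply h0
      refine le_antisymm ?_ zero_le
      rw [hM]
      unfold smax
      refine iSup₂_le fun t ht => (hA1 t ht).trans ?_
      rw [ha, ← h]
      simp
    · exact h
  have ha1 : 0 < a := by positivity
  rcases eq_or_ne M ∞ with ht | ht
  · rw [ht, ENNReal.top_rpow_of_pos hexp, hEE, ENNReal.ofReal_rpow_of_pos hE1,
      ENNReal.mul_top (by simpa using hC), ENNReal.top_mul]
    · exact le_top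
    · simp only [ne_eq, ENNReal.ofReal_eq_zero, not_le]
      positivity
  set Mr : ℝ := M.toReal with hMr
  have hMr0 : 0 < Mr := ENNReal.toReal_pos h0 ht
  have hMM : M = ENNReal.ofReal Mr := (ENNReal.ofReal_toReal ht).symm
  set T : ℝ := (Mr / a) ^ (2 / d) with hT
  have hT0 : 0 < T := by positivity
  have eT : a * T ^ (d / 2) = Mr := by
    rw [hT, ← Real.rpow_mul (by positivity), show 2 / d * (d / 2) = 1 by field_simp, Real.rpow_one]
    field_simp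
  have hR2 : ∀ r : ℝ, 0 < r → r ^ (-s) * (a * r ^ (d / 2)) = a * r ^ (d / 2 - s) := by
    intro r hr
    rw [show d / 2 - s = -s + d / 2 by ring, Real.rpow_add hr]
    ring
  have hd3 : 0 < d / 2 - s := by linarith
  have hgoal : ENNReal.ofReal (Ch m s) * M ^ (1 - 2 * s / d) * (∫⁻ ξ, ‖G ξ‖ₑ ^ 2) ^ (s / d) =
      ENNReal.ofReal (d / (d - 2 * s) * (a * T ^ (d / 2 - s))) := by
    rw [hMM, hEE, ENNReal.ofReal_rpow_of_pos hMr0, ENNReal.ofReal_rpow_of_pos hE1,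
      ← ENNReal.ofReal_mul hC.le, ← ENNReal.ofReal_mul (by positivity)]
    congr 1
    rw [← hR2 T hT0, eT, Ch, ← hd]
    have e1 : T ^ (-s) = Mr ^ (-(2 * s / d)) * a ^ (2 * s / d) := by
      rw [hT, ← Real.rpow_mul (by positivity), Real.div_rpow hMr0.le ha0,
        show 2 / d * -s = -(2 * s / d) by ring, Real.rpow_neg ha0, div_eq_mul_inv, inv_inv]
    have e2 : a ^ (2 * s / d) = v ^ (s / d) * E ^ (s / d) := by
      rw [ha, ← Real.rpow_mul (by positivity), show 1 / 2 * (2 * s / d) = s / d by ring,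
        Real.mul_rpow hv.le hE0]
    have e3 : Mr ^ (1 - 2 * s / d) = Mr ^ (-(2 * s / d)) * Mr := by
      rw [show 1 - 2 * s / d = -(2 * s / d) + 1 by ring, Real.rpow_add hMr0, Real.rpow_one]
    rw [e1, e2, e3]
    ring
  rw [hgoal]
  have e4 : ∀ y : ℝ, a * y + s * a * (y / (d / 2 - s)) = d / (d - 2 * s) * (a * y) := by
    intro y
    have hne : d - 2 * s ≠ 0 := hd2.ne'
    have h5 : 1 + 2 * s / (d - 2 * s) = d / (d - 2 * s) := by
      rw [eq_div_iff hne, add_mul, div_mul_cancel₀ _ hne]; ring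
    rw [show d / 2 - s = (d - 2 * s) / 2 by ring, ← h5, div_div_eq_mul_div]
    ring
  rcases le_total R T with hRT | hRT
  · calc ENNReal.ofReal (R ^ (-s)) * ‖ps G R x‖ₑ +
          ∫⁻ t in Ioc 0 R, ENNReal.ofReal (s * t ^ (-s - 1)) * ‖ps G t x‖ₑ
        ≤ ENNReal.ofReal (R ^ (-s)) * ENNReal.ofReal (a * R ^ (d / 2)) +
          ∫⁻ t in Ioc 0 R, ENNReal.ofReal (s * t ^ (-s - 1)) * ENNReal.ofReal (a * t ^ (d / 2)) := by
          refine add_le_add (mul_le_mul' le_rfl (hA1 R hR))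
            (setLIntegral_mono' measurableSet_Ioc fun t ht => ?_)
          exact mul_le_mul' le_rfl (hA1 t ht.1)
      _ = ENNReal.ofReal (d / (d - 2 * s) * (a * R ^ (d / 2 - s))) := by
          rw [int1 hs0 hs ha0 hR.le, ← ENNReal.ofReal_mul (by positivity), hR2 R hR,
            ← ENNReal.ofReal_add (by positivity) (by positivity), e4]
      _ ≤ _ := by
          refine ENNReal.ofReal_le_ofReal ?_
          have := Real.rpow_le_rpow hR.le hRT hd3.le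
          gcongr
  · calc ENNReal.ofReal (R ^ (-s)) * ‖ps G R x‖ₑ +
          ∫⁻ t in Ioc 0 R, ENNReal.ofReal (s * t ^ (-s - 1)) * ‖ps G t x‖ₑ
        ≤ ENNReal.ofReal (R ^ (-s)) * ENNReal.ofReal Mr +
          ((∫⁻ t in Ioc 0 T, ENNReal.ofReal (s * t ^ (-s - 1)) * ENNReal.ofReal (a * t ^ (d / 2))) +
          ∫⁻ t in Ioc T R, ENNReal.ofReal (s * t ^ (-s - 1)) * ENNReal.ofReal Mr) := by
          refine add_le_add (mul_le_mul' le_rfl (hMM ▸ hM1 R hR)) ?_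
          rw [← Ioc_union_Ioc_eq_Ioc hT0.le hRT]
          refine (lintegral_union_le _ _ _).trans (add_le_add
            (setLIntegral_mono' measurableSet_Ioc fun t ht => ?_)
            (setLIntegral_mono' measurableSet_Ioc fun t ht => ?_))
          · exact mul_le_mul' le_rfl (hA1 t ht.1)
          · exact mul_le_mul' le_rfl (hMM ▸ hM1 t (hT0.trans ht.1))
      _ = _ := by
          have hRT' : R ^ (-s) ≤ T ^ (-s) := Real.rpow_le_rpow_of_nonpos hT0 hRT (by linarith)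
          rw [int1 hs0 hs ha0 hT0.le, int2 hs0 hMr0.le hT0 hRT, ← ENNReal.ofReal_mul (by positivity),
            ← ENNReal.ofReal_add (by positivity) (mul_nonneg hMr0.le (by linarith)),
            ← ENNReal.ofReal_add (by positivity) (add_nonneg (by positivity)
              (mul_nonneg hMr0.le (by linarith))), ← e4, ← hR2 T hT0, eT]
          congr 1
          ring

/-- the norm inequality: `K` is a bound for the square of the norm on `L²` -/
theorem hed_norm {m : ℕ} {s : ℝ} (hs0 : 0 < s) (hs : 2 * s < (m : ℝ) + 1) {K : ℝ≥0∞} (hK : K ≠ ∞)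
    (h : ∀ f : 𝓢(En (m + 1), ℂ), ∫⁻ x, smax (Ioi 0) (𝓕 f : 𝓢(En (m + 1), ℂ)) x ^ 2 ≤
      K * ∫⁻ x, ‖f x‖ₑ ^ 2) {F : En (m + 1) → ℂ} (hF : Measurable F)
    (hW : ∫⁻ ξ, wt s ξ * ‖F ξ‖ₑ ^ 2 ≠ ∞) :
    nq (qe m s) volume (smax (Ioi 0) F) ≤ ENNReal.ofReal (Ch m s) * K ^ (1 / qe m s) *
      (∫⁻ ξ, wt s ξ * ‖F ξ‖ₑ ^ 2) ^ (1 / 2 : ℝ) := by
  have hq := qe_gt hs0 hs
  set q := qe m s with hqdef
  have hq0 : 0 < q := by linarith
  have hd2 : 0 < (m : ℝ) + 1 - 2 * s := by linarith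
  set G : En (m + 1) → ℂ := fun ξ => ((‖ξ‖ ^ s : ℝ) : ℂ) * F ξ with hGdef
  have hGm : Measurable G := (Complex.measurable_ofReal.comp (measurable_norm.pow_const s)).mul hF
  have hGsq : ∀ ξ, ‖G ξ‖ₑ ^ 2 = wt s ξ * ‖F ξ‖ₑ ^ 2 := by
    intro ξ
    rw [hGdef]
    simp only
    rw [enorm_mul, mul_pow, ← ofReal_norm, Complex.norm_real, Real.norm_of_nonneg (by positivity),
      ← ENNReal.ofReal_pow (by positivity), wt, ← Real.rpow_natCast, ← Real.rpow_mul (norm_nonneg _),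
      mul_comm s]
    norm_num
  have hWG : ∫⁻ ξ, ‖G ξ‖ₑ ^ 2 = ∫⁻ ξ, wt s ξ * ‖F ξ‖ₑ ^ 2 := lintegral_congr hGsq
  have hGL : MemLp G 2 := by
    refine ⟨hGm.aestronglyMeasurable, ?_⟩
    have h1 : eLpNorm G 2 ^ 2 ≠ ∞ := by rw [eLp2, hWG]; exact hW
    exact lt_top_iff_ne_top.2 fun h2 => h1 (by rw [h2]; simp)
  have hps : ∀ R x, ps F R x = ps (fun ξ => ((‖ξ‖ ^ (-s) : ℝ) : ℂ) * G ξ) R x := by
    intro R x
    unfold ps
    refine integral_congr_ae (ae_restrict_of_ae ?_)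
    have h0 : ∀ᵐ ξ : En (m + 1), ξ ≠ (0 : En (m + 1)) := by
      have : ∀ᵐ ξ : En (m + 1), ξ ∉ ({0} : Set (En (m + 1))) :=
        measure_eq_zero_iff_ae_notMem.1 (measure_singleton _)
      simpa using this
    filter_upwards [h0] with ξ hξ
    have hp : 0 < ‖ξ‖ := norm_pos_iff.2 hξ
    rw [hGdef]
    simp only
    rw [← mul_assoc ((‖ξ‖ ^ (-s) : ℝ) : ℂ), ← Complex.ofReal_mul, ← Real.rpow_add hp]
    simp
  have hpt : ∀ x, smax (Ioi 0) F x ≤ ENNReal.ofReal (Ch m s) *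
      (smax (Ioi 0) G x) ^ (1 - 2 * s / ((m : ℝ) + 1)) *
        (∫⁻ ξ, ‖G ξ‖ₑ ^ 2) ^ (s / ((m : ℝ) + 1)) := by
    intro x
    refine iSup₂_le fun R hR => ?_
    rw [hps]
    exact hed hs0 hs hGm hGL hR x
  have hL2 := schwartz_L2 (Ioi 0) univ hK (by simpa using h) hGL
  rw [Measure.restrict_univ] at hL2
  set W := ∫⁻ ξ, ‖G ξ‖ₑ ^ 2 with hWdef
  have hexp : (1 - 2 * s / ((m : ℝ) + 1)) * q = 2 := by
    rw [hqdef, qe]; field_simp
  have hmain : ∫⁻ x, smax (Ioi 0) F x ^ q ≤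
      (ENNReal.ofReal (Ch m s) * W ^ (s / ((m : ℝ) + 1))) ^ q * (K * W) := by
    calc ∫⁻ x, smax (Ioi 0) F x ^ q
        ≤ ∫⁻ x, (ENNReal.ofReal (Ch m s) * W ^ (s / ((m : ℝ) + 1))) ^ q * smax (Ioi 0) G x ^ 2 := by
          refine lintegral_mono fun x => (ENNReal.rpow_le_rpow (hpt x) hq0.le).trans (le_of_eq ?_)
          rw [mul_right_comm, ENNReal.mul_rpow_of_nonneg _ _ hq0.le, ← ENNReal.rpow_mul, hexp,
            ENNReal.rpow_two]
      _ = (ENNReal.ofReal (Ch m s) * W ^ (s / ((m : ℝ) + 1))) ^ q * ∫⁻ x, smax (Ioi 0) G x ^ 2 :=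
          lintegral_const_mul _ ((smax_meas _ hGL).pow_const 2)
      _ ≤ _ := mul_le_mul' le_rfl hL2
  rw [← hWG]
  unfold nq
  refine (ENNReal.rpow_le_rpow hmain (by positivity)).trans (le_of_eq ?_)
  rw [ENNReal.mul_rpow_of_nonneg _ _ (by positivity), ← ENNReal.rpow_mul,
    mul_one_div_cancel hq0.ne', ENNReal.rpow_one, ENNReal.mul_rpow_of_nonneg _ _ (by positivity)]
  have e6 : W ^ (s / ((m : ℝ) + 1)) * W ^ (1 / q) = W ^ (1 / 2 : ℝ) := by
    rw [← ENNReal.rpow_add_of_nonneg _ _ (by positivity) (by positivity)]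
    congr 1
    rw [hqdef, qe]; field_simp; ring
  rw [← e6]
  ring

end Pool.Agent.U556.CL
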