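import Mathlib
import Pool.Agent.U556.CL6

/-!
The best constants of the maximal ball partial sum operator on the homogeneous Sobolev spaces, and
their limit as the smoothness tends to zero.
-/

set_option autoImplicit false
set_option linter.unusedSectionVars false

open MeasureTheory Real Set Filter Topology FourierTransform
open scoped ENNReal NNReal RealInnerProductSpace SchwartzMap

namespace Pool.Agent.U556.CL

open Pool.Agent.Helper93.Sph Pool.Agent.U588.Sph Pool.Agent.U556.CK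

/-- the norm of `f` in the homogeneous Sobolev space -/
noncomputable def sb {m : ℕ} (s : ℝ) (f : 𝓢(En (m + 1), ℂ)) : ℝ≥0∞ :=
  (∫⁻ ξ, wt s ξ * ‖(𝓕 f : 𝓢(En (m + 1), ℂ)) ξ‖ₑ ^ 2) ^ (1 / 2 : ℝ)

/-- the norm of the maximal function -/
noncomputable def mq {m : ℕ} (s : ℝ) (f : 𝓢(En (m + 1), ℂ)) : ℝ≥0∞ :=
  nq (qe m s) volume (smax (Ioi 0) (𝓕 f : 𝓢(En (m + 1), ℂ)))

/-- the best constant -/
noncomputable def Nc (m : ℕ) (s : ℝ) : ℝ≥0∞ := ⨆ f : 𝓢(En (m + 1), ℂ), mq s f / sb s f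

lemma tend_rpow {ι : Type*} {l : Filter ι} {c : ι → ℝ≥0∞} {c0 : ℝ≥0∞} (hc : Tendsto c l (𝓝 c0))
    (h0 : c0 ≠ ∞) {q : ι → ℝ} {q0 : ℝ} (hq0 : 0 < q0) (hq : Tendsto q l (𝓝 q0)) :
    Tendsto (fun k => c k ^ q k) l (𝓝 (c0 ^ q0)) := by
  have h1 : Tendsto (fun k => (c k).toNNReal) l (𝓝 c0.toNNReal) :=
    (ENNReal.tendsto_toNNReal h0).comp hc
  have h2 := h1.nnrpow hq (Or.inr hq0)
  have h3 := ENNReal.tendsto_coe.2 h2
  have e0 : ((c0.toNNReal ^ q0 : ℝ≥0) : ℝ≥0∞) = c0 ^ q0 := by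
    rw [ENNReal.coe_rpow_of_nonneg _ hq0.le, ENNReal.coe_toNNReal h0]
  rw [e0] at h3
  refine h3.congr' ?_
  filter_upwards [hc.eventually (Iio_mem_nhds (lt_top_iff_ne_top.2 h0)),
    hq.eventually (lt_mem_nhds hq0)] with k hk hk'
  rw [ENNReal.coe_rpow_of_nonneg _ hk'.le, ENNReal.coe_toNNReal (ne_of_lt hk)]

lemma ps_zero_of {m : ℕ} {F : En (m + 1) → ℂ} (h : ∀ᵐ ξ : En (m + 1), F ξ = 0) (R : ℝ)
    (x : En (m + 1)) : ps F R x = 0 := by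
  unfold ps
  rw [integral_congr_ae (g := fun _ => (0 : ℂ))]
  · simp
  · refine ae_restrict_of_ae ?_
    filter_upwards [h] with ξ hξ
    rw [hξ, mul_zero]

lemma mq_zero {m : ℕ} {s : ℝ} (hq : 0 < qe m s) {f : 𝓢(En (m + 1), ℂ)} (h : sb s f = 0) :
    mq s f = 0 := by
  have h1 : ∫⁻ ξ, wt s ξ * ‖(𝓕 f : 𝓢(En (m + 1), ℂ)) ξ‖ₑ ^ 2 = 0 := by
    unfold sb at h
    rcases ENNReal.rpow_eq_zero_iff.1 h with h2 | h2
    · exact h2.1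
    · exact absurd h2.2 (by norm_num)
  have h3 : ∀ᵐ ξ : En (m + 1), (𝓕 f : 𝓢(En (m + 1), ℂ)) ξ = 0 := by
    replace h1 := (lintegral_eq_zero_iff (μ := volume)
      (f := fun ξ : En (m + 1) => wt s ξ * ‖(𝓕 f : 𝓢(En (m + 1), ℂ)) ξ‖ₑ ^ 2)
      ((wt_meas s).mul ((𝓕 f : 𝓢(En (m + 1), ℂ)).continuous.enorm.measurable.pow_const 2))).1 h1
    have h0 : ∀ᵐ ξ : En (m + 1), ξ ≠ (0 : En (m + 1)) := by
      have : ∀ᵐ ξ : En (m + 1), ξ ∉ ({0} : Set (En (m + 1))) :=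
        measure_eq_zero_iff_ae_notMem.1 (measure_singleton _)
      simpa using this
    filter_upwards [h1, h0] with ξ h h'
    have hp : 0 < ‖ξ‖ := norm_pos_iff.2 h'
    simp only [Pi.zero_apply, mul_eq_zero, wt, ENNReal.ofReal_eq_zero] at h
    rcases h with h | h
    · exact absurd h (not_le.2 (by positivity))
    · simpa using h
  unfold mq nq
  have h4 : ∀ x, smax (Ioi 0) (𝓕 f : 𝓢(En (m + 1), ℂ)) x = 0 := by
    intro x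
    refine le_antisymm (iSup₂_le fun R _ => ?_) zero_le
    rw [ps_zero_of h3]
    simp
  simp_rw [h4]
  rw [ENNReal.zero_rpow_of_pos hq]
  simp [hq]

lemma spec {m : ℕ} {s : ℝ} (hq : 0 < qe m s) {f : 𝓢(En (m + 1), ℂ)} (h : sb s f ≠ ∞) :
    mq s f ≤ Nc m s * sb s f := by
  rcases eq_or_ne (sb s f) 0 with h0 | h0
  · rw [mq_zero hq h0]
    exact zero_le
  · have h1 : mq s f / sb s f ≤ Nc m s := le_iSup (fun f : 𝓢(En (m + 1), ℂ) => mq s f / sb s f) f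
    exact (ENNReal.div_le_iff h0 h).1 h1

lemma Nc_le {m : ℕ} {s : ℝ} {C : ℝ≥0∞} (h : ∀ f : 𝓢(En (m + 1), ℂ), mq s f ≤ C * sb s f) :
    Nc m s ≤ C := iSup_le fun f => ENNReal.div_le_of_le_mul (h f)

/-- the first part -/
theorem part1 {m : ℕ} {s : ℝ} (hs0 : 0 < s) (hs : 2 * s < (m : ℝ) + 1) :
    Nc m s ≤ ENNReal.ofReal (Kc m s * As m s) := by
  refine Nc_le fun f => ?_
  have h := max_s hs0 hs ((𝓕 f : 𝓢(En (m + 1), ℂ)).memLp 2 volume)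
  refine le_trans ?_ h
  unfold mq
  refine nq_mono (by have := qe_gt hs0 hs; linarith) fun x => ?_
  exact iSup₂_le fun R _ => le_iSup (fun R : ℝ => ‖ps (𝓕 f : 𝓢(En (m + 1), ℂ)) R x‖ₑ) R

lemma qe_zero (m : ℕ) : qe m 0 = 2 := by
  unfold qe
  have : (0 : ℝ) < (m : ℝ) + 1 := by positivity
  rw [mul_zero, sub_zero]
  field_simp

lemma sb_zero {m : ℕ} (f : 𝓢(En (m + 1), ℂ)) : sb 0 f ^ 2 = ∫⁻ x, ‖f x‖ₑ ^ 2 := by
  have e : ∫⁻ ξ, wt 0 ξ * ‖(𝓕 f : 𝓢(En (m + 1), ℂ)) ξ‖ₑ ^ 2 = ∫⁻ x, ‖f x‖ₑ ^ 2 := by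
    rw [lint_two f]
    have h5 := SchwartzMap.norm_fourier_toL2_eq f
    rw [SchwartzMap.norm_toLp, SchwartzMap.norm_toLp] at h5
    rw [← (ENNReal.toReal_eq_toReal_iff' ((𝓕 f : 𝓢(En (m + 1), ℂ)).memLp 2 volume).2.ne
      (f.memLp 2 volume).2.ne).1 h5, ← lint_two]
    refine lintegral_congr fun ξ => ?_
    simp [wt]
  unfold sb
  rw [e, ← ENNReal.rpow_natCast, ← ENNReal.rpow_mul]
  norm_num

lemma sb_zero_fin {m : ℕ} (f : 𝓢(En (m + 1), ℂ)) : sb 0 f ≠ ∞ := by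
  have h : sb 0 f ^ 2 ≠ ∞ := by
    rw [sb_zero]
    exact en2_ne_top (f.memLp 2 volume)
  exact fun h2 => h (by rw [h2]; simp)

lemma mq_zero_sq {m : ℕ} (f : 𝓢(En (m + 1), ℂ)) :
    mq 0 f ^ 2 = ∫⁻ x, smax (Ioi 0) (𝓕 f : 𝓢(En (m + 1), ℂ)) x ^ 2 := by
  unfold mq nq
  rw [qe_zero, ← ENNReal.rpow_natCast, ← ENNReal.rpow_mul]
  norm_num

/-- the second part -/
theorem part2 {m : ℕ} {s : ℝ} (hs0 : 0 < s) (hs : 2 * s < (m : ℝ) + 1) :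
    Nc m s ≤ ENNReal.ofReal (Ch m s) * Nc m 0 ^ (1 - 2 * s / ((m : ℝ) + 1)) := by
  have hd0 : 0 < (m : ℝ) + 1 := by positivity
  have hexp : 0 < 1 - 2 * s / ((m : ℝ) + 1) := by
    rw [sub_pos, div_lt_one hd0]; exact hs
  have hd2 : 0 < (m : ℝ) + 1 - 2 * s := by linarith
  rcases eq_or_ne (Nc m 0) ∞ with ht | ht
  · rw [ht, ENNReal.top_rpow_of_pos hexp, ENNReal.mul_top (by simpa using Ch_pos hs)]
    exact le_top
  have hK : ∀ f : 𝓢(En (m + 1), ℂ), ∫⁻ x, smax (Ioi 0) (𝓕 f : 𝓢(En (m + 1), ℂ)) x ^ 2 ≤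
      Nc m 0 ^ 2 * ∫⁻ x, ‖f x‖ₑ ^ 2 := by
    intro f
    rw [← mq_zero_sq, ← sb_zero, ← mul_pow]
    exact pow_le_pow_left' (spec (by rw [qe_zero]; norm_num) (sb_zero_fin f)) 2
  unfold Nc
  refine iSup_le fun f => ?_
  rcases eq_or_ne (sb s f) ∞ with h | h
  · rw [h]; simp
  refine ENNReal.div_le_of_le_mul ?_
  have hW : ∫⁻ ξ, wt s ξ * ‖(𝓕 f : 𝓢(En (m + 1), ℂ)) ξ‖ₑ ^ 2 ≠ ∞ := by
    intro h2
    apply h
    unfold sb
    rw [h2, ENNReal.top_rpow_of_pos (by norm_num)]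
  have h3 := hed_norm hs0 hs (ENNReal.pow_ne_top ht) hK
    (𝓕 f : 𝓢(En (m + 1), ℂ)).continuous.measurable hW
  refine h3.trans (le_of_eq ?_)
  rw [sb]
  congr 2
  rw [← ENNReal.rpow_natCast, ← ENNReal.rpow_mul]
  change Nc m 0 ^ _ = Nc m 0 ^ _
  congr 1
  unfold qe
  push_cast
  field_simp

end Pool.Agent.U556.CL
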