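import Mathlib
import Pool.Agent.U556.CL7

/-!
The limit of the best constants as the smoothness tends to zero.
-/

set_option autoImplicit false
set_option linter.unusedSectionVars false

open MeasureTheory Real Set Filter Topology FourierTransform
open scoped ENNReal NNReal RealInnerProductSpace SchwartzMap

namespace Pool.Agent.U556.CL

open Pool.Agent.Helper93.Sph Pool.Agent.U588.Sph Pool.Agent.U556.CK

lemma fin_bound {m : ℕ} (F : 𝓢(En (m + 1), ℂ)) (k : ℕ) :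
    ∫⁻ ξ, ENNReal.ofReal (1 + ‖ξ‖ ^ (2 * k)) * ‖F ξ‖ₑ ^ 2 ≠ ∞ := by
  obtain ⟨C0, hC0, h0⟩ := F.decay 0 0
  obtain ⟨C2, hC2, h2⟩ := F.decay (2 * k) 0
  have h1 : ∫⁻ ξ, ENNReal.ofReal (1 + ‖ξ‖ ^ (2 * k)) * ‖F ξ‖ₑ ^ 2 ≤
      ENNReal.ofReal (C0 + C2) * ∫⁻ ξ, ‖F ξ‖ₑ := by
    rw [← lintegral_const_mul' _ _ ENNReal.ofReal_ne_top]
    refine lintegral_mono fun ξ => ?_
    have h3 := h0 ξ
    have h4 := h2 ξ
    rw [norm_iteratedFDeriv_zero] at h3 h4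
    rw [pow_zero, one_mul] at h3
    rw [sq (‖F ξ‖ₑ), ← mul_assoc, ← ofReal_norm, ← ENNReal.ofReal_mul (by positivity),
      ← ENNReal.ofReal_mul (by positivity), ← ENNReal.ofReal_mul (by positivity)]
    refine ENNReal.ofReal_le_ofReal (mul_le_mul_of_nonneg_right ?_ (norm_nonneg _))
    rw [add_mul, one_mul]
    exact add_le_add h3 h4
  have h5 : ∫⁻ ξ, ‖F ξ‖ₑ ≠ ∞ := (F.integrable (μ := volume)).2.ne
  exact ne_top_of_le_ne_top (ENNReal.mul_ne_top ENNReal.ofReal_ne_top h5) h1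

lemma wt_le {m : ℕ} {s : ℝ} {k : ℕ} (hs0 : 0 ≤ s) (hs1 : s ≤ k) (ξ : En (m + 1)) :
    wt s ξ ≤ ENNReal.ofReal (1 + ‖ξ‖ ^ (2 * k)) := by
  unfold wt
  refine ENNReal.ofReal_le_ofReal ?_
  rcases le_total ‖ξ‖ 1 with h | h
  · have h1 := Real.rpow_le_one (norm_nonneg ξ) h (by linarith : 0 ≤ 2 * s)
    have h2 : 0 ≤ ‖ξ‖ ^ (2 * k) := by positivity
    linarith
  · have h1 := Real.rpow_le_rpow_of_exponent_le h (by linarith : 2 * s ≤ 2 * k)
    have h2 : ‖ξ‖ ^ (2 * (k : ℝ)) = ‖ξ‖ ^ (2 * k) := by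
      rw [← Real.rpow_natCast]
      push_cast
      rfl
    rw [h2] at h1
    linarith

lemma sb_fin {m : ℕ} {s : ℝ} (hs0 : 0 ≤ s) (f : 𝓢(En (m + 1), ℂ)) : sb s f ≠ ∞ := by
  obtain ⟨k, hk⟩ := exists_nat_ge s
  unfold sb
  refine ENNReal.rpow_ne_top_of_nonneg (by norm_num) ?_
  refine ne_top_of_le_ne_top (fin_bound (𝓕 f : 𝓢(En (m + 1), ℂ)) k) (lintegral_mono fun ξ => ?_)
  exact mul_le_mul' (wt_le hs0 hk ξ) le_rfl

/-- the norms converge as the smoothness tends to zero -/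
lemma sb_tend {m : ℕ} (f : 𝓢(En (m + 1), ℂ)) {u : ℕ → ℝ} (hu : Tendsto u atTop (𝓝[>] 0)) :
    Tendsto (fun k => sb (u k) f) atTop (𝓝 (sb 0 f)) := by
  unfold sb
  refine (ENNReal.continuous_rpow_const.tendsto _).comp ?_
  have hu0 : Tendsto u atTop (𝓝 0) := hu.mono_right nhdsWithin_le_nhds
  have hmem : ∀ᶠ k in atTop, u k ∈ Ioc (0 : ℝ) 1 := by
    have h1 : ∀ᶠ s in 𝓝[>] (0 : ℝ), s ∈ Ioc (0 : ℝ) 1 := Ioc_mem_nhdsGT one_pos
    exact hu.eventually h1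
  obtain ⟨K, hK⟩ := eventually_atTop.1 hmem
  rw [← tendsto_add_atTop_iff_nat K]
  refine tendsto_lintegral_of_dominated_convergence
    (fun ξ => ENNReal.ofReal (1 + ‖ξ‖ ^ (2 * 1)) * ‖(𝓕 f : 𝓢(En (m + 1), ℂ)) ξ‖ₑ ^ 2) ?_ ?_
    (fin_bound _ 1) ?_
  · intro k
    exact (wt_meas _).mul ((𝓕 f : 𝓢(En (m + 1), ℂ)).continuous.enorm.measurable.pow_const 2)
  · intro k
    have := hK (k + K) (by omega)
    exact Eventually.of_forall fun ξ => mul_le_mul' (wt_le this.1.le (by simpa using this.2) ξ) le_rfl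
  · have h0 : ∀ᵐ ξ : En (m + 1), ξ ≠ (0 : En (m + 1)) := by
      have : ∀ᵐ ξ : En (m + 1), ξ ∉ ({0} : Set (En (m + 1))) :=
        measure_eq_zero_iff_ae_notMem.1 (measure_singleton _)
      simpa using this
    filter_upwards [h0] with ξ hξ
    have hp : 0 < ‖ξ‖ := norm_pos_iff.2 hξ
    refine ENNReal.Tendsto.mul_const ?_ (Or.inr (by simp))
    unfold wt
    refine ENNReal.tendsto_ofReal ?_
    have h1 : Tendsto (fun k => 2 * u (k + K)) atTop (𝓝 (2 * 0)) :=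
      ((tendsto_add_atTop_iff_nat K).2 hu0).const_mul 2
    have h2 : ContinuousAt (fun y : ℝ => ‖ξ‖ ^ y) (2 * 0) :=
      Real.continuousAt_const_rpow hp.ne'
    exact h2.tendsto.comp h1

lemma qe_tend (m : ℕ) {u : ℕ → ℝ} (hu0 : Tendsto u atTop (𝓝 0)) :
    Tendsto (fun k => qe m (u k)) atTop (𝓝 2) := by
  have hd : (0 : ℝ) < (m : ℝ) + 1 := by positivity
  have h1 : Tendsto (fun k => 2 * ((m : ℝ) + 1) / ((m : ℝ) + 1 - 2 * u k)) atTop
      (𝓝 (2 * ((m : ℝ) + 1) / ((m : ℝ) + 1 - 2 * 0))) := by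
    refine Tendsto.div tendsto_const_nhds (tendsto_const_nhds.sub (hu0.const_mul 2)) ?_
    rw [mul_zero, sub_zero]
    exact hd.ne'
  have e : 2 * ((m : ℝ) + 1) / ((m : ℝ) + 1 - 2 * 0) = 2 := by
    rw [mul_zero, sub_zero]
    field_simp
  rw [e] at h1
  exact h1

lemma smax_fin {m : ℕ} (f : 𝓢(En (m + 1), ℂ)) (x : En (m + 1)) :
    smax (Ioi 0) (𝓕 f : 𝓢(En (m + 1), ℂ)) x ≠ ∞ := by
  have h5 : ∫⁻ ξ, ‖(𝓕 f : 𝓢(En (m + 1), ℂ)) ξ‖ₑ ≠ ∞ :=
    ((𝓕 f : 𝓢(En (m + 1), ℂ)).integrable (μ := volume)).2.ne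
  refine ne_top_of_le_ne_top h5 (iSup₂_le fun R _ => ?_)
  exact (ps_l1 R x).trans (setLIntegral_le_lintegral _ _)

/-- the lower bound: Fatou's lemma -/
theorem part3a (m : ℕ) : Nc m 0 ≤ liminf (Nc m) (𝓝[>] 0) := by
  have hd : (0 : ℝ) < (m : ℝ) + 1 := by positivity
  refine le_of_forall_gt_imp_ge_of_dense fun a ha => ?_
  rcases eq_or_ne a ∞ with rfl | hat
  · exact le_top
  obtain ⟨u, hu, hua⟩ := exists_seq_forall_of_frequently (frequently_lt_of_liminf_lt (h := ha))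
  have hu0 : Tendsto u atTop (𝓝 0) := hu.mono_right nhdsWithin_le_nhds
  have hmem : ∀ᶠ k in atTop, u k ∈ Ioc (0 : ℝ) 1 := hu.eventually (Ioc_mem_nhdsGT one_pos)
  have hmem2 : ∀ᶠ k in atTop, 2 * u k < (m : ℝ) + 1 := by
    have : ∀ᶠ k in atTop, u k < ((m : ℝ) + 1) / 2 := hu0.eventually (gt_mem_nhds (by positivity))
    filter_upwards [this] with k hk
    linarith
  refine Nc_le fun f => ?_
  set M : En (m + 1) → ℝ≥0∞ := smax (Ioi 0) (𝓕 f : 𝓢(En (m + 1), ℂ)) with hM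
  have hMm : Measurable M := smax_meas _ ((𝓕 f : 𝓢(En (m + 1), ℂ)).memLp 2 volume)
  have h1 : ∀ᶠ k in atTop, ∫⁻ x, M x ^ qe m (u k) ≤ (a * sb (u k) f) ^ qe m (u k) := by
    filter_upwards [hmem, hmem2] with k hk hk2
    have hq := qe_gt hk.1 hk2
    have h2 : mq (u k) f ≤ a * sb (u k) f :=
      (spec (by linarith) (sb_fin hk.1.le f)).trans (mul_le_mul' (hua k).le le_rfl)
    have h3 := ENNReal.rpow_le_rpow h2 (by linarith : 0 ≤ qe m (u k))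
    rwa [mq, nq_pow (by linarith)] at h3
  have h2 : Tendsto (fun k => (a * sb (u k) f) ^ qe m (u k)) atTop (𝓝 ((a * sb 0 f) ^ (2 : ℝ))) :=
    tend_rpow (ENNReal.Tendsto.const_mul (sb_tend f hu) (Or.inr hat))
      (ENNReal.mul_ne_top hat (sb_zero_fin f)) (by norm_num) (qe_tend m hu0)
  have h3 : ∀ x, Tendsto (fun k => M x ^ qe m (u k)) atTop (𝓝 (M x ^ (2 : ℝ))) := fun x =>
    tend_rpow tendsto_const_nhds (smax_fin f x) (by norm_num) (qe_tend m hu0)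
  have h4 : ∫⁻ x, M x ^ (2 : ℝ) ≤ (a * sb 0 f) ^ (2 : ℝ) := by
    calc ∫⁻ x, M x ^ (2 : ℝ) = ∫⁻ x, liminf (fun k => M x ^ qe m (u k)) atTop :=
          lintegral_congr fun x => (h3 x).liminf_eq.symm
      _ ≤ liminf (fun k => ∫⁻ x, M x ^ qe m (u k)) atTop :=
          lintegral_liminf_le fun k => hMm.pow_const _
      _ ≤ liminf (fun k => (a * sb (u k) f) ^ qe m (u k)) atTop := liminf_le_liminf h1
      _ = _ := h2.liminf_eq
  have h5 := ENNReal.rpow_le_rpow h4 (by norm_num : (0 : ℝ) ≤ 1 / 2)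
  rw [← ENNReal.rpow_mul] at h5
  unfold mq nq
  rw [qe_zero]
  refine h5.trans (le_of_eq ?_)
  norm_num

/-- **the limit** -/
theorem part3 (m : ℕ) : Tendsto (Nc m) (𝓝[>] 0) (𝓝 (Nc m 0)) := by
  have hd : (0 : ℝ) < (m : ℝ) + 1 := by positivity
  rcases eq_or_ne (Nc m 0) ∞ with ht | ht
  · have h1 := part3a m
    rw [ht] at h1 ⊢
    exact tendsto_of_le_liminf_of_limsup_le h1 le_top
  refine tendsto_of_le_liminf_of_limsup_le (part3a m) ?_
  have hs : Tendsto (fun s : ℝ => s) (𝓝[>] 0) (𝓝 0) := tendsto_id.mono_left nhdsWithin_le_nhds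
  have h1 : Tendsto (fun s : ℝ => ENNReal.ofReal (Ch m s) *
      Nc m 0 ^ (1 - 2 * s / ((m : ℝ) + 1))) (𝓝[>] 0) (𝓝 (ENNReal.ofReal 1 * Nc m 0 ^ (1 : ℝ))) := by
    refine ENNReal.Tendsto.mul (ENNReal.tendsto_ofReal ?_) (Or.inl (by simp))
      (tend_rpow tendsto_const_nhds ht one_pos ?_) (Or.inr (by simp))
    · have h2 : Tendsto (fun s : ℝ => ((m : ℝ) + 1) / ((m : ℝ) + 1 - 2 * s)) (𝓝[>] 0)
          (𝓝 (((m : ℝ) + 1) / ((m : ℝ) + 1 - 2 * 0))) := by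
        refine Tendsto.div tendsto_const_nhds (tendsto_const_nhds.sub (hs.const_mul 2)) ?_
        rw [mul_zero, sub_zero]
        exact hd.ne'
      have h3 : Tendsto (fun s : ℝ => s / ((m : ℝ) + 1)) (𝓝[>] 0) (𝓝 (0 / ((m : ℝ) + 1))) :=
        hs.div_const _
      rw [zero_div] at h3
      have h4 : Tendsto (fun s : ℝ => vb (m + 1) ^ (s / ((m : ℝ) + 1))) (𝓝[>] 0)
          (𝓝 (vb (m + 1) ^ (0 : ℝ))) :=
        (Real.continuousAt_const_rpow (vb_pos (m + 1)).ne').tendsto.comp h3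
      have h5 := h2.mul h4
      have e : ((m : ℝ) + 1) / ((m : ℝ) + 1 - 2 * 0) * vb (m + 1) ^ (0 : ℝ) = 1 := by
        rw [mul_zero, sub_zero, Real.rpow_zero, div_self hd.ne', mul_one]
      rw [e] at h5
      exact h5
    · have h2 : Tendsto (fun s : ℝ => 1 - 2 * s / ((m : ℝ) + 1)) (𝓝[>] 0)
          (𝓝 (1 - 2 * 0 / ((m : ℝ) + 1))) :=
        tendsto_const_nhds.sub ((hs.const_mul 2).div_const _)
      rw [mul_zero, zero_div, sub_zero] at h2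
      exact h2
  rw [ENNReal.ofReal_one, one_mul, ENNReal.rpow_one] at h1
  rw [← h1.limsup_eq]
  refine limsup_le_limsup ?_
  have hev : ∀ᶠ s : ℝ in 𝓝[>] 0, s ∈ Ioo (0 : ℝ) (((m : ℝ) + 1) / 2) :=
    Ioo_mem_nhdsGT (by positivity)
  filter_upwards [hev] with s hs'
  exact part2 hs'.1 (by linarith [hs'.2])

end Pool.Agent.U556.CL
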