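import Mathlib
import Pool.Agent.U556.CL8

/-!
The local form of the limit theorem.
-/

set_option autoImplicit false
set_option linter.unusedSectionVars false

open MeasureTheory Real Set Filter Topology FourierTransform
open scoped ENNReal NNReal RealInnerProductSpace SchwartzMap

namespace Pool.Agent.U556.CL

open Pool.Agent.Helper93.Sph Pool.Agent.U588.Sph Pool.Agent.U556.CK

/-- the norm of the maximal function in `L²` of a ball -/
noncomputable def ml {m : ℕ} (ρ : ℝ) (f : 𝓢(En (m + 1), ℂ)) : ℝ≥0∞ :=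
  (∫⁻ x in Metric.closedBall (0 : En (m + 1)) ρ,
    smax (Ioi 0) (𝓕 f : 𝓢(En (m + 1), ℂ)) x ^ 2) ^ (1 / 2 : ℝ)

/-- the best local constant -/
noncomputable def Lc (m : ℕ) (ρ s : ℝ) : ℝ≥0∞ := ⨆ f : 𝓢(En (m + 1), ℂ), ml ρ f / sb s f

lemma ml_le {m : ℕ} {ρ s : ℝ} (hs0 : 0 < s) (hs : 2 * s < (m : ℝ) + 1) (f : 𝓢(En (m + 1), ℂ)) :
    ml ρ f ≤ volume (Metric.closedBall (0 : En (m + 1)) ρ) ^ (s / ((m : ℝ) + 1)) * mq s f := by
  have hq := qe_gt hs0 hs
  have hd2 : 0 < (m : ℝ) + 1 - 2 * s := by linarith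
  unfold ml mq nq
  set q := qe m s with hqdef
  set M : En (m + 1) → ℝ≥0∞ := smax (Ioi 0) (𝓕 f : 𝓢(En (m + 1), ℂ)) with hM
  have hMm : Measurable M := smax_meas _ ((𝓕 f : 𝓢(En (m + 1), ℂ)).memLp 2 volume)
  set B := Metric.closedBall (0 : En (m + 1)) ρ with hB
  have hpq : (q / 2).HolderConjugate ((q / 2).conjExponent) :=
    Real.HolderConjugate.conjExponent (by linarith)
  have h1 := ENNReal.lintegral_mul_le_Lp_mul_Lq (volume.restrict B) hpq
    (f := fun x => M x ^ 2) (g := fun _ => 1) (hMm.pow_const 2).aemeasurable aemeasurable_const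
  simp only [Pi.mul_apply, mul_one, ENNReal.one_rpow, lintegral_one, Measure.restrict_apply_univ]
    at h1
  have e1 : ∀ x, (M x ^ 2) ^ (q / 2) = M x ^ q := by
    intro x
    rw [← ENNReal.rpow_natCast, ← ENNReal.rpow_mul]
    congr 1
    push_cast
    ring
  simp_rw [e1] at h1
  have e2 : 1 / (q / 2).conjExponent = 2 * (s / ((m : ℝ) + 1)) := by
    have h3 := hpq.inv_add_inv_eq_one
    have h4 : 1 / (q / 2).conjExponent = 1 - (q / 2)⁻¹ := by
      rw [one_div]; linarith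
    rw [h4, hqdef, qe]
    field_simp
    ring
  rw [e2] at h1
  have h5 := ENNReal.rpow_le_rpow h1 (by norm_num : (0 : ℝ) ≤ 1 / 2)
  refine h5.trans ?_
  rw [ENNReal.mul_rpow_of_nonneg _ _ (by norm_num), ← ENNReal.rpow_mul, ← ENNReal.rpow_mul, mul_comm]
  refine mul_le_mul' (le_of_eq ?_) ?_
  · congr 1
    ring
  · rw [show 1 / (q / 2) * (1 / 2) = 1 / q by field_simp]
    exact ENNReal.rpow_le_rpow (setLIntegral_le_lintegral _ _) (by
      have : 0 < q := by linarith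
      positivity)

lemma smax_all {m : ℕ} (G : En (m + 1) → ℂ) (x : En (m + 1)) :
    (⨆ R : ℝ, ‖ps G R x‖ₑ) = smax (Ioi 0) G x := by
  refine le_antisymm (iSup_le fun R => ?_) (iSup₂_le fun R _ => le_iSup (fun R : ℝ => ‖ps G R x‖ₑ) R)
  rcases lt_trichotomy R 0 with h | h | h
  · rw [Pool.Agent.U588.Sph.ps_neg G h]; simp
  · rw [h, Pool.Agent.U588.Sph.ps_zero]; simp
  · exact le_iSup₂ (f := fun R (_ : R ∈ Ioi (0 : ℝ)) => ‖ps G R x‖ₑ) R h

/-- a local bound for Schwartz functions is a global one -/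
lemma loc_glob {m : ℕ} {ρ : ℝ} (hρ : 0 < ρ) {a : ℝ≥0∞} (ha : a ≠ ∞)
    (h : ∀ f : 𝓢(En (m + 1), ℂ), ml ρ f ≤ a * sb 0 f) : Nc m 0 ≤ a := by
  have h1 : ∀ f : 𝓢(En (m + 1), ℂ), ∫⁻ x in Metric.closedBall (0 : En (m + 1)) ρ,
      smax (Ioi 0) (𝓕 f : 𝓢(En (m + 1), ℂ)) x ^ 2 ≤ a ^ 2 * ∫⁻ x, ‖f x‖ₑ ^ 2 := by
    intro f
    have h2 := pow_le_pow_left' (h f) 2
    rw [mul_pow, sb_zero] at h2
    refine le_trans (le_of_eq ?_) h2
    rw [ml, ← ENNReal.rpow_natCast _ 2, ← ENNReal.rpow_mul]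
    norm_num
  have h3 : ∀ G : En (m + 1) → ℂ, MemLp G 2 →
      ∫⁻ x in Metric.closedBall (0 : En (m + 1)) ρ, (⨆ R : ℝ, ‖ps G R x‖ₑ) ^ 2 ≤
        a ^ 2 * ∫⁻ ξ, ‖G ξ‖ₑ ^ 2 := by
    intro G hG
    simp_rw [smax_all]
    exact schwartz_L2 (Ioi 0) _ (ENNReal.pow_ne_top ha) h1 hG
  refine Nc_le fun f => ?_
  have h4 := local_global hρ h3 ((𝓕 f : 𝓢(En (m + 1), ℂ)).memLp 2 volume)
  simp_rw [smax_all] at h4
  rw [← mq_zero_sq] at h4
  have e : ∫⁻ ξ, ‖(𝓕 f : 𝓢(En (m + 1), ℂ)) ξ‖ₑ ^ 2 = sb 0 f ^ 2 := by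
    unfold sb
    rw [← ENNReal.rpow_natCast _ 2, ← ENNReal.rpow_mul]
    norm_num
    refine lintegral_congr fun ξ => ?_
    simp [wt]
  rw [e, ← mul_pow] at h4
  exact (ENNReal.pow_le_pow_left_iff (by norm_num)).1 h4

lemma ml_zero {m : ℕ} {ρ s : ℝ} {f : 𝓢(En (m + 1), ℂ)} (hq : 0 < qe m s) (h : sb s f = 0) :
    ml ρ f = 0 := by
  have h1 := mq_zero hq h
  unfold mq nq at h1
  rcases ENNReal.rpow_eq_zero_iff.1 h1 with h2 | h2
  · have hMm : Measurable (smax (Ioi 0) (𝓕 f : 𝓢(En (m + 1), ℂ))) :=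
      smax_meas _ ((𝓕 f : 𝓢(En (m + 1), ℂ)).memLp 2 volume)
    have h3 := (lintegral_eq_zero_iff (hMm.pow_const (qe m s))).1 h2.1
    unfold ml
    have h4 : ∫⁻ x in Metric.closedBall (0 : En (m + 1)) ρ,
        smax (Ioi 0) (𝓕 f : 𝓢(En (m + 1), ℂ)) x ^ 2 = 0 := by
      rw [lintegral_eq_zero_iff (hMm.pow_const 2)]
      refine ae_restrict_of_ae ?_
      filter_upwards [h3] with x hx
      simp only [Pi.zero_apply] at hx ⊢
      rcases ENNReal.rpow_eq_zero_iff.1 hx with h5 | h5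
      · rw [h5.1]; simp
      · exact absurd h5.2 (not_lt.2 hq.le)
    rw [h4, ENNReal.zero_rpow_of_pos (by norm_num)]
  · exact absurd h2.2 (not_lt.2 (by positivity))

/-- the local constants are finite for positive smoothness -/
theorem part4 {m : ℕ} {ρ s : ℝ} (hs0 : 0 < s) (hs : 2 * s < (m : ℝ) + 1) :
    Lc m ρ s ≤ volume (Metric.closedBall (0 : En (m + 1)) ρ) ^ (s / ((m : ℝ) + 1)) * Nc m s := by
  refine iSup_le fun f => ENNReal.div_le_of_le_mul ?_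
  rw [mul_assoc]
  exact (ml_le hs0 hs f).trans (mul_le_mul' le_rfl
    (spec (by have := qe_gt hs0 hs; linarith) (sb_fin hs0.le f)))

/-- **the local limit** -/
theorem part5 (m : ℕ) {ρ : ℝ} (hρ : 0 < ρ) : Tendsto (Lc m ρ) (𝓝[>] 0) (𝓝 (Nc m 0)) := by
  have hd : (0 : ℝ) < (m : ℝ) + 1 := by positivity
  have hlow : Nc m 0 ≤ liminf (Lc m ρ) (𝓝[>] 0) := by
    refine le_of_forall_gt_imp_ge_of_dense fun a ha => ?_
    rcases eq_or_ne a ∞ with rfl | hat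
    · exact le_top
    obtain ⟨u, hu, hua⟩ := exists_seq_forall_of_frequently (frequently_lt_of_liminf_lt (h := ha))
    have hu0 : Tendsto u atTop (𝓝 0) := hu.mono_right nhdsWithin_le_nhds
    have hmem : ∀ᶠ k in atTop, u k ∈ Ioo (0 : ℝ) (((m : ℝ) + 1) / 2) :=
      hu.eventually (Ioo_mem_nhdsGT (by positivity))
    refine loc_glob hρ hat fun f => ?_
    have h1 : ∀ᶠ k in atTop, ml ρ f ≤ a * sb (u k) f := by
      filter_upwards [hmem] with k hk
      rcases eq_or_ne (sb (u k) f) 0 with h0 | h0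
      · rw [ml_zero (by have := qe_gt hk.1 (by linarith [hk.2] : 2 * u k < (m : ℝ) + 1); linarith) h0]
        exact zero_le
      · have h2 : ml ρ f / sb (u k) f ≤ Lc m ρ (u k) :=
          le_iSup (fun f : 𝓢(En (m + 1), ℂ) => ml ρ f / sb (u k) f) f
        exact (ENNReal.div_le_iff h0 (sb_fin hk.1.le f)).1 (h2.trans (hua k).le)
    exact ge_of_tendsto (ENNReal.Tendsto.const_mul (sb_tend f hu) (Or.inr hat)) h1
  rcases eq_or_ne (Nc m 0) ∞ with ht | ht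
  · rw [ht] at hlow ⊢
    exact tendsto_of_le_liminf_of_limsup_le hlow le_top
  refine tendsto_of_le_liminf_of_limsup_le hlow ?_
  have hs : Tendsto (fun s : ℝ => s) (𝓝[>] 0) (𝓝 0) := tendsto_id.mono_left nhdsWithin_le_nhds
  have hv0 : volume (Metric.closedBall (0 : En (m + 1)) ρ) ≠ 0 :=
    (Metric.measure_closedBall_pos _ _ hρ).ne'
  have hvt : volume (Metric.closedBall (0 : En (m + 1)) ρ) ≠ ∞ := measure_closedBall_lt_top.ne
  set V : ℝ := (volume (Metric.closedBall (0 : En (m + 1)) ρ)).toReal with hV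
  have hVp : 0 < V := ENNReal.toReal_pos hv0 hvt
  have hVV : volume (Metric.closedBall (0 : En (m + 1)) ρ) = ENNReal.ofReal V :=
    (ENNReal.ofReal_toReal hvt).symm
  have h1 : Tendsto (fun s : ℝ => volume (Metric.closedBall (0 : En (m + 1)) ρ) ^
      (s / ((m : ℝ) + 1)) * Nc m s) (𝓝[>] 0) (𝓝 (ENNReal.ofReal 1 * Nc m 0)) := by
    refine ENNReal.Tendsto.mul ?_ (Or.inl (by simp)) (part3 m) (Or.inr (by simp))
    have h3 : Tendsto (fun s : ℝ => s / ((m : ℝ) + 1)) (𝓝[>] 0) (𝓝 (0 / ((m : ℝ) + 1))) :=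
      hs.div_const _
    rw [zero_div] at h3
    have h4 : Tendsto (fun s : ℝ => V ^ (s / ((m : ℝ) + 1))) (𝓝[>] 0) (𝓝 (V ^ (0 : ℝ))) :=
      (Real.continuousAt_const_rpow hVp.ne').tendsto.comp h3
    rw [Real.rpow_zero] at h4
    refine (ENNReal.tendsto_ofReal h4).congr fun s => ?_
    rw [hVV, ENNReal.ofReal_rpow_of_pos hVp]
  rw [ENNReal.ofReal_one, one_mul] at h1
  rw [← h1.limsup_eq]
  refine limsup_le_limsup ?_
  have hev : ∀ᶠ s : ℝ in 𝓝[>] 0, s ∈ Ioo (0 : ℝ) (((m : ℝ) + 1) / 2) :=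
    Ioo_mem_nhdsGT (by positivity)
  filter_upwards [hev] with s hs'
  exact part4 hs'.1 (by linarith [hs'.2])

end Pool.Agent.U556.CL
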