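import Mathlib
import Pool.Agent.U556.CK3

/-!
Convergence almost everywhere from the extension inequality.
-/

set_option autoImplicit false
set_option linter.unusedSectionVars false

open MeasureTheory Real Set Filter Topology
open scoped ENNReal NNReal RealInnerProductSpace

namespace Pool.Agent.U556.CK

open Pool.Agent.Helper93.Sph Pool.Agent.U588.Sph Pool.Agent.U37.Sch

/-- the constant -/
noncomputable def Kq (q : ℝ) : ℝ≥0∞ := ENNReal.ofReal (1 / (1 - 2 ^ (1 / q - 1 / 2)))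

lemma r_lt {q : ℝ} (hq : 2 < q) : (2 : ℝ) ^ (1 / q - 1 / 2) < 1 := by
  refine Real.rpow_lt_one_of_one_lt_of_neg (by norm_num) ?_
  have : 1 / q < 1 / 2 := one_div_lt_one_div_of_lt (by norm_num) hq
  linarith

lemma Kq_spec {q : ℝ} (hq : 2 < q) : 1 + Kq q * 2 ^ (1 / q - 1 / 2) ≤ Kq q := by
  have h1 := r_lt hq
  have h2 : (0 : ℝ) < (2 : ℝ) ^ (1 / q - 1 / 2) := by positivity
  have e1 : (2 : ℝ≥0∞) ^ (1 / q - 1 / 2) = ENNReal.ofReal ((2 : ℝ) ^ (1 / q - 1 / 2)) := by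
    rw [← ENNReal.ofReal_rpow_of_pos (by norm_num)]
    norm_num
  rw [e1, Kq]
  generalize (2 : ℝ) ^ (1 / q - 1 / 2) = r at h1 h2
  have h3 : 0 < 1 - r := by linarith
  rw [← ENNReal.ofReal_mul (by positivity), ← ENNReal.ofReal_one,
    ← ENNReal.ofReal_add (by norm_num) (by positivity)]
  refine ENNReal.ofReal_le_ofReal (le_of_eq ?_)
  field_simp
  ring

lemma Kq_ne_top (q : ℝ) : Kq q ≠ ∞ := ENNReal.ofReal_ne_top

/-- **convergence almost everywhere** -/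
theorem conv_all {m : ℕ} {q : ℝ} (hq : 2 < q) {ν : Measure (En (m + 1))} {Λ : Set (En (m + 1))}
    {A : ℝ≥0∞} (hAt : A ≠ ∞) (hE : Ext q ν Λ A)
    {G : En (m + 1) → ℂ} (hG : MemLp G 2) (h0 : ∀ ξ ∉ Λ, G ξ = 0) :
    ∀ᵐ x ∂ν, ∃ L : ℂ, Tendsto (fun R : ℝ => ps G R x) atTop (𝓝 L) := by
  have hq0 : 0 < q := by linarith
  have hq2 : 0 < q / 2 := by linarith
  have h0' : ∀ j : ℝ, ∀ ξ ∉ Λ, out G j ξ = 0 := fun j ξ hξ => by
    unfold out
    by_cases h : ξ ∈ {ξ : En (m + 1) | j ≤ ‖ξ‖}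
    · rw [indicator_of_mem h, h0 ξ hξ]
    · rw [indicator_of_notMem h]
  have hsm : ∀ j : ℝ, Measurable fun x => (⨆ R : ℝ, ‖ps (out G j) R x‖ₑ) ^ 2 :=
    fun j => sup_meas (out_mem hG _)
  -- the integrals tend to zero
  have hbound : ∀ j : ℝ, ∫⁻ x, ((⨆ R : ℝ, ‖ps (out G j) R x‖ₑ) ^ 2) ^ (q / 2) ∂ν ≤
      (Kq q * A * (∫⁻ ξ, ‖out G j ξ‖ₑ ^ 2) ^ (1 / 2 : ℝ)) ^ q := by
    intro j
    have h1 := ENNReal.rpow_le_rpow (max_all hq hE (Kq_spec hq) (out_mem hG j) (h0' j)) hq0.le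
    rw [nq_pow hq0] at h1
    refine le_trans (le_of_eq (lintegral_congr fun x => ?_)) h1
    rw [← ENNReal.rpow_natCast, ← ENNReal.rpow_mul]
    congr 1
    push_cast
    ring
  have htail : Tendsto (fun j : ℕ => ∫⁻ ξ, ‖out G (j : ℝ) ξ‖ₑ ^ 2) atTop (𝓝 0) :=
    tail_tendsto hG (c := fun k : ℕ => (k : ℝ)) tendsto_natCast_atTop_atTop
  have hlim : Tendsto (fun j : ℕ => (Kq q * A * (∫⁻ ξ, ‖out G (j : ℝ) ξ‖ₑ ^ 2) ^ (1 / 2 : ℝ)) ^ q)
      atTop (𝓝 0) := by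
    have a1 : Tendsto (fun j : ℕ => (∫⁻ ξ, ‖out G (j : ℝ) ξ‖ₑ ^ 2) ^ (1 / 2 : ℝ)) atTop
        (𝓝 ((0 : ℝ≥0∞) ^ (1 / 2 : ℝ))) := (ENNReal.continuous_rpow_const.tendsto _).comp htail
    rw [ENNReal.zero_rpow_of_pos (by norm_num)] at a1
    have a2 := ENNReal.Tendsto.const_mul (a := Kq q * A) a1
      (Or.inr (ENNReal.mul_ne_top (Kq_ne_top q) hAt))
    rw [mul_zero] at a2
    have a3 := (ENNReal.continuous_rpow_const (y := q)).tendsto 0 |>.comp a2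
    rw [ENNReal.zero_rpow_of_pos hq0] at a3
    exact a3
  have hz : ∀ᵐ x ∂ν, liminf (fun j : ℕ => ((⨆ R : ℝ, ‖ps (out G j) R x‖ₑ) ^ 2) ^ (q / 2)) atTop
      = 0 := by
    have h1 : ∫⁻ x, liminf (fun j : ℕ => ((⨆ R : ℝ, ‖ps (out G j) R x‖ₑ) ^ 2) ^ (q / 2)) atTop ∂ν
        = 0 := by
      refine le_antisymm ?_ zero_le
      refine (lintegral_liminf_le fun j => (hsm _).pow_const _).trans ?_
      rw [← hlim.liminf_eq]
      exact liminf_le_liminf (Eventually.of_forall fun j => hbound j)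
    rwa [lintegral_eq_zero_iff (Measurable.liminf fun j => (hsm _).pow_const _)] at h1
  filter_upwards [hz] with x hx
  have hfreq : ∀ ε : ℝ≥0∞, 0 < ε → ∃ j : ℕ, (⨆ R : ℝ, ‖ps (out G j) R x‖ₑ) ^ 2 < ε := by
    intro ε hε
    by_contra hcon
    push Not at hcon
    have : ε ^ (q / 2) ≤
        liminf (fun j : ℕ => ((⨆ R : ℝ, ‖ps (out G j) R x‖ₑ) ^ 2) ^ (q / 2)) atTop :=
      le_liminf_of_le (by isBoundedDefault)
        (Eventually.of_forall fun j => ENNReal.rpow_le_rpow (hcon j) hq2.le)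
    rw [hx] at this
    have h2 : 0 < ε ^ (q / 2) := ENNReal.rpow_pos_of_nonneg hε hq2.le
    exact absurd (le_antisymm this zero_le) h2.ne'
  have hc : CauchySeq fun R : ℝ => ps G R x := by
    rw [Metric.cauchySeq_iff']
    intro ε hε
    obtain ⟨j, hj⟩ := hfreq (ENNReal.ofReal (ε ^ 2)) (by
      rw [ENNReal.ofReal_pos]; positivity)
    refine ⟨j, fun R hR => ?_⟩
    rw [dist_eq_norm, ps_out hG (Nat.cast_nonneg j) hR]
    have h1 : ‖ps (out G j) R x‖ₑ ^ 2 < ENNReal.ofReal (ε ^ 2) := by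
      refine lt_of_le_of_lt ?_ hj
      exact pow_le_pow_left' (le_iSup (fun R : ℝ => ‖ps (out G j) R x‖ₑ) R) 2
    rw [← ofReal_norm, ← ENNReal.ofReal_pow (norm_nonneg _)] at h1
    have h2 := (ENNReal.ofReal_lt_ofReal_iff (by positivity)).1 h1
    exact lt_of_pow_lt_pow_left₀ 2 hε.le h2
  exact cauchySeq_tendsto_of_complete hc

end Pool.Agent.U556.CK
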