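import Mathlib
import Pool.Agent.U556.CK4

/-!
The extension inequality for sets with small sum multiplicity, and the maximal inequality in `L⁴`.
-/

set_option autoImplicit false
set_option linter.unusedSectionVars false

open MeasureTheory Real Set Filter Topology
open scoped ENNReal NNReal RealInnerProductSpace

namespace Pool.Agent.U556.CK

open Pool.Agent.Helper93.Sph Pool.Agent.U588.Sph Pool.Agent.U37.Sch

lemma ps_congr {n : ℕ} {G G' : En n → ℂ} (h : G =ᵐ[volume] G') (R : ℝ) (x : En n) :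
    ps G R x = ps G' R x := by
  unfold ps
  refine integral_congr_ae (ae_restrict_of_ae ?_)
  filter_upwards [h] with ξ hξ
  rw [hξ]

lemma e2_congr {n : ℕ} {G G' : En n → ℂ} (h : G =ᵐ[volume] G') :
    ∫⁻ ξ, ‖G ξ‖ₑ ^ 2 = ∫⁻ ξ, ‖G' ξ‖ₑ ^ 2 := by
  refine lintegral_congr_ae ?_
  filter_upwards [h] with ξ hξ
  rw [hξ]

/-- the `L⁴` extension inequality with constant `B` (for the fourth powers) -/
def E4 {n : ℕ} (Λ : Set (En n)) (B : ℝ≥0∞) : Prop :=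
  ∀ G : En n → ℂ, Measurable G → Integrable G → MemLp G 2 → (∀ ξ ∉ Λ, G ξ = 0) →
    ∫⁻ x, ‖Fi G x‖ₑ ^ 4 ≤ B * (∫⁻ ξ, ‖G ξ‖ₑ ^ 2) ^ 2

lemma e4_of_sum {n : ℕ} {Λ : Set (En n)} (hΛ : MeasurableSet Λ) {K : ℝ≥0∞} (hKt : K ≠ ∞)
    (hK : SumB Λ K) : E4 Λ K := fun _ h1 h2 h3 h4 => l4 h1 h2 h3 hΛ hKt hK h4

lemma ext_of_e4 {m : ℕ} {Λ : Set (En (m + 1))} (hΛ : MeasurableSet Λ) {K : ℝ≥0∞}
    (hK : E4 Λ K) : Ext 4 volume Λ (K ^ (1 / 4 : ℝ)) := by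
  intro G hG h0 R
  set G' : En (m + 1) → ℂ := Λ.indicator (hG.1.mk G) with hG'
  have hG'm : Measurable G' := hG.1.stronglyMeasurable_mk.measurable.indicator hΛ
  have hGG : G =ᵐ[volume] G' := by
    filter_upwards [hG.1.ae_eq_mk] with ξ hξ
    by_cases h : ξ ∈ Λ
    · rw [hG', indicator_of_mem h, hξ]
    · rw [hG', indicator_of_notMem h, h0 ξ h]
  have hG'2 : MemLp G' 2 := (memLp_congr_ae hGG).1 hG
  have h0' : ∀ ξ ∉ Λ, G' ξ = 0 := fun ξ hξ => by rw [hG', indicator_of_notMem hξ]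
  set F : En (m + 1) → ℂ := (shell (m + 1) 0 R).indicator G' with hF
  have hFm : Measurable F := hG'm.indicator (shell_meas _ _ _)
  have hFi : Integrable F := ind_int hG'2 _ _
  have hF2 : MemLp F 2 := hG'2.indicator (shell_meas _ _ _)
  have hF0 : ∀ ξ ∉ Λ, F ξ = 0 := fun ξ hξ => by
    by_cases h : ξ ∈ shell (m + 1) 0 R
    · rw [hF, indicator_of_mem h, h0' ξ hξ]
    · rw [hF, indicator_of_notMem h]
  have h1 := hK F hFm hFi hF2 hF0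
  have h2 : ∫⁻ ξ, ‖F ξ‖ₑ ^ 2 ≤ ∫⁻ ξ, ‖G ξ‖ₑ ^ 2 := by
    rw [e2_congr hGG, hF, ms_ind]
    exact ms_le _ _ _
  have h3 : ∫⁻ x, ‖ps G R x‖ₑ ^ (4 : ℝ) ≤ K * (∫⁻ ξ, ‖G ξ‖ₑ ^ 2) ^ 2 := by
    calc ∫⁻ x, ‖ps G R x‖ₑ ^ (4 : ℝ) = ∫⁻ x, ‖Fi F x‖ₑ ^ 4 := by
          refine lintegral_congr fun x => ?_
          rw [ps_congr hGG, ps_eq]
          norm_cast
      _ ≤ K * (∫⁻ ξ, ‖F ξ‖ₑ ^ 2) ^ 2 := h1
      _ ≤ _ := by gcongr
  unfold nq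
  refine (ENNReal.rpow_le_rpow h3 (by norm_num)).trans (le_of_eq ?_)
  rw [ENNReal.mul_rpow_of_nonneg _ _ (by norm_num), ← ENNReal.rpow_natCast, ← ENNReal.rpow_mul]
  norm_num

lemma Kq_four : Kq 4 ^ (4 : ℝ) ≤ 1600 := by
  have h1 := r_lt (q := 4) (by norm_num)
  have h2 : (2 : ℝ) ^ ((1 : ℝ) / 4 - 1 / 2) ≤ 0.841 := by
    have e : (1 : ℝ) / 4 - 1 / 2 = (-1) * (1 / 4) := by norm_num
    rw [e, Real.rpow_mul (by norm_num), Real.rpow_neg_one]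
    calc ((2 : ℝ)⁻¹) ^ (1 / 4 : ℝ) ≤ ((0.841 : ℝ) ^ (4 : ℝ)) ^ (1 / 4 : ℝ) := by
          refine Real.rpow_le_rpow (by norm_num) ?_ (by norm_num)
          norm_num
      _ = 0.841 := by
          rw [← Real.rpow_mul (by norm_num)]
          norm_num
  have h3 : Kq 4 ≤ ENNReal.ofReal 6.31 := by
    unfold Kq
    refine ENNReal.ofReal_le_ofReal ?_
    rw [div_le_iff₀ (by linarith)]
    nlinarith
  calc Kq 4 ^ (4 : ℝ) ≤ ENNReal.ofReal 6.31 ^ (4 : ℝ) := ENNReal.rpow_le_rpow h3 (by norm_num)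
    _ = ENNReal.ofReal (6.31 ^ (4 : ℝ)) := ENNReal.ofReal_rpow_of_pos (by norm_num)
    _ ≤ ENNReal.ofReal 1600 := ENNReal.ofReal_le_ofReal (by norm_num)
    _ = 1600 := by norm_num

/-- **the maximal inequality in `L⁴`** -/
theorem max_four {m : ℕ} {Λ : Set (En (m + 1))} (hΛ : MeasurableSet Λ) {K : ℝ≥0∞}
    (hK : E4 Λ K) {G : En (m + 1) → ℂ} (hG : MemLp G 2) (h0 : ∀ ξ ∉ Λ, G ξ = 0) :
    ∫⁻ x, (⨆ R : ℝ, ‖ps G R x‖ₑ) ^ 4 ≤ 1600 * K * (∫⁻ ξ, ‖G ξ‖ₑ ^ 2) ^ 2 := by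
  have h1 := max_all (q := 4) (by norm_num) (ext_of_e4 hΛ hK) (Kq_spec (by norm_num)) hG h0
  have h2 := ENNReal.rpow_le_rpow h1 (by norm_num : (0 : ℝ) ≤ 4)
  rw [nq_pow (by norm_num)] at h2
  calc ∫⁻ x, (⨆ R : ℝ, ‖ps G R x‖ₑ) ^ 4 = ∫⁻ x, (⨆ R : ℝ, ‖ps G R x‖ₑ) ^ (4 : ℝ) := by
        refine lintegral_congr fun x => ?_
        norm_cast
    _ ≤ _ := h2
    _ = Kq 4 ^ (4 : ℝ) * K * (∫⁻ ξ, ‖G ξ‖ₑ ^ 2) ^ 2 := by
        rw [ENNReal.mul_rpow_of_nonneg _ _ (by norm_num), ENNReal.mul_rpow_of_nonneg _ _ (by norm_num),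
          ← ENNReal.rpow_mul, ← ENNReal.rpow_mul, ← ENNReal.rpow_natCast]
        norm_num
    _ ≤ _ := by
        gcongr
        exact Kq_four

end Pool.Agent.U556.CK
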