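import Mathlib
import Pool.Agent.U556.CK5

/-!
The same maximal inequality for an arbitrary increasing sequence of sets of frequencies.
-/

set_option autoImplicit false
set_option linter.unusedSectionVars false

open MeasureTheory Real Set Filter Topology
open scoped ENNReal NNReal RealInnerProductSpace

namespace Pool.Agent.U556.CK

open Pool.Agent.Helper93.Sph Pool.Agent.U588.Sph Pool.Agent.U37.Sch

/-- the partial integral over `E` -/
noncomputable def sE {n : ℕ} (G : En n → ℂ) (E : Set (En n)) (x : En n) : ℂ := Fi (E.indicator G) x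

lemma ind_fin {n : ℕ} {G : En n → ℂ} (hG : MemLp G 2) {E : Set (En n)} (hE : MeasurableSet E)
    (hv : volume E ≠ ∞) : Integrable (E.indicator G) := by
  rw [integrable_indicator_iff hE]
  have : IsFiniteMeasure (volume.restrict E) := ⟨by
    rw [Measure.restrict_apply_univ]; exact lt_top_iff_ne_top.2 hv⟩
  exact (hG.restrict _).integrable (by norm_num)

lemma sE_sub {n : ℕ} {G : En n → ℂ} (hG : MemLp G 2) {D E : Set (En n)} (hD : MeasurableSet D)
    (hE : MeasurableSet E) (hDE : D ⊆ E) (hv : volume E ≠ ∞) (x : En n) :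
    sE G E x - sE G D x = sE G (E \ D) x := by
  have hvD : volume D ≠ ∞ := ne_top_of_le_ne_top hv (measure_mono hDE)
  unfold sE
  rw [Fi, Fi, ← integral_sub (ek_int (ind_fin hG hE hv) x) (ek_int (ind_fin hG hD hvD) x), Fi]
  refine integral_congr_ae (Eventually.of_forall fun ξ => ?_)
  simp only
  by_cases h1 : ξ ∈ D
  · rw [indicator_of_mem (hDE h1), indicator_of_mem h1, indicator_of_notMem (fun h => h.2 h1)]
    simp
  · by_cases h2 : ξ ∈ E
    · rw [indicator_of_mem h2, indicator_of_notMem h1,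
        indicator_of_mem (show ξ ∈ E \ D from ⟨h2, h1⟩)]
      simp
    · rw [indicator_of_notMem h2, indicator_of_notMem h1, indicator_of_notMem (fun h => h2 h.1)]
      simp

lemma sE_meas {n : ℕ} {G : En n → ℂ} (hG : MemLp G 2) {E : Set (En n)} (hE : MeasurableSet E)
    (hv : volume E ≠ ∞) : Measurable (sE G E) := (Fi_cont (ind_fin hG hE hv)).measurable

lemma e2_ind {n : ℕ} (G : En n → ℂ) {E : Set (En n)} (hE : MeasurableSet E) :
    ∫⁻ ξ, ‖E.indicator G ξ‖ₑ ^ 2 = ∫⁻ ξ in E, ‖G ξ‖ₑ ^ 2 := by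
  rw [← lintegral_indicator hE]
  refine lintegral_congr fun ξ => ?_
  by_cases h : ξ ∈ E
  · rw [indicator_of_mem h, indicator_of_mem h]
  · rw [indicator_of_notMem h, indicator_of_notMem h]; simp

/-- the `L⁴` bound for one set -/
lemma sE_four {n : ℕ} {G : En n → ℂ} (hGm : Measurable G) (hG : MemLp G 2) {Λ : Set (En n)}
    {K : ℝ≥0∞} (hK : E4 Λ K) (h0 : ∀ ξ ∉ Λ, G ξ = 0)
    {E : Set (En n)} (hE : MeasurableSet E) (hv : volume E ≠ ∞) :
    nq 4 volume (fun x => ‖sE G E x‖ₑ) ≤ K ^ (1 / 4 : ℝ) * (∫⁻ ξ in E, ‖G ξ‖ₑ ^ 2) ^ (1 / 2 : ℝ) := by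
  have h1 := hK _ (hGm.indicator hE) (ind_fin hG hE hv) (hG.indicator hE) (fun ξ hξ => by
    by_cases h : ξ ∈ E
    · rw [indicator_of_mem h, h0 ξ hξ]
    · rw [indicator_of_notMem h])
  rw [e2_ind G hE] at h1
  have h3 : ∫⁻ x, ‖sE G E x‖ₑ ^ (4 : ℝ) ≤ K * (∫⁻ ξ in E, ‖G ξ‖ₑ ^ 2) ^ 2 := by
    refine le_trans (le_of_eq (lintegral_congr fun x => ?_)) h1
    unfold sE
    norm_cast
  unfold nq
  refine (ENNReal.rpow_le_rpow h3 (by norm_num)).trans (le_of_eq ?_)
  rw [ENNReal.mul_rpow_of_nonneg _ _ (by norm_num), ← ENNReal.rpow_natCast, ← ENNReal.rpow_mul]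
  norm_num

/-- finitely many sets -/
lemma seq_fin {n : ℕ} {G : En n → ℂ} (hGm : Measurable G) (hG : MemLp G 2) {Λ : Set (En n)}
    {K : ℝ≥0∞} (hK : E4 Λ K) (h0 : ∀ ξ ∉ Λ, G ξ = 0)
    {D : ℕ → Set (En n)} (hD : ∀ j, MeasurableSet (D j)) (hv : ∀ j, volume (D j) ≠ ∞)
    (hDm : Monotone D) (hD0 : D 0 = ∅) (N : ℕ) :
    nq 4 volume (fun x => (Finset.Icc 0 N).sup fun j => ‖sE G (D j) x‖ₑ) ≤
      Kq 4 * K ^ (1 / 4 : ℝ) * (∫⁻ ξ in D N, ‖G ξ‖ₑ ^ 2) ^ (1 / 2 : ℝ) := by
  set g : ℕ → En n → ℂ := fun i x => sE G (D (i + 1)) x - sE G (D i) x with hg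
  have hgm : ∀ i, Measurable (g i) := fun i =>
    (sE_meas hG (hD _) (hv _)).sub (sE_meas hG (hD _) (hv _))
  have hbs : ∀ a b, a ≤ b → ∀ x, bs g a b x = sE G (D b \ D a) x := by
    intro a b hab x
    rw [← sE_sub hG (hD a) (hD b) (hDm hab) (hv b)]
    unfold bs
    rw [hg]
    exact Finset.sum_Ico_sub (fun i => sE G (D i) x) hab
  set mm : ℕ → ℝ≥0∞ := fun i => ∫⁻ ξ in D (i + 1) \ D i, ‖G ξ‖ₑ ^ 2 with hmm
  have hne : ∀ i, mm i ≠ ∞ := fun i =>
    ne_top_of_le_ne_top (en2_ne_top hG) (setLIntegral_le_lintegral _ _)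
  have hsum : ∀ a b, a ≤ b → ∑ i ∈ Finset.Ico a b, mm i = ∫⁻ ξ in D b \ D a, ‖G ξ‖ₑ ^ 2 := by
    intro a b hab
    induction b, hab using Nat.le_induction with
    | base => simp
    | succ b hab ih =>
      rw [Finset.sum_Ico_succ_top hab, ih, hmm, ← lintegral_union ((hD _).diff (hD _))]
      · congr 2
        ext ξ
        constructor
        · rintro (⟨h, h'⟩ | ⟨h, h'⟩)
          · exact ⟨hDm (Nat.le_succ b) h, h'⟩
          · exact ⟨h, fun h3 => h' (hDm hab h3)⟩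
        · rintro ⟨h, h'⟩
          by_cases h3 : ξ ∈ D b
          · exact Or.inl ⟨h3, h'⟩
          · exact Or.inr ⟨h, h3⟩
      · rw [Set.disjoint_left]
        rintro ξ ⟨h, _⟩ ⟨_, h'⟩
        exact h' h
  have hA : ∀ a b, nq 4 volume (fun x => ‖bs g a b x‖ₑ) ≤
      K ^ (1 / 4 : ℝ) * (∑ i ∈ Finset.Ico a b, mm i) ^ (1 / 2 : ℝ) := by
    intro a b
    rcases le_total a b with hab | hab
    · rw [hsum a b hab]
      refine le_trans (le_of_eq ?_) (sE_four hGm hG hK h0 ((hD b).diff (hD a))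
        (ne_top_of_le_ne_top (hv b) (measure_mono sdiff_subset)))
      congr 1
      funext x
      rw [hbs a b hab]
    · have h1 : ∀ x, bs g a b x = 0 := fun x => by
        unfold bs
        rw [Finset.Ico_eq_empty (by omega), Finset.sum_empty]
      have h2 : nq 4 volume (fun x => ‖bs g a b x‖ₑ) = 0 := by
        unfold nq
        simp_rw [h1]
        simp
      rw [h2]
      exact zero_le
  have h := ck (q := 4) (by norm_num) volume hgm hne hA (Kq_spec (by norm_num)) N 0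
  rw [zero_add, hsum 0 N (Nat.zero_le N), hD0, sdiff_empty] at h
  refine le_trans (nq_mono (by norm_num) fun x => ?_) h
  unfold mx
  refine Finset.sup_mono_fun fun j _ => ?_
  rw [hbs 0 j (Nat.zero_le j), hD0, sdiff_empty]

/-- **the maximal inequality for increasing sequences of sets** -/
theorem seq_max {n : ℕ} {G : En n → ℂ} (hGm : Measurable G) (hG : MemLp G 2) {Λ : Set (En n)}
    {K : ℝ≥0∞} (hK : E4 Λ K) (h0 : ∀ ξ ∉ Λ, G ξ = 0)
    {E : ℕ → Set (En n)} (hE : ∀ j, MeasurableSet (E j)) (hv : ∀ j, volume (E j) ≠ ∞)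
    (hEm : Monotone E) :
    ∫⁻ x, (⨆ j, ‖sE G (E j) x‖ₑ) ^ 4 ≤ 1600 * K * (∫⁻ ξ, ‖G ξ‖ₑ ^ 2) ^ 2 := by
  set D : ℕ → Set (En n) := fun j => if j = 0 then ∅ else E (j - 1) with hD
  have hDS : ∀ j, D (j + 1) = E j := fun j => by simp [hD]
  have hD0 : D 0 = ∅ := by simp [hD]
  have hDmeas : ∀ j, MeasurableSet (D j) := by
    intro j
    rcases Nat.eq_zero_or_pos j with rfl | h
    · rw [hD0]; exact MeasurableSet.empty
    · obtain ⟨k, rfl⟩ : ∃ k, j = k + 1 := ⟨j - 1, by omega⟩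
      rw [hDS]; exact hE k
  have hDv : ∀ j, volume (D j) ≠ ∞ := by
    intro j
    rcases Nat.eq_zero_or_pos j with rfl | h
    · rw [hD0]; simp
    · obtain ⟨k, rfl⟩ : ∃ k, j = k + 1 := ⟨j - 1, by omega⟩
      rw [hDS]; exact hv k
  have hDm : Monotone D := by
    refine monotone_nat_of_le_succ fun j => ?_
    rcases Nat.eq_zero_or_pos j with rfl | h
    · rw [hD0]; exact empty_subset _
    · obtain ⟨k, rfl⟩ : ∃ k, j = k + 1 := ⟨j - 1, by omega⟩
      rw [hDS, hDS]; exact hEm (Nat.le_succ k)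
  set M : ℕ → En n → ℝ≥0∞ := fun N x => (Finset.Icc 0 N).sup fun j => ‖sE G (D j) x‖ₑ with hM
  have hMm : ∀ N, Measurable (M N) := by
    intro N
    have : M N = fun x => ⨆ j ∈ Finset.Icc 0 N, ‖sE G (D j) x‖ₑ := by
      funext x
      show ((Finset.Icc 0 N).sup fun j => ‖sE G (D j) x‖ₑ) = _
      rw [Finset.sup_eq_iSup]
    rw [this]
    exact Measurable.iSup fun j => Measurable.iSup fun _ => (sE_meas hG (hDmeas j) (hDv j)).enorm
  have hMmono : Monotone M := by
    intro a b hab x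
    exact Finset.sup_mono (Finset.Icc_subset_Icc_right hab)
  have hle : ∀ x, (⨆ j, ‖sE G (E j) x‖ₑ) ^ 4 ≤ ⨆ N, M N x ^ 4 := by
    intro x
    rw [ENNReal.iSup_pow_of_ne_zero (by norm_num)]
    refine iSup_le fun j => le_trans ?_ (le_iSup (fun N => M N x ^ 4) (j + 1))
    refine pow_le_pow_left' ?_ 4
    rw [← hDS j]
    exact Finset.le_sup (f := fun j => ‖sE G (D j) x‖ₑ) (Finset.mem_Icc.2 ⟨Nat.zero_le _, le_rfl⟩)
  refine (lintegral_mono hle).trans ?_
  rw [lintegral_iSup (fun N => (hMm N).pow_const 4) (fun a b hab x => pow_le_pow_left' (hMmono hab x) 4)]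
  refine iSup_le fun N => ?_
  have h1 := ENNReal.rpow_le_rpow (seq_fin hGm hG hK h0 hDmeas hDv hDm hD0 N)
    (by norm_num : (0 : ℝ) ≤ 4)
  rw [nq_pow (by norm_num)] at h1
  calc ∫⁻ x, M N x ^ 4 = ∫⁻ x, M N x ^ (4 : ℝ) := by
        refine lintegral_congr fun x => ?_
        norm_cast
    _ ≤ _ := h1
    _ = Kq 4 ^ (4 : ℝ) * K * (∫⁻ ξ in D N, ‖G ξ‖ₑ ^ 2) ^ 2 := by
        rw [ENNReal.mul_rpow_of_nonneg _ _ (by norm_num), ENNReal.mul_rpow_of_nonneg _ _ (by norm_num),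
          ← ENNReal.rpow_mul, ← ENNReal.rpow_mul, ← ENNReal.rpow_natCast]
        norm_num
    _ ≤ 1600 * K * (∫⁻ ξ, ‖G ξ‖ₑ ^ 2) ^ 2 := by
        gcongr
        · exact Kq_four
        · exact Measure.restrict_le_self

/-- **convergence for increasing sequences of sets** -/
theorem seq_conv {n : ℕ} {G : En n → ℂ} (hGm : Measurable G) (hG : MemLp G 2) {Λ : Set (En n)}
    {K : ℝ≥0∞} (hKt : K ≠ ∞) (hK : E4 Λ K) (h0 : ∀ ξ ∉ Λ, G ξ = 0)
    {E : ℕ → Set (En n)} (hE : ∀ j, MeasurableSet (E j)) (hv : ∀ j, volume (E j) ≠ ∞)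
    (hEm : Monotone E) :
    ∀ᵐ x : En n, ∃ L : ℂ, Tendsto (fun j => sE G (E j) x) atTop (𝓝 L) := by
  set U : ℕ → Set (En n) := fun j => (E j)ᶜ ∩ ⋃ i, E i with hU
  have hUm : ∀ j, MeasurableSet (U j) := fun j => (hE j).compl.inter (MeasurableSet.iUnion hE)
  set H : ℕ → En n → ℂ := fun j => (U j).indicator G with hH
  have hHm : ∀ j, Measurable (H j) := fun j => hGm.indicator (hUm j)
  have hH2 : ∀ j, MemLp (H j) 2 := fun j => hG.indicator (hUm j)
  have hH0 : ∀ j, ∀ ξ ∉ Λ, H j ξ = 0 := fun j ξ hξ => by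
    by_cases h : ξ ∈ U j
    · rw [hH]; simp only; rw [indicator_of_mem h, h0 ξ hξ]
    · rw [hH]; simp only; rw [indicator_of_notMem h]
  have htail : Tendsto (fun j => ∫⁻ ξ, ‖H j ξ‖ₑ ^ 2) atTop (𝓝 0) := by
    have e0 : (0 : ℝ≥0∞) = ∫⁻ _ξ : En n, (0 : ℝ≥0∞) := by simp
    rw [e0]
    refine tendsto_lintegral_of_dominated_convergence (fun ξ => ‖G ξ‖ₑ ^ 2)
      (fun j => (hHm j).enorm.pow_const 2) ?_ (en2_ne_top hG) ?_
    · intro j
      refine Eventually.of_forall fun ξ => ?_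
      by_cases h : ξ ∈ U j
      · rw [hH]; simp only; rw [indicator_of_mem h]
      · rw [hH]; simp only; rw [indicator_of_notMem h]; simp
    · refine Eventually.of_forall fun ξ => ?_
      have h1 : ∀ᶠ j in atTop, ‖H j ξ‖ₑ ^ 2 = 0 := by
        by_cases h : ξ ∈ ⋃ i, E i
        · obtain ⟨i, hi⟩ := mem_iUnion.1 h
          filter_upwards [eventually_ge_atTop i] with j hj
          have h2 : ξ ∉ U j := fun h3 => h3.1 (hEm hj hi)
          rw [hH]; simp only; rw [indicator_of_notMem h2]; simp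
        · refine Eventually.of_forall fun j => ?_
          have h2 : ξ ∉ U j := fun h3 => h h3.2
          rw [hH]; simp only; rw [indicator_of_notMem h2]; simp
      exact tendsto_const_nhds.congr' (h1.mono fun j hj => hj.symm)
  set M : ℕ → En n → ℝ≥0∞ := fun j x => (⨆ i, ‖sE (H j) (E i) x‖ₑ) ^ 4 with hM
  have hMm : ∀ j, Measurable (M j) := fun j =>
    (Measurable.iSup fun i => (sE_meas (hH2 j) (hE i) (hv i)).enorm).pow_const 4
  have hz : ∀ᵐ x : En n, liminf (fun j => M j x) atTop = 0 := by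
    have h1 : ∫⁻ x, liminf (fun j => M j x) atTop = 0 := by
      refine le_antisymm ?_ zero_le
      refine (lintegral_liminf_le fun j => hMm j).trans ?_
      have h2 : Tendsto (fun j => 1600 * K * (∫⁻ ξ, ‖H j ξ‖ₑ ^ 2) ^ 2) atTop (𝓝 0) := by
        have a1 := ENNReal.Tendsto.pow (n := 2) htail
        have a2 := ENNReal.Tendsto.const_mul (a := 1600 * K) a1
          (Or.inr (ENNReal.mul_ne_top (by norm_num) hKt))
        simpa using a2
      rw [← h2.liminf_eq]
      exact liminf_le_liminf (Eventually.of_forall fun j =>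
        seq_max (hHm j) (hH2 j) hK (hH0 j) hE hv hEm)
    rwa [lintegral_eq_zero_iff (Measurable.liminf hMm)] at h1
  filter_upwards [hz] with x hx
  have hfreq : ∀ ε : ℝ≥0∞, 0 < ε → ∃ j : ℕ, M j x < ε := by
    intro ε hε
    by_contra hcon
    push Not at hcon
    have : ε ≤ liminf (fun j => M j x) atTop :=
      le_liminf_of_le (by isBoundedDefault) (Eventually.of_forall hcon)
    rw [hx] at this
    exact absurd (le_antisymm this zero_le) hε.ne'
  have hc : CauchySeq fun j => sE G (E j) x := by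
    rw [Metric.cauchySeq_iff']
    intro ε hε
    obtain ⟨j, hj⟩ := hfreq (ENNReal.ofReal (ε ^ 4)) (by
      rw [ENNReal.ofReal_pos]; positivity)
    refine ⟨j, fun i hi => ?_⟩
    rw [dist_eq_norm, sE_sub hG (hE j) (hE i) (hEm hi) (hv i)]
    have e : sE G (E i \ E j) x = sE (H j) (E i) x := by
      unfold sE
      congr 1
      funext ξ
      by_cases h1 : ξ ∈ E i
      · rw [indicator_of_mem h1]
        by_cases h2 : ξ ∈ E j
        · rw [indicator_of_notMem (fun h : ξ ∈ E i \ E j => h.2 h2), hH]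
          simp only
          rw [indicator_of_notMem (fun h : ξ ∈ U j => h.1 h2)]
        · rw [indicator_of_mem (show ξ ∈ E i \ E j from ⟨h1, h2⟩), hH]
          simp only
          rw [indicator_of_mem (show ξ ∈ U j from ⟨h2, mem_iUnion.2 ⟨i, h1⟩⟩)]
      · rw [indicator_of_notMem h1, indicator_of_notMem (fun h : ξ ∈ E i \ E j => h1 h.1)]
    rw [e]
    have h1 : ‖sE (H j) (E i) x‖ₑ ^ 4 < ENNReal.ofReal (ε ^ 4) := by
      refine lt_of_le_of_lt ?_ hj
      exact pow_le_pow_left' (le_iSup (fun i => ‖sE (H j) (E i) x‖ₑ) i) 4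
    rw [← ofReal_norm, ← ENNReal.ofReal_pow (norm_nonneg _)] at h1
    have h2 := (ENNReal.ofReal_lt_ofReal_iff (by positivity)).1 h1
    exact lt_of_pow_lt_pow_left₀ 4 hε.le h2
  exact cauchySeq_tendsto_of_complete hc

end Pool.Agent.U556.CK
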