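import Mathlib
import Pool.Agent.U556.CK6

/-!
Examples of sets with small sum multiplicity.
-/

set_option autoImplicit false
set_option linter.unusedSectionVars false

open MeasureTheory Real Set Filter Topology Metric
open scoped ENNReal NNReal RealInnerProductSpace

namespace Pool.Agent.U556.CK

open Pool.Agent.Helper93.Sph Pool.Agent.U588.Sph Pool.Agent.U37.Sch

/-- the closed `ρ`-neighbourhood of a discrete set -/
def fat {n : ℕ} (A : Set (En n)) (ρ : ℝ) : Set (En n) := ⋃ a ∈ A, closedBall a ρ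

lemma fat_meas {n : ℕ} {A : Set (En n)} (hA : A.Countable) (ρ : ℝ) : MeasurableSet (fat A ρ) :=
  MeasurableSet.biUnion hA fun _ _ => isClosed_closedBall.measurableSet

lemma fat_sum {n : ℕ} {A : Set (En n)} {ρ : ℝ} {g : ℕ}
    (hg : ∀ z : En n, {p : En n × En n | p.1 ∈ A ∧ p.2 ∈ A ∧ ‖p.1 + p.2 - z‖ ≤ 2 * ρ}.encard ≤ g) :
    SumB (fat A ρ) (g * volume (closedBall (0 : En n) ρ)) := by
  intro z
  set P : Set (En n × En n) := {p | p.1 ∈ A ∧ p.2 ∈ A ∧ ‖p.1 + p.2 - z‖ ≤ 2 * ρ} with hP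
  have hfin : P.Finite := Set.finite_of_encard_le_coe (hg z)
  have hsub : {ξ : En n | ξ ∈ fat A ρ ∧ z - ξ ∈ fat A ρ} ⊆ ⋃ p ∈ hfin.toFinset, closedBall p.1 ρ := by
    rintro ξ ⟨h1, h2⟩
    obtain ⟨a, ha, ha'⟩ := mem_iUnion₂.1 h1
    obtain ⟨b, hb, hb'⟩ := mem_iUnion₂.1 h2
    rw [mem_closedBall, dist_eq_norm] at ha' hb'
    refine mem_iUnion₂.2 ⟨(a, b), ?_, ?_⟩
    · rw [hfin.mem_toFinset]
      refine ⟨ha, hb, ?_⟩
      have e : a + b - z = -(ξ - a) - (z - ξ - b) := by abel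
      show ‖a + b - z‖ ≤ 2 * ρ
      rw [e]
      refine (norm_sub_le _ _).trans ?_
      rw [norm_neg]
      linarith
    · rw [mem_closedBall, dist_eq_norm]; exact ha'
  refine (measure_mono hsub).trans ((measure_biUnion_finset_le _ _).trans ?_)
  have hvol : ∀ a : En n, volume (closedBall a ρ) = volume (closedBall (0 : En n) ρ) := fun a => by
    rw [← add_zero a]
    exact Measure.addHaar_closedBall_center volume _ ρ
  simp_rw [hvol]
  rw [Finset.sum_const, nsmul_eq_mul]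
  refine mul_le_mul' ?_ le_rfl
  have h3 : (hfin.toFinset.card : ℕ∞) ≤ g := by
    rw [← hfin.encard_eq_coe_toFinset_card]
    exact hg z
  exact_mod_cast h3

/-- the annulus `a - δ ≤ |v|² ≤ a + δ` -/
def ann (m : ℕ) (a δ : ℝ) : Set (En m) := {v | a - δ ≤ ‖v‖ ^ 2 ∧ ‖v‖ ^ 2 ≤ a + δ}

lemma ann_meas (m : ℕ) (a δ : ℝ) : MeasurableSet (ann m a δ) := by
  have h1 : Measurable fun v : En m => ‖v‖ ^ 2 := by fun_prop
  exact (measurableSet_le measurable_const h1).inter (measurableSet_le h1 measurable_const)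

lemma ann_le {m : ℕ} {a δ : ℝ} (hb : 0 ≤ a + δ) (hδ : 0 ≤ δ) :
    volume (ann m a δ) ≤ volume (closedBall (0 : En m) √(a + δ)) -
      volume (ball (0 : En m) √(max (a - δ) 0)) := by
  have hsub : ball (0 : En m) √(max (a - δ) 0) ⊆ closedBall (0 : En m) √(a + δ) := by
    intro v hv
    rw [mem_ball, dist_zero_right] at hv
    rw [mem_closedBall, dist_zero_right]
    refine hv.le.trans (Real.sqrt_le_sqrt ?_)
    exact max_le (by linarith) hb
  rw [← measure_sdiff hsub measurableSet_ball.nullMeasurableSet (measure_ball_lt_top.ne)]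
  refine measure_mono ?_
  rintro v ⟨h1, h2⟩
  refine ⟨?_, ?_⟩
  · rw [mem_closedBall, dist_zero_right]
    exact Real.le_sqrt_of_sq_le h2
  · rw [mem_ball, dist_zero_right, not_lt]
    rw [Real.sqrt_le_left (norm_nonneg _)]
    exact max_le h1 (by positivity)

lemma ann_empty {m : ℕ} {a δ : ℝ} (hb : a + δ < 0) : ann m a δ = ∅ := by
  ext v
  simp only [ann, mem_ofPred_eq, mem_empty_iff_false, iff_false, not_and, not_le]
  intro _
  have : 0 ≤ ‖v‖ ^ 2 := by positivity
  linarith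

lemma ann_two {a δ : ℝ} (hδ : 0 ≤ δ) : volume (ann 2 a δ) ≤ ENNReal.ofReal (2 * π * δ) := by
  rcases lt_or_ge (a + δ) 0 with h | h
  · rw [ann_empty h]; simp
  refine (ann_le h hδ).trans ?_
  rw [EuclideanSpace.volume_closedBall_fin_two, EuclideanSpace.volume_ball_fin_two,
    ← ENNReal.ofReal_pow (Real.sqrt_nonneg _), ← ENNReal.ofReal_pow (Real.sqrt_nonneg _),
    Real.sq_sqrt h, Real.sq_sqrt (le_max_right _ _), ← ENNReal.ofReal_mul h,
    ← ENNReal.ofReal_mul (le_max_right _ _), ← ENNReal.ofReal_sub _ (by positivity)]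
  refine ENNReal.ofReal_le_ofReal ?_
  have h1 : a - δ ≤ max (a - δ) 0 := le_max_left _ _
  have hpi := Real.pi_pos
  nlinarith

lemma ann_one {a δ : ℝ} (hδ : 0 ≤ δ) : volume (ann 1 a δ) ≤ ENNReal.ofReal (2 * √(2 * δ)) := by
  rcases lt_or_ge (a + δ) 0 with h | h
  · rw [ann_empty h]; simp
  refine (ann_le h hδ).trans ?_
  have e1 := InnerProductSpace.volume_closedBall_of_dim_odd (E := En 1) (k := 0) (by simp)
    (0 : En 1) √(a + δ)
  have e2 := InnerProductSpace.volume_ball_of_dim_odd (E := En 1) (k := 0) (by simp)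
    (0 : En 1) √(max (a - δ) 0)
  rw [e1, e2]
  have e3 : Module.finrank ℝ (En 1) = 1 := by simp
  rw [e3]
  have e4 : (π ^ 0 * 2 ^ (0 + 1) / ((Nat.doubleFactorial 1 : ℕ) : ℝ)) = 2 := by
    norm_num [Nat.doubleFactorial]
  rw [e4, pow_one, pow_one, ← ENNReal.ofReal_mul (Real.sqrt_nonneg _),
    ← ENNReal.ofReal_mul (Real.sqrt_nonneg _), ← ENNReal.ofReal_sub _ (by positivity)]
  refine ENNReal.ofReal_le_ofReal ?_
  have h1 : a - δ ≤ max (a - δ) 0 := le_max_left _ _
  have h2 : √(a + δ) ≤ √(max (a - δ) 0) + √(2 * δ) := by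
    rw [Real.sqrt_le_left (by positivity)]
    have h3 := Real.sq_sqrt (le_max_right (a - δ) 0)
    have h4 := Real.sq_sqrt (show 0 ≤ 2 * δ by linarith)
    have h5 : 0 ≤ √(max (a - δ) 0) * √(2 * δ) := by positivity
    nlinarith
  linarith

/-- the `δ`-neighbourhood (in the direction of the `i`-th axis) of a paraboloid -/
def par {m : ℕ} (i : Fin (m + 1)) (δ : ℝ) : Set (En (m + 1)) := {ξ | |ξ i - ‖rest i ξ‖ ^ 2| ≤ δ}

lemma rest_cont {m : ℕ} (i : Fin (m + 1)) : Continuous (rest i : En (m + 1) → En m) := by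
  unfold rest
  fun_prop

lemma par_meas {m : ℕ} (i : Fin (m + 1)) (δ : ℝ) : MeasurableSet (par i δ) := by
  have h1 : Continuous fun ξ : En (m + 1) => |ξ i - ‖rest i ξ‖ ^ 2| := by
    have := rest_cont i
    fun_prop
  exact measurableSet_le h1.measurable measurable_const

lemma par_sum {m : ℕ} (i : Fin (m + 1)) {δ : ℝ} {C : ℝ≥0∞}
    (hC : ∀ a, volume (ann m a δ) ≤ C) : SumB (par i δ) (ENNReal.ofReal (2 * δ) * C) := by
  intro z
  set w : En m := rest i z with hw
  set a : ℝ := (z i - ‖w‖ ^ 2 / 2) / 2 with ha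
  set U : Set (En m) := (fun η => η - (1 / 2 : ℝ) • w) ⁻¹' (ann m a δ) with hU
  have hUm : MeasurableSet U := (measurable_id.sub_const _) (ann_meas m a δ)
  set T : Set (ℝ × En m) := {p | |p.1 - ‖p.2‖ ^ 2| ≤ δ ∧ p.2 ∈ U} with hT
  have hTm : MeasurableSet T := by
    have h1 : Continuous fun p : ℝ × En m => |p.1 - ‖p.2‖ ^ 2| := by fun_prop
    exact (measurableSet_le h1.measurable measurable_const).inter (measurable_snd hUm)
  have hsub : {ξ | ξ ∈ par i δ ∧ z - ξ ∈ par i δ} ⊆ spl i ⁻¹' T := by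
    rintro ξ ⟨h1, h2⟩
    have h1' : |ξ i - ‖rest i ξ‖ ^ 2| ≤ δ := h1
    have h2' : |(z - ξ) i - ‖rest i (z - ξ)‖ ^ 2| ≤ δ := h2
    rw [rest_sub] at h2'
    refine ⟨h1', ?_⟩
    show rest i ξ - (1 / 2 : ℝ) • w ∈ ann m a δ
    set η : En m := rest i ξ with hη
    have e1 : ‖η‖ ^ 2 + ‖w - η‖ ^ 2 = 2 * ‖η - (1 / 2 : ℝ) • w‖ ^ 2 + ‖w‖ ^ 2 / 2 := by
      rw [norm_sub_sq_real, norm_sub_sq_real, inner_smul_right, norm_smul,
        real_inner_comm η w]
      norm_num
      ring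
    have e2 : (z - ξ) i = z i - ξ i := rfl
    rw [e2, ← hw] at h2'
    rw [abs_le] at h1' h2'
    constructor
    · rw [ha]; nlinarith
    · rw [ha]; nlinarith
  refine (measure_mono hsub).trans ?_
  rw [(spl_mp i).measure_preimage hTm.nullMeasurableSet, Measure.volume_eq_prod,
    Measure.prod_apply_symm hTm]
  have hsec : ∀ η : En m, volume ((fun t : ℝ => (t, η)) ⁻¹' T) ≤
      U.indicator (fun _ => ENNReal.ofReal (2 * δ)) η := by
    intro η
    by_cases h : η ∈ U
    · rw [indicator_of_mem h]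
      have h1 : (fun t : ℝ => (t, η)) ⁻¹' T ⊆ Icc (‖η‖ ^ 2 - δ) (‖η‖ ^ 2 + δ) := by
        rintro t ⟨ht, -⟩
        rw [abs_le] at ht
        simp only at ht
        exact ⟨by linarith, by linarith⟩
      refine (measure_mono h1).trans (le_of_eq ?_)
      rw [Real.volume_Icc]
      congr 1
      ring
    · have h1 : (fun t : ℝ => (t, η)) ⁻¹' T = ∅ := by
        ext t
        simp only [mem_preimage, mem_empty_iff_false, iff_false]
        exact fun h' => h h'.2
      rw [h1, measure_empty]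
      exact zero_le
  refine (lintegral_mono hsec).trans ?_
  rw [lintegral_indicator hUm, setLIntegral_const]
  refine mul_le_mul' le_rfl ?_
  have h1 : volume U = volume (ann m a δ) :=
    (measurePreserving_sub_right volume ((1 / 2 : ℝ) • w)).measure_preimage
      (ann_meas m a δ).nullMeasurableSet
  rw [h1]
  exact hC a

end Pool.Agent.U556.CK
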