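import Mathlib
import Pool.Agent.U556.CK6

/-!
Convolutions of two functions, dyadic pieces, and the almost orthogonality of the products of a
dyadic piece with the part of lower frequency.
-/

set_option autoImplicit false
set_option linter.unusedSectionVars false

open MeasureTheory Real Set Filter Topology FourierTransform
open scoped ENNReal NNReal RealInnerProductSpace

namespace Pool.Agent.U556.CK

open Pool.Agent.Helper93.Sph Pool.Agent.U37.Sch

/-- the convolution of two functions -/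
noncomputable def cw {n : ℕ} (G H : En n → ℂ) : En n → ℂ :=
  convolution G H (ContinuousLinearMap.mul ℂ ℂ) volume

lemma cw_int {n : ℕ} {G H : En n → ℂ} (hG : Integrable G) (hH : Integrable H) :
    Integrable (cw G H) := hG.integrable_convolution _ hH

lemma cw_Fi {n : ℕ} {G H : En n → ℂ} (hG : Integrable G) (hH : Integrable H) (x : En n) :
    Fi (cw G H) x = Fi G x * Fi H x := by
  rw [Fi_eq, Fi_eq, Fi_eq, Real.fourierInv_eq_fourier_neg, Real.fourierInv_eq_fourier_neg,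
    Real.fourierInv_eq_fourier_neg, cw, Real.fourier_mul_convolution_eq hG hH]

lemma cw_le {n : ℕ} (G H : En n → ℂ) (z : En n) :
    ‖cw G H z‖ₑ ≤ ∫⁻ ξ, ‖G ξ‖ₑ * ‖H (z - ξ)‖ₑ := by
  unfold cw convolution
  refine (enorm_integral_le_lintegral_enorm _).trans (le_of_eq ?_)
  refine lintegral_congr fun ξ => ?_
  simp

lemma cw_zero {n : ℕ} {G H : En n → ℂ} {z : En n} (h : ∀ ξ, G ξ * H (z - ξ) = 0) :
    cw G H z = 0 := by
  unfold cw convolution
  have : ∀ ξ : En n, (ContinuousLinearMap.mul ℂ ℂ) (G ξ) (H (z - ξ)) = 0 := fun ξ => by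
    simpa using h ξ
  simp_rw [this]
  simp

lemma double2 {n : ℕ} {f g : En n → ℝ≥0∞} (hf : Measurable f) (hg : Measurable g) :
    ∫⁻ z, ∫⁻ ξ, f ξ * g (z - ξ) = (∫⁻ ξ, f ξ) * ∫⁻ ξ, g ξ := by
  rw [lintegral_lintegral_swap]
  · have : ∀ ξ : En n, ∫⁻ z, f ξ * g (z - ξ) = f ξ * ∫⁻ z, g z := by
      intro ξ
      rw [lintegral_const_mul (f ξ) (show Measurable fun z : En n => g (z - ξ) from
        hg.comp (measurable_id.sub_const ξ)), lintegral_sub_right_eq_self g ξ]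
    simp_rw [this]
    rw [lintegral_mul_const _ hf]
  · exact ((hf.comp measurable_snd).mul (hg.comp (measurable_fst.sub measurable_snd))).aemeasurable

lemma cw_L2 {n : ℕ} {G H : En n → ℂ} (hGm : Measurable G) (hHm : Measurable H) {T : Set (En n)}
    (hT : MeasurableSet T) (h0 : ∀ ξ ∉ T, G ξ = 0) :
    ∫⁻ z, ‖cw G H z‖ₑ ^ 2 ≤ volume T * ((∫⁻ ξ, ‖G ξ‖ₑ ^ 2) * ∫⁻ ξ, ‖H ξ‖ₑ ^ 2) := by
  have hf : Measurable fun ξ : En n => ‖G ξ‖ₑ ^ 2 := hGm.enorm.pow_const 2
  have hg : Measurable fun ξ : En n => ‖H ξ‖ₑ ^ 2 := hHm.enorm.pow_const 2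
  rw [← double2 hf hg, ← lintegral_const_mul]
  · refine lintegral_mono fun z => ?_
    have hsub : Measurable fun ξ : En n => z - ξ := measurable_const.sub measurable_id
    have h1 : Measurable fun ξ : En n => ‖G ξ‖ₑ * ‖H (z - ξ)‖ₑ :=
      hGm.enorm.mul (hHm.comp hsub).enorm
    have h3 := cs_set h1 hT (fun ξ hξ => by simp [h0 ξ hξ])
    refine (pow_le_pow_left' (cw_le G H z) 2).trans (h3.trans ?_)
    simp_rw [mul_pow]
    exact le_rfl
  · exact Measurable.lintegral_prod_right'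
      (f := fun p : En n × En n => ‖G p.2‖ₑ ^ 2 * ‖H (p.1 - p.2)‖ₑ ^ 2)
      ((hf.comp measurable_snd).mul (hg.comp (measurable_fst.sub measurable_snd)))

lemma mem_of_fin {n : ℕ} {H : En n → ℂ} (h1 : Integrable H) (h2 : ∫⁻ z, ‖H z‖ₑ ^ 2 ≠ ∞) :
    MemLp H 2 := by
  refine ⟨h1.aestronglyMeasurable, ?_⟩
  have h4 : eLpNorm H 2 ^ 2 ≠ ∞ := by
    rw [eLp2]; exact h2
  rw [lt_top_iff_ne_top]
  intro h
  rw [h] at h4
  exact h4 (by simp)

lemma cw_mem {n : ℕ} {G H : En n → ℂ} (hGm : Measurable G) (hHm : Measurable H)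
    (hGi : Integrable G) (hHi : Integrable H) (hG : MemLp G 2) (hH : MemLp H 2) {T : Set (En n)}
    (hT : MeasurableSet T) (hv : volume T ≠ ∞) (h0 : ∀ ξ ∉ T, G ξ = 0) : MemLp (cw G H) 2 := by
  refine mem_of_fin (cw_int hGi hHi) ?_
  exact ne_top_of_le_ne_top
    (ENNReal.mul_ne_top hv (ENNReal.mul_ne_top (en2_ne_top hG) (en2_ne_top hH)))
    (cw_L2 hGm hHm hT h0)

lemma Fi_sum {n : ℕ} {H : ℕ → En n → ℂ} (hH : ∀ k, Integrable (H k)) (N : ℕ) (x : En n) :
    Fi (fun z => ∑ k ∈ Finset.range N, H k z) x = ∑ k ∈ Finset.range N, Fi (H k) x := by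
  unfold Fi
  rw [← integral_finsetSum _ fun k _ => ek_int (hH k) x]
  refine integral_congr_ae (Eventually.of_forall fun ξ => ?_)
  simp only
  rw [Finset.mul_sum]

end Pool.Agent.U556.CK
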