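import Mathlib
import Pool.Agent.U556.CK8

/-!
Dyadic pieces of the frequency space.
-/

set_option autoImplicit false
set_option linter.unusedSectionVars false

open MeasureTheory Real Set Filter Topology FourierTransform
open scoped ENNReal NNReal RealInnerProductSpace

namespace Pool.Agent.U556.CK

open Pool.Agent.Helper93.Sph Pool.Agent.U37.Sch

/-- the dyadic balls: empty, `‖ξ‖ < ρ`, `‖ξ‖ < 2ρ`, ... -/
def dy (n : ℕ) (ρ : ℝ) : ℕ → Set (En n)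
  | 0 => ∅
  | k + 1 => {ξ | ‖ξ‖ < ρ * 2 ^ k}

/-- the dyadic shells: `‖ξ‖ < ρ`, `ρ ≤ ‖ξ‖ < 2ρ`, ... -/
def sh (n : ℕ) (ρ : ℝ) (k : ℕ) : Set (En n) := dy n ρ (k + 1) \ dy n ρ k

lemma dy_meas (n : ℕ) (ρ : ℝ) (k : ℕ) : MeasurableSet (dy n ρ k) := by
  cases k with
  | zero => exact MeasurableSet.empty
  | succ k => exact measurableSet_lt measurable_norm measurable_const

lemma sh_meas (n : ℕ) (ρ : ℝ) (k : ℕ) : MeasurableSet (sh n ρ k) :=
  (dy_meas n ρ _).diff (dy_meas n ρ _)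

lemma dy_vol (n : ℕ) (ρ : ℝ) (k : ℕ) : volume (dy n ρ k) ≠ ∞ := by
  cases k with
  | zero => simp [dy]
  | succ k =>
    have : dy n ρ (k + 1) = Metric.ball 0 (ρ * 2 ^ k) := by
      ext ξ; simp [dy]
    rw [this]
    exact measure_ball_lt_top.ne

lemma sh_vol (n : ℕ) (ρ : ℝ) (k : ℕ) : volume (sh n ρ k) ≠ ∞ :=
  ne_top_of_le_ne_top (dy_vol n ρ (k + 1)) (measure_mono sdiff_subset)

lemma dy_mono {n : ℕ} {ρ : ℝ} (hρ : 0 < ρ) : Monotone (dy n ρ) := by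
  refine monotone_nat_of_le_succ fun k => ?_
  cases k with
  | zero => exact empty_subset _
  | succ k =>
    intro ξ hξ
    have h : ‖ξ‖ < ρ * 2 ^ k := hξ
    have : ρ * 2 ^ k ≤ ρ * 2 ^ (k + 1) := by
      rw [pow_succ]
      have : 0 < ρ * 2 ^ k := by positivity
      nlinarith
    exact h.trans_le this

/-- the product of a piece with the part of lower frequency, on the Fourier side -/
noncomputable def Hk {n : ℕ} (G : En n → ℂ) (ρ : ℝ) (k : ℕ) : En n → ℂ :=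
  cw ((sh n ρ k).indicator G) ((dy n ρ (k - 1)).indicator G)

lemma Hk_int {n : ℕ} {G : En n → ℂ} (hG : MemLp G 2) (ρ : ℝ) (k : ℕ) : Integrable (Hk G ρ k) :=
  cw_int (ind_fin hG (sh_meas n ρ k) (sh_vol n ρ k)) (ind_fin hG (dy_meas n ρ _) (dy_vol n ρ _))

lemma Hk_mem {n : ℕ} {G : En n → ℂ} (hGm : Measurable G) (hG : MemLp G 2) (ρ : ℝ) (k : ℕ) :
    MemLp (Hk G ρ k) 2 :=
  cw_mem (hGm.indicator (sh_meas n ρ k)) (hGm.indicator (dy_meas n ρ _))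
    (ind_fin hG (sh_meas n ρ k) (sh_vol n ρ k)) (ind_fin hG (dy_meas n ρ _) (dy_vol n ρ _))
    (hG.indicator (sh_meas n ρ k)) (hG.indicator (dy_meas n ρ _)) (sh_meas n ρ k) (sh_vol n ρ k)
    (fun ξ hξ => indicator_of_notMem hξ _)

lemma Hk_Fi {n : ℕ} {G : En n → ℂ} (hG : MemLp G 2) (ρ : ℝ) (k : ℕ) (x : En n) :
    Fi (Hk G ρ k) x = sE G (sh n ρ k) x * sE G (dy n ρ (k - 1)) x :=
  cw_Fi (ind_fin hG (sh_meas n ρ k) (sh_vol n ρ k)) (ind_fin hG (dy_meas n ρ _) (dy_vol n ρ _)) x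

lemma Hk_supp {n : ℕ} {G : En n → ℂ} {ρ : ℝ} {k : ℕ} {z : En n} (h : Hk G ρ k z ≠ 0) :
    ∃ i, k = i + 2 ∧ ρ * 2 ^ i ≤ ‖z‖ ∧ ‖z‖ < 5 * (ρ * 2 ^ i) := by
  by_contra hcon
  apply h
  refine cw_zero fun ξ => ?_
  by_contra hne
  have h1 : ξ ∈ sh n ρ k := by
    by_contra h2
    exact hne (by rw [indicator_of_notMem h2, zero_mul])
  have h2 : z - ξ ∈ dy n ρ (k - 1) := by
    by_contra h2
    exact hne (by rw [indicator_of_notMem h2, mul_zero])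
  match k, h1, h2, hcon with
  | 0, h1, h2, _ => exact h2
  | 1, h1, h2, _ => exact h2
  | i + 2, h1, h2, hcon =>
    apply hcon
    have a1 : ‖ξ‖ < ρ * 2 ^ (i + 2) := h1.1
    have a2 : ρ * 2 ^ (i + 1) ≤ ‖ξ‖ := not_lt.1 h1.2
    have a3 : ‖z - ξ‖ < ρ * 2 ^ i := h2
    have a4 : ‖ξ‖ - ‖z - ξ‖ ≤ ‖z‖ := by
      have := norm_sub_norm_le ξ (ξ - z)
      rw [show ξ - (ξ - z) = z by abel, norm_sub_rev ξ z] at this
      exact this
    have a5 : ‖z‖ ≤ ‖z - ξ‖ + ‖ξ‖ := by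
      have := norm_add_le (z - ξ) ξ
      rwa [sub_add_cancel] at this
    refine ⟨i, rfl, ?_, ?_⟩
    · rw [pow_succ] at a2
      nlinarith
    · rw [pow_succ, pow_succ] at a1
      nlinarith

lemma card3 {n : ℕ} (G : En n → ℂ) {ρ : ℝ} (hρ : 0 < ρ) (N : ℕ) (z : En n) :
    ((Finset.range N).filter fun k => Hk G ρ k z ≠ 0).card ≤ 3 := by
  set S := (Finset.range N).filter fun k => Hk G ρ k z ≠ 0 with hS
  rcases S.eq_empty_or_nonempty with h0 | hne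
  · rw [h0]; simp
  · set k0 := S.min' hne with hk0
    have hk0S : k0 ∈ S := S.min'_mem hne
    have hsub : S ⊆ Finset.Icc k0 (k0 + 2) := by
      intro k hk
      have hle : k0 ≤ k := S.min'_le k hk
      obtain ⟨i, rfl, b1, b2⟩ := Hk_supp (Finset.mem_filter.1 hk).2
      obtain ⟨j, hj, c1, c2⟩ := Hk_supp (Finset.mem_filter.1 hk0S).2
      rw [Finset.mem_Icc]
      refine ⟨hle, ?_⟩
      by_contra hlt
      push Not at hlt
      have h3 : j + 3 ≤ i := by omega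
      have h4 : (2 : ℝ) ^ (j + 3) ≤ 2 ^ i := pow_le_pow_right₀ (by norm_num) h3
      rw [pow_add] at h4
      have h5 : ρ * (2 ^ j * 2 ^ 3) ≤ ρ * 2 ^ i := by gcongr
      have h6 : 0 < ρ * 2 ^ j := by positivity
      nlinarith
    calc S.card ≤ (Finset.Icc k0 (k0 + 2)).card := Finset.card_le_card hsub
      _ = 3 := by rw [Nat.card_Icc]; omega

lemma sum3 {n : ℕ} (G : En n → ℂ) {ρ : ℝ} (hρ : 0 < ρ) (N : ℕ) (z : En n) :
    ‖∑ k ∈ Finset.range N, Hk G ρ k z‖ₑ ^ 2 ≤ 3 * ∑ k ∈ Finset.range N, ‖Hk G ρ k z‖ₑ ^ 2 := by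
  have h1 : ‖∑ k ∈ Finset.range N, Hk G ρ k z‖ ^ 2 ≤
      3 * ∑ k ∈ Finset.range N, ‖Hk G ρ k z‖ ^ 2 := by
    have e1 : ∑ k ∈ Finset.range N, Hk G ρ k z =
        ∑ k ∈ (Finset.range N).filter (fun k => Hk G ρ k z ≠ 0), Hk G ρ k z :=
      (Finset.sum_filter_ne_zero _).symm
    have h2 : ‖∑ k ∈ Finset.range N, Hk G ρ k z‖ ≤
        ∑ k ∈ (Finset.range N).filter (fun k => Hk G ρ k z ≠ 0), ‖Hk G ρ k z‖ := by
      rw [e1]; exact norm_sum_le _ _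
    calc ‖∑ k ∈ Finset.range N, Hk G ρ k z‖ ^ 2
        ≤ (∑ k ∈ (Finset.range N).filter (fun k => Hk G ρ k z ≠ 0), ‖Hk G ρ k z‖) ^ 2 := by
          gcongr
      _ ≤ ((Finset.range N).filter (fun k => Hk G ρ k z ≠ 0)).card *
          ∑ k ∈ (Finset.range N).filter (fun k => Hk G ρ k z ≠ 0), ‖Hk G ρ k z‖ ^ 2 :=
          sq_sum_le_card_mul_sum_sq
      _ ≤ 3 * ∑ k ∈ Finset.range N, ‖Hk G ρ k z‖ ^ 2 := by
          refine mul_le_mul (by exact_mod_cast card3 G hρ N z) ?_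
            (Finset.sum_nonneg fun _ _ => by positivity) (by norm_num)
          exact Finset.sum_le_sum_of_subset_of_nonneg (Finset.filter_subset _ _)
            fun _ _ _ => by positivity
  have e : ∀ w : ℂ, ‖w‖ₑ ^ 2 = ENNReal.ofReal (‖w‖ ^ 2) := fun w => by
    rw [ENNReal.ofReal_pow (norm_nonneg _), ofReal_norm]
  simp_rw [e]
  rw [← ENNReal.ofReal_sum_of_nonneg fun _ _ => by positivity]
  refine (ENNReal.ofReal_le_ofReal h1).trans (le_of_eq ?_)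
  rw [ENNReal.ofReal_mul (by norm_num)]
  norm_num

/-- almost orthogonality -/
lemma W_L2 {n : ℕ} {G : En n → ℂ} (hGm : Measurable G) (hG : MemLp G 2) {ρ : ℝ} (hρ : 0 < ρ)
    (N : ℕ) :
    ∫⁻ x, ‖∑ k ∈ Finset.range N, sE G (sh n ρ k) x * sE G (dy n ρ (k - 1)) x‖ₑ ^ 2 ≤
      3 * ∑ k ∈ Finset.range N, ∫⁻ x, ‖sE G (sh n ρ k) x * sE G (dy n ρ (k - 1)) x‖ₑ ^ 2 := by
  have hi : Integrable fun z => ∑ k ∈ Finset.range N, Hk G ρ k z :=
    integrable_finsetSum _ fun k _ => Hk_int hG ρ k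
  have h2 : MemLp (fun z => ∑ k ∈ Finset.range N, Hk G ρ k z) 2 :=
    memLp_finsetSum _ fun k _ => Hk_mem hGm hG ρ k
  have h3 := planch hi h2
  simp_rw [Fi_sum (fun k => Hk_int hG ρ k), Hk_Fi hG] at h3
  rw [h3]
  refine (lintegral_mono fun z => sum3 G hρ N z).trans ?_
  rw [lintegral_const_mul' _ _ (by norm_num)]
  gcongr
  rw [lintegral_finsetSum' _ fun k _ => ((Hk_int hG ρ k).aestronglyMeasurable.enorm.pow_const 2)]
  refine Finset.sum_le_sum fun k _ => ?_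
  rw [← planch (Hk_int hG ρ k) (Hk_mem hGm hG ρ k)]
  simp_rw [Hk_Fi hG]
  exact le_rfl

end Pool.Agent.U556.CK
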