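import Mathlib
import Pool.Agent.U556.CK9

/-!
The `L⁴` extension inequality from the dyadic shells to the whole set.
-/

set_option autoImplicit false
set_option linter.unusedSectionVars false

open MeasureTheory Real Set Filter Topology FourierTransform
open scoped ENNReal NNReal RealInnerProductSpace

namespace Pool.Agent.U556.CK

open Pool.Agent.Helper93.Sph Pool.Agent.U37.Sch

lemma two_ab (a b : ℝ≥0∞) : 2 * a * b ≤ a ^ 2 + b ^ 2 := by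
  rcases le_total a b with h | h
  · obtain ⟨c, rfl⟩ := exists_add_of_le h
    calc 2 * a * (a + c) ≤ 2 * a * (a + c) + c ^ 2 := le_self_add
      _ = a ^ 2 + (a + c) ^ 2 := by ring
  · obtain ⟨c, rfl⟩ := exists_add_of_le h
    calc 2 * (b + c) * b ≤ 2 * (b + c) * b + c ^ 2 := le_self_add
      _ = (b + c) ^ 2 + b ^ 2 := by ring

lemma sE_empty {n : ℕ} (G : En n → ℂ) (x : En n) : sE G ∅ x = 0 := by
  unfold sE Fi
  simp

lemma dy_succ_sub {n : ℕ} {G : En n → ℂ} (hG : MemLp G 2) {ρ : ℝ} (hρ : 0 < ρ) (k : ℕ) (x : En n) :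
    sE G (dy n ρ (k + 1)) x = sE G (dy n ρ k) x + sE G (sh n ρ k) x := by
  have := sE_sub hG (dy_meas n ρ k) (dy_meas n ρ (k + 1)) (dy_mono hρ (Nat.le_succ k))
    (dy_vol n ρ (k + 1)) x
  rw [sh, ← this]
  ring

/-- the previous piece -/
noncomputable def up {n : ℕ} (G : En n → ℂ) (ρ : ℝ) (x : En n) : ℕ → ℂ
  | 0 => 0
  | k + 1 => sE G (sh n ρ k) x

lemma up_spec {n : ℕ} {G : En n → ℂ} (hG : MemLp G 2) {ρ : ℝ} (hρ : 0 < ρ) (k : ℕ) (x : En n) :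
    sE G (dy n ρ k) x = up G ρ x k + sE G (dy n ρ (k - 1)) x := by
  cases k with
  | zero => simp [up]
  | succ k =>
    rw [dy_succ_sub hG hρ, up, Nat.add_sub_cancel]
    ring

lemma T_sq {n : ℕ} {G : En n → ℂ} (hG : MemLp G 2) {ρ : ℝ} (hρ : 0 < ρ) (N : ℕ) (x : En n) :
    sE G (dy n ρ N) x ^ 2 = ∑ k ∈ Finset.range N, (sE G (sh n ρ k) x ^ 2 +
      2 * (sE G (sh n ρ k) x * up G ρ x k)) +
      2 * ∑ k ∈ Finset.range N, sE G (sh n ρ k) x * sE G (dy n ρ (k - 1)) x := by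
  induction N with
  | zero => simp [dy, sE_empty]
  | succ N ih =>
    rw [Finset.sum_range_succ, Finset.sum_range_succ, dy_succ_sub hG hρ, add_sq, ih]
    have h := up_spec hG hρ N x
    rw [h]
    ring

lemma T_le {n : ℕ} {G : En n → ℂ} (hG : MemLp G 2) {ρ : ℝ} (hρ : 0 < ρ) (N : ℕ) (x : En n) :
    ‖sE G (dy n ρ N) x‖ₑ ^ 2 ≤ 3 * ∑ k ∈ Finset.range N, ‖sE G (sh n ρ k) x‖ₑ ^ 2 +
      2 * ‖∑ k ∈ Finset.range N, sE G (sh n ρ k) x * sE G (dy n ρ (k - 1)) x‖ₑ := by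
  have e2 : ‖(2 : ℂ)‖ₑ = 2 := by
    rw [← ofReal_norm]; simp
  have hu : ∑ k ∈ Finset.range N, ‖up G ρ x k‖ₑ ^ 2 ≤
      ∑ k ∈ Finset.range N, ‖sE G (sh n ρ k) x‖ₑ ^ 2 := by
    cases N with
    | zero => simp
    | succ N =>
      rw [Finset.sum_range_succ', Finset.sum_range_succ]
      simp [up]
  rw [← enorm_pow, T_sq hG hρ]
  refine (enorm_add_le _ _).trans ?_
  rw [enorm_mul, e2]
  gcongr
  refine (enorm_sum_le _ _).trans ?_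
  calc ∑ k ∈ Finset.range N, ‖sE G (sh n ρ k) x ^ 2 + 2 * (sE G (sh n ρ k) x * up G ρ x k)‖ₑ
      ≤ ∑ k ∈ Finset.range N, (‖sE G (sh n ρ k) x‖ₑ ^ 2 +
        (‖sE G (sh n ρ k) x‖ₑ ^ 2 + ‖up G ρ x k‖ₑ ^ 2)) := by
        refine Finset.sum_le_sum fun k _ => (enorm_add_le _ _).trans ?_
        rw [enorm_pow, enorm_mul, e2, enorm_mul, ← mul_assoc]
        gcongr
        exact two_ab _ _
    _ = 2 * ∑ k ∈ Finset.range N, ‖sE G (sh n ρ k) x‖ₑ ^ 2 +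
        ∑ k ∈ Finset.range N, ‖up G ρ x k‖ₑ ^ 2 := by
        rw [Finset.sum_add_distrib, Finset.sum_add_distrib]
        ring
    _ ≤ 2 * ∑ k ∈ Finset.range N, ‖sE G (sh n ρ k) x‖ₑ ^ 2 +
        ∑ k ∈ Finset.range N, ‖sE G (sh n ρ k) x‖ₑ ^ 2 := by gcongr
    _ = 3 * ∑ k ∈ Finset.range N, ‖sE G (sh n ρ k) x‖ₑ ^ 2 := by ring

lemma mass_sum {n : ℕ} (G : En n → ℂ) {ρ : ℝ} (hρ : 0 < ρ) (N : ℕ) :
    ∑ k ∈ Finset.range N, ∫⁻ ξ in sh n ρ k, ‖G ξ‖ₑ ^ 2 = ∫⁻ ξ in dy n ρ N, ‖G ξ‖ₑ ^ 2 := by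
  induction N with
  | zero => simp [dy]
  | succ N ih =>
    rw [Finset.sum_range_succ, ih, ← lintegral_union (sh_meas n ρ N)]
    · congr 2
      rw [sh, union_sdiff_self, union_eq_self_of_subset_left (dy_mono hρ (Nat.le_succ N))]
    · rw [sh]
      exact disjoint_sdiff_self_right

lemma cross {n : ℕ} {f g : En n → ℝ≥0∞} (hf : Measurable f) (hg : Measurable g)
    {K a b : ℝ≥0∞} (h1 : ∫⁻ x, f x ^ 4 ≤ K * a ^ 2) (h2 : ∫⁻ x, g x ^ 4 ≤ K * b ^ 2) :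
    ∫⁻ x, f x ^ 2 * g x ^ 2 ≤ K * (a * b) := by
  have h := ENNReal.lintegral_mul_le_Lp_mul_Lq (μ := (volume : Measure (En n)))
    Real.HolderConjugate.two_two (hf.pow_const 2).aemeasurable (hg.pow_const 2).aemeasurable
  have e : ∀ t : ℝ≥0∞, (t ^ 2) ^ (2 : ℝ) = t ^ 4 := fun t => by
    rw [← ENNReal.rpow_natCast t 2, ← ENNReal.rpow_mul, ← ENNReal.rpow_natCast t 4]
    norm_num
  have e' : ∀ t : ℝ≥0∞, (K * t ^ 2) ^ (1 / 2 : ℝ) = K ^ (1 / 2 : ℝ) * t := fun t => by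
    rw [ENNReal.mul_rpow_of_nonneg _ _ (by norm_num), ← ENNReal.rpow_natCast t 2,
      ← ENNReal.rpow_mul]
    norm_num
  calc ∫⁻ x, f x ^ 2 * g x ^ 2 = ∫⁻ x, ((fun y => f y ^ 2) * fun y => g y ^ 2) x := rfl
    _ ≤ (∫⁻ x, (f x ^ 2) ^ (2 : ℝ)) ^ (1 / 2 : ℝ) * (∫⁻ x, (g x ^ 2) ^ (2 : ℝ)) ^ (1 / 2 : ℝ) := h
    _ = (∫⁻ x, f x ^ 4) ^ (1 / 2 : ℝ) * (∫⁻ x, g x ^ 4) ^ (1 / 2 : ℝ) := by
        simp_rw [e]
    _ ≤ (K * a ^ 2) ^ (1 / 2 : ℝ) * (K * b ^ 2) ^ (1 / 2 : ℝ) := by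
        gcongr
    _ = K ^ (1 / 2 : ℝ) * K ^ (1 / 2 : ℝ) * (a * b) := by
        rw [e', e']
        ring
    _ = K * (a * b) := by
        rw [← ENNReal.rpow_add_of_nonneg _ _ (by norm_num) (by norm_num)]
        norm_num

/-- the square function -/
noncomputable def Qf {n : ℕ} (G : En n → ℂ) (ρ : ℝ) (N : ℕ) (x : En n) : ℝ≥0∞ :=
  ∑ k ∈ Finset.range N, ‖sE G (sh n ρ k) x‖ₑ ^ 2

lemma Q_L2 {n : ℕ} {G : En n → ℂ} (hGm : Measurable G) (hG : MemLp G 2) {Λ : Set (En n)}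
    {ρ : ℝ} (hρ : 0 < ρ) {K : ℝ≥0∞} (hK : ∀ k, E4 (Λ ∩ sh n ρ k) K) (h0 : ∀ ξ ∉ Λ, G ξ = 0)
    (N : ℕ) : ∫⁻ x, Qf G ρ N x ^ 2 ≤ K * (∫⁻ ξ, ‖G ξ‖ₑ ^ 2) ^ 2 := by
  set e : ℕ → ℝ≥0∞ := fun k => ∫⁻ ξ in sh n ρ k, ‖G ξ‖ₑ ^ 2 with he
  have hm : ∀ k, Measurable fun x => ‖sE G (sh n ρ k) x‖ₑ := fun k =>
    (sE_meas hG (sh_meas n ρ k) (sh_vol n ρ k)).enorm
  have hf : ∀ k, ∫⁻ x, ‖sE G (sh n ρ k) x‖ₑ ^ 4 ≤ K * e k ^ 2 := by
    intro k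
    have h1 := hK k ((sh n ρ k).indicator G) (hGm.indicator (sh_meas n ρ k))
      (ind_fin hG (sh_meas n ρ k) (sh_vol n ρ k)) (hG.indicator (sh_meas n ρ k)) (fun ξ hξ => by
        by_cases h : ξ ∈ sh n ρ k
        · rw [indicator_of_mem h, h0 ξ (fun h' => hξ ⟨h', h⟩)]
        · rw [indicator_of_notMem h])
    rw [e2_ind G (sh_meas n ρ k)] at h1
    exact h1
  have e1 : ∀ x, Qf G ρ N x ^ 2 = ∑ k ∈ Finset.range N, ∑ l ∈ Finset.range N,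
      ‖sE G (sh n ρ k) x‖ₑ ^ 2 * ‖sE G (sh n ρ l) x‖ₑ ^ 2 := by
    intro x
    rw [Qf, sq, Finset.sum_mul_sum]
  simp_rw [e1]
  have hkl : ∀ k l, Measurable fun x =>
      ‖sE G (sh n ρ k) x‖ₑ ^ 2 * ‖sE G (sh n ρ l) x‖ₑ ^ 2 := fun k l =>
    ((hm k).pow_const 2).mul ((hm l).pow_const 2)
  rw [lintegral_finsetSum _ fun k _ => Finset.measurable_sum _ fun l _ => hkl k l]
  calc ∑ k ∈ Finset.range N, ∫⁻ x, ∑ l ∈ Finset.range N,
        ‖sE G (sh n ρ k) x‖ₑ ^ 2 * ‖sE G (sh n ρ l) x‖ₑ ^ 2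
      = ∑ k ∈ Finset.range N, ∑ l ∈ Finset.range N, ∫⁻ x,
        ‖sE G (sh n ρ k) x‖ₑ ^ 2 * ‖sE G (sh n ρ l) x‖ₑ ^ 2 := by
        refine Finset.sum_congr rfl fun k _ => ?_
        exact lintegral_finsetSum _ fun l _ => hkl k l
    _ ≤ ∑ k ∈ Finset.range N, ∑ l ∈ Finset.range N, K * (e k * e l) :=
        Finset.sum_le_sum fun k _ => Finset.sum_le_sum fun l _ => cross (hm k) (hm l) (hf k) (hf l)
    _ = K * (∑ k ∈ Finset.range N, e k) ^ 2 := by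
        rw [sq, Finset.sum_mul_sum, Finset.mul_sum]
        refine Finset.sum_congr rfl fun k _ => ?_
        rw [Finset.mul_sum]
    _ ≤ K * (∫⁻ ξ, ‖G ξ‖ₑ ^ 2) ^ 2 := by
        gcongr
        rw [he, mass_sum G hρ N]
        exact setLIntegral_le_lintegral _ _

lemma sE_of_sub {n : ℕ} (G : En n → ℂ) {D E : Set (En n)} (h : D ⊆ E) (x : En n) :
    sE (E.indicator G) D x = sE G D x := by
  unfold sE
  rw [indicator_indicator, inter_eq_self_of_subset_left h]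

/-- the induction step -/
lemma dy_step {n : ℕ} {Λ : Set (En n)} {ρ : ℝ} (hρ : 0 < ρ) {K : ℝ≥0∞}
    (hK : ∀ k, E4 (Λ ∩ sh n ρ k) K) (N : ℕ) (ih : E4 (Λ ∩ dy n ρ N) (2 ^ 18 * K)) :
    E4 (Λ ∩ dy n ρ (N + 1)) (2 ^ 18 * K) := by
  intro G hGm hGi hG h0
  set E : ℝ≥0∞ := ∫⁻ ξ, ‖G ξ‖ₑ ^ 2 with hE
  have h0' : ∀ ξ ∉ Λ, G ξ = 0 := fun ξ hξ => h0 ξ (fun h => hξ h.1)
  have hT : ∀ x, Fi G x = sE G (dy n ρ (N + 1)) x := by
    intro x
    unfold sE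
    congr 1
    funext ξ
    by_cases h : ξ ∈ dy n ρ (N + 1)
    · rw [indicator_of_mem h]
    · rw [indicator_of_notMem h, h0 ξ (fun h' => h h'.2)]
  set G' : En n → ℂ := (dy n ρ N).indicator G with hG'
  set M : En n → ℝ≥0∞ := fun x => ⨆ j, ‖sE G' (dy n ρ j) x‖ₑ with hM
  have hG'm : Measurable G' := hGm.indicator (dy_meas n ρ N)
  have hG'2 : MemLp G' 2 := hG.indicator (dy_meas n ρ N)
  have hMm : Measurable M := Measurable.iSup fun j =>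
    (sE_meas hG'2 (dy_meas n ρ j) (dy_vol n ρ j)).enorm
  have hQm : Measurable (Qf G ρ (N + 1)) := Finset.measurable_sum _ fun k _ =>
    (sE_meas hG (sh_meas n ρ k) (sh_vol n ρ k)).enorm.pow_const 2
  have hQ : ∫⁻ x, Qf G ρ (N + 1) x ^ 2 ≤ K * E ^ 2 := Q_L2 hGm hG hρ hK h0' (N + 1)
  have hM4 : ∫⁻ x, M x ^ 4 ≤ 20480 ^ 2 * (K * E ^ 2) := by
    have h1 := seq_max hG'm hG'2 ih (fun ξ hξ => by
      by_cases h : ξ ∈ dy n ρ N
      · rw [hG', indicator_of_mem h, h0' ξ (fun h' => hξ ⟨h', h⟩)]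
      · rw [hG', indicator_of_notMem h]) (dy_meas n ρ) (dy_vol n ρ) (dy_mono hρ)
    refine h1.trans ?_
    have h2 : ∫⁻ ξ, ‖G' ξ‖ₑ ^ 2 ≤ E := by
      rw [hG', e2_ind G (dy_meas n ρ N)]
      exact setLIntegral_le_lintegral _ _
    calc 1600 * (2 ^ 18 * K) * (∫⁻ ξ, ‖G' ξ‖ₑ ^ 2) ^ 2 ≤ 1600 * (2 ^ 18 * K) * E ^ 2 := by gcongr
      _ = 20480 ^ 2 * (K * E ^ 2) := by ring
  set W : En n → ℂ := fun x =>
    ∑ k ∈ Finset.range (N + 1), sE G (sh n ρ k) x * sE G (dy n ρ (k - 1)) x with hW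
  have hWm : Measurable W := Finset.measurable_sum _ fun k _ =>
    (sE_meas hG (sh_meas n ρ k) (sh_vol n ρ k)).mul (sE_meas hG (dy_meas n ρ _) (dy_vol n ρ _))
  have hW1 : ∫⁻ x, ‖W x‖ₑ ^ 2 ≤ 3 * ∫⁻ x, Qf G ρ (N + 1) x * M x ^ 2 := by
    refine (W_L2 hGm hG hρ (N + 1)).trans ?_
    gcongr
    have hkk : ∀ k, Measurable fun x =>
        ‖sE G (sh n ρ k) x * sE G (dy n ρ (k - 1)) x‖ₑ ^ 2 := fun k =>
      ((sE_meas hG (sh_meas n ρ k) (sh_vol n ρ k)).mul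
        (sE_meas hG (dy_meas n ρ _) (dy_vol n ρ _))).enorm.pow_const 2
    rw [← lintegral_finsetSum _ fun k _ => hkk k]
    refine lintegral_mono fun x => ?_
    rw [Qf, Finset.sum_mul]
    refine Finset.sum_le_sum fun k hk => ?_
    rw [enorm_mul, mul_pow]
    gcongr
    have h1 : k - 1 ≤ N := by
      have := Finset.mem_range.1 hk
      omega
    rw [← sE_of_sub G (dy_mono hρ h1) x]
    exact le_iSup (fun j => ‖sE G' (dy n ρ j) x‖ₑ) (k - 1)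
  have hQM : ∫⁻ x, Qf G ρ (N + 1) x * M x ^ 2 ≤ 20480 * (K * E ^ 2) := by
    have h1 : 2 * 20480 * ∫⁻ x, Qf G ρ (N + 1) x * M x ^ 2 ≤
        2 * 20480 * (20480 * (K * E ^ 2)) := by
      calc 2 * 20480 * ∫⁻ x, Qf G ρ (N + 1) x * M x ^ 2
          = ∫⁻ x, 2 * (20480 * Qf G ρ (N + 1) x) * M x ^ 2 := by
            rw [← lintegral_const_mul _ (show Measurable fun x => Qf G ρ (N + 1) x * M x ^ 2 from
              hQm.mul (hMm.pow_const 2))]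
            refine lintegral_congr fun x => ?_
            ring
        _ ≤ ∫⁻ x, ((20480 * Qf G ρ (N + 1) x) ^ 2 + (M x ^ 2) ^ 2) :=
            lintegral_mono fun x => two_ab _ _
        _ = 20480 ^ 2 * (∫⁻ x, Qf G ρ (N + 1) x ^ 2) + ∫⁻ x, M x ^ 4 := by
            rw [lintegral_add_left ((hQm.const_mul _).pow_const 2),
              ← lintegral_const_mul _ (hQm.pow_const 2)]
            congr 1
            · refine lintegral_congr fun x => ?_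
              ring
            · refine lintegral_congr fun x => ?_
              ring
        _ ≤ 20480 ^ 2 * (K * E ^ 2) + 20480 ^ 2 * (K * E ^ 2) := by gcongr
        _ = 2 * 20480 * (20480 * (K * E ^ 2)) := by ring
    exact (ENNReal.mul_le_mul_iff_right (by norm_num) (by finiteness)).1 h1
  have h5 : 5 * ∫⁻ x, ‖Fi G x‖ₑ ^ 4 ≤ 5 * (2 ^ 18 * K * E ^ 2) := by
    calc 5 * ∫⁻ x, ‖Fi G x‖ₑ ^ 4 = ∫⁻ x, 5 * (‖Fi G x‖ₑ ^ 2) ^ 2 := by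
          rw [← lintegral_const_mul _ ((Fi_cont hGi).measurable.enorm.pow_const 4)]
          refine lintegral_congr fun x => ?_
          ring
      _ ≤ ∫⁻ x, (945 * Qf G ρ (N + 1) x ^ 2 + 21 * ‖W x‖ₑ ^ 2) := by
          refine lintegral_mono fun x => ?_
          have h1 : ‖Fi G x‖ₑ ^ 2 ≤ 3 * Qf G ρ (N + 1) x + 2 * ‖W x‖ₑ := by
            rw [hT]; exact T_le hG hρ (N + 1) x
          have h2 := two_ab (30 * Qf G ρ (N + 1) x) ‖W x‖ₑ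
          calc 5 * (‖Fi G x‖ₑ ^ 2) ^ 2 ≤ 5 * (3 * Qf G ρ (N + 1) x + 2 * ‖W x‖ₑ) ^ 2 := by gcongr
            _ = 45 * Qf G ρ (N + 1) x ^ 2 + 20 * ‖W x‖ₑ ^ 2 +
                2 * (30 * Qf G ρ (N + 1) x) * ‖W x‖ₑ := by ring
            _ ≤ 45 * Qf G ρ (N + 1) x ^ 2 + 20 * ‖W x‖ₑ ^ 2 +
                ((30 * Qf G ρ (N + 1) x) ^ 2 + ‖W x‖ₑ ^ 2) := by gcongr
            _ = 945 * Qf G ρ (N + 1) x ^ 2 + 21 * ‖W x‖ₑ ^ 2 := by ring
      _ = 945 * (∫⁻ x, Qf G ρ (N + 1) x ^ 2) + 21 * ∫⁻ x, ‖W x‖ₑ ^ 2 := by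
          rw [lintegral_add_left ((hQm.pow_const 2).const_mul _),
            lintegral_const_mul _ (hQm.pow_const 2), lintegral_const_mul _ (hWm.enorm.pow_const 2)]
      _ ≤ 945 * (K * E ^ 2) + 21 * (3 * (20480 * (K * E ^ 2))) := by
          gcongr
          exact hW1.trans (by gcongr)
      _ = 1291185 * (K * E ^ 2) := by ring
      _ ≤ 1310720 * (K * E ^ 2) := by
          gcongr
          norm_num
      _ = 5 * (2 ^ 18 * K * E ^ 2) := by ring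
  exact (ENNReal.mul_le_mul_iff_right (by norm_num) (by finiteness)).1 h5

lemma dy_all {n : ℕ} {Λ : Set (En n)} {ρ : ℝ} (hρ : 0 < ρ) {K : ℝ≥0∞}
    (hK : ∀ k, E4 (Λ ∩ sh n ρ k) K) (N : ℕ) : E4 (Λ ∩ dy n ρ N) (2 ^ 18 * K) := by
  induction N with
  | zero =>
    intro G _ _ _ h0
    have : G = 0 := by
      funext ξ
      exact h0 ξ (fun h => h.2)
    rw [this]
    simp [Fi]
  | succ N ih => exact dy_step hρ hK N ih

/-- **from the dyadic shells to the whole set** -/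
theorem dyadic {n : ℕ} {Λ : Set (En n)} {ρ : ℝ} (hρ : 0 < ρ) {K : ℝ≥0∞}
    (hK : ∀ k, E4 (Λ ∩ sh n ρ k) K) : E4 Λ (2 ^ 18 * K) := by
  intro G hGm hGi hG h0
  have hb : ∀ N, ∫⁻ x, ‖sE G (dy n ρ N) x‖ₑ ^ 4 ≤ 2 ^ 18 * K * (∫⁻ ξ, ‖G ξ‖ₑ ^ 2) ^ 2 := by
    intro N
    have h1 := dy_all hρ hK N ((dy n ρ N).indicator G) (hGm.indicator (dy_meas n ρ N))
      (ind_fin hG (dy_meas n ρ N) (dy_vol n ρ N)) (hG.indicator (dy_meas n ρ N)) (fun ξ hξ => by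
        by_cases h : ξ ∈ dy n ρ N
        · rw [indicator_of_mem h, h0 ξ (fun h' => hξ ⟨h', h⟩)]
        · rw [indicator_of_notMem h])
    refine h1.trans ?_
    rw [e2_ind G (dy_meas n ρ N)]
    gcongr
    exact Measure.restrict_le_self
  have hlim : ∀ x, Tendsto (fun N => ‖sE G (dy n ρ N) x‖ₑ ^ 4) atTop (𝓝 (‖Fi G x‖ₑ ^ 4)) := by
    intro x
    refine ENNReal.Tendsto.pow (Tendsto.enorm ?_)
    unfold sE Fi
    refine tendsto_integral_of_dominated_convergence (fun ξ => ‖G ξ‖) ?_ hGi.norm ?_ ?_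
    · intro N
      exact (ek_int (ind_fin hG (dy_meas n ρ N) (dy_vol n ρ N)) x).aestronglyMeasurable
    · intro N
      refine Eventually.of_forall fun ξ => ?_
      rw [norm_mul, ek_norm, one_mul]
      exact norm_indicator_le_norm_self _ _
    · refine Eventually.of_forall fun ξ => ?_
      obtain ⟨N, hN⟩ := pow_unbounded_of_one_lt (‖ξ‖ / ρ) (by norm_num : (1 : ℝ) < 2)
      refine tendsto_const_nhds.congr' ?_
      filter_upwards [eventually_ge_atTop (N + 1)] with j hj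
      have h1 : ξ ∈ dy n ρ (N + 1) := by
        show ‖ξ‖ < ρ * 2 ^ N
        rw [div_lt_iff₀ hρ] at hN
        linarith
      rw [indicator_of_mem (dy_mono hρ hj h1)]
  calc ∫⁻ x, ‖Fi G x‖ₑ ^ 4 = ∫⁻ x, liminf (fun N => ‖sE G (dy n ρ N) x‖ₑ ^ 4) atTop := by
        refine lintegral_congr fun x => ?_
        rw [(hlim x).liminf_eq]
    _ ≤ liminf (fun N => ∫⁻ x, ‖sE G (dy n ρ N) x‖ₑ ^ 4) atTop :=
        lintegral_liminf_le fun N => (sE_meas hG (dy_meas n ρ N) (dy_vol n ρ N)).enorm.pow_const 4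
    _ ≤ liminf (fun _ : ℕ => 2 ^ 18 * K * (∫⁻ ξ, ‖G ξ‖ₑ ^ 2) ^ 2) atTop :=
        liminf_le_liminf (Eventually.of_forall hb)
    _ = _ := by simp

end Pool.Agent.U556.CK
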