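import Mathlib
import Pool.Agent.U556.CK7
import Pool.Agent.U556.CKA

/-!
Assembly: spectra with sparse sumsets in every dyadic shell.
-/

set_option autoImplicit false
set_option linter.unusedSectionVars false

open MeasureTheory Real Set Filter Topology Metric
open scoped ENNReal NNReal RealInnerProductSpace

namespace Pool.Agent.U556.CK

open Pool.Agent.Helper93.Sph Pool.Agent.U588.Sph Pool.Agent.U37.Sch

/-- the partial integral over the set of frequencies `D` -/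
noncomputable def pD {n : ℕ} (G : En n → ℂ) (D : Set (En n)) (x : En n) : ℂ :=
  ∫ ξ in D, ek x ξ * G ξ

lemma pD_eq {n : ℕ} (G : En n → ℂ) {D : Set (En n)} (hD : MeasurableSet D) (x : En n) :
    pD G D x = sE G D x := by
  unfold pD sE Fi
  rw [← integral_indicator hD]
  refine integral_congr_ae (Eventually.of_forall fun ξ => ?_)
  simp only
  by_cases h : ξ ∈ D
  · rw [indicator_of_mem h, indicator_of_mem h]
  · rw [indicator_of_notMem h, indicator_of_notMem h, mul_zero]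

lemma pD_congr {n : ℕ} {G G' : En n → ℂ} (h : G =ᵐ[volume] G') (D : Set (En n)) (x : En n) :
    pD G D x = pD G' D x := by
  unfold pD
  refine integral_congr_ae (ae_restrict_of_ae ?_)
  filter_upwards [h] with ξ hξ
  rw [hξ]

lemma sum_mono {n : ℕ} {Λ Λ' : Set (En n)} (h : Λ ⊆ Λ') {K : ℝ≥0∞} (hK : SumB Λ' K) :
    SumB Λ K := fun z =>
  (measure_mono (show {ξ | ξ ∈ Λ ∧ z - ξ ∈ Λ} ⊆ {ξ | ξ ∈ Λ' ∧ z - ξ ∈ Λ'} from
    fun _ hξ => ⟨h hξ.1, h hξ.2⟩)).trans (hK z)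

lemma sum_vol {n : ℕ} {Λ : Set (En n)} {K : ℝ≥0∞} (hK : volume Λ ≤ K) : SumB Λ K := fun z =>
  (measure_mono (show {ξ | ξ ∈ Λ ∧ z - ξ ∈ Λ} ⊆ Λ from fun _ hξ => hξ.1)).trans hK

lemma e4_shells {n : ℕ} {Λ : Set (En n)} (hΛ : MeasurableSet Λ) {ρ : ℝ} (hρ : 0 < ρ) {K : ℝ≥0∞}
    (hKt : K ≠ ∞) (hK : ∀ k, SumB (Λ ∩ sh n ρ k) K) : E4 Λ (2 ^ 18 * K) :=
  dyadic hρ fun k => e4_of_sum (hΛ.inter (sh_meas n ρ k)) hKt (hK k)

lemma const_le (K E : ℝ≥0∞) : 1600 * (2 ^ 18 * K) * E ^ 2 ≤ 2 ^ 29 * K * E ^ 2 := by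
  rw [← mul_assoc]
  gcongr
  norm_num

/-- reduction to a measurable function which vanishes exactly off `Λ` -/
lemma red {n : ℕ} {Λ : Set (En n)} (hΛ : MeasurableSet Λ) {G : En n → ℂ} (hG : MemLp G 2)
    (h0 : ∀ᵐ ξ : En n, ξ ∉ Λ → G ξ = 0) :
    ∃ G' : En n → ℂ, Measurable G' ∧ MemLp G' 2 ∧ (∀ ξ ∉ Λ, G' ξ = 0) ∧ G =ᵐ[volume] G' := by
  have hGG : G =ᵐ[volume] Λ.indicator (hG.1.mk G) := by
    filter_upwards [hG.1.ae_eq_mk, h0] with ξ hξ h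
    by_cases h' : ξ ∈ Λ
    · rw [indicator_of_mem h', hξ]
    · rw [indicator_of_notMem h', h h']
  exact ⟨_, hG.1.stronglyMeasurable_mk.measurable.indicator hΛ, (memLp_congr_ae hGG).1 hG,
    fun ξ hξ => indicator_of_notMem hξ _, hGG⟩

lemma cs_loc {n : ℕ} {f : En n → ℝ≥0∞} (hf : Measurable f) (B : Set (En n)) :
    (∫⁻ x in B, f x ^ 2) ^ 2 ≤ volume B * ∫⁻ x, f x ^ 4 := by
  have h := ENNReal.lintegral_mul_le_Lp_mul_Lq (μ := volume.restrict B)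
    Real.HolderConjugate.two_two (hf.pow_const 2).aemeasurable
    (g := (1 : En n → ℝ≥0∞)) measurable_one.aemeasurable
  have e : ∀ t : ℝ≥0∞, (t ^ 2) ^ (2 : ℝ) = t ^ 4 := fun t => by
    rw [← ENNReal.rpow_natCast t 2, ← ENNReal.rpow_mul, ← ENNReal.rpow_natCast t 4]
    norm_num
  calc (∫⁻ x in B, f x ^ 2) ^ 2 = (∫⁻ x in B, ((fun y => f y ^ 2) * (1 : En n → ℝ≥0∞)) x) ^ 2 := by
        simp
    _ ≤ ((∫⁻ x in B, (f x ^ 2) ^ (2 : ℝ)) ^ (1 / 2 : ℝ) *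
          (∫⁻ x in B, ((1 : En n → ℝ≥0∞) x) ^ (2 : ℝ)) ^ (1 / 2 : ℝ)) ^ 2 :=
        pow_le_pow_left' h 2
    _ = (∫⁻ x in B, f x ^ 4) * volume B := by
        simp_rw [e]
        rw [mul_pow, ← ENNReal.rpow_natCast, ← ENNReal.rpow_natCast, ← ENNReal.rpow_mul,
          ← ENNReal.rpow_mul]
        norm_num
    _ ≤ (∫⁻ x, f x ^ 4) * volume B := by
        gcongr
        exact Measure.restrict_le_self
    _ = _ := mul_comm _ _

/-- the balls with centres in `A` which meet the `k`-th shell -/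
def near {n : ℕ} (A : Set (En n)) (r ρ : ℝ) (k : ℕ) : Set (En n) :=
  {a | a ∈ A ∧ (closedBall a r ∩ sh n ρ k).Nonempty}

lemma fat_shell {n : ℕ} {A : Set (En n)} {r ρ : ℝ} {g : ℕ} (k : ℕ)
    (hg : ∀ z : En n, {p : En n × En n | p.1 ∈ near A r ρ k ∧ p.2 ∈ near A r ρ k ∧
      ‖p.1 + p.2 - z‖ ≤ 2 * r}.encard ≤ g) :
    SumB (fat A r ∩ sh n ρ k) (g * volume (closedBall (0 : En n) r)) := by
  refine sum_mono ?_ (fat_sum hg)
  rintro ξ ⟨h1, h2⟩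
  obtain ⟨a, ha, ha'⟩ := mem_iUnion₂.1 h1
  exact mem_iUnion₂.2 ⟨a, ⟨ha, ⟨ξ, ha', h2⟩⟩, ha'⟩

lemma par_two (δ : ℝ) : par (1 : Fin 2) δ = {ξ : En 2 | |ξ 1 - ξ 0 ^ 2| ≤ δ} := by
  ext ξ
  have : ‖rest (1 : Fin 2) ξ‖ ^ 2 = ξ 0 ^ 2 := by
    rw [EuclideanSpace.norm_sq_eq]
    simp [rest]
  simp only [par, mem_ofPred_eq, this]

lemma par_three (δ : ℝ) :
    par (2 : Fin 3) δ = {ξ : En 3 | |ξ 2 - (ξ 0 ^ 2 + ξ 1 ^ 2)| ≤ δ} := by
  ext ξ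
  have : ‖rest (2 : Fin 3) ξ‖ ^ 2 = ξ 0 ^ 2 + ξ 1 ^ 2 := by
    rw [EuclideanSpace.norm_sq_eq, Fin.sum_univ_two]
    simp [rest]
    rfl
  simp only [par, mem_ofPred_eq, this]

end Pool.Agent.U556.CK
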