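import Mathlib

set_option autoImplicit false

/-! Besov capacities, part 1: `L^p` bounds for inverse Fourier transforms of smooth functions with
support in a fixed ball. -/

namespace Pool.Agent.U556.BC

open MeasureTheory FourierTransform SchwartzMap Set
open scoped ENNReal NNReal ContDiff

/-- Euclidean space. -/
abbrev E (n : ℕ) := EuclideanSpace ℝ (Fin n)

variable {n : ℕ}

/-- seminorms of the inverse Fourier transform -/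
theorem inv_seminorm (k : ℕ) : ∃ (s : Finset (ℕ × ℕ)) (C : ℝ), 0 ≤ C ∧ ∀ G : 𝓢(E n, ℂ),
    SchwartzMap.seminorm ℝ k 0 (𝓕⁻ G : 𝓢(E n, ℂ)) ≤ C * (s.sup (schwartzSeminormFamily ℝ (E n) ℂ)) G := by
  have hc : Continuous (fourierInvCLM ℝ 𝓢(E n, ℂ) : 𝓢(E n, ℂ) →L[ℝ] 𝓢(E n, ℂ)) :=
    ContinuousLinearMap.continuous _
  obtain ⟨s, C, -, h⟩ := Seminorm.bound_of_continuous (schwartz_withSeminorms ℝ (E n) ℂ)
    ((schwartzSeminormFamily ℝ (E n) ℂ (k, 0)).comp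
      (fourierInvCLM ℝ 𝓢(E n, ℂ) : 𝓢(E n, ℂ) →L[ℝ] 𝓢(E n, ℂ)).toLinearMap) (by
      exact ((schwartz_withSeminorms ℝ (E n) ℂ).continuous_seminorm (k, 0)).comp hc)
  exact ⟨s, C, C.2, fun G => h G⟩

theorem sup_le_of_ball (s : Finset (ℕ × ℕ)) : ∃ (M : ℕ) (C : ℝ), 0 ≤ C ∧
    ∀ (G : 𝓢(E n, ℂ)) (B : ℝ), 0 ≤ B → (∀ ξ, 2 < ‖ξ‖ → G ξ = 0) →
    (∀ l ≤ M, ∀ ξ, ‖ξ‖ ≤ 2 → ‖iteratedFDeriv ℝ l G ξ‖ ≤ B) →
    (s.sup (schwartzSeminormFamily ℝ (E n) ℂ)) G ≤ C * B := by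
  refine ⟨s.sup Prod.snd, 2 ^ (s.sup Prod.fst), by positivity, fun G B hB h0 h => ?_⟩
  apply Seminorm.finset_sup_apply_le (by positivity)
  rintro ⟨k, l⟩ hkl
  have hk : k ≤ s.sup Prod.fst := Finset.le_sup (f := Prod.fst) hkl
  have hl : l ≤ s.sup Prod.snd := Finset.le_sup (f := Prod.snd) hkl
  rw [schwartzSeminormFamily_apply]
  apply SchwartzMap.seminorm_le_bound ℝ k l G (by positivity)
  intro x
  by_cases hx : ‖x‖ ≤ 2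
  · gcongr
    · exact (pow_le_pow_left₀ (norm_nonneg _) hx k).trans (pow_le_pow_right₀ (by norm_num) hk)
    · exact h l hl x hx
  · push Not at hx
    have hz : iteratedFDeriv ℝ l G x = 0 := by
      have he : (G : E n → ℂ) =ᶠ[nhds x] fun _ => 0 := by
        filter_upwards [(isOpen_lt continuous_const continuous_norm).mem_nhds hx] with y hy
        exact h0 y hy
      have := he.iteratedFDeriv ℝ l
      rw [this.eq_of_nhds]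
      simp
    rw [hz]
    simp only [norm_zero, mul_zero]
    positivity

/-- **Lemma A.** -/
theorem lemA {p : ℝ} (hp : 0 < p) : ∃ (M : ℕ) (C : ℝ≥0∞), C ≠ ⊤ ∧
    ∀ (G : 𝓢(E n, ℂ)) (B : ℝ), 0 ≤ B → (∀ ξ, 2 < ‖ξ‖ → G ξ = 0) →
    (∀ l ≤ M, ∀ ξ, ‖ξ‖ ≤ 2 → ‖iteratedFDeriv ℝ l G ξ‖ ≤ B) →
    ∫⁻ x, ‖(𝓕⁻ G : 𝓢(E n, ℂ)) x‖ₑ ^ p ≤ C * ENNReal.ofReal B ^ p := by
  obtain ⟨K, hK⟩ : ∃ K : ℕ, (n : ℝ) < K * p := by
    obtain ⟨K, hK⟩ := exists_nat_gt ((n : ℝ) / p)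
    exact ⟨K, by rwa [div_lt_iff₀ hp] at hK⟩
  obtain ⟨s1, C1, hC1, h1⟩ := inv_seminorm (n := n) K
  obtain ⟨s2, C2, hC2, h2⟩ := inv_seminorm (n := n) 0
  obtain ⟨M1, D1, hD1, g1⟩ := sup_le_of_ball (n := n) s1
  obtain ⟨M2, D2, hD2, g2⟩ := sup_le_of_ball (n := n) s2
  have hfin : (∫⁻ x : E n, ENNReal.ofReal ((1 + ‖x‖) ^ (-(K * p)))) < ⊤ := by
    apply finite_integral_one_add_norm
    simpa using hK
  set A : ℝ := 2 ^ K * (C1 * D1 + C2 * D2) with hA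
  have hA0 : 0 ≤ A := by positivity
  refine ⟨max M1 M2, ENNReal.ofReal A ^ p * ∫⁻ x : E n, ENNReal.ofReal ((1 + ‖x‖) ^ (-(K * p))),
    ENNReal.mul_ne_top (ENNReal.rpow_ne_top_of_nonneg hp.le ENNReal.ofReal_ne_top) hfin.ne,
    fun G B hB h0 h => ?_⟩
  have e1 : SchwartzMap.seminorm ℝ K 0 (𝓕⁻ G : 𝓢(E n, ℂ)) ≤ C1 * (D1 * B) :=
    (h1 G).trans (mul_le_mul_of_nonneg_left
      (g1 G B hB h0 fun l hl => h l (hl.trans (le_max_left _ _))) hC1)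
  have e2 : SchwartzMap.seminorm ℝ 0 0 (𝓕⁻ G : 𝓢(E n, ℂ)) ≤ C2 * (D2 * B) :=
    (h2 G).trans (mul_le_mul_of_nonneg_left
      (g2 G B hB h0 fun l hl => h l (hl.trans (le_max_right _ _))) hC2)
  have hpt : ∀ x : E n, ‖(𝓕⁻ G : 𝓢(E n, ℂ)) x‖ ≤ A * B * (1 + ‖x‖) ^ (-(K : ℝ)) := by
    intro x
    have a1 := (SchwartzMap.norm_pow_mul_le_seminorm ℝ (𝓕⁻ G : 𝓢(E n, ℂ)) K x).trans e1
    have a2 := (SchwartzMap.norm_le_seminorm ℝ (𝓕⁻ G : 𝓢(E n, ℂ)) x).trans e2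
    have hx1 : 0 < (1 + ‖x‖) := by positivity
    rw [Real.rpow_neg hx1.le, Real.rpow_natCast, ← div_eq_mul_inv, le_div_iff₀ (by positivity)]
    have a3 : (1 + ‖x‖) ^ K ≤ 2 ^ K * (1 + ‖x‖ ^ K) := by
      have := add_pow_le (zero_le_one) (norm_nonneg x) K
      calc (1 + ‖x‖) ^ K ≤ 2 ^ (K - 1) * (1 ^ K + ‖x‖ ^ K) := this
        _ ≤ 2 ^ K * (1 + ‖x‖ ^ K) := by
          rw [one_pow]
          gcongr
          · norm_num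
          · omega
    calc ‖(𝓕⁻ G : 𝓢(E n, ℂ)) x‖ * (1 + ‖x‖) ^ K
        ≤ ‖(𝓕⁻ G : 𝓢(E n, ℂ)) x‖ * (2 ^ K * (1 + ‖x‖ ^ K)) := by gcongr
      _ = 2 ^ K * (‖(𝓕⁻ G : 𝓢(E n, ℂ)) x‖ + ‖x‖ ^ K * ‖(𝓕⁻ G : 𝓢(E n, ℂ)) x‖) := by ring
      _ ≤ 2 ^ K * (C2 * (D2 * B) + C1 * (D1 * B)) := by gcongr
      _ = A * B := by rw [hA]; ring
  calc ∫⁻ x, ‖(𝓕⁻ G : 𝓢(E n, ℂ)) x‖ₑ ^ p
      ≤ ∫⁻ x : E n, (ENNReal.ofReal A * ENNReal.ofReal B) ^ p *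
          ENNReal.ofReal ((1 + ‖x‖) ^ (-(K * p))) := by
        apply lintegral_mono
        intro x
        have hx1 : 0 < (1 + ‖x‖) := by positivity
        calc ‖(𝓕⁻ G : 𝓢(E n, ℂ)) x‖ₑ ^ p
            ≤ ENNReal.ofReal (A * B * (1 + ‖x‖) ^ (-(K : ℝ))) ^ p := by
              gcongr
              rw [← ofReal_norm]
              exact ENNReal.ofReal_le_ofReal (hpt x)
          _ = _ := by
              rw [ENNReal.ofReal_mul (by positivity), ENNReal.ofReal_mul hA0,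
                ENNReal.mul_rpow_of_nonneg _ _ hp.le,
                ENNReal.ofReal_rpow_of_nonneg (x := (1 + ‖x‖) ^ (-(K : ℝ))) (by positivity) hp.le,
                ← Real.rpow_mul hx1.le]
              ring_nf
    _ = _ := by
        rw [lintegral_const_mul _ (by fun_prop), ENNReal.mul_rpow_of_nonneg _ _ hp.le]
        ring

end Pool.Agent.U556.BC
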