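import Pool.Agent.U556.BC1

set_option autoImplicit false

/-! Besov capacities, part 2: derivatives of `χ(ξ) F(λ ξ)`. -/

namespace Pool.Agent.U556.BC

open MeasureTheory FourierTransform SchwartzMap Set
open scoped ENNReal NNReal ContDiff

variable {n : ℕ}

/-- if the derivatives of order `< m` vanish at `0` then `‖D^l F(x)‖ ≤ C ‖x‖^(m-l)` -/
theorem taylor_bound (F : 𝓢(E n, ℂ)) (m : ℕ) (h0 : ∀ l < m, iteratedFDeriv ℝ l F 0 = 0) (d : ℕ) :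
    d ≤ m → ∃ C : ℝ, 0 ≤ C ∧ ∀ x : E n, ‖iteratedFDeriv ℝ (m - d) F x‖ ≤ C * ‖x‖ ^ d := by
  induction d with
  | zero =>
    intro _
    refine ⟨SchwartzMap.seminorm ℝ 0 m F, apply_nonneg _ _, fun x => ?_⟩
    simpa using SchwartzMap.norm_iteratedFDeriv_le_seminorm ℝ F m x
  | succ d ih =>
    intro hd
    obtain ⟨C, hC, h⟩ := ih (by omega)
    refine ⟨C, hC, fun x => ?_⟩
    have hdiff : Differentiable ℝ (iteratedFDeriv ℝ (m - (d + 1)) F) :=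
      ContDiff.differentiable_iteratedFDeriv (n := ((m - (d + 1) + 1 : ℕ) : ℕ∞ω))
        (Nat.cast_lt.2 (Nat.lt_succ_self _)) (F.smooth ((m - (d + 1) + 1 : ℕ) : ℕ∞))
    have hb : ∀ y ∈ Metric.closedBall (0 : E n) ‖x‖,
        ‖fderiv ℝ (iteratedFDeriv ℝ (m - (d + 1)) F) y‖ ≤ C * ‖x‖ ^ d := by
      intro y hy
      rw [norm_fderiv_iteratedFDeriv, show m - (d + 1) + 1 = m - d by omega]
      refine (h y).trans ?_
      have : ‖y‖ ≤ ‖x‖ := by simpa using hy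
      gcongr
    have := (convex_closedBall (0 : E n) ‖x‖).norm_image_sub_le_of_norm_fderiv_le
      (fun y _ => hdiff y) hb (x := 0) (y := x) (by simp) (by simp)
    rw [h0 _ (by omega), sub_zero, sub_zero] at this
    calc _ ≤ C * ‖x‖ ^ d * ‖x‖ := this
      _ = C * ‖x‖ ^ (d + 1) := by ring

/-- bounds for the derivatives of `F(λ ξ)`, `0 < λ ≤ 1`, `‖ξ‖ ≤ 2` -/
theorem scaled_small (F : 𝓢(E n, ℂ)) (m : ℕ) (h0 : ∀ l < m, iteratedFDeriv ℝ l F 0 = 0) (l : ℕ) :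
    ∃ C : ℝ, 0 ≤ C ∧ ∀ lam : ℝ, 0 < lam → lam ≤ 1 → ∀ ξ : E n, ‖ξ‖ ≤ 2 →
      ‖iteratedFDeriv ℝ l (fun ξ => F (lam • ξ)) ξ‖ ≤ C * lam ^ m := by
  by_cases hl : l ≤ m
  · obtain ⟨C, hC, h⟩ := taylor_bound F m h0 (m - l) (by omega)
    rw [show m - (m - l) = l by omega] at h
    refine ⟨C * 2 ^ (m - l), by positivity, fun lam h1 h2 ξ hξ => ?_⟩
    rw [iteratedFDeriv_comp_const_smul _ (F.smooth l), norm_smul, norm_pow, Real.norm_eq_abs,
      abs_of_pos h1]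
    calc lam ^ l * ‖iteratedFDeriv ℝ l F (lam • ξ)‖ ≤ lam ^ l * (C * ‖lam • ξ‖ ^ (m - l)) := by
          gcongr
          exact h _
      _ = C * ‖ξ‖ ^ (m - l) * (lam ^ l * lam ^ (m - l)) := by
          rw [norm_smul, Real.norm_eq_abs, abs_of_pos h1, mul_pow]
          ring
      _ ≤ C * 2 ^ (m - l) * lam ^ m := by
          rw [← pow_add, show l + (m - l) = m by omega]
          gcongr
  · push Not at hl
    refine ⟨SchwartzMap.seminorm ℝ 0 l F, apply_nonneg _ _, fun lam h1 h2 ξ hξ => ?_⟩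
    rw [iteratedFDeriv_comp_const_smul _ (F.smooth l), norm_smul, norm_pow, Real.norm_eq_abs,
      abs_of_pos h1, mul_comm]
    exact mul_le_mul (SchwartzMap.norm_iteratedFDeriv_le_seminorm ℝ F l _)
      (pow_le_pow_of_le_one h1.le h2 hl.le) (by positivity) (apply_nonneg _ _)

/-- bounds for the derivatives of `F(λ ξ)`, `1 ≤ λ`, `1 / 2 ≤ ‖ξ‖` -/
theorem scaled_large (F : 𝓢(E n, ℂ)) (K l : ℕ) :
    ∃ C : ℝ, 0 ≤ C ∧ ∀ lam : ℝ, 1 ≤ lam → ∀ ξ : E n, 1 / 2 ≤ ‖ξ‖ →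
      ‖iteratedFDeriv ℝ l (fun ξ => F (lam • ξ)) ξ‖ * lam ^ K ≤ C := by
  refine ⟨2 ^ (K + l) * SchwartzMap.seminorm ℝ (K + l) l F, by positivity, fun lam h1 ξ hξ => ?_⟩
  have h0 : 0 < lam := by linarith
  rw [iteratedFDeriv_comp_const_smul _ (F.smooth l), norm_smul, norm_pow, Real.norm_eq_abs,
    abs_of_pos h0]
  have h2 := SchwartzMap.le_seminorm ℝ (K + l) l F (lam • ξ)
  rw [norm_smul, Real.norm_eq_abs, abs_of_pos h0] at h2
  calc lam ^ l * ‖iteratedFDeriv ℝ l F (lam • ξ)‖ * lam ^ K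
      = 2 ^ (K + l) * ((lam * (1 / 2)) ^ (K + l) * ‖iteratedFDeriv ℝ l F (lam • ξ)‖) := by
        rw [mul_pow, div_pow, one_pow, pow_add lam]
        field_simp
    _ ≤ 2 ^ (K + l) * ((lam * ‖ξ‖) ^ (K + l) * ‖iteratedFDeriv ℝ l F (lam • ξ)‖) := by gcongr
    _ ≤ _ := by gcongr

/-- a smooth cutoff function -/
structure Cut (χ : E n → ℝ) : Prop where
  smooth : ContDiff ℝ ∞ χ
  zero : ∀ ξ, 2 ≤ ‖ξ‖ → χ ξ = 0

theorem Cut.compact {χ : E n → ℝ} (h : Cut χ) : HasCompactSupport χ := by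
  apply HasCompactSupport.intro (isCompact_closedBall (0 : E n) 2)
  intro x hx
  apply h.zero
  simp only [Metric.mem_closedBall, dist_zero_right, not_le] at hx
  exact hx.le

theorem Cut.bound {χ : E n → ℝ} (h : Cut χ) (l : ℕ) : ∃ C : ℝ, 0 ≤ C ∧ ∀ ξ,
    ‖iteratedFDeriv ℝ l (fun ξ => (χ ξ : ℂ)) ξ‖ ≤ C := by
  have h1 : HasCompactSupport (fun ξ => (χ ξ : ℂ)) :=
    h.compact.comp_left (g := fun x : ℝ => (x : ℂ)) (by simp)
  have h2 : ContDiff ℝ ∞ (fun ξ => (χ ξ : ℂ)) := Complex.ofRealCLM.contDiff.comp h.smooth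
  exact ⟨SchwartzMap.seminorm ℝ 0 l (h1.toSchwartzMap h2), apply_nonneg _ _, fun ξ =>
    SchwartzMap.norm_iteratedFDeriv_le_seminorm ℝ (h1.toSchwartzMap h2) l ξ⟩

/-- the product `χ(ξ) F(λ ξ)` as a Schwartz function -/
theorem exists_prod {χ : E n → ℝ} (h : Cut χ) (F : 𝓢(E n, ℂ)) (lam : ℝ) :
    ∃ G : 𝓢(E n, ℂ), ∀ ξ, G ξ = (χ ξ : ℂ) * F (lam • ξ) := by
  have h1 : HasCompactSupport (fun ξ => (χ ξ : ℂ) * F (lam • ξ)) :=
    (h.compact.comp_left (g := fun x : ℝ => (x : ℂ)) (by simp)).mul_right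
  have h2 : ContDiff ℝ ∞ (fun ξ => (χ ξ : ℂ) * F (lam • ξ)) :=
    (Complex.ofRealCLM.contDiff.comp h.smooth).mul ((F.smooth ⊤).comp (contDiff_const_smul lam))
  exact ⟨h1.toSchwartzMap h2, fun ξ => rfl⟩

theorem prod_bound {χ : E n → ℝ} (h : Cut χ) (F : 𝓢(E n, ℂ)) (M : ℕ) : ∃ A : ℝ, 0 ≤ A ∧
    ∀ (lam B : ℝ) (ξ : E n), 0 ≤ B →
      (∀ l ≤ M, ‖iteratedFDeriv ℝ l (fun ξ => F (lam • ξ)) ξ‖ ≤ B) → ∀ l ≤ M,
      ‖iteratedFDeriv ℝ l (fun ξ => (χ ξ : ℂ) * F (lam • ξ)) ξ‖ ≤ A * B := by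
  choose C hC hb using h.bound
  refine ⟨∑ l ∈ Finset.range (M + 1), ∑ i ∈ Finset.range (l + 1), (l.choose i : ℝ) * C i,
    Finset.sum_nonneg fun l _ => Finset.sum_nonneg fun i _ => mul_nonneg (by positivity) (hC i),
    fun lam B ξ hB hF l hl => ?_⟩
  have h1 : ContDiff ℝ ∞ (fun ξ => (χ ξ : ℂ)) := Complex.ofRealCLM.contDiff.comp h.smooth
  have h2 : ContDiff ℝ ∞ (fun ξ => F (lam • ξ)) := (F.smooth ⊤).comp (contDiff_const_smul lam)
  refine (norm_iteratedFDeriv_mul_le h1 h2 ξ (n := l) (by exact_mod_cast le_top)).trans ?_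
  calc ∑ i ∈ Finset.range (l + 1), (l.choose i : ℝ) *
        ‖iteratedFDeriv ℝ i (fun ξ => (χ ξ : ℂ)) ξ‖ *
        ‖iteratedFDeriv ℝ (l - i) (fun ξ => F (lam • ξ)) ξ‖
      ≤ ∑ i ∈ Finset.range (l + 1), (l.choose i : ℝ) * C i * B := by
        apply Finset.sum_le_sum
        intro i hi
        have := hC i
        gcongr
        · exact hb i ξ
        · exact hF (l - i) (by omega)
    _ = (∑ i ∈ Finset.range (l + 1), (l.choose i : ℝ) * C i) * B := by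
        rw [Finset.sum_mul]
    _ ≤ _ := by
        gcongr
        exact Finset.single_le_sum (f := fun l => ∑ i ∈ Finset.range (l + 1), (l.choose i : ℝ) * C i)
          (fun l _ => Finset.sum_nonneg fun i _ => mul_nonneg (by positivity) (hC i))
          (Finset.mem_range.2 (by omega))

/-- **Small frequencies.** -/
theorem lemB_small {p : ℝ} (hp : 0 < p) {χ : E n → ℝ} (h : Cut χ) (F : 𝓢(E n, ℂ)) (m : ℕ)
    (h0 : ∀ l < m, iteratedFDeriv ℝ l F 0 = 0) : ∃ C : ℝ≥0∞, C ≠ ⊤ ∧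
    ∀ lam : ℝ, 0 < lam → lam ≤ 1 → ∀ G : 𝓢(E n, ℂ), (∀ ξ, G ξ = (χ ξ : ℂ) * F (lam • ξ)) →
      ∫⁻ x, ‖(𝓕⁻ G : 𝓢(E n, ℂ)) x‖ₑ ^ p ≤ C * ENNReal.ofReal lam ^ (m * p) := by
  obtain ⟨M, C, hC, hA⟩ := lemA (n := n) hp
  choose D hD hS using scaled_small F m h0
  obtain ⟨A, hA0, hP⟩ := prod_bound h F M
  set D' := ∑ l ∈ Finset.range (M + 1), D l with hD'
  have hD'0 : 0 ≤ D' := Finset.sum_nonneg fun l _ => hD l
  refine ⟨C * ENNReal.ofReal (A * D') ^ p, ENNReal.mul_ne_top hC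
    (ENNReal.rpow_ne_top_of_nonneg hp.le ENNReal.ofReal_ne_top), fun lam h1 h2 G hG => ?_⟩
  have hGe : (G : E n → ℂ) = fun ξ => (χ ξ : ℂ) * F (lam • ξ) := funext hG
  have := hA G (A * (D' * lam ^ m)) (by positivity) (fun ξ hξ => by
    rw [hG, h.zero ξ hξ.le]; simp) (fun l hl ξ hξ => by
    rw [hGe]
    apply hP lam (D' * lam ^ m) ξ (by positivity) _ l hl
    intro l' hl'
    refine (hS l' lam h1 h2 ξ hξ).trans ?_
    gcongr
    exact Finset.single_le_sum (f := D) (fun l _ => hD l) (Finset.mem_range.2 (by omega)))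
  refine this.trans (le_of_eq ?_)
  rw [show A * (D' * lam ^ m) = (A * D') * lam ^ m by ring, ENNReal.ofReal_mul (by positivity),
    ENNReal.mul_rpow_of_nonneg _ _ hp.le, mul_assoc, ENNReal.ofReal_pow h1.le,
    ← ENNReal.rpow_natCast, ← ENNReal.rpow_mul]

/-- **Large frequencies.** -/
theorem lemB_large {p : ℝ} (hp : 0 < p) {χ : E n → ℝ} (h : Cut χ) (h' : ∀ ξ, ‖ξ‖ ≤ 1 / 2 → χ ξ = 0)
    (F : 𝓢(E n, ℂ)) (K : ℕ) : ∃ C : ℝ≥0∞, C ≠ ⊤ ∧
    ∀ lam : ℝ, 1 ≤ lam → ∀ G : 𝓢(E n, ℂ), (∀ ξ, G ξ = (χ ξ : ℂ) * F (lam • ξ)) →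
      ∫⁻ x, ‖(𝓕⁻ G : 𝓢(E n, ℂ)) x‖ₑ ^ p ≤ C * ENNReal.ofReal lam ^ (-(K * p)) := by
  obtain ⟨M, C, hC, hA⟩ := lemA (n := n) hp
  choose D hD hS using scaled_large F K
  obtain ⟨A, hA0, hP⟩ := prod_bound h F M
  set D' := ∑ l ∈ Finset.range (M + 1), D l with hD'
  have hD'0 : 0 ≤ D' := Finset.sum_nonneg fun l _ => hD l
  refine ⟨C * ENNReal.ofReal (A * D') ^ p, ENNReal.mul_ne_top hC
    (ENNReal.rpow_ne_top_of_nonneg hp.le ENNReal.ofReal_ne_top), fun lam h1 G hG => ?_⟩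
  have hlam : 0 < lam := by linarith
  have hGe : (G : E n → ℂ) = fun ξ => (χ ξ : ℂ) * F (lam • ξ) := funext hG
  have := hA G (A * (D' * (lam ^ K)⁻¹)) (by positivity) (fun ξ hξ => by
    rw [hG, h.zero ξ hξ.le]; simp) (fun l hl ξ hξ => by
    by_cases hξ2 : ‖ξ‖ < 1 / 2
    · have hz : iteratedFDeriv ℝ l G ξ = 0 := by
        have he : (G : E n → ℂ) =ᶠ[nhds ξ] fun _ => 0 := by
          filter_upwards [(isOpen_lt continuous_norm continuous_const).mem_nhds hξ2] with y hy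
          rw [hG, h' y (le_of_lt hy)]
          simp
        have := he.iteratedFDeriv ℝ l
        rw [this.eq_of_nhds]
        simp
      rw [hz, norm_zero]
      positivity
    · push Not at hξ2
      rw [hGe]
      apply hP lam (D' * (lam ^ K)⁻¹) ξ (by positivity) _ l hl
      intro l' hl'
      rw [← div_eq_mul_inv, le_div_iff₀ (by positivity)]
      refine (hS l' lam h1 ξ hξ2).trans ?_
      exact Finset.single_le_sum (f := D) (fun l _ => hD l) (Finset.mem_range.2 (by omega)))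
  refine this.trans (le_of_eq ?_)
  rw [show A * (D' * (lam ^ K)⁻¹) = (A * D') * (lam ^ K)⁻¹ by ring,
    ENNReal.ofReal_mul (by positivity), ENNReal.mul_rpow_of_nonneg _ _ hp.le, mul_assoc,
    ENNReal.ofReal_inv_of_pos (by positivity), ENNReal.ofReal_pow hlam.le,
    ← ENNReal.rpow_natCast, ← ENNReal.rpow_neg, ← ENNReal.rpow_mul]
  ring_nf

end Pool.Agent.U556.BC
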