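import Pool.Agent.U556.BC2

set_option autoImplicit false

/-! Besov capacities, part 3: definitions, and Littlewood-Paley pieces of scaled functions. -/

namespace Pool.Agent.U556.BC

open MeasureTheory FourierTransform SchwartzMap Set
open scoped ENNReal NNReal ContDiff RealInnerProductSpace

variable {n : ℕ}

/-- An admissible cutoff function for the Littlewood-Paley decomposition: smooth, `1` on the unit
ball, `0` outside of the ball of radius `2`. -/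
structure IsCutoff (φ : E n → ℝ) : Prop where
  smooth : ContDiff ℝ ∞ φ
  one : ∀ ξ, ‖ξ‖ ≤ 1 → φ ξ = 1
  zero : ∀ ξ, 2 ≤ ‖ξ‖ → φ ξ = 0

/-- The resolution of unity: `φ_0 = φ` and `φ_j(ξ) = φ(2^(-j) ξ) - φ(2^(1-j) ξ)` for `j ≥ 1`. -/
noncomputable def lp (φ : E n → ℝ) (j : ℕ) (ξ : E n) : ℝ :=
  if j = 0 then φ ξ else φ ((1 / 2 : ℝ) ^ j • ξ) - φ ((1 / 2 : ℝ) ^ (j - 1) • ξ)

/-- The Littlewood-Paley piece `u_j = 𝓕⁻ (φ_j 𝓕 u)`. -/
noncomputable def piece (φ : E n → ℝ) (j : ℕ) (u : E n → ℂ) : E n → ℂ :=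
  𝓕⁻ (fun ξ => (lp φ j ξ : ℂ) * 𝓕 u ξ)

/-- The `p`-th power of the quasi-norm of the Besov space `Λ^{pp}_α = B^α_{p,p}`:
`∑_j 2^(jαp) ‖u_j‖_p^p`. -/
noncomputable def besov (φ : E n → ℝ) (α p : ℝ) (u : E n → ℂ) : ℝ≥0∞ :=
  ∑' j : ℕ, (2 : ℝ≥0∞) ^ ((j : ℝ) * α * p) * ∫⁻ x, ‖piece φ j u x‖ₑ ^ p

/-- The `p`-th power of the quasi-norm of the space `G_α * H^p = F^α_{p,2}`:
`∫ (∑_j (2^(jα) |u_j(x)|)^2)^(p/2) dx`. -/
noncomputable def hardy (φ : E n → ℝ) (α p : ℝ) (u : E n → ℂ) : ℝ≥0∞ :=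
  ∫⁻ x, (∑' j : ℕ, ((2 : ℝ≥0∞) ^ ((j : ℝ) * α) * ‖piece φ j u x‖ₑ) ^ 2) ^ (p / 2)

/-- the second difference of the cutoff function -/
noncomputable def theta (φ : E n → ℝ) (ξ : E n) : ℝ := φ ξ - φ ((2 : ℝ) • ξ)

theorem lp_zero (φ : E n → ℝ) (ξ : E n) : lp φ 0 ξ = φ ξ := by simp [lp]

theorem lp_succ (φ : E n → ℝ) (j : ℕ) (hj : j ≠ 0) (ξ : E n) :
    lp φ j ξ = theta φ ((1 / 2 : ℝ) ^ j • ξ) := by
  obtain ⟨i, rfl⟩ := Nat.exists_eq_succ_of_ne_zero hj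
  rw [lp, if_neg hj, theta, smul_smul]
  congr 3
  rw [Nat.succ_sub_one, pow_succ]
  ring

theorem IsCutoff.cut {φ : E n → ℝ} (h : IsCutoff φ) : Cut φ := ⟨h.smooth, h.zero⟩

theorem IsCutoff.cut_theta {φ : E n → ℝ} (h : IsCutoff φ) : Cut (theta φ) := by
  refine ⟨h.smooth.sub (h.smooth.comp (contDiff_const_smul _)), fun ξ hξ => ?_⟩
  rw [theta, h.zero ξ hξ, h.zero _ (by
    rw [norm_smul]
    norm_num
    linarith), sub_zero]

theorem IsCutoff.theta_zero {φ : E n → ℝ} (h : IsCutoff φ) (ξ : E n) (hξ : ‖ξ‖ ≤ 1 / 2) :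
    theta φ ξ = 0 := by
  rw [theta, h.one ξ (by linarith), h.one _ (by
    rw [norm_smul]
    norm_num
    linarith), sub_self]

/-- the Fourier transform of a scaled function -/
theorem fourier_scaled (a v : E n → ℂ) (lam : ℝ) (hlam : 0 < lam) (x₀ : E n)
    (hv : ∀ x, v x = a (lam • (x - x₀))) (ξ : E n) :
    𝓕 v ξ = ((lam ^ n)⁻¹ : ℝ) • (Complex.exp ((-2 * Real.pi * ⟪x₀, ξ⟫ : ℝ) * Complex.I) *
      𝓕 a (lam⁻¹ • ξ)) := by
  rw [Real.fourier_eq', Real.fourier_eq']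
  have h1 : (fun y : E n => Complex.exp (((-2 * Real.pi * ⟪y, ξ⟫ : ℝ) : ℂ) * Complex.I) • v y) =
      fun y => (fun z => Complex.exp (((-2 * Real.pi * ⟪x₀, ξ⟫ : ℝ) : ℂ) * Complex.I) *
        (Complex.exp (((-2 * Real.pi * ⟪z, lam⁻¹ • ξ⟫ : ℝ) : ℂ) * Complex.I) * a z)) (lam • (y - x₀)) := by
    funext y
    simp only [smul_eq_mul]
    rw [hv y, ← mul_assoc, ← Complex.exp_add]
    congr 2
    rw [← add_mul]
    congr 1
    rw [← Complex.ofReal_add]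
    congr 1
    rw [real_inner_smul_left, real_inner_smul_right, inner_sub_left]
    field_simp
    ring
  rw [h1]
  have h2 := integral_sub_right_eq_self (μ := (volume : Measure (E n)))
    (fun y => (fun z => Complex.exp (((-2 * Real.pi * ⟪x₀, ξ⟫ : ℝ) : ℂ) * Complex.I) *
        (Complex.exp (((-2 * Real.pi * ⟪z, lam⁻¹ • ξ⟫ : ℝ) : ℂ) * Complex.I) * a z)) (lam • y)) x₀
  rw [h2, Measure.integral_comp_smul (μ := volume) (fun z : E n =>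
      Complex.exp (((-2 * Real.pi * ⟪x₀, ξ⟫ : ℝ) : ℂ) * Complex.I) *
        (Complex.exp (((-2 * Real.pi * ⟪z, lam⁻¹ • ξ⟫ : ℝ) : ℂ) * Complex.I) * a z))]
  rw [abs_of_nonneg (by positivity), finrank_euclideanSpace_fin]
  rw [integral_const_mul]
  simp only [smul_eq_mul]

/-- the Littlewood-Paley pieces of a scaled function -/
theorem piece_scaled (χ : E n → ℝ) (a v : E n → ℂ) (lam μ : ℝ) (hlam : 0 < lam) (hμ : 0 < μ)
    (x₀ : E n) (hv : ∀ x, v x = a (lam • (x - x₀))) (x : E n) :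
    𝓕⁻ (fun ξ => (χ (μ⁻¹ • ξ) : ℂ) * 𝓕 v ξ) x =
      (((μ / lam) ^ n : ℝ) : ℂ) *
        𝓕⁻ (fun ζ => (χ ζ : ℂ) * 𝓕 a ((μ / lam) • ζ)) (μ • (x - x₀)) := by
  rw [Real.fourierInv_eq', Real.fourierInv_eq']
  have h1 : (fun ξ : E n => Complex.exp (((2 * Real.pi * ⟪ξ, x⟫ : ℝ) : ℂ) * Complex.I) •
      ((χ (μ⁻¹ • ξ) : ℂ) * 𝓕 v ξ)) =
      fun ξ => (fun ζ => (((lam ^ n)⁻¹ : ℝ) : ℂ) *
        (Complex.exp (((2 * Real.pi * ⟪ζ, μ • (x - x₀)⟫ : ℝ) : ℂ) * Complex.I) *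
          ((χ ζ : ℂ) * 𝓕 a ((μ / lam) • ζ)))) (μ⁻¹ • ξ) := by
    funext ξ
    simp only [smul_eq_mul]
    rw [fourier_scaled a v lam hlam x₀ hv ξ, smul_smul, Complex.real_smul]
    have e1 : μ / lam * μ⁻¹ = lam⁻¹ := by
      field_simp
    rw [e1]
    have e2 : Complex.exp (((2 * Real.pi * ⟪ξ, x⟫ : ℝ) : ℂ) * Complex.I) *
        Complex.exp (((-2 * Real.pi * ⟪x₀, ξ⟫ : ℝ) : ℂ) * Complex.I) =
        Complex.exp (((2 * Real.pi * ⟪μ⁻¹ • ξ, μ • (x - x₀)⟫ : ℝ) : ℂ) * Complex.I) := by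
      rw [← Complex.exp_add, ← add_mul, ← Complex.ofReal_add]
      congr 3
      rw [real_inner_smul_left, real_inner_smul_right, inner_sub_right, real_inner_comm ξ x₀]
      field_simp
      ring
    rw [← e2]
    ring
  rw [h1, Measure.integral_comp_smul (μ := volume) (fun ζ : E n => (((lam ^ n)⁻¹ : ℝ) : ℂ) *
        (Complex.exp (((2 * Real.pi * ⟪ζ, μ • (x - x₀)⟫ : ℝ) : ℂ) * Complex.I) *
          ((χ ζ : ℂ) * 𝓕 a ((μ / lam) • ζ)))), integral_const_mul,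
    abs_of_nonneg (by positivity), finrank_euclideanSpace_fin, Complex.real_smul]
  simp only [smul_eq_mul]
  rw [← mul_assoc, ← Complex.ofReal_mul]
  congr 2
  rw [div_pow, inv_pow, inv_inv]
  ring

theorem lintegral_scaled (h : E n → ℝ≥0∞) (hm : Measurable h) (μ : ℝ) (hμ : 0 < μ) (x₀ : E n) :
    ∫⁻ x, h (μ • (x - x₀)) = ENNReal.ofReal ((μ ^ n)⁻¹) * ∫⁻ x, h x := by
  have h1 : ∫⁻ x, h (μ • (x - x₀)) = ∫⁻ x, h (μ • x) :=
    lintegral_sub_right_eq_self (μ := (volume : Measure (E n))) (fun x => h (μ • x)) x₀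
  have h2 : ∫⁻ x, h (μ • x) = ∫⁻ x, h x ∂(Measure.map (μ • ·) (volume : Measure (E n))) :=
    (lintegral_map hm (measurable_const_smul μ)).symm
  rw [h1, h2, Measure.map_addHaar_smul _ hμ.ne', lintegral_smul_measure, smul_eq_mul,
    finrank_euclideanSpace_fin, abs_of_nonneg (by positivity)]

end Pool.Agent.U556.BC
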