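import Pool.Agent.U556.BC3

set_option autoImplicit false

/-! Besov capacities, part 4: the Besov quasi-norm of a block. -/

namespace Pool.Agent.U556.BC

open MeasureTheory FourierTransform SchwartzMap Set
open scoped ENNReal NNReal ContDiff RealInnerProductSpace

variable {n : ℕ}

theorem ofReal_two_pow (j k : ℕ) :
    ENNReal.ofReal ((2 : ℝ) ^ j / (2 : ℝ) ^ k) = (2 : ℝ≥0∞) ^ ((j : ℝ) - k) := by
  rw [ENNReal.rpow_sub _ _ (by norm_num) (by norm_num), ENNReal.rpow_natCast, ENNReal.rpow_natCast,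
    ENNReal.ofReal_div_of_pos (by positivity), ENNReal.ofReal_pow (by norm_num),
    ENNReal.ofReal_pow (by norm_num)]
  simp

theorem two_sided (q : ℝ≥0∞) (k : ℕ) :
    ∑' j : ℕ, q ^ ((k - j) + (j - k)) ≤ 2 * ∑' i : ℕ, q ^ i := by
  rw [← (ENNReal.summable.sum_add_tsum_nat_add' (f := fun j : ℕ => q ^ ((k - j) + (j - k))) (k := k)),
    two_mul]
  gcongr ?_ + ?_
  · rw [← Finset.sum_range_reflect]
    calc ∑ j ∈ Finset.range k, q ^ ((k - (k - 1 - j)) + ((k - 1 - j) - k))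
        ≤ ∑ j ∈ Finset.range k, (fun i => q ^ (i + 1)) j := by
          apply Finset.sum_le_sum
          intro j hj
          rw [Finset.mem_range] at hj
          apply le_of_eq
          show _ = q ^ (j + 1)
          congr 1
          omega
      _ ≤ ∑' i : ℕ, q ^ (i + 1) := ENNReal.sum_le_tsum _
      _ ≤ ∑' i : ℕ, q ^ i := ENNReal.tsum_comp_le_tsum_of_injective (add_left_injective 1) (fun i => q ^ i)
  · apply le_of_eq
    congr 1
    funext j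
    congr 1
    omega

/-- the quasi-norm of a piece of a scaled function -/
theorem piece_norm {χ : E n → ℝ} {p : ℝ} (hp : 0 < p) (a : 𝓢(E n, ℂ)) (v : E n → ℂ)
    (j k : ℕ) (x₀ : E n) (hv : ∀ x, v x = a ((2 : ℝ) ^ k • (x - x₀))) (G : 𝓢(E n, ℂ))
    (hG : ∀ ζ, G ζ = (χ ζ : ℂ) * (𝓕 a : 𝓢(E n, ℂ)) (((2 : ℝ) ^ j / (2 : ℝ) ^ k) • ζ)) :
    ∫⁻ x, ‖𝓕⁻ (fun ξ => (χ (((2 : ℝ) ^ j)⁻¹ • ξ) : ℂ) * 𝓕 v ξ) x‖ₑ ^ p =
      (2 : ℝ≥0∞) ^ (((j : ℝ) - k) * (n * p) - j * n) * ∫⁻ x, ‖(𝓕⁻ G : 𝓢(E n, ℂ)) x‖ₑ ^ p := by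
  have hGe : (G : E n → ℂ) = fun ζ => (χ ζ : ℂ) * 𝓕 (a : E n → ℂ) (((2 : ℝ) ^ j / (2 : ℝ) ^ k) • ζ) := by
    funext ζ
    rw [hG, fourier_coe]
  have h1 : ∀ x, ‖𝓕⁻ (fun ξ => (χ (((2 : ℝ) ^ j)⁻¹ • ξ) : ℂ) * 𝓕 v ξ) x‖ₑ ^ p =
      ENNReal.ofReal ((2 : ℝ) ^ j / (2 : ℝ) ^ k) ^ ((n : ℝ) * p) *
        (fun y => ‖(𝓕⁻ G : 𝓢(E n, ℂ)) y‖ₑ ^ p) ((2 : ℝ) ^ j • (x - x₀)) := by
    intro x
    rw [piece_scaled χ a v ((2 : ℝ) ^ k) ((2 : ℝ) ^ j) (by positivity) (by positivity) x₀ hv x]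
    rw [enorm_mul, ENNReal.mul_rpow_of_nonneg _ _ hp.le]
    congr 1
    · rw [← ofReal_norm, Complex.norm_real, Real.norm_eq_abs, abs_of_nonneg (by positivity),
        ENNReal.ofReal_pow (by positivity), ENNReal.rpow_mul, ENNReal.rpow_natCast]
    · simp only
      rw [fourierInv_coe, hGe]
  simp_rw [h1]
  have hcm := ((𝓕⁻ G : 𝓢(E n, ℂ)).continuous).measurable
  have hm : Measurable (fun y => ‖(𝓕⁻ G : 𝓢(E n, ℂ)) y‖ₑ ^ p) := by fun_prop
  have hs := lintegral_scaled _ hm ((2 : ℝ) ^ j) (by positivity) x₀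
  beta_reduce at hs
  rw [lintegral_const_mul _ (by fun_prop), hs, ← mul_assoc]
  congr 1
  rw [ENNReal.ofReal_inv_of_pos (by positivity), ofReal_two_pow, ← ENNReal.rpow_mul,
    ENNReal.rpow_sub _ _ (by norm_num) (by norm_num), ENNReal.div_eq_inv_mul, mul_comm]
  congr 2
  rw [ENNReal.ofReal_pow (by positivity), ENNReal.ofReal_pow (by positivity), ENNReal.rpow_mul,
    ENNReal.rpow_natCast, ENNReal.rpow_natCast]
  simp

/-- **The Besov quasi-norm of a block.** -/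
theorem block_bound {φ : E n → ℝ} (hφ : IsCutoff φ) {α p : ℝ} (hp : 0 < p) (a : 𝓢(E n, ℂ)) (m : ℕ)
    (h0 : ∀ l < m, iteratedFDeriv ℝ l (𝓕 a : 𝓢(E n, ℂ)) 0 = 0)
    (hm : (n : ℝ) < α * p + n * p + m * p) : ∃ C : ℝ≥0∞, C ≠ ⊤ ∧
    ∀ (k : ℕ) (x₀ : E n) (v : E n → ℂ), (∀ x, v x = a ((2 : ℝ) ^ k • (x - x₀))) →
      besov φ α p v ≤ C * (2 : ℝ≥0∞) ^ (-(k : ℝ) * (n - α * p)) := by
  set F : 𝓢(E n, ℂ) := 𝓕 a with hF
  obtain ⟨K, hK⟩ : ∃ K : ℕ, α * p + n * p - n + 1 < K * p := by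
    obtain ⟨K, hK⟩ := exists_nat_gt ((α * p + n * p - n + 1) / p)
    exact ⟨K, by rwa [div_lt_iff₀ hp] at hK⟩
  obtain ⟨C0, hC0, H0⟩ := lemB_small hp hφ.cut F m h0
  obtain ⟨C1, hC1, H1⟩ := lemB_small hp hφ.cut_theta F m h0
  obtain ⟨C2, hC2, H2⟩ := lemB_large hp hφ.cut_theta hφ.theta_zero F K
  obtain ⟨δ, hδ, hδ1, hδ2⟩ : ∃ δ : ℝ, 0 < δ ∧ δ ≤ α * p + n * p - n + m * p ∧
      δ ≤ K * p - (α * p + n * p - n) :=
    ⟨min (α * p + n * p - n + m * p) (K * p - (α * p + n * p - n)),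
      lt_min (by linarith) (by linarith), min_le_left _ _, min_le_right _ _⟩
  set q : ℝ≥0∞ := (2 : ℝ≥0∞) ^ (-δ) with hq
  have hq1 : q < 1 := ENNReal.rpow_lt_one_of_one_lt_of_neg (by norm_num) (by linarith)
  have hsum : ∑' i : ℕ, q ^ i ≠ ⊤ := by
    rw [ENNReal.tsum_geometric]
    exact ENNReal.inv_ne_top.2 (tsub_pos_of_lt hq1).ne'
  refine ⟨(C0 + C1 + C2) * (2 * ∑' i : ℕ, q ^ i), by finiteness, fun k x₀ v hv => ?_⟩
  have key : ∀ j : ℕ, (2 : ℝ≥0∞) ^ ((j : ℝ) * α * p) * ∫⁻ x, ‖piece φ j v x‖ₑ ^ p ≤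
      (C0 + C1 + C2) * (2 : ℝ≥0∞) ^ (-(k : ℝ) * (n - α * p)) * q ^ ((k - j) + (j - k)) := by
    intro j
    obtain ⟨χ, hχ, hχp⟩ : ∃ χ : E n → ℝ, (χ = if j = 0 then φ else theta φ) ∧
        ∀ x, piece φ j v x = 𝓕⁻ (fun ξ => (χ (((2 : ℝ) ^ j)⁻¹ • ξ) : ℂ) * 𝓕 v ξ) x := by
      refine ⟨_, rfl, fun x => ?_⟩
      rw [piece]
      by_cases hj : j = 0
      · subst hj
        simp [lp_zero]
      · simp only [hj, if_false]
        simp_rw [lp_succ φ j hj]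
        simp
    have hcut : Cut χ := by
      rw [hχ]
      split_ifs
      exacts [hφ.cut, hφ.cut_theta]
    obtain ⟨G, hG⟩ := exists_prod hcut F ((2 : ℝ) ^ j / (2 : ℝ) ^ k)
    simp_rw [hχp]
    rw [piece_norm hp a v j k x₀ hv G hG]
    rcases le_or_gt j k with hjk | hjk
    · -- small frequencies
      have hlam : (2 : ℝ) ^ j / (2 : ℝ) ^ k ≤ 1 := by
        rw [div_le_one (by positivity)]
        exact pow_le_pow_right₀ (by norm_num) hjk
      have hI : ∫⁻ x, ‖(𝓕⁻ G : 𝓢(E n, ℂ)) x‖ₑ ^ p ≤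
          (C0 + C1 + C2) * ENNReal.ofReal ((2 : ℝ) ^ j / (2 : ℝ) ^ k) ^ (m * p) := by
        by_cases hj : j = 0
        · rw [if_pos hj] at hχ
          subst hχ
          refine (H0 _ (by positivity) hlam G hG).trans ?_
          gcongr
          rw [add_assoc]
          exact le_self_add
        · rw [if_neg hj] at hχ
          subst hχ
          refine (H1 _ (by positivity) hlam G hG).trans ?_
          gcongr
          rw [add_right_comm]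
          exact le_add_self
      calc _ ≤ (2 : ℝ≥0∞) ^ ((j : ℝ) * α * p) * ((2 : ℝ≥0∞) ^ (((j : ℝ) - k) * (n * p) - j * n) *
            ((C0 + C1 + C2) * ENNReal.ofReal ((2 : ℝ) ^ j / (2 : ℝ) ^ k) ^ (m * p))) := by gcongr
        _ = (C0 + C1 + C2) * (2 : ℝ≥0∞) ^ ((j : ℝ) * α * p + (((j : ℝ) - k) * (n * p) - j * n) +
            ((j : ℝ) - k) * (m * p)) := by
            rw [ofReal_two_pow, ← ENNReal.rpow_mul, ENNReal.rpow_add _ _ (by norm_num) (by norm_num),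
              ENNReal.rpow_add _ _ (by norm_num) (by norm_num)]
            ring
        _ ≤ (C0 + C1 + C2) * (2 : ℝ≥0∞) ^ (-(k : ℝ) * (n - α * p) + -δ * ((k - j : ℕ) : ℝ)) := by
            refine mul_le_mul' le_rfl (ENNReal.rpow_le_rpow_of_exponent_le one_le_two ?_)
            rw [Nat.cast_sub hjk]
            have : (0 : ℝ) ≤ (k : ℝ) - j := by
              have : (j : ℝ) ≤ k := by exact_mod_cast hjk
              linarith
            nlinarith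
        _ = _ := by
            rw [ENNReal.rpow_add _ _ (by norm_num) (by norm_num), ENNReal.rpow_mul 2 (-δ),
              ENNReal.rpow_natCast, Nat.sub_eq_zero_of_le hjk, add_zero]
            ring
    · -- large frequencies
      have hlam : 1 ≤ (2 : ℝ) ^ j / (2 : ℝ) ^ k := by
        rw [one_le_div (by positivity)]
        exact pow_le_pow_right₀ (by norm_num) hjk.le
      have hj : j ≠ 0 := by omega
      rw [if_neg hj] at hχ
      subst hχ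
      have hI : ∫⁻ x, ‖(𝓕⁻ G : 𝓢(E n, ℂ)) x‖ₑ ^ p ≤
          (C0 + C1 + C2) * ENNReal.ofReal ((2 : ℝ) ^ j / (2 : ℝ) ^ k) ^ (-(K * p)) := by
        refine (H2 _ hlam G hG).trans ?_
        gcongr
        exact le_add_self
      calc _ ≤ (2 : ℝ≥0∞) ^ ((j : ℝ) * α * p) * ((2 : ℝ≥0∞) ^ (((j : ℝ) - k) * (n * p) - j * n) *
            ((C0 + C1 + C2) * ENNReal.ofReal ((2 : ℝ) ^ j / (2 : ℝ) ^ k) ^ (-(K * p)))) := by gcongr
        _ = (C0 + C1 + C2) * (2 : ℝ≥0∞) ^ ((j : ℝ) * α * p + (((j : ℝ) - k) * (n * p) - j * n) +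
            ((j : ℝ) - k) * (-(K * p))) := by
            rw [ofReal_two_pow, ← ENNReal.rpow_mul, ENNReal.rpow_add _ _ (by norm_num) (by norm_num),
              ENNReal.rpow_add _ _ (by norm_num) (by norm_num)]
            ring
        _ ≤ (C0 + C1 + C2) * (2 : ℝ≥0∞) ^ (-(k : ℝ) * (n - α * p) + -δ * ((j - k : ℕ) : ℝ)) := by
            refine mul_le_mul' le_rfl (ENNReal.rpow_le_rpow_of_exponent_le one_le_two ?_)
            rw [Nat.cast_sub hjk.le]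
            have : (0 : ℝ) ≤ (j : ℝ) - k := by
              have : (k : ℝ) ≤ j := by exact_mod_cast hjk.le
              linarith
            nlinarith
        _ = _ := by
            rw [ENNReal.rpow_add _ _ (by norm_num) (by norm_num), ENNReal.rpow_mul 2 (-δ),
              ENNReal.rpow_natCast, Nat.sub_eq_zero_of_le hjk.le, zero_add]
            ring
  calc besov φ α p v ≤ ∑' j : ℕ, (C0 + C1 + C2) * (2 : ℝ≥0∞) ^ (-(k : ℝ) * (n - α * p)) *
        q ^ ((k - j) + (j - k)) := ENNReal.tsum_le_tsum key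
    _ = (C0 + C1 + C2) * (2 : ℝ≥0∞) ^ (-(k : ℝ) * (n - α * p)) *
        ∑' j : ℕ, q ^ ((k - j) + (j - k)) := ENNReal.tsum_mul_left
    _ ≤ (C0 + C1 + C2) * (2 : ℝ≥0∞) ^ (-(k : ℝ) * (n - α * p)) * (2 * ∑' i : ℕ, q ^ i) := by
        gcongr
        exact two_sided q k
    _ = _ := by ring

end Pool.Agent.U556.BC
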