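import Pool.Agent.U556.BC4

set_option autoImplicit false

/-! Besov capacities, part 5: existence of the blocks. -/

namespace Pool.Agent.U556.BC

open MeasureTheory FourierTransform SchwartzMap Set
open scoped ENNReal NNReal ContDiff RealInnerProductSpace

variable {n : ℕ}

/-- Coefficients of the extrapolation to `1` from the nodes `t (i + 1)`. -/
theorem lagrange_coeff (L : ℕ) (t : ℝ) (ht : 0 < t) (ht1 : t * (L + 1) ≤ 1) :
    ∃ c : ℕ → ℝ, (∀ i ∈ Finset.range (L + 1), |c i| ≤ (t⁻¹) ^ L) ∧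
      ∀ l ≤ L, ∑ i ∈ Finset.range (L + 1), c i * (t * (i + 1)) ^ l = 1 := by
  classical
  set s := Finset.range (L + 1) with hs
  set ρ : ℕ → ℝ := fun i => t * (i + 1) with hρ
  have hinj : Set.InjOn ρ s := by
    intro i _ j _ hij
    simp only [hρ] at hij
    have := mul_left_cancel₀ ht.ne' hij
    exact_mod_cast add_right_cancel this
  refine ⟨fun i => (Lagrange.basis s ρ i).eval 1, ?_, ?_⟩
  · intro i hi
    simp only
    rw [Lagrange.basis, Polynomial.eval_prod, Finset.abs_prod]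
    calc ∏ j ∈ s.erase i, |Polynomial.eval 1 (Lagrange.basisDivisor (ρ i) (ρ j))|
        ≤ ∏ j ∈ s.erase i, t⁻¹ := by
          apply Finset.prod_le_prod
          · intros
            positivity
          · intro j hj
            rw [Lagrange.basisDivisor]
            simp only [Polynomial.eval_mul, Polynomial.eval_C, Polynomial.eval_sub, Polynomial.eval_X]
            rw [abs_mul, abs_inv]
            have hji : j ≠ i := Finset.ne_of_mem_erase hj
            have hjs : j < L + 1 := Finset.mem_range.1 (Finset.mem_of_mem_erase hj)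
            have h1 : t ≤ |ρ i - ρ j| := by
              simp only [hρ]
              rw [← mul_sub, abs_mul, abs_of_pos ht]
              have : (1 : ℝ) ≤ |((i : ℝ) + 1) - ((j : ℝ) + 1)| := by
                have h2 : (i : ℤ) - j ≠ 0 := by omega
                have h3 := Int.one_le_abs h2
                have h4 : ((1 : ℤ) : ℝ) ≤ ((|(i : ℤ) - j| : ℤ) : ℝ) := by exact_mod_cast h3
                push_cast at h4
                rwa [add_sub_add_right_eq_sub]
              nlinarith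
            have h5 : |1 - ρ j| ≤ 1 := by
              simp only [hρ]
              have h6 : t * ((j : ℝ) + 1) ≤ 1 := by
                refine le_trans ?_ ht1
                gcongr
                exact_mod_cast Nat.lt_succ_iff.1 hjs
              rw [abs_le]
              constructor
              · linarith
              · have : 0 < t * ((j : ℝ) + 1) := by positivity
                linarith
            calc |ρ i - ρ j|⁻¹ * |1 - ρ j| ≤ t⁻¹ * 1 := by gcongr
              _ = t⁻¹ := mul_one _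
      _ = t⁻¹ ^ L := by
          rw [Finset.prod_const, Finset.card_erase_of_mem hi, Finset.card_range]
          simp
  · intro l hl
    have hdeg : (Polynomial.X ^ l : Polynomial ℝ).degree < s.card := by
      rw [Polynomial.degree_X_pow, Finset.card_range]
      exact_mod_cast (by omega)
    have h := congrArg (Polynomial.eval 1) (Lagrange.eq_interpolate hinj hdeg)
    rw [Lagrange.interpolate_apply, Polynomial.eval_finsetSum] at h
    simp only [Polynomial.eval_pow, Polynomial.eval_X, one_pow, Polynomial.eval_mul,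
      Polynomial.eval_C] at h
    refine Eq.trans (Finset.sum_congr rfl fun i _ => ?_) h.symm
    exact mul_comm _ _

/-- Vanishing moments of a combination of dilates. -/
theorem moments_zero (FS : 𝓢(E n, ℂ)) (c ρ : ℕ → ℝ) (s : Finset ℕ) (hρ : ∀ i, 0 < ρ i)
    (g : ℕ → 𝓢(E n, ℂ)) (hg : ∀ i y, g i y = ((ρ i ^ n)⁻¹ : ℝ) • FS ((ρ i)⁻¹ • y)) (l : ℕ)
    (hc : ∑ i ∈ s, c i * ρ i ^ l = 1) :
    iteratedFDeriv ℝ l (𝓕 (FS - ∑ i ∈ s, c i • g i) : 𝓢(E n, ℂ)) 0 = 0 := by
  have hsub : ∀ i, ∀ ξ : E n, (𝓕 (g i) : 𝓢(E n, ℂ)) ξ = (𝓕 FS : 𝓢(E n, ℂ)) (ρ i • ξ) := by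
    intro i ξ
    have h5 := hρ i
    have h1 : g i = ((ρ i ^ n)⁻¹ : ℝ) • (((ρ i ^ n)) • g i) := by
      rw [smul_smul, inv_mul_cancel₀ (by positivity), one_smul]
    rw [h1, FourierTransform.fourier_smul, smul_apply, fourier_coe]
    have h2 := fourier_scaled (FS : E n → ℂ) (((ρ i ^ n) • g i : 𝓢(E n, ℂ)) : E n → ℂ)
      ((ρ i)⁻¹) (inv_pos.2 h5) 0 (fun x => by
        rw [smul_apply, hg, smul_smul, mul_inv_cancel₀ (by positivity), one_smul,
          sub_zero]) ξ
    rw [h2]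
    simp only [inner_zero_left, mul_zero, Complex.ofReal_zero, zero_mul, Complex.exp_zero,
      one_mul, inv_inv]
    rw [smul_smul, fourier_coe, inv_pow, inv_inv, inv_mul_cancel₀ (by positivity), one_smul]
  have hcoe : ((𝓕 (FS - ∑ i ∈ s, c i • g i) : 𝓢(E n, ℂ)) : E n → ℂ) =
      fun ξ => (𝓕 FS : 𝓢(E n, ℂ)) ξ - ∑ i ∈ s, c i • (𝓕 FS : 𝓢(E n, ℂ)) (ρ i • ξ) := by
    funext ξ
    have h1 : 𝓕 (FS - ∑ i ∈ s, c i • g i) = (𝓕 FS : 𝓢(E n, ℂ)) - ∑ i ∈ s, c i • 𝓕 (g i) := by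
      rw [sub_eq_add_neg, FourierTransform.fourier_add, FourierTransform.fourier_neg,
        FourierTransform.fourier_sum, ← sub_eq_add_neg]
      simp only [FourierTransform.fourier_smul]
    rw [h1, sub_apply, sum_apply]
    simp only [smul_apply, hsub]
  set F : 𝓢(E n, ℂ) := 𝓕 FS with hF
  have hFd : ContDiff ℝ l (F : E n → ℂ) := F.smooth l
  have hFd' : ∀ i, ContDiff ℝ l (fun ξ : E n => F (ρ i • ξ)) := fun i =>
    hFd.comp (contDiff_const_smul _)
  have hFd'' : ∀ i, ContDiff ℝ l (fun ξ : E n => c i • F (ρ i • ξ)) := fun i =>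
    (hFd' i).const_smul (c i)
  rw [hcoe, fun_iteratedFDeriv_sub_apply (hFd.contDiffAt)
    (ContDiffAt.sum fun i _ => (hFd'' i).contDiffAt),
    iteratedFDeriv_fun_sum_apply (fun i _ => (hFd'' i).contDiffAt)]
  have h3 : ∀ i, iteratedFDeriv ℝ l (fun ξ : E n => c i • F (ρ i • ξ)) 0 =
      (c i * ρ i ^ l) • iteratedFDeriv ℝ l F 0 := by
    intro i
    rw [iteratedFDeriv_const_smul_apply' (hFd' i).contDiffAt, iteratedFDeriv_comp_const_smul _ hFd]
    simp only [smul_zero]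
    rw [smul_smul]
  simp_rw [h3]
  rw [← Finset.sum_smul, hc, one_smul, sub_self]

/-- **Existence of a block**: a smooth compactly supported function with `L + 1` vanishing moments
which is at least one on a cube of side one, nonnegative outside of the ball of radius `η / 4`, and
not too negative there. -/
theorem exists_block (n L : ℕ) : ∃ D : ℝ, 0 < D ∧ ∀ η : ℝ, 0 < η → η ≤ 1 → ∀ b : E n,
    ‖b‖ ≤ 3 * √n → ∃ a : 𝓢(E n, ℂ), (∃ R : ℝ, ∀ y, R ≤ ‖y‖ → a y = 0) ∧ (∀ y, (a y).im = 0) ∧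
      (∀ y, ‖y - b‖ ≤ √n → η / 4 ≤ ‖y‖ → 1 ≤ (a y).re) ∧
      (∀ y, η / 4 ≤ ‖y‖ → 0 ≤ (a y).re) ∧
      (∀ y, -(D * (η⁻¹) ^ (L + n)) ≤ (a y).re) ∧
      ∀ l < L + 1, iteratedFDeriv ℝ l (𝓕 a : 𝓢(E n, ℂ)) 0 = 0 := by
  classical
  set R : ℝ := √n + 2 + 3 * √n with hR
  have hn0 : 0 ≤ √(n : ℝ) := Real.sqrt_nonneg _
  have hR2 : 2 ≤ R := by rw [hR]; linarith
  set θ : ℝ := (4 * (L + 2) * R)⁻¹ with hθ
  have hθ0 : 0 < θ := by positivity
  refine ⟨(L + 1) * (θ⁻¹) ^ (L + n), by positivity, fun η hη hη1 b hb => ?_⟩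
  obtain ⟨c, hc, hcl⟩ := lagrange_coeff L (η * θ) (by positivity) (by
    rw [hθ, mul_assoc, inv_mul_eq_div]
    refine mul_le_one₀ hη1 (by positivity) ?_
    rw [div_le_one (by positivity)]
    have : (0 : ℝ) ≤ L := Nat.cast_nonneg _
    nlinarith)
  set ρ : ℕ → ℝ := fun i => η * θ * (i + 1) with hρ
  have hρ0 : ∀ i, 0 < ρ i := fun i => by simp only [hρ]; positivity
  let f₀ : ContDiffBump (0 : E n) := ⟨√n + 1, √n + 2, by positivity, by linarith⟩
  set f : E n → ℝ := fun y => f₀ (y - b) with hf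
  have hfs : ContDiff ℝ ∞ f := f₀.contDiff.comp (contDiff_id.sub contDiff_const)
  have hf0 : ∀ y, 0 ≤ f y := fun y => f₀.nonneg
  have hf1 : ∀ y, f y ≤ 1 := fun y => f₀.le_one
  have hfz : ∀ y, R ≤ ‖y‖ → f y = 0 := by
    intro y hy
    refine f₀.zero_of_le_dist ?_
    rw [dist_zero_right]
    show √n + 2 ≤ _
    have := norm_sub_norm_le y b
    linarith
  have hfc : HasCompactSupport f := by
    refine HasCompactSupport.intro (isCompact_closedBall (0 : E n) R) fun y hy => ?_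
    rw [mem_closedBall_zero_iff, not_le] at hy
    exact hfz y hy.le
  have hfc' : HasCompactSupport (fun y => (f y : ℂ)) := hfc.comp_left Complex.ofReal_zero
  have hfs' : ContDiff ℝ ∞ (fun y => (f y : ℂ)) := Complex.ofRealCLM.contDiff.comp hfs
  obtain ⟨FS, hFS⟩ : ∃ FS : 𝓢(E n, ℂ), ∀ y, FS y = (f y : ℂ) :=
    ⟨hfc'.toSchwartzMap hfs', fun y => rfl⟩
  have hgi : ∀ i, ∃ g : 𝓢(E n, ℂ), ∀ y, g y = ((ρ i ^ n)⁻¹ : ℝ) • FS ((ρ i)⁻¹ • y) := by
    intro i
    have h0 : ContDiff ℝ ∞ (fun y : E n => (f ((ρ i)⁻¹ • y) : ℂ)) :=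
      hfs'.comp (contDiff_const_smul _)
    have h1 : ContDiff ℝ ∞ (fun y : E n => ((ρ i ^ n)⁻¹ : ℝ) • (f ((ρ i)⁻¹ • y) : ℂ)) :=
      h0.const_smul _
    have h2 : HasCompactSupport (fun y : E n => ((ρ i ^ n)⁻¹ : ℝ) • (f ((ρ i)⁻¹ • y) : ℂ)) := by
      have h3 : HasCompactSupport (fun y : E n => (f ((ρ i)⁻¹ • y) : ℂ)) :=
        hfc'.comp_smul (c := (ρ i)⁻¹) (inv_ne_zero (hρ0 i).ne')
      exact h3.smul_left (f := fun _ => ((ρ i ^ n)⁻¹ : ℝ))
    refine ⟨h2.toSchwartzMap h1, fun y => ?_⟩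
    rw [HasCompactSupport.toSchwartzMap_toFun, hFS]
  choose g hg using hgi
  have hval : ∀ y, (FS - ∑ i ∈ Finset.range (L + 1), c i • g i) y =
      ((f y - ∑ i ∈ Finset.range (L + 1), c i * ((ρ i ^ n)⁻¹ * f ((ρ i)⁻¹ • y)) : ℝ) : ℂ) := by
    intro y
    rw [sub_apply, sum_apply, hFS]
    simp only [smul_apply, hg, hFS, Complex.real_smul]
    push_cast
    rfl
  have hfz' : ∀ i ∈ Finset.range (L + 1), ∀ y : E n, η / 4 ≤ ‖y‖ → f ((ρ i)⁻¹ • y) = 0 := by
    intro i hi y hy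
    apply hfz
    rw [norm_smul, Real.norm_eq_abs, abs_of_pos (inv_pos.2 (hρ0 i)), inv_mul_eq_div,
      le_div_iff₀ (hρ0 i)]
    refine le_trans ?_ hy
    simp only [hρ]
    have hi' : ((i : ℝ) + 1) ≤ L + 2 := by
      have : i < L + 1 := Finset.mem_range.1 hi
      have : (i : ℝ) ≤ L := by exact_mod_cast Nat.lt_succ_iff.1 this
      linarith
    have h1 : R * (η * θ * ((i : ℝ) + 1)) ≤ R * (η * θ * (L + 2)) := by gcongr
    refine h1.trans (le_of_eq ?_)
    rw [hθ]
    field_simp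
  have hgf : ∀ y : E n, η / 4 ≤ ‖y‖ →
      f y - ∑ i ∈ Finset.range (L + 1), c i * ((ρ i ^ n)⁻¹ * f ((ρ i)⁻¹ • y)) = f y := by
    intro y hy
    rw [Finset.sum_eq_zero, sub_zero]
    intro i hi
    rw [hfz' i hi y hy]
    ring
  refine ⟨FS - ∑ i ∈ Finset.range (L + 1), c i • g i, ⟨R, fun y hy => ?_⟩, fun y => ?_,
    fun y hy hy' => ?_, fun y hy => ?_, fun y => ?_, fun l hl => ?_⟩
  · rw [hval, hgf y (by linarith), hfz y hy, Complex.ofReal_zero]
  · rw [hval, Complex.ofReal_im]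
  · rw [hval, Complex.ofReal_re, hgf y hy']
    refine (f₀.one_of_mem_closedBall ?_).ge
    rw [mem_closedBall_zero_iff]
    show _ ≤ √n + 1
    linarith
  · rw [hval, Complex.ofReal_re, hgf y hy]
    exact hf0 y
  · rw [hval, Complex.ofReal_re]
    have h1 : ∑ i ∈ Finset.range (L + 1), c i * ((ρ i ^ n)⁻¹ * f ((ρ i)⁻¹ • y)) ≤
        ∑ i ∈ Finset.range (L + 1), ((η * θ)⁻¹) ^ (L + n) := by
      apply Finset.sum_le_sum
      intro i hi
      have h3 := hρ0 i
      have h0 : 0 ≤ (ρ i ^ n)⁻¹ * f ((ρ i)⁻¹ • y) :=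
        mul_nonneg (inv_nonneg.2 (pow_nonneg (hρ0 i).le _)) (hf0 _)
      calc c i * ((ρ i ^ n)⁻¹ * f ((ρ i)⁻¹ • y)) ≤ |c i| * ((ρ i ^ n)⁻¹ * f ((ρ i)⁻¹ • y)) :=
            mul_le_mul_of_nonneg_right (le_abs_self _) h0
        _ ≤ ((η * θ)⁻¹) ^ L * (((η * θ)⁻¹) ^ n * 1) := by
            have h2 : (ρ i ^ n)⁻¹ ≤ ((η * θ)⁻¹) ^ n := by
              rw [inv_pow]
              refine inv_anti₀ (by positivity) (pow_le_pow_left₀ (by positivity) ?_ n)
              simp only [hρ]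
              have : (0 : ℝ) ≤ i := Nat.cast_nonneg _
              have : 0 < η * θ := by positivity
              nlinarith
            exact mul_le_mul (hc i hi) (mul_le_mul h2 (hf1 _) (hf0 _) (by positivity)) h0
              (by positivity)
        _ = _ := by rw [mul_one, pow_add]
    rw [Finset.sum_const, Finset.card_range, nsmul_eq_mul] at h1
    have h4 : ((L + 1 : ℕ) : ℝ) * ((η * θ)⁻¹) ^ (L + n) =
        (L + 1) * (θ⁻¹) ^ (L + n) * (η⁻¹) ^ (L + n) := by
      rw [mul_inv, mul_pow]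
      push_cast
      ring
    rw [h4] at h1
    have := hf0 y
    linarith
  · exact moments_zero FS c ρ _ hρ0 g hg l (hcl l (Nat.lt_succ_iff.1 hl))

end Pool.Agent.U556.BC
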