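import Pool.Agent.U556.BC5

set_option autoImplicit false

/-! Besov capacities, part 6: dyadic cubes and the choice of the dump cubes. -/

namespace Pool.Agent.U556.BC

open MeasureTheory Set
open scoped ENNReal NNReal

variable {n : ℕ}

/-- the index of the dyadic cube of level `k` containing `x` -/
noncomputable def idx (k : ℕ) (x : E n) : Fin n → ℤ := fun i => ⌊(2 : ℝ) ^ k * x i⌋

/-- the (half-open) dyadic cube with index `Q = (k, m)` -/
def cube (Q : ℕ × (Fin n → ℤ)) : Set (E n) := {x | idx Q.1 x = Q.2}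

/-- the weight of a cube -/
noncomputable def wt (s : ℝ) (Q : ℕ × (Fin n → ℤ)) : ℝ := (2 : ℝ) ^ (-(s * Q.1))

theorem wt_pos (s : ℝ) (Q : ℕ × (Fin n → ℤ)) : 0 < wt s Q := by
  unfold wt
  positivity

theorem idx_mono {k l : ℕ} (h : k ≤ l) {x y : E n} (hxy : idx l x = idx l y) : idx k x = idx k y := by
  obtain ⟨d, rfl⟩ := Nat.exists_eq_add_of_le h
  funext i
  have hi := congrFun hxy i
  simp only [idx] at hi ⊢
  set a := ⌊(2 : ℝ) ^ k * x i⌋ with ha
  symm
  rw [Int.floor_eq_iff]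
  have h0 : (0 : ℝ) < 2 ^ d := by positivity
  have h1 : (a : ℝ) ≤ 2 ^ k * x i := Int.floor_le _
  have h2 : 2 ^ k * x i < a + 1 := Int.lt_floor_add_one _
  have h3 : ((2 ^ d * a : ℤ) : ℝ) ≤ 2 ^ (k + d) * x i := by
    push_cast
    rw [pow_add]
    nlinarith
  have h4 : (2 ^ d * a : ℤ) ≤ ⌊(2 : ℝ) ^ (k + d) * y i⌋ := by
    rw [← hi]
    exact Int.le_floor.2 h3
  have h5 := Int.le_floor.1 h4
  have h6 : 2 ^ (k + d) * x i < ((2 ^ d * (a + 1) : ℤ) : ℝ) := by
    push_cast
    rw [pow_add]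
    nlinarith
  have h7 : ⌊(2 : ℝ) ^ (k + d) * y i⌋ < (2 ^ d * (a + 1) : ℤ) := by
    rw [← hi]
    exact Int.floor_lt.2 h6
  have h8 := Int.floor_lt.1 h7
  push_cast at h5 h8
  rw [pow_add] at h5 h8
  constructor
  · have : (2 : ℝ) ^ d * (2 ^ k * y i - a) ≥ 0 := by nlinarith
    have := nonneg_of_mul_nonneg_right this h0
    linarith
  · have : 0 < (2 : ℝ) ^ d * (a + 1 - 2 ^ k * y i) := by nlinarith
    have := (mul_pos_iff_of_pos_left h0).1 this
    linarith

theorem cube_subset {Q Q' : ℕ × (Fin n → ℤ)} (h : Q.1 ≤ Q'.1) {x : E n} (hx : x ∈ cube Q)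
    (hx' : x ∈ cube Q') : cube Q' ⊆ cube Q := by
  intro y hy
  have h1 : idx Q'.1 y = idx Q'.1 x := by
    rw [show idx Q'.1 y = Q'.2 from hy, show idx Q'.1 x = Q'.2 from hx']
  show idx Q.1 y = Q.2
  rw [idx_mono h h1]
  exact hx

/-- the corner of a cube -/
noncomputable def corner (Q : ℕ × (Fin n → ℤ)) : E n :=
  WithLp.toLp 2 fun i => (Q.2 i : ℝ) / 2 ^ Q.1

theorem corner_mem (Q : ℕ × (Fin n → ℤ)) : corner Q ∈ cube Q := by
  show idx Q.1 (corner Q) = Q.2
  funext i
  simp only [idx, corner]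
  rw [mul_div_cancel₀ _ (by positivity), Int.floor_intCast]

theorem cube_eq (Q : ℕ × (Fin n → ℤ)) : cube Q = (WithLp.ofLp (p := 2)) ⁻¹'
    (Set.pi univ fun i => Ico ((Q.2 i : ℝ) / 2 ^ Q.1) (((Q.2 i : ℝ) + 1) / 2 ^ Q.1)) := by
  ext x
  simp only [cube, idx, mem_ofPred_eq, mem_preimage, mem_pi, mem_univ, forall_const, mem_Ico,
    funext_iff]
  refine forall_congr' fun i => ?_
  rw [Int.floor_eq_iff, div_le_iff₀ (by positivity), lt_div_iff₀ (by positivity), mul_comm]

theorem measurableSet_cube (Q : ℕ × (Fin n → ℤ)) : MeasurableSet (cube Q) := by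
  rw [cube_eq]
  exact (PiLp.volume_preserving_ofLp (Fin n)).measurable
    (MeasurableSet.univ_pi fun i => measurableSet_Ico)

theorem volume_cube (Q : ℕ × (Fin n → ℤ)) :
    volume (cube Q) = ENNReal.ofReal ((2 : ℝ) ^ (-((n : ℝ) * Q.1))) := by
  rw [cube_eq, (PiLp.volume_preserving_ofLp (Fin n)).measure_preimage
    (MeasurableSet.univ_pi fun i => measurableSet_Ico).nullMeasurableSet, Real.volume_pi_Ico]
  have h1 : ∀ i : Fin n, ENNReal.ofReal (((Q.2 i : ℝ) + 1) / 2 ^ Q.1 - (Q.2 i : ℝ) / 2 ^ Q.1) =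
      ENNReal.ofReal ((2 : ℝ) ^ (-(Q.1 : ℝ))) := by
    intro i
    congr 1
    rw [Real.rpow_neg (by norm_num), Real.rpow_natCast]
    ring
  simp_rw [h1]
  rw [Finset.prod_const, Finset.card_univ, Fintype.card_fin, ← ENNReal.ofReal_pow (by positivity),
    ← Real.rpow_mul_natCast (by norm_num)]
  congr 2
  ring

/-- Averaging over the subcubes of level `l`. -/
theorem averaging (ν : Measure (E n)) (c : ℝ≥0∞) (R : ℕ × (Fin n → ℤ)) (l : ℕ) (hl : R.1 ≤ l)
    (h : ∀ m : Fin n → ℤ, cube (l, m) ⊆ cube R → c * volume (cube (l, m)) ≤ ν (cube (l, m))) :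
    c * volume (cube R) ≤ ν (cube R) := by
  have hU : cube R = ⋃ m : Fin n → ℤ, cube R ∩ cube (l, m) := by
    ext x
    simp only [mem_iUnion, mem_inter_iff]
    exact ⟨fun hx => ⟨idx l x, hx, rfl⟩, fun ⟨_, hx, _⟩ => hx⟩
  have hd : Pairwise (Function.onFun Disjoint fun m : Fin n → ℤ => cube R ∩ cube (l, m)) := by
    intro m m' hm
    rw [Function.onFun, Set.disjoint_left]
    rintro x ⟨_, hx⟩ ⟨_, hx'⟩
    apply hm
    rw [← show idx l x = m from hx, ← show idx l x = m' from hx']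
  have hm : ∀ m : Fin n → ℤ, MeasurableSet (cube R ∩ cube (l, m)) := fun m =>
    (measurableSet_cube R).inter (measurableSet_cube _)
  rw [hU, measure_iUnion hd hm, measure_iUnion hd hm, ← ENNReal.tsum_mul_left]
  refine ENNReal.tsum_le_tsum fun m => ?_
  by_cases hc : cube (l, m) ⊆ cube R
  · rw [inter_eq_self_of_subset_right hc]
    exact h m hc
  · have : cube R ∩ cube (l, m) = ∅ := by
      by_contra hne
      obtain ⟨x, hx, hx'⟩ := Set.nonempty_iff_ne_empty.2 hne
      exact hc (cube_subset (Q' := (l, m)) hl hx hx')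
    rw [this]
    simp

/-- a minimal family of cubes -/
structure Good (s ε : ℝ) (K : Set (E n)) (F : Finset (ℕ × (Fin n → ℤ))) : Prop where
  cover : K ⊆ ⋃ Q ∈ F, cube Q
  sum : ∑ Q ∈ F, wt s Q < ε

theorem wt_anti {s : ℝ} (hs : 0 ≤ s) {Q Q' : ℕ × (Fin n → ℤ)} (h : Q.1 ≤ Q'.1) :
    wt s Q' ≤ wt s Q := by
  unfold wt
  apply Real.rpow_le_rpow_of_exponent_le (by norm_num)
  have : (Q.1 : ℝ) ≤ Q'.1 := by exact_mod_cast h
  nlinarith

open Classical in
/-- A minimal family is an antichain with the packing property. -/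
theorem exists_minimal {s ε : ℝ} (hs : 0 < s) {K : Set (E n)} (h : ∃ F, Good s ε K F) :
    ∃ F : Finset (ℕ × (Fin n → ℤ)), Good s ε K F ∧
      (∀ Q ∈ F, ∀ Q' ∈ F, cube Q' ⊆ cube Q → Q.1 ≤ Q'.1 → Q' = Q) ∧
      ∀ R : ℕ × (Fin n → ℤ), (∀ Q ∈ F, cube Q ⊆ cube R → R.1 ≤ Q.1) →
        ∑ Q ∈ F with cube Q ⊆ cube R, wt s Q ≤ wt s R := by
  obtain ⟨F, hF, hmin⟩ := (measure (Finset.card (α := ℕ × (Fin n → ℤ)))).wf.has_min
    {F | Good s ε K F} h
  have hmin' : ∀ F', Good s ε K F' → F.card ≤ F'.card := fun F' h' => not_lt.1 (hmin F' h')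
  refine ⟨F, hF, ?_, ?_⟩
  · intro Q hQ Q' hQ' hsub hle
    by_contra hne
    have h1 : Good s ε K (F.erase Q') := by
      refine ⟨?_, ?_⟩
      · refine hF.cover.trans ?_
        refine iUnion₂_subset fun P hP => ?_
        by_cases hPQ : P = Q'
        · subst hPQ
          exact hsub.trans (subset_biUnion_of_mem (u := fun Q => cube Q)
            (Finset.mem_coe.2 (Finset.mem_erase.2 ⟨fun e => hne e.symm, hQ⟩)))
        · exact (subset_biUnion_of_mem (u := fun Q => cube Q)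
            (Finset.mem_coe.2 (Finset.mem_erase.2 ⟨hPQ, hP⟩)))
      · refine lt_of_le_of_lt ?_ hF.sum
        exact Finset.sum_le_sum_of_subset_of_nonneg (Finset.erase_subset _ _)
          fun P _ _ => (wt_pos s P).le
    have h2 := hmin' _ h1
    have h3 := Finset.card_erase_lt_of_mem hQ'
    omega
  · intro R hR
    by_contra hlt
    rw [not_le] at hlt
    set G := F.filter (fun Q => cube Q ⊆ cube R) with hG
    have hG2 : 2 ≤ G.card := by
      by_contra hc
      rw [not_le] at hc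
      interval_cases hcard : G.card
      · rw [Finset.card_eq_zero] at hcard
        rw [hcard, Finset.sum_empty] at hlt
        exact absurd hlt (not_lt.2 (wt_pos s R).le)
      · rw [Finset.card_eq_one] at hcard
        obtain ⟨Q, hQ⟩ := hcard
        rw [hQ, Finset.sum_singleton] at hlt
        have hQG : Q ∈ G := by
          rw [hQ]
          exact Finset.mem_singleton_self _
        rw [hG, Finset.mem_filter] at hQG
        exact absurd hlt (not_lt.2 (wt_anti hs.le (hR Q hQG.1 hQG.2)))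
    have h1 : Good s ε K (insert R (F \ G)) := by
      refine ⟨?_, ?_⟩
      · refine hF.cover.trans ?_
        refine iUnion₂_subset fun P hP => ?_
        by_cases hPG : P ∈ G
        · have h2 : cube P ⊆ cube R := (Finset.mem_filter.1 hPG).2
          exact h2.trans (subset_biUnion_of_mem (u := fun Q => cube Q)
            (Finset.mem_coe.2 (Finset.mem_insert_self _ _)))
        · exact (subset_biUnion_of_mem (u := fun Q => cube Q)
            (Finset.mem_coe.2 (Finset.mem_insert_of_mem (Finset.mem_sdiff.2 ⟨hP, hPG⟩))))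
      · refine lt_of_le_of_lt ?_ hF.sum
        have h2 : ∑ Q ∈ insert R (F \ G), wt s Q ≤ wt s R + ∑ Q ∈ F \ G, wt s Q := by
          by_cases hRF : R ∈ F \ G
          · rw [Finset.insert_eq_of_mem hRF]
            linarith [wt_pos s R]
          · rw [Finset.sum_insert hRF]
        have h3 := Finset.sum_sdiff (f := wt s) (Finset.filter_subset (fun Q => cube Q ⊆ cube R) F)
        rw [← hG] at h3
        linarith
    have h2 := hmin' _ h1
    have h3 := Finset.card_insert_le R (F \ G)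
    have h4 : (F \ G).card = F.card - G.card := Finset.card_sdiff_of_subset (Finset.filter_subset _ _)
    have h5 : G.card ≤ F.card := Finset.card_le_card (Finset.filter_subset _ _)
    omega

theorem level_le_of_subset (hn : 0 < n) {Q R : ℕ × (Fin n → ℤ)} (h : cube Q ⊆ cube R) :
    R.1 ≤ Q.1 := by
  have h1 := measure_mono (μ := (volume : Measure (E n))) h
  rw [volume_cube, volume_cube, ENNReal.ofReal_le_ofReal_iff (by positivity),
    Real.rpow_le_rpow_left_iff (by norm_num)] at h1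
  have hn' : (0 : ℝ) < n := by exact_mod_cast hn
  have : (R.1 : ℝ) ≤ Q.1 := by
    have : (n : ℝ) * R.1 ≤ n * Q.1 := by linarith
    exact le_of_mul_le_mul_left this hn'
  exact_mod_cast this

open Classical in
/-- **The choice of the dump cube.** -/
theorem exists_dump {s : ℝ} (hsn : s < n) {F : Finset (ℕ × (Fin n → ℤ))}
    (hanti : ∀ Q ∈ F, ∀ Q' ∈ F, cube Q' ⊆ cube Q → Q.1 ≤ Q'.1 → Q' = Q)
    (hpack : ∀ R : ℕ × (Fin n → ℤ), ∑ Q ∈ F with cube Q ⊆ cube R, wt s Q ≤ wt s R)
    (N : ℕ) {Q : ℕ × (Fin n → ℤ)} (hQ : Q ∈ F) (hQ1 : 1 ≤ Q.1) :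
    ∃ m : Fin n → ℤ, cube (Q.1 + N, m) ⊆ cube (Q.1 - 1, idx (Q.1 - 1) (corner Q)) ∧
      (∀ Q' ∈ F, ¬ cube (Q.1 + N, m) ⊆ cube Q') ∧
      ∑ Q' ∈ F with cube Q' ⊆ cube (Q.1 + N, m), wt s Q' ≤ (2 : ℝ) ^ (-((n : ℝ) * N)) * wt s Q := by
  set R : ℕ × (Fin n → ℤ) := (Q.1 - 1, idx (Q.1 - 1) (corner Q)) with hR
  have hR1 : R.1 = Q.1 - 1 := rfl
  have hRl : (R.1 : ℝ) = Q.1 - 1 := by
    rw [hR1, Nat.cast_sub hQ1, Nat.cast_one]
  have hQR : cube Q ⊆ cube R := cube_subset (by omega) (x := corner Q) rfl (corner_mem Q)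
  have factA : ∀ Q' ∈ F, ∀ x ∈ cube Q', x ∈ cube R → Q.1 ≤ Q'.1 := by
    intro Q' hQ' x hx hxR
    by_contra hlt
    have h1 : cube R ⊆ cube Q' := cube_subset (by omega) hx hxR
    have h2 := hanti Q' hQ' Q hQ (hQR.trans h1) (by omega)
    rw [h2] at hlt
    omega
  set ν : Measure (E n) := ∑ Q' ∈ F, ENNReal.ofReal ((2 : ℝ) ^ ((n - s) * Q'.1)) •
    volume.restrict (cube Q') with hν
  have hνa : ∀ A : Set (E n), MeasurableSet A → ν A =
      ∑ Q' ∈ F, ENNReal.ofReal ((2 : ℝ) ^ ((n - s) * Q'.1)) * volume (A ∩ cube Q') := by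
    intro A hA
    rw [hν, Measure.finset_sum_apply]
    apply Finset.sum_congr rfl
    intro Q' _
    rw [Measure.smul_apply, smul_eq_mul, Measure.restrict_apply hA]
  have hterm : ∀ Q' : ℕ × (Fin n → ℤ), ∀ A : Set (E n), cube Q' ⊆ A →
      ENNReal.ofReal ((2 : ℝ) ^ ((n - s) * Q'.1)) * volume (A ∩ cube Q') =
        ENNReal.ofReal (wt s Q') := by
    intro Q' A hA
    rw [inter_eq_self_of_subset_right hA, volume_cube, ← ENNReal.ofReal_mul (by positivity),
      ← Real.rpow_add (by norm_num), wt]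
    congr 2
    ring
  have hνR : ν (cube R) ≤ ENNReal.ofReal (wt s R) := by
    rw [hνa _ (measurableSet_cube R)]
    have h1 : ∀ Q' ∈ F, ENNReal.ofReal ((2 : ℝ) ^ ((n - s) * Q'.1)) * volume (cube R ∩ cube Q') ≤
        if cube Q' ⊆ cube R then ENNReal.ofReal (wt s Q') else 0 := by
      intro Q' hQ'
      split_ifs with hc
      · exact (hterm Q' _ hc).le
      · have : cube R ∩ cube Q' = ∅ := by
          by_contra hne
          obtain ⟨x, hx, hx'⟩ := Set.nonempty_iff_ne_empty.2 hne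
          have h2 := factA Q' hQ' x hx' hx
          exact hc (cube_subset (by omega) hx hx')
        rw [this]
        simp
    refine (Finset.sum_le_sum h1).trans ?_
    rw [← Finset.sum_filter, ← ENNReal.ofReal_sum_of_nonneg fun Q' _ => (wt_pos s Q').le]
    exact ENNReal.ofReal_le_ofReal (hpack R)
  set c : ℝ≥0∞ := ENNReal.ofReal ((2 : ℝ) ^ ((n - s) * Q.1)) with hc
  have hex : ∃ m : Fin n → ℤ, cube (Q.1 + N, m) ⊆ cube R ∧
      ν (cube (Q.1 + N, m)) < c * volume (cube (Q.1 + N, m)) := by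
    by_contra hno
    push Not at hno
    have h1 := (averaging ν c R (Q.1 + N) (by omega) hno).trans hνR
    rw [volume_cube, hc, ← ENNReal.ofReal_mul (by positivity), ← Real.rpow_add (by norm_num),
      wt, ENNReal.ofReal_le_ofReal_iff (by positivity), Real.rpow_le_rpow_left_iff (by norm_num),
      hRl] at h1
    nlinarith
  obtain ⟨m, hmR, hm⟩ := hex
  refine ⟨m, hmR, ?_, ?_⟩
  · intro Q' hQ' hsub
    have h1 : Q.1 ≤ Q'.1 := factA Q' hQ' _ (hsub (corner_mem _)) (hmR (corner_mem _))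
    have h2 : c * volume (cube (Q.1 + N, m)) ≤ ν (cube (Q.1 + N, m)) := by
      rw [hνa _ (measurableSet_cube _)]
      refine le_trans ?_ (Finset.single_le_sum (f := fun Q' : ℕ × (Fin n → ℤ) =>
        ENNReal.ofReal ((2 : ℝ) ^ ((n - s) * Q'.1)) * volume (cube (Q.1 + N, m) ∩ cube Q'))
        (fun _ _ => zero_le) hQ')
      rw [inter_eq_self_of_subset_left hsub]
      gcongr
      rw [hc]
      apply ENNReal.ofReal_le_ofReal
      apply Real.rpow_le_rpow_of_exponent_le (by norm_num)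
      have : (Q.1 : ℝ) ≤ Q'.1 := by exact_mod_cast h1
      nlinarith
    exact absurd hm (not_lt.2 h2)
  · have h1 : ENNReal.ofReal (∑ Q' ∈ F with cube Q' ⊆ cube (Q.1 + N, m), wt s Q') ≤
        ν (cube (Q.1 + N, m)) := by
      rw [hνa _ (measurableSet_cube _), ENNReal.ofReal_sum_of_nonneg fun Q' _ => (wt_pos s Q').le,
        Finset.sum_filter]
      apply Finset.sum_le_sum
      intro Q' _
      split_ifs with h
      · exact (hterm Q' _ h).ge
      · exact zero_le
    have h2 := h1.trans hm.le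
    rw [volume_cube, hc, ← ENNReal.ofReal_mul (by positivity), ← Real.rpow_add (by norm_num),
      ENNReal.ofReal_le_ofReal_iff (by positivity)] at h2
    refine h2.trans (le_of_eq ?_)
    rw [wt, ← Real.rpow_add (by norm_num)]
    congr 1
    push_cast
    ring

end Pool.Agent.U556.BC
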