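import Pool.Agent.U556.BC6

set_option autoImplicit false

/-! Besov capacities, part 7: dyadic covers of null sets, and the amplitudes. -/

namespace Pool.Agent.U556.BC

open MeasureTheory Set
open scoped ENNReal NNReal

variable {n : ℕ}

theorem sum_image_le_aux {ι κ : Type*} [DecidableEq κ] (F : Finset ι) (g : ι → κ) (f : κ → ℝ)
    (hf : ∀ i ∈ F, 0 ≤ f (g i)) : ∑ u ∈ F.image g, f u ≤ ∑ i ∈ F, f (g i) := by
  classical
  induction F using Finset.induction_on with
  | empty => simp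
  | insert a F ha ih =>
    rw [Finset.image_insert, Finset.sum_insert ha]
    have ih' := ih fun i hi => hf i (Finset.mem_insert_of_mem hi)
    have h0 := hf a (Finset.mem_insert_self _ _)
    by_cases h : g a ∈ F.image g
    · rw [Finset.insert_eq_of_mem h]
      linarith
    · rw [Finset.sum_insert h]
      linarith

/-- a compact set of measure zero has a finite cover by small balls with a small sum -/
theorem fin_cover {X : Type*} [MetricSpace X] [Nonempty X] [MeasurableSpace X] [BorelSpace X]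
    (K : Set X) (hK : IsCompact K) (s : ℝ) (hs : 0 < s) (h0 : μH[s] K = 0) (ε κ : ℝ) (hε : 0 < ε)
    (hκ : 0 < κ) :
    ∃ U : Finset (X × ℝ), (∀ u ∈ U, 0 < u.2 ∧ u.2 ≤ ε) ∧
      (∀ e ∈ K, ∃ u ∈ U, dist e u.1 < u.2) ∧ ∑ u ∈ U, u.2 ^ s ≤ κ := by
  classical
  have hcpos : (0:ℝ) < 2 ^ s := by positivity
  obtain ⟨δ, hδ, hδc⟩ : ∃ δ : ℝ, 0 < δ ∧ 2 ^ s * (δ + δ) = κ :=
    ⟨κ / (2 * 2 ^ s), by positivity, by field_simp; ring⟩
  rw [Measure.hausdorffMeasure_apply] at h0
  have hr : (0 : ENNReal) < ENNReal.ofReal (ε / 4) := by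
    rw [ENNReal.ofReal_pos]; positivity
  have h1 := le_antisymm (le_trans (le_iSup₂_of_le (ENNReal.ofReal (ε / 4)) hr le_rfl) h0.le)
    bot_le
  have h2 : _ < ENNReal.ofReal δ := lt_of_le_of_lt h1.le (ENNReal.ofReal_pos.2 hδ)
  rw [iInf_lt_iff] at h2
  obtain ⟨t, h2⟩ := h2
  rw [iInf_lt_iff] at h2
  obtain ⟨hcov, h2⟩ := h2
  rw [iInf_lt_iff] at h2
  obtain ⟨hdiam, h2⟩ := h2
  have hfin : ∀ n, Metric.ediam (t n) ≠ ⊤ := fun n => ne_top_of_le_ne_top ENNReal.ofReal_ne_top (hdiam n)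
  set d : ℕ → ℝ := fun n => (Metric.ediam (t n)).toReal with hd
  have hd0 : ∀ n, 0 ≤ d n := fun n => ENNReal.toReal_nonneg
  have hd4 : ∀ n, d n ≤ ε / 4 := fun n => by
    have := ENNReal.toReal_mono ENNReal.ofReal_ne_top (hdiam n)
    rwa [ENNReal.toReal_ofReal (by positivity)] at this
  have hds : ∀ n, ENNReal.ofReal (d n ^ s) ≤ ⨆ (_ : (t n).Nonempty), Metric.ediam (t n) ^ s := by
    intro n
    by_cases hn : (t n).Nonempty
    · rw [iSup_pos hn, ← ENNReal.ofReal_rpow_of_nonneg (hd0 n) hs.le, hd,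
        ENNReal.ofReal_toReal (hfin n)]
    · have : d n = 0 := by
        rw [hd]; simp only
        rw [Set.not_nonempty_iff_eq_empty.1 hn]; simp
      rw [this, Real.zero_rpow hs.ne']; simp
  have hsumd : ∀ F : Finset ℕ, ∑ n ∈ F, d n ^ s ≤ δ := by
    intro F
    have : ENNReal.ofReal (∑ n ∈ F, d n ^ s) ≤ ENNReal.ofReal δ := by
      rw [ENNReal.ofReal_sum_of_nonneg fun n _ => Real.rpow_nonneg (hd0 n) s]
      calc _ ≤ ∑ n ∈ F, ⨆ (_ : (t n).Nonempty), Metric.ediam (t n) ^ s :=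
            Finset.sum_le_sum fun n _ => hds n
        _ ≤ _ := ENNReal.sum_le_tsum F
        _ ≤ _ := h2.le
    exact (ENNReal.ofReal_le_ofReal_iff hδ.le).1 this
  set θ : ℕ → ℝ := fun n => min (ε / 4) ((δ * (1 / 2) ^ (n + 1)) ^ (1 / s)) with hθ
  have hθ0 : ∀ n, 0 < θ n := fun n => lt_min (by positivity) (by positivity)
  have hθ4 : ∀ n, θ n ≤ ε / 4 := fun n => min_le_left _ _
  have hθs : ∀ n, θ n ^ s ≤ δ * (1 / 2) ^ (n + 1) := by
    intro n
    calc θ n ^ s ≤ ((δ * (1 / 2) ^ (n + 1)) ^ (1 / s)) ^ s :=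
          Real.rpow_le_rpow (hθ0 n).le (min_le_right _ _) hs.le
      _ = _ := by
          rw [← Real.rpow_mul (by positivity), one_div_mul_cancel hs.ne', Real.rpow_one]
  have hsumθ : ∀ F : Finset ℕ, ∑ n ∈ F, θ n ^ s ≤ δ := by
    intro F
    have hg : HasSum (fun n : ℕ => δ * (1 / 2 : ℝ) ^ (n + 1)) δ := by
      have h := (hasSum_geometric_two.mul_left (δ * (1 / 2)))
      have e1 : (fun n : ℕ => δ * (1 / 2) * (1 / 2 : ℝ) ^ n) = fun n : ℕ => δ * (1 / 2) ^ (n + 1) := by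
        funext n; rw [pow_succ]; ring
      have e2 : δ * (1 / 2) * 2 = δ := by ring
      rw [e1, e2] at h
      exact h
    calc _ ≤ ∑ n ∈ F, δ * (1 / 2 : ℝ) ^ (n + 1) := Finset.sum_le_sum fun n _ => hθs n
      _ ≤ δ := sum_le_hasSum F (fun n _ => by positivity) hg
  have hp : ∀ n, ∃ p : X, (t n).Nonempty → p ∈ t n := by
    intro n
    by_cases hn : (t n).Nonempty
    · exact ⟨hn.some, fun _ => hn.some_mem⟩
    · exact ⟨Classical.arbitrary X, fun h => absurd h hn⟩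
  choose p hp using hp
  have hEc : K ⊆ ⋃ n, Metric.ball (p n) (d n + θ n) := by
    intro e he
    obtain ⟨n, hn⟩ := Set.mem_iUnion.1 (hcov he)
    refine Set.mem_iUnion.2 ⟨n, ?_⟩
    rw [Metric.mem_ball]
    have h3 := hp n ⟨e, hn⟩
    have h4 : dist e (p n) ≤ d n := by
      rw [dist_edist]
      exact ENNReal.toReal_mono (hfin n) (Metric.edist_le_ediam_of_mem hn h3)
    linarith [hθ0 n]
  obtain ⟨F, hF⟩ := hK.elim_finite_subcover _ (fun n => Metric.isOpen_ball) hEc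
  refine ⟨F.image fun n => (p n, d n + θ n), ?_, ?_, ?_⟩
  · intro u hu
    obtain ⟨n, _, rfl⟩ := Finset.mem_image.1 hu
    constructor
    · have := hd0 n; have := hθ0 n; simp only; linarith
    · have := hd4 n; have := hθ4 n; simp only; linarith
  · intro e he
    obtain ⟨n, hn⟩ := Set.mem_iUnion.1 (hF he)
    obtain ⟨hnF, hn⟩ := Set.mem_iUnion.1 hn
    refine ⟨(p n, d n + θ n), Finset.mem_image_of_mem _ hnF, ?_⟩
    rwa [Metric.mem_ball] at hn
  · refine le_trans (sum_image_le_aux F _ (fun u : X × ℝ => u.2 ^ s) ?_) ?_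
    · intro n _
      exact Real.rpow_nonneg (add_nonneg (hd0 n) (hθ0 n).le) s
    · calc ∑ n ∈ F, (d n + θ n) ^ s ≤ ∑ n ∈ F, 2 ^ s * (d n ^ s + θ n ^ s) := by
            refine Finset.sum_le_sum fun n _ => ?_
            have hm : d n + θ n ≤ 2 * max (d n) (θ n) := by
              linarith [le_max_left (d n) (θ n), le_max_right (d n) (θ n)]
            calc (d n + θ n) ^ s ≤ (2 * max (d n) (θ n)) ^ s :=
                  Real.rpow_le_rpow (add_nonneg (hd0 n) (hθ0 n).le) hm hs.le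
              _ = 2 ^ s * (max (d n) (θ n)) ^ s :=
                  Real.mul_rpow (by norm_num) (le_max_of_le_left (hd0 n))
              _ ≤ 2 ^ s * (d n ^ s + θ n ^ s) := by
                  apply mul_le_mul_of_nonneg_left _ hcpos.le
                  have g1 := Real.rpow_nonneg (hd0 n) s
                  have g2 := Real.rpow_nonneg (hθ0 n).le s
                  rcases max_choice (d n) (θ n) with h | h <;> rw [h] <;> linarith
        _ = 2 ^ s * (∑ n ∈ F, d n ^ s + ∑ n ∈ F, θ n ^ s) := by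
            rw [← Finset.mul_sum, Finset.sum_add_distrib]
        _ ≤ 2 ^ s * (δ + δ) :=
            mul_le_mul_of_nonneg_left (add_le_add (hsumd F) (hsumθ F)) hcpos.le
        _ = κ := hδc

/-- dyadic covers with small sums -/
theorem exists_good {s : ℝ} (hs : 0 < s) {K : Set (E n)} (hK : IsCompact K) (h0 : μH[s] K = 0)
    {ε : ℝ} (hε : 0 < ε) : ∃ F, Good s ε K F := by
  classical
  obtain ⟨U, hU1, hU2, hU3⟩ := fin_cover K hK s hs h0 1 (ε / (2 * (3 ^ n * 2 ^ s))) one_pos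
    (by positivity)
  have hk : ∀ u : E n × ℝ, ∃ k : ℕ, u ∈ U → u.2 ≤ ((2 : ℝ) ^ k)⁻¹ ∧ ((2 : ℝ) ^ k)⁻¹ ≤ 2 * u.2 := by
    intro u
    by_cases hu : u ∈ U
    · obtain ⟨h1, h2⟩ := hU1 u hu
      obtain ⟨k, hk1, hk2⟩ := exists_nat_pow_near (one_le_inv_iff₀.2 ⟨h1, h2⟩) (one_lt_two (α := ℝ))
      refine ⟨k, fun _ => ⟨?_, ?_⟩⟩
      · rwa [le_inv_comm₀ h1 (by positivity)]
      · rw [inv_le_comm₀ (by positivity) (by positivity), mul_inv]
        rw [pow_succ] at hk2
        linarith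
    · exact ⟨0, fun h => absurd h hu⟩
  choose k hk using hk
  set g : (E n × ℝ) × (Fin n → Fin 3) → ℕ × (Fin n → ℤ) := fun z =>
    (k z.1, fun i => idx (k z.1) z.1.1 i + ((z.2 i : ℕ) : ℤ) - 1) with hg
  refine ⟨(U ×ˢ (Finset.univ : Finset (Fin n → Fin 3))).image g, ?_, ?_⟩
  · intro y hy
    obtain ⟨u, hu, hyu⟩ := hU2 y hy
    obtain ⟨h1, h2⟩ := hk u hu
    have hco : ∀ i, |y i - u.1 i| < ((2 : ℝ) ^ k u)⁻¹ := by
      intro i
      have h3 : ‖(y - u.1) i‖ ≤ ‖y - u.1‖ := PiLp.norm_apply_le _ _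
      rw [dist_eq_norm] at hyu
      have h4 : (y - u.1) i = y i - u.1 i := rfl
      rw [h4, Real.norm_eq_abs] at h3
      linarith
    have hdiff : ∀ i, idx (k u) u.1 i - 1 ≤ idx (k u) y i ∧ idx (k u) y i ≤ idx (k u) u.1 i + 1 := by
      intro i
      have h3 := hco i
      have h4 : |(2 : ℝ) ^ k u * y i - 2 ^ k u * u.1 i| < 1 := by
        rw [← mul_sub, abs_mul, abs_of_pos (by positivity)]
        calc (2 : ℝ) ^ k u * |y i - u.1 i| < 2 ^ k u * ((2 : ℝ) ^ k u)⁻¹ := by gcongr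
          _ = 1 := mul_inv_cancel₀ (by positivity)
      rw [abs_lt] at h4
      simp only [idx]
      constructor
      · rw [Int.le_floor]
        push_cast
        have := Int.floor_le ((2 : ℝ) ^ k u * u.1 i)
        linarith
      · rw [← Int.lt_add_one_iff, Int.floor_lt]
        push_cast
        have := Int.lt_floor_add_one ((2 : ℝ) ^ k u * u.1 i)
        linarith
    have hlt : ∀ i, (idx (k u) y i - idx (k u) u.1 i + 1).toNat < 3 := by
      intro i
      have := hdiff i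
      omega
    refine mem_iUnion₂.2 ⟨g (u, fun i => ⟨_, hlt i⟩), ?_, ?_⟩
    · exact Finset.mem_image_of_mem _ (Finset.mem_product.2 ⟨hu, Finset.mem_univ _⟩)
    · show idx (k u) y = fun i => idx (k u) u.1 i + (((idx (k u) y i - idx (k u) u.1 i + 1).toNat : ℕ) : ℤ) - 1
      funext i
      have := hdiff i
      omega
  · refine lt_of_le_of_lt (sum_image_le_aux _ g (wt s) fun z _ => (wt_pos s _).le) ?_
    rw [Finset.sum_product]
    have h1 : ∀ u ∈ U, ∑ δ : Fin n → Fin 3, wt s (g (u, δ)) ≤ 3 ^ n * 2 ^ s * u.2 ^ s := by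
      intro u hu
      obtain ⟨h1, h2⟩ := hk u hu
      have h3 : ∀ δ : Fin n → Fin 3, wt s (g (u, δ)) ≤ 2 ^ s * u.2 ^ s := by
        intro δ
        rw [← Real.mul_rpow (by norm_num) (hU1 u hu).1.le]
        simp only [wt, hg]
        have h5 : (2 : ℝ) ^ (-(s * (k u : ℝ))) = (((2 : ℝ) ^ k u)⁻¹) ^ s := by
          rw [← Real.rpow_natCast, ← Real.rpow_neg (by norm_num), ← Real.rpow_mul (by norm_num)]
          congr 1
          ring
        rw [h5]
        exact Real.rpow_le_rpow (by positivity) h2 hs.le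
      calc _ ≤ ∑ δ : Fin n → Fin 3, (2 : ℝ) ^ s * u.2 ^ s := Finset.sum_le_sum fun δ _ => h3 δ
        _ = _ := by
          rw [Finset.sum_const, Finset.card_univ]
          simp
          ring
    refine lt_of_le_of_lt (Finset.sum_le_sum h1) ?_
    rw [← Finset.mul_sum]
    calc 3 ^ n * 2 ^ s * ∑ u ∈ U, u.2 ^ s ≤ 3 ^ n * 2 ^ s * (ε / (2 * (3 ^ n * 2 ^ s))) := by gcongr
      _ = ε / 2 := by field_simp
      _ < ε := by linarith

/-- **The amplitudes.** -/
theorem exists_amp {ι : Type*} (F : Finset ι) (lev : ι → ℕ) (r : ι → ι → Prop)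
    (hr : ∀ a ∈ F, ∀ b ∈ F, r a b → lev a < lev b) (Λ : ℝ) [DecidableRel r] :
    ∃ A : ι → ℝ, ∀ b ∈ F, A b = 1 + Λ * ∑ a ∈ F with r a b, A a := by
  let f : ℕ → ι → ℝ := fun j => Nat.rec (fun _ => 1) (fun _ g b => 1 + Λ * ∑ a ∈ F with r a b, g a) j
  have hf : ∀ j b, f (j + 1) b = 1 + Λ * ∑ a ∈ F with r a b, f j a := fun j b => rfl
  have key : ∀ j, ∀ b ∈ F, lev b < j → f (j + 1) b = f j b := by
    intro j
    induction j with
    | zero => intro b _ h; omega
    | succ j ih =>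
      intro b hb hlt
      rw [hf (j + 1), hf j]
      congr 2
      apply Finset.sum_congr rfl
      intro a ha
      rw [Finset.mem_filter] at ha
      have := hr a ha.1 b hb ha.2
      exact ih a ha.1 (by omega)
  refine ⟨f (F.sup lev + 1), fun b hb => ?_⟩
  have h1 : lev b < F.sup lev + 1 := Nat.lt_succ_of_le (Finset.le_sup hb)
  rw [← hf (F.sup lev + 1) b, key _ b hb h1]

/-- nonnegativity and the `p`-sum of the amplitudes -/
theorem amp_sum {ι : Type*} (F : Finset ι) (lev : ι → ℕ) (r : ι → ι → Prop)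
    (hr : ∀ a ∈ F, ∀ b ∈ F, r a b → lev a < lev b) {Λ : ℝ} (hΛ : 0 ≤ Λ) [DecidableRel r]
    {p : ℝ} (hp : 0 < p) (hp1 : p ≤ 1) (w : ι → ℝ) (hw : ∀ a, 0 ≤ w a) (θ : ℝ)
    (hθ : ∀ a ∈ F, ∑ b ∈ F with r a b, w b ≤ θ * w a) (hΛθ : Λ ^ p * θ ≤ 1 / 2) :
    ∃ A : ι → ℝ, (∀ b ∈ F, A b = 1 + Λ * ∑ a ∈ F with r a b, A a) ∧ (∀ b ∈ F, 0 ≤ A b) ∧
      ∑ b ∈ F, A b ^ p * w b ≤ 2 * ∑ b ∈ F, w b := by
  obtain ⟨A, hA⟩ := exists_amp F lev r hr Λ
  have hA0 : ∀ b ∈ F, 0 ≤ A b := by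
    have : ∀ j, ∀ b ∈ F, lev b < j → 0 ≤ A b := by
      intro j
      induction j with
      | zero => intro b _ h; omega
      | succ j ih =>
        intro b hb hlt
        rw [hA b hb]
        have : 0 ≤ ∑ a ∈ F with r a b, A a := by
          apply Finset.sum_nonneg
          intro a ha
          rw [Finset.mem_filter] at ha
          have := hr a ha.1 b hb ha.2
          exact ih a ha.1 (by omega)
        positivity
    intro b hb
    exact this (lev b + 1) b hb (Nat.lt_succ_self _)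
  refine ⟨A, hA, hA0, ?_⟩
  have hsub : ∀ (s : Finset ι), (∀ a ∈ s, 0 ≤ A a) → (∑ a ∈ s, A a) ^ p ≤ ∑ a ∈ s, A a ^ p := by
    intro s
    classical
    induction s using Finset.induction_on with
    | empty => intro _; simp [Real.zero_rpow hp.ne']
    | insert a s ha ih =>
      intro hs
      rw [Finset.sum_insert ha, Finset.sum_insert ha]
      have h1 := ih fun b hb => hs b (Finset.mem_insert_of_mem hb)
      have h2 := hs a (Finset.mem_insert_self _ _)
      have h3 : 0 ≤ ∑ b ∈ s, A b := Finset.sum_nonneg fun b hb => hs b (Finset.mem_insert_of_mem hb)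
      have h4 := Real.rpow_add_le_add_rpow h2 h3 hp.le hp1
      linarith
  have hApb : ∀ b ∈ F, A b ^ p ≤ 1 + Λ ^ p * ∑ a ∈ F with r a b, A a ^ p := by
    intro b hb
    have h0 : 0 ≤ ∑ a ∈ F with r a b, A a :=
      Finset.sum_nonneg fun a ha => hA0 a (Finset.mem_filter.1 ha).1
    rw [hA b hb]
    have h1 := Real.rpow_add_le_add_rpow zero_le_one (mul_nonneg hΛ h0) hp.le hp1
    rw [Real.one_rpow, Real.mul_rpow hΛ h0] at h1
    refine h1.trans ?_
    have h2 := hsub (F.filter fun a => r a b) fun a ha => hA0 a (Finset.mem_filter.1 ha).1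
    have h3 : 0 ≤ Λ ^ p := Real.rpow_nonneg hΛ p
    nlinarith
  have hsum : ∑ b ∈ F, A b ^ p * w b ≤ ∑ b ∈ F, w b +
      Λ ^ p * ∑ b ∈ F, (∑ a ∈ F with r a b, A a ^ p) * w b := by
    rw [Finset.mul_sum, ← Finset.sum_add_distrib]
    apply Finset.sum_le_sum
    intro b hb
    have := mul_le_mul_of_nonneg_right (hApb b hb) (hw b)
    linarith
  have hswap : ∑ b ∈ F, (∑ a ∈ F with r a b, A a ^ p) * w b =
      ∑ a ∈ F, A a ^ p * ∑ b ∈ F with r a b, w b := by
    simp_rw [Finset.sum_filter, Finset.sum_mul, Finset.mul_sum]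
    rw [Finset.sum_comm]
    apply Finset.sum_congr rfl
    intro a _
    apply Finset.sum_congr rfl
    intro b _
    split_ifs <;> simp
  have hbd : ∑ a ∈ F, A a ^ p * ∑ b ∈ F with r a b, w b ≤ θ * ∑ a ∈ F, A a ^ p * w a := by
    rw [Finset.mul_sum]
    apply Finset.sum_le_sum
    intro a ha
    have h1 := mul_le_mul_of_nonneg_left (hθ a ha) (Real.rpow_nonneg (hA0 a ha) p)
    linarith
  rw [hswap] at hsum
  have h3 : 0 ≤ Λ ^ p := Real.rpow_nonneg hΛ p
  have h4 : 0 ≤ ∑ b ∈ F, A b ^ p * w b :=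
    Finset.sum_nonneg fun b hb => mul_nonneg (Real.rpow_nonneg (hA0 b hb) p) (hw b)
  have h5 : Λ ^ p * ∑ a ∈ F, A a ^ p * ∑ b ∈ F with r a b, w b ≤
      Λ ^ p * (θ * ∑ a ∈ F, A a ^ p * w a) := mul_le_mul_of_nonneg_left hbd h3
  nlinarith

end Pool.Agent.U556.BC
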