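import Pool.Agent.U556.BC7

set_option autoImplicit false

/-! Besov capacities, part 8: the quasi-norm inequalities and the capacities. -/

namespace Pool.Agent.U556.BC

open MeasureTheory FourierTransform SchwartzMap Set
open scoped ENNReal NNReal ContDiff RealInnerProductSpace

variable {n : ℕ}

theorem IsCutoff.smooth_lp {φ : E n → ℝ} (h : IsCutoff φ) (j : ℕ) : ContDiff ℝ ∞ (lp φ j) := by
  unfold lp
  by_cases hj : j = 0
  · simp only [hj, if_true]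
    exact h.smooth
  · simp only [hj, if_false]
    exact (h.smooth.comp (contDiff_const_smul _)).sub (h.smooth.comp (contDiff_const_smul _))

theorem IsCutoff.lp_zero_of {φ : E n → ℝ} (h : IsCutoff φ) (j : ℕ) (ξ : E n)
    (hξ : (2 : ℝ) ^ (j + 1) ≤ ‖ξ‖) : lp φ j ξ = 0 := by
  unfold lp
  have h1 : ∀ i ≤ j, φ ((1 / 2 : ℝ) ^ i • ξ) = 0 := by
    intro i hi
    apply h.zero
    rw [norm_smul, Real.norm_eq_abs, abs_of_pos (by positivity)]
    have h2 : (2 : ℝ) ^ (i + 1) ≤ ‖ξ‖ :=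
      (pow_le_pow_right₀ (by norm_num) (by omega)).trans hξ
    calc (2 : ℝ) = (1 / 2) ^ i * 2 ^ (i + 1) := by
          rw [pow_succ, ← mul_assoc, ← mul_pow]
          norm_num
      _ ≤ _ := by gcongr
  by_cases hj : j = 0
  · subst hj
    have := h1 0 le_rfl
    simpa using this
  · simp only [hj, if_false]
    rw [h1 j le_rfl, h1 (j - 1) (by omega), sub_zero]

theorem lp_prod {φ : E n → ℝ} (h : IsCutoff φ) (j : ℕ) (F : 𝓢(E n, ℂ)) :
    ∃ G : 𝓢(E n, ℂ), ∀ ξ, G ξ = (lp φ j ξ : ℂ) * F ξ := by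
  have h0 : HasCompactSupport (fun ξ => (lp φ j ξ : ℂ) * F ξ) := by
    refine HasCompactSupport.intro (isCompact_closedBall (0 : E n) (2 ^ (j + 1))) fun ξ hξ => ?_
    rw [mem_closedBall_zero_iff, not_le] at hξ
    rw [h.lp_zero_of j ξ hξ.le]
    simp
  have h2 : ContDiff ℝ ∞ (fun ξ => (lp φ j ξ : ℂ) * F ξ) :=
    (Complex.ofRealCLM.contDiff.comp (h.smooth_lp j)).mul (F.smooth ⊤)
  exact ⟨h0.toSchwartzMap h2, fun ξ => rfl⟩

theorem piece_eq {φ : E n → ℝ} (j : ℕ) (u G : 𝓢(E n, ℂ))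
    (hG : ∀ ξ, G ξ = (lp φ j ξ : ℂ) * (𝓕 u : 𝓢(E n, ℂ)) ξ) :
    piece φ j u = (𝓕⁻ G : 𝓢(E n, ℂ)) := by
  rw [piece, fourierInv_coe]
  congr 1
  funext ξ
  rw [hG, fourier_coe]

theorem piece_add {φ : E n → ℝ} (h : IsCutoff φ) (j : ℕ) (u v : 𝓢(E n, ℂ)) (x : E n) :
    piece φ j (u + v : 𝓢(E n, ℂ)) x = piece φ j u x + piece φ j v x := by
  obtain ⟨G, hG⟩ := lp_prod h j (𝓕 u)
  obtain ⟨H, hH⟩ := lp_prod h j (𝓕 v)
  rw [piece_eq j u G hG, piece_eq j v H hH, piece_eq j (u + v) (G + H) (fun ξ => by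
    rw [FourierTransform.fourier_add, add_apply, add_apply, hG, hH, mul_add])]
  rw [FourierTransform.fourierInv_add, add_apply]

theorem piece_smul {φ : E n → ℝ} (h : IsCutoff φ) (j : ℕ) (c : ℝ) (u : 𝓢(E n, ℂ)) (x : E n) :
    piece φ j (c • u : 𝓢(E n, ℂ)) x = c • piece φ j u x := by
  obtain ⟨G, hG⟩ := lp_prod h j (𝓕 u)
  rw [piece_eq j u G hG, piece_eq j (c • u) (c • G) (fun ξ => by
    rw [FourierTransform.fourier_smul, smul_apply, smul_apply, hG, mul_smul_comm])]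
  rw [FourierTransform.fourierInv_smul, smul_apply]

theorem continuous_piece {φ : E n → ℝ} (h : IsCutoff φ) (j : ℕ) (u : 𝓢(E n, ℂ)) :
    Continuous (piece φ j u) := by
  obtain ⟨G, hG⟩ := lp_prod h j (𝓕 u)
  rw [piece_eq j u G hG]
  exact SchwartzMap.continuous _

theorem besov_add_le {φ : E n → ℝ} (h : IsCutoff φ) {α p : ℝ} (hp : 0 < p) (hp1 : p ≤ 1)
    (u v : 𝓢(E n, ℂ)) : besov φ α p (u + v : 𝓢(E n, ℂ)) ≤ besov φ α p u + besov φ α p v := by
  unfold besov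
  rw [← ENNReal.tsum_add]
  refine ENNReal.tsum_le_tsum fun j => ?_
  rw [← mul_add]
  gcongr
  have hm1 := (continuous_piece h j u).measurable
  have hm2 := (continuous_piece h j v).measurable
  rw [← lintegral_add_left (by fun_prop)]
  refine lintegral_mono fun x => ?_
  rw [piece_add h]
  calc ‖piece φ j u x + piece φ j v x‖ₑ ^ p ≤ (‖piece φ j u x‖ₑ + ‖piece φ j v x‖ₑ) ^ p := by
        gcongr
        exact enorm_add_le _ _
    _ ≤ _ := ENNReal.rpow_add_le_add_rpow _ _ hp.le hp1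

theorem besov_smul {φ : E n → ℝ} (h : IsCutoff φ) {α p : ℝ} (hp : 0 < p) {c : ℝ} (hc : 0 ≤ c)
    (u : 𝓢(E n, ℂ)) :
    besov φ α p (c • u : 𝓢(E n, ℂ)) = ENNReal.ofReal (c ^ p) * besov φ α p u := by
  unfold besov
  rw [← ENNReal.tsum_mul_left]
  congr 1
  funext j
  have hm1 := (continuous_piece h j u).measurable
  have h1 : ∀ x, ‖piece φ j (c • u : 𝓢(E n, ℂ)) x‖ₑ ^ p =
      ENNReal.ofReal (c ^ p) * ‖piece φ j u x‖ₑ ^ p := by
    intro x
    rw [piece_smul h, enorm_smul, ENNReal.mul_rpow_of_nonneg _ _ hp.le,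
      Real.enorm_eq_ofReal hc, ENNReal.ofReal_rpow_of_nonneg hc hp.le]
  simp_rw [h1]
  rw [lintegral_const_mul _ (by fun_prop)]
  ring

theorem besov_zero {φ : E n → ℝ} (h : IsCutoff φ) {α p : ℝ} (hp : 0 < p) :
    besov φ α p (0 : 𝓢(E n, ℂ)) = 0 := by
  have h1 := besov_smul h (α := α) hp le_rfl (0 : 𝓢(E n, ℂ))
  rw [smul_zero, Real.zero_rpow hp.ne'] at h1
  simpa using h1

theorem besov_sum_le {φ : E n → ℝ} (h : IsCutoff φ) {α p : ℝ} (hp : 0 < p) (hp1 : p ≤ 1)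
    {ι : Type*} (F : Finset ι) (c : ι → ℝ) (hc : ∀ i ∈ F, 0 ≤ c i) (u : ι → 𝓢(E n, ℂ)) :
    besov φ α p (∑ i ∈ F, c i • u i : 𝓢(E n, ℂ)) ≤
      ∑ i ∈ F, ENNReal.ofReal (c i ^ p) * besov φ α p (u i) := by
  classical
  induction F using Finset.induction_on with
  | empty =>
    rw [Finset.sum_empty, Finset.sum_empty, besov_zero h hp]
  | insert a s ha ih =>
    rw [Finset.sum_insert ha, Finset.sum_insert ha]
    refine (besov_add_le h hp hp1 _ _).trans ?_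
    rw [besov_smul h hp (hc a (Finset.mem_insert_self _ _))]
    gcongr
    exact ih fun i hi => hc i (Finset.mem_insert_of_mem hi)

theorem tsum_rpow_le {q : ℝ} (hq : 0 < q) (hq1 : q ≤ 1) (f : ℕ → ℝ≥0∞) :
    (∑' j, f j) ^ q ≤ ∑' j, f j ^ q := by
  have h1 : ∀ s : Finset ℕ, (∑ j ∈ s, f j) ^ q ≤ ∑ j ∈ s, f j ^ q := by
    intro s
    induction s using Finset.induction_on with
    | empty => simp [hq]
    | insert a s ha ih =>
      rw [Finset.sum_insert ha, Finset.sum_insert ha]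
      exact (ENNReal.rpow_add_le_add_rpow _ _ hq.le hq1).trans (add_le_add le_rfl ih)
  have h2 : Filter.Tendsto (fun s : Finset ℕ => (∑ j ∈ s, f j) ^ q) Filter.atTop
      (nhds ((∑' j, f j) ^ q)) :=
    (ENNReal.continuous_rpow_const.tendsto _).comp ENNReal.summable.hasSum
  exact le_of_tendsto' h2 fun s => (h1 s).trans (ENNReal.sum_le_tsum s)

theorem hardy_le_besov {φ : E n → ℝ} (h : IsCutoff φ) {α p : ℝ} (hp : 0 < p) (hp1 : p ≤ 1)
    (u : 𝓢(E n, ℂ)) : hardy φ α p u ≤ besov φ α p u := by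
  unfold hardy besov
  have hm : ∀ j, Measurable fun x => ‖piece φ j u x‖ₑ ^ p := fun j => by
    have := (continuous_piece h j u).measurable
    fun_prop
  have he : ∑' j : ℕ, (2 : ℝ≥0∞) ^ ((j : ℝ) * α * p) * ∫⁻ x, ‖piece φ j u x‖ₑ ^ p =
      ∑' j : ℕ, ∫⁻ x, (2 : ℝ≥0∞) ^ ((j : ℝ) * α * p) * ‖piece φ j u x‖ₑ ^ p :=
    tsum_congr fun j => (lintegral_const_mul _ (hm j)).symm
  rw [he, ← lintegral_tsum fun j => ((hm j).const_mul _).aemeasurable]
  refine lintegral_mono fun x => ?_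
  refine (tsum_rpow_le (by positivity) (by linarith) _).trans (le_of_eq ?_)
  congr 1
  funext j
  rw [← ENNReal.rpow_natCast, ← ENNReal.rpow_mul, Nat.cast_ofNat, mul_div_cancel₀ _ (by norm_num),
    ENNReal.mul_rpow_of_nonneg _ _ hp.le, ← ENNReal.rpow_mul]

/-- The capacity `A_{α,p,p}(K)` of a compact set `K`: the infimum of `‖u‖^p` in the Besov space,
over all real functions `u ≥ 1` on `K` of the class `D` of Schwartz functions. -/
noncomputable def capA (D : Set 𝓢(E n, ℂ)) (φ : E n → ℝ) (α p : ℝ) (K : Set (E n)) : ℝ≥0∞ :=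
  ⨅ (u : 𝓢(E n, ℂ)) (_ : u ∈ D) (_ : ∀ x, (u x).im = 0) (_ : ∀ x ∈ K, 1 ≤ (u x).re), besov φ α p u

/-- The capacity `B_{α,p}(K)` of a compact set `K`: the infimum of `‖u‖^p` in the space of Bessel
potentials of `H^p`, i.e. `F^α_{p,2}`, over all real functions `u ≥ 1` on `K` of the class `D` of
Schwartz functions. -/
noncomputable def capB (D : Set 𝓢(E n, ℂ)) (φ : E n → ℝ) (α p : ℝ) (K : Set (E n)) : ℝ≥0∞ :=
  ⨅ (u : 𝓢(E n, ℂ)) (_ : u ∈ D) (_ : ∀ x, (u x).im = 0) (_ : ∀ x ∈ K, 1 ≤ (u x).re), hardy φ α p u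

theorem capB_le_capA {φ : E n → ℝ} (h : IsCutoff φ) {α p : ℝ} (hp : 0 < p) (hp1 : p ≤ 1)
    (D : Set 𝓢(E n, ℂ)) (K : Set (E n)) : capB D φ α p K ≤ capA D φ α p K :=
  iInf_mono fun u => iInf_mono fun _ => iInf_mono fun _ => iInf_mono fun _ =>
    hardy_le_besov h hp hp1 u

theorem capA_le {D : Set 𝓢(E n, ℂ)} {φ : E n → ℝ} {α p : ℝ} {K : Set (E n)} (u : 𝓢(E n, ℂ))
    (h0 : u ∈ D) (h1 : ∀ x, (u x).im = 0) (h2 : ∀ x ∈ K, 1 ≤ (u x).re) :
    capA D φ α p K ≤ besov φ α p u :=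
  (iInf_le _ u).trans ((iInf_le _ h0).trans ((iInf_le _ h1).trans (iInf_le _ h2)))

end Pool.Agent.U556.BC
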