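import Pool.Agent.U556.BC8

set_option autoImplicit false

/-! Besov capacities, part 9: sets of vanishing Hausdorff measure have vanishing capacity. -/

namespace Pool.Agent.U556.BC

open MeasureTheory FourierTransform SchwartzMap Set
open scoped ENNReal NNReal ContDiff RealInnerProductSpace

variable {n : ℕ}

/-- composition of a Schwartz function with a similarity -/
theorem exists_comp (a : 𝓢(E n, ℂ)) (lam : ℝ) (hlam : lam ≠ 0) (x₀ : E n) :
    ∃ v : 𝓢(E n, ℂ), ∀ x, v x = a (lam • (x - x₀)) := by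
  let e : E n ≃L[ℝ] E n := ContinuousLinearEquiv.smulLeft (Units.mk0 lam hlam)
  exact ⟨SchwartzMap.compSubConstCLM ℝ x₀ (SchwartzMap.compCLMOfContinuousLinearEquiv ℝ e a),
    fun x => rfl⟩

theorem norm_le_of_coord {x : E n} {r : ℝ} (hr : 0 ≤ r) (h : ∀ i, |x i| ≤ r) : ‖x‖ ≤ √n * r := by
  rw [EuclideanSpace.norm_eq]
  calc √(∑ i, ‖x i‖ ^ 2) ≤ √(∑ _i : Fin n, r ^ 2) := by
        apply Real.sqrt_le_sqrt
        apply Finset.sum_le_sum
        intro i _
        rw [Real.norm_eq_abs]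
        exact pow_le_pow_left₀ (abs_nonneg _) (h i) 2
    _ = √n * r := by
        rw [Finset.sum_const, Finset.card_univ, Fintype.card_fin, nsmul_eq_mul,
          Real.sqrt_mul (Nat.cast_nonneg n), Real.sqrt_sq hr]

theorem coord_lt {Q : ℕ × (Fin n → ℤ)} {x y : E n} (hx : x ∈ cube Q) (hy : y ∈ cube Q) (i : Fin n) :
    (2 : ℝ) ^ Q.1 * |x i - y i| < 1 := by
  have h1 : ⌊(2 : ℝ) ^ Q.1 * x i⌋ = ⌊(2 : ℝ) ^ Q.1 * y i⌋ := by
    have h2 := congrFun (show idx Q.1 x = Q.2 from hx) i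
    have h3 := congrFun (show idx Q.1 y = Q.2 from hy) i
    simp only [idx] at h2 h3
    rw [h2, h3]
  have h4 := Int.abs_sub_lt_one_of_floor_eq_floor h1
  rwa [← mul_sub, abs_mul, abs_of_pos (by positivity : (0 : ℝ) < 2 ^ Q.1)] at h4

/-- the centre of a cube -/
noncomputable def ctr (Q : ℕ × (Fin n → ℤ)) : E n :=
  WithLp.toLp 2 fun i => ((Q.2 i : ℝ) + 1 / 2) / 2 ^ Q.1

theorem norm_ctr {Q : ℕ × (Fin n → ℤ)} {x : E n} (hx : x ∉ cube Q) :
    1 / 2 ≤ (2 : ℝ) ^ Q.1 * ‖x - ctr Q‖ := by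
  have h1 : ∃ i, ⌊(2 : ℝ) ^ Q.1 * x i⌋ ≠ Q.2 i := by
    by_contra hno
    push Not at hno
    exact hx (funext hno)
  obtain ⟨i, hi⟩ := h1
  have h0 : (0 : ℝ) < 2 ^ Q.1 := by positivity
  have h2 : 1 / 2 ≤ |(2 : ℝ) ^ Q.1 * x i - (Q.2 i + 1 / 2)| := by
    by_contra hlt
    rw [not_le, abs_lt] at hlt
    apply hi
    rw [Int.floor_eq_iff]
    constructor <;> linarith
  have h3 : ‖(x - ctr Q) i‖ ≤ ‖x - ctr Q‖ := PiLp.norm_apply_le _ _
  have h4 : (x - ctr Q) i = x i - ((Q.2 i : ℝ) + 1 / 2) / 2 ^ Q.1 := rfl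
  rw [h4, Real.norm_eq_abs] at h3
  have h5 : (2 : ℝ) ^ Q.1 * |x i - ((Q.2 i : ℝ) + 1 / 2) / 2 ^ Q.1| =
      |(2 : ℝ) ^ Q.1 * x i - (Q.2 i + 1 / 2)| := by
    rw [← abs_of_pos h0, ← abs_mul, abs_of_pos h0, mul_sub, mul_div_cancel₀ _ h0.ne']
  calc 1 / 2 ≤ _ := h2
    _ = _ := h5.symm
    _ ≤ _ := by gcongr

theorem nested {Q Q' : ℕ × (Fin n → ℤ)} {x : E n} (hx : x ∈ cube Q) (hx' : x ∈ cube Q') :
    cube Q ⊆ cube Q' ∨ cube Q' ⊆ cube Q := by
  rcases le_total Q.1 Q'.1 with h | h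
  · exact Or.inr (cube_subset h hx hx')
  · exact Or.inl (cube_subset h hx' hx)

theorem exists_N {D γ : ℝ} (hγ : 0 < γ) : ∃ N : ℕ, 1 ≤ N ∧ D * ((2 : ℝ) ^ (-γ)) ^ N ≤ 1 / 2 := by
  have h1 : (2 : ℝ) ^ (-γ) < 1 := Real.rpow_lt_one_of_one_lt_of_neg (by norm_num) (by linarith)
  have h0 : (0 : ℝ) < (2 : ℝ) ^ (-γ) := by positivity
  obtain ⟨N, hN⟩ := exists_pow_lt_of_lt_one (show (0 : ℝ) < 1 / (2 * (|D| + 1)) by positivity) h1
  refine ⟨N + 1, by omega, ?_⟩
  have h2 : ((2 : ℝ) ^ (-γ)) ^ (N + 1) ≤ 1 / (2 * (|D| + 1)) := by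
    rw [pow_succ]
    nlinarith [pow_pos h0 N]
  calc D * ((2 : ℝ) ^ (-γ)) ^ (N + 1) ≤ (|D| + 1) * ((2 : ℝ) ^ (-γ)) ^ (N + 1) := by
        gcongr
        linarith [le_abs_self D]
    _ ≤ (|D| + 1) * (1 / (2 * (|D| + 1))) := by gcongr
    _ = 1 / 2 := by field_simp

/-- the parameter of the blocks -/
noncomputable def bz (N : ℕ) (z : Fin n → ℤ) : E n :=
  WithLp.toLp 2 fun i => ((z i : ℝ) - 1 / 2) / 2 ^ N

theorem bz_norm {N : ℕ} (hN : 1 ≤ N) {z : Fin n → ℤ} (hz : ∀ i, |(z i : ℝ)| ≤ 2 ^ (N + 1)) :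
    ‖bz N z‖ ≤ 3 * √n := by
  rw [mul_comm]
  apply norm_le_of_coord (by norm_num)
  intro i
  show |((z i : ℝ) - 1 / 2) / 2 ^ N| ≤ 3
  have h0 : (0 : ℝ) < 2 ^ N := by positivity
  rw [abs_div, abs_of_pos h0, div_le_iff₀ h0]
  have h1 := abs_sub (z i : ℝ) (1 / 2)
  have h2 := hz i
  rw [pow_succ] at h2
  rw [abs_of_pos (by norm_num : (0 : ℝ) < 1 / 2)] at h1
  have h3 : (1 : ℝ) ≤ 2 ^ N := one_le_pow₀ (by norm_num)
  linarith

theorem ofReal_wt (s : ℝ) (Q : ℕ × (Fin n → ℤ)) :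
    (2 : ℝ≥0∞) ^ (-(Q.1 : ℝ) * s) = ENNReal.ofReal (wt s Q) := by
  rw [wt, ← ENNReal.ofReal_rpow_of_pos (by norm_num)]
  congr 1
  · simp
  · ring

open Classical in
/-- **Main construction.** -/
theorem capA_eq_zero {φ : E n → ℝ} (hφ : IsCutoff φ) {α p : ℝ} (hα : 0 < α) (hp : 0 < p)
    (hp1 : p < 1) (hαp : α * p < n) {K : Set (E n)} (hK : IsCompact K)
    (h0 : μH[n - α * p] K = 0) {D' : Set 𝓢(E n, ℂ)}
    (hD' : ∀ u : 𝓢(E n, ℂ), HasCompactSupport u → u ∈ D') : capA D' φ α p K = 0 := by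
  have hαp0 : 0 < α * p := by positivity
  have hn' : (0 : ℝ) < n := by linarith
  have hn : 0 < n := by exact_mod_cast hn'
  set s : ℝ := n - α * p with hs_def
  have hs : 0 < s := by linarith
  have hsn : s < n := by linarith
  -- the number of moments
  obtain ⟨L, hL1, hL2⟩ : ∃ L : ℕ, (L : ℝ) < n / p - n ∧ n / p - n ≤ L + 1 := by
    have ht : 0 < (n : ℝ) / p - n := by
      have : (n : ℝ) < n / p := by
        rw [lt_div_iff₀ hp]
        nlinarith
      linarith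
    have h1 : 0 < ⌈(n : ℝ) / p - n⌉₊ := Nat.ceil_pos.2 ht
    refine ⟨⌈(n : ℝ) / p - n⌉₊ - 1, ?_, ?_⟩
    · have := Nat.ceil_lt_add_one ht.le
      rw [Nat.cast_sub h1]
      push_cast
      linarith
    · rw [Nat.cast_sub h1]
      push_cast
      linarith [Nat.le_ceil ((n : ℝ) / p - n)]
  have hγ : 0 < n - p * (L + n) := by
    have : (L : ℝ) + n < n / p := by linarith
    rw [lt_div_iff₀ hp] at this
    linarith
  have hm : (n : ℝ) < α * p + n * p + ((L + 1 : ℕ) : ℝ) * p := by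
    have : (n : ℝ) / p ≤ L + 1 + n := by linarith
    rw [div_le_iff₀ hp] at this
    push_cast
    linarith
  obtain ⟨D, hD, hblock⟩ := exists_block n L
  obtain ⟨N, hN1, hN⟩ := exists_N (D := D ^ p) hγ
  set η : ℝ := ((2 : ℝ) ^ N)⁻¹ with hη
  have hη0 : 0 < η := by positivity
  have hη1 : η ≤ 1 := inv_le_one_of_one_le₀ (one_le_pow₀ (by norm_num))
  set Λ : ℝ := D * (η⁻¹) ^ (L + n) with hΛ
  have hΛ0 : 0 < Λ := by positivity
  have hΛθ : Λ ^ p * (2 : ℝ) ^ (-((n : ℝ) * N)) ≤ 1 / 2 := by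
    refine le_trans (le_of_eq ?_) hN
    rw [hΛ, hη, inv_inv, Real.mul_rpow hD.le (by positivity), mul_assoc]
    congr 1
    rw [← Real.rpow_natCast, ← Real.rpow_natCast, ← Real.rpow_natCast, ← Real.rpow_mul (by norm_num),
      ← Real.rpow_mul (by norm_num), ← Real.rpow_mul (by norm_num), ← Real.rpow_add (by norm_num)]
    congr 1
    push_cast
    ring
  -- the blocks
  have hz : ∀ z : Fin n → ℤ, ∃ (a : 𝓢(E n, ℂ)) (C : ℝ≥0∞), C ≠ ⊤ ∧ (‖bz N z‖ ≤ 3 * √n →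
      (∃ R : ℝ, ∀ y, R ≤ ‖y‖ → a y = 0) ∧
      (∀ y, (a y).im = 0) ∧ (∀ y, ‖y - bz N z‖ ≤ √n → η / 4 ≤ ‖y‖ → 1 ≤ (a y).re) ∧
      (∀ y, η / 4 ≤ ‖y‖ → 0 ≤ (a y).re) ∧ (∀ y, -Λ ≤ (a y).re) ∧
      ∀ (k : ℕ) (x₀ : E n) (v : E n → ℂ), (∀ x, v x = a ((2 : ℝ) ^ k • (x - x₀))) →
        besov φ α p v ≤ C * (2 : ℝ≥0∞) ^ (-(k : ℝ) * (n - α * p))) := by
    intro z
    by_cases hb : ‖bz N z‖ ≤ 3 * √n
    · obtain ⟨a, ha0, ha1, ha2, ha3, ha4, ha5⟩ := hblock η hη0 hη1 (bz N z) hb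
      obtain ⟨C, hC, hC2⟩ := block_bound hφ hp a (L + 1) ha5 hm
      exact ⟨a, C, hC, fun _ => ⟨ha0, ha1, ha2, ha3, ha4, hC2⟩⟩
    · exact ⟨0, 0, ENNReal.zero_ne_top, fun h => absurd h hb⟩
  choose a C hC ha using hz
  set Z : Finset (Fin n → ℤ) := Fintype.piFinset fun _ => Finset.Icc (-2 ^ (N + 1)) (2 ^ (N + 1))
    with hZ
  set Cs : ℝ≥0∞ := ∑ z ∈ Z, C z with hCs
  have hCs_top : Cs ≠ ⊤ := ENNReal.sum_ne_top.2 fun z _ => hC z
  have key : ∀ ε : ℝ, 0 < ε → ε ≤ 1 → capA D' φ α p K ≤ Cs * ENNReal.ofReal (2 * ε) := by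
    intro ε hε hε1
    obtain ⟨F, hF, hanti, hpack⟩ := exists_minimal hs (exists_good hs hK h0 hε)
    have hpack' : ∀ R : ℕ × (Fin n → ℤ), ∑ Q ∈ F with cube Q ⊆ cube R, wt s Q ≤ wt s R :=
      fun R => hpack R fun Q _ h => level_le_of_subset hn h
    have hlev : ∀ Q ∈ F, 1 ≤ Q.1 := by
      intro Q hQ
      by_contra hlt
      have hQ0 : Q.1 = 0 := by omega
      have h1 : wt s Q ≤ ∑ Q ∈ F, wt s Q :=
        Finset.single_le_sum (f := fun Q => wt s Q) (fun Q _ => (wt_pos s Q).le) hQ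
      have h2 : wt s Q = 1 := by
        rw [wt, hQ0]
        simp
      have := hF.sum
      linarith
    choose! mS hm1 hm2 hm3 using fun Q (hQ : Q ∈ F) => exists_dump hsn hanti hpack' N hQ (hlev Q hQ)
    obtain ⟨A, hA, hA0, hAsum⟩ := amp_sum F (fun Q => Q.1)
      (fun Q Q' => cube Q' ⊆ cube (Q.1 + N, mS Q)) (by
        intro Q _ Q' _ hsub
        have := level_le_of_subset hn hsub
        simp only at this ⊢
        omega) hΛ0.le hp hp1.le (wt s) (fun Q => (wt_pos s Q).le) _ hm3 hΛθ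
    -- the parameters
    set z : ℕ × (Fin n → ℤ) → Fin n → ℤ := fun Q i => 2 ^ N * Q.2 i - mS Q i with hz_def
    have hbz : ∀ Q : ℕ × (Fin n → ℤ),
        bz N (z Q) = (2 : ℝ) ^ Q.1 • (corner Q - ctr (Q.1 + N, mS Q)) := by
      intro Q
      ext i
      show ((z Q i : ℝ) - 1 / 2) / 2 ^ N =
        (2 : ℝ) ^ Q.1 * ((Q.2 i : ℝ) / 2 ^ Q.1 - ((mS Q i : ℝ) + 1 / 2) / 2 ^ (Q.1 + N))
      simp only [hz_def]
      push_cast
      rw [pow_add]
      field_simp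
      ring
    have hzZ : ∀ Q ∈ F, ∀ i, |(z Q i : ℝ)| ≤ 2 ^ (N + 1) := by
      intro Q hQ i
      have h1 : corner Q ∈ cube (Q.1 - 1, idx (Q.1 - 1) (corner Q)) := rfl
      have h2 := hm1 Q hQ (corner_mem _)
      have h3 := coord_lt h1 h2 i
      simp only [corner] at h3
      have h4 : ((z Q i : ℤ) : ℝ) = 2 ^ (Q.1 + N) *
          ((Q.2 i : ℝ) / 2 ^ Q.1 - (mS Q i : ℝ) / 2 ^ (Q.1 + N)) := by
        simp only [hz_def]
        push_cast
        rw [pow_add]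
        field_simp
      have h5 : (2 : ℝ) ^ (Q.1 + N) = 2 ^ (N + 1) * 2 ^ (Q.1 - 1) := by
        rw [← pow_add]
        congr 1
        have := hlev Q hQ
        omega
      rw [h4, abs_mul, abs_of_pos (by positivity)]
      rw [h5, mul_assoc]
      have h6 : (0 : ℝ) < 2 ^ (N + 1) := by positivity
      rw [← h5]
      nlinarith
    have hzn : ∀ Q ∈ F, ‖bz N (z Q)‖ ≤ 3 * √n := fun Q hQ => bz_norm hN1 (hzZ Q hQ)
    have hzmem : ∀ Q ∈ F, z Q ∈ Z := by
      intro Q hQ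
      rw [hZ, Fintype.mem_piFinset]
      intro i
      rw [Finset.mem_Icc, ← abs_le]
      have := hzZ Q hQ i
      exact_mod_cast this
    choose v hv using fun Q : ℕ × (Fin n → ℤ) =>
      exists_comp (a (z Q)) ((2 : ℝ) ^ Q.1) (by positivity) (ctr (Q.1 + N, mS Q))
    have hout : ∀ Q : ℕ × (Fin n → ℤ), ∀ x, x ∉ cube (Q.1 + N, mS Q) →
        η / 4 ≤ ‖(2 : ℝ) ^ Q.1 • (x - ctr (Q.1 + N, mS Q))‖ := by
      intro Q x hx
      have h1 := norm_ctr hx
      rw [norm_smul, Real.norm_eq_abs, abs_of_pos (by positivity), hη]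
      simp only [pow_add] at h1
      have h2 : (0 : ℝ) < 2 ^ N := by positivity
      rw [div_le_iff₀ (by norm_num), inv_le_iff_one_le_mul₀ h2]
      nlinarith
    set u : 𝓢(E n, ℂ) := ∑ Q ∈ F, A Q • v Q with hu
    have hux : ∀ x, u x = ∑ Q ∈ F, (A Q : ℝ) • v Q x := by
      intro x
      rw [hu, sum_apply]
      simp only [smul_apply]
    have him : ∀ x, (u x).im = 0 := by
      intro x
      rw [hux, Complex.im_sum]
      apply Finset.sum_eq_zero
      intro Q hQ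
      rw [Complex.smul_im, hv, (ha (z Q) (hzn Q hQ)).2.1, smul_zero]
    have hcs : HasCompactSupport u := by
      have hRQ : ∀ Q ∈ F, ∃ R : ℝ, 0 ≤ R ∧ ∀ x, R ≤ ‖x‖ → v Q x = 0 := by
        intro Q hQ
        obtain ⟨R, hR⟩ := (ha (z Q) (hzn Q hQ)).1
        refine ⟨|R| + ‖ctr (Q.1 + N, mS Q)‖, by positivity, fun x hx => ?_⟩
        rw [hv]
        apply hR
        rw [norm_smul, Real.norm_eq_abs, abs_of_pos (by positivity)]
        have h1 := norm_sub_norm_le x (ctr (Q.1 + N, mS Q))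
        have h2 : (1 : ℝ) ≤ 2 ^ Q.1 := one_le_pow₀ (by norm_num)
        have h3 : |R| ≤ ‖x - ctr (Q.1 + N, mS Q)‖ := by linarith
        calc R ≤ |R| := le_abs_self R
          _ ≤ 1 * ‖x - ctr (Q.1 + N, mS Q)‖ := by rw [one_mul]; exact h3
          _ ≤ _ := by gcongr
      choose! RQ hRQ0 hRQ using hRQ
      refine HasCompactSupport.intro (isCompact_closedBall (0 : E n) (∑ Q ∈ F, RQ Q)) fun x hx => ?_
      rw [mem_closedBall_zero_iff, not_le] at hx
      rw [hux]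
      apply Finset.sum_eq_zero
      intro Q hQ
      rw [hRQ Q hQ x ((Finset.single_le_sum (f := RQ) hRQ0 hQ).trans hx.le), smul_zero]
    have hre : ∀ x ∈ K, 1 ≤ (u x).re := by
      intro x hx
      obtain ⟨Q₀, hQ₀, hxQ₀⟩ := mem_iUnion₂.1 (hF.cover hx)
      rw [hux, Complex.re_sum]
      have h1 : ∀ Q ∈ F, (if Q = Q₀ then A Q else 0) -
          Λ * (if cube Q₀ ⊆ cube (Q.1 + N, mS Q) then A Q else 0) ≤ ((A Q : ℝ) • v Q x).re := by
        intro Q hQ
        obtain ⟨_, ha1, ha2, ha3, ha4, ha5⟩ := ha (z Q) (hzn Q hQ)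
        have hA0Q := hA0 Q hQ
        rw [Complex.smul_re, smul_eq_mul, hv]
        by_cases hxS : x ∈ cube (Q.1 + N, mS Q)
        · have hsub : cube Q₀ ⊆ cube (Q.1 + N, mS Q) := by
            rcases nested hxQ₀ hxS with h | h
            · exact h
            · exact absurd h (hm2 Q hQ Q₀ hQ₀)
          have hne : Q ≠ Q₀ := by
            rintro rfl
            have := level_le_of_subset hn hsub
            simp only at this
            omega
          rw [if_neg hne, if_pos hsub]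
          have := ha4 ((2 : ℝ) ^ Q.1 • (x - ctr (Q.1 + N, mS Q)))
          nlinarith
        · have hge := hout Q x hxS
          have h3 := ha3 _ hge
          have h4 : 0 ≤ Λ * (if cube Q₀ ⊆ cube (Q.1 + N, mS Q) then A Q else 0) := by
            apply mul_nonneg hΛ0.le
            split_ifs
            exacts [hA0Q, le_rfl]
          by_cases hQQ : Q = Q₀
          · rw [if_pos hQQ]
            have h5 : ‖(2 : ℝ) ^ Q.1 • (x - ctr (Q.1 + N, mS Q)) - bz N (z Q)‖ ≤ √n := by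
              rw [hbz, ← smul_sub, sub_sub_sub_cancel_right]
              have h6 : √(n : ℝ) = √n * 1 := (mul_one _).symm
              rw [h6]
              apply norm_le_of_coord zero_le_one
              intro i
              have h7 := coord_lt (show x ∈ cube Q by rw [hQQ]; exact hxQ₀) (corner_mem Q) i
              show |(2 : ℝ) ^ Q.1 * (x i - corner Q i)| ≤ 1
              rw [abs_mul, abs_of_pos (by positivity)]
              exact h7.le
            have h8 := ha2 _ h5 hge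
            nlinarith
          · rw [if_neg hQQ]
            have : 0 ≤ A Q * (a (z Q) ((2 : ℝ) ^ Q.1 • (x - ctr (Q.1 + N, mS Q)))).re :=
              mul_nonneg hA0Q h3
            linarith
      refine le_trans ?_ (Finset.sum_le_sum h1)
      rw [Finset.sum_sub_distrib, ← Finset.mul_sum, Finset.sum_ite_eq' F Q₀, if_pos hQ₀,
        ← Finset.sum_filter, hA Q₀ hQ₀]
      linarith
    refine (capA_le u (hD' u hcs) him hre).trans ((besov_sum_le hφ hp hp1.le F A hA0 v).trans ?_)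
    calc ∑ Q ∈ F, ENNReal.ofReal (A Q ^ p) * besov φ α p (v Q)
        ≤ ∑ Q ∈ F, Cs * ENNReal.ofReal (A Q ^ p * wt s Q) := by
          apply Finset.sum_le_sum
          intro Q hQ
          have h1 := (ha (z Q) (hzn Q hQ)).2.2.2.2.2 Q.1 _ (v Q) (hv Q)
          have h2 : C (z Q) ≤ Cs := Finset.single_le_sum (f := fun z => C z)
            (fun _ _ => zero_le) (hzmem Q hQ)
          rw [← hs_def, ofReal_wt] at h1
          rw [ENNReal.ofReal_mul (Real.rpow_nonneg (hA0 Q hQ) p)]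
          calc ENNReal.ofReal (A Q ^ p) * besov φ α p (v Q)
              ≤ ENNReal.ofReal (A Q ^ p) * (Cs * ENNReal.ofReal (wt s Q)) := by
                gcongr
                exact h1.trans (by gcongr)
            _ = _ := by ring
      _ = Cs * ENNReal.ofReal (∑ Q ∈ F, A Q ^ p * wt s Q) := by
          rw [← Finset.mul_sum, ENNReal.ofReal_sum_of_nonneg]
          intro Q hQ
          exact mul_nonneg (Real.rpow_nonneg (hA0 Q hQ) p) (wt_pos s Q).le
      _ ≤ Cs * ENNReal.ofReal (2 * ε) := by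
          gcongr
          exact hAsum.trans (by linarith [hF.sum])
  by_contra hne
  obtain ⟨δ, hδ1, hδ2⟩ : ∃ δ : ℝ, 0 < δ ∧ Cs * ENNReal.ofReal δ < capA D' φ α p K := by
    have h1 : Filter.Tendsto (fun δ : ℝ => Cs * ENNReal.ofReal δ) (nhdsWithin 0 (Ioi 0))
        (nhds (Cs * ENNReal.ofReal 0)) :=
      ENNReal.Tendsto.const_mul ((ENNReal.continuous_ofReal.tendsto 0).mono_left
        nhdsWithin_le_nhds) (Or.inr hCs_top)
    rw [ENNReal.ofReal_zero, mul_zero] at h1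
    have h2 := h1.eventually_lt_const (pos_iff_ne_zero.2 hne)
    obtain ⟨δ, h3, h4⟩ := (h2.and self_mem_nhdsWithin).exists
    exact ⟨δ, h4, h3⟩
  have h1 := key (min (δ / 2) 1) (by positivity) (min_le_right _ _)
  have h2 : Cs * ENNReal.ofReal (2 * min (δ / 2) 1) ≤ Cs * ENNReal.ofReal δ := by
    gcongr
    linarith [min_le_left (δ / 2) 1]
  exact absurd (h1.trans h2) (not_le.2 hδ2)

end Pool.Agent.U556.BC
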