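import Pool.Agent.U556.BC9

set_option autoImplicit false

/-! Besov capacities, second part, 1: the Hardy-Littlewood maximal function on `L^2`. -/

namespace Pool.Agent.U556.BC

open MeasureTheory Set Metric
open scoped ENNReal NNReal

variable {n : ℕ}

theorem vol_ball (n : ℕ) (x : E n) (ρ : ℝ) (hρ : 0 < ρ) :
    volume (ball x ρ) = ENNReal.ofReal (ρ ^ n) * volume (ball (0 : E n) 1) := by
  have := Measure.addHaar_ball_of_pos (volume : Measure (E n)) x hρ
  rwa [finrank_euclideanSpace_fin] at this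

theorem v1_ne_zero (n : ℕ) : volume (ball (0 : E n) 1) ≠ 0 :=
  (measure_ball_pos volume _ one_pos).ne'

theorem v1_ne_top (n : ℕ) : volume (ball (0 : E n) 1) ≠ ∞ := measure_ball_lt_top.ne

/-- weak type bound from the Vitali covering lemma -/
theorem weak_vitali (n : ℕ) (hn : 1 ≤ n) (F : E n → ℝ≥0∞)
    (hFi : ∫⁻ x, F x ≠ ∞) (t : ℝ≥0∞) (ht0 : t ≠ 0) (ht : t ≠ ∞) (A : Set (E n))
    (hA : ∀ x ∈ A, ∃ ρ : ℝ, 0 < ρ ∧ t * volume (ball x ρ) ≤ ∫⁻ y in ball x ρ, F y) :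
    volume A ≤ 4 ^ n * (∫⁻ x, F x) / t := by
  classical
  choose! ρ hρ0 hρ using hA
  set v := volume (ball (0 : E n) 1) with hv
  have hv0 : v ≠ 0 := v1_ne_zero n
  have hvt : v ≠ ∞ := v1_ne_top n
  have hR : ∀ x ∈ A, ρ x ≤ max 1 ((∫⁻ x, F x) / (t * v)).toReal := by
    intro x hx
    by_cases h1 : ρ x ≤ 1
    · exact h1.trans (le_max_left _ _)
    · rw [not_le] at h1
      refine le_trans ?_ (le_max_right _ _)
      have h2 : ENNReal.ofReal (ρ x) ≤ (∫⁻ x, F x) / (t * v) := by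
        rw [ENNReal.le_div_iff_mul_le (Or.inl (mul_ne_zero ht0 hv0))
          (Or.inl (ENNReal.mul_ne_top ht hvt))]
        have h3 : ENNReal.ofReal (ρ x) ≤ ENNReal.ofReal (ρ x ^ n) :=
          ENNReal.ofReal_le_ofReal (le_self_pow₀ h1.le (by omega))
        calc ENNReal.ofReal (ρ x) * (t * v) ≤ ENNReal.ofReal (ρ x ^ n) * (t * v) := by gcongr
          _ = t * volume (ball x (ρ x)) := by
              rw [vol_ball n x _ (hρ0 x hx)]; ring
          _ ≤ ∫⁻ y in ball x (ρ x), F y := hρ x hx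
          _ ≤ ∫⁻ y, F y := setLIntegral_le_lintegral _ _
      have h4 : (∫⁻ x, F x) / (t * v) ≠ ∞ :=
        ENNReal.div_ne_top hFi (mul_ne_zero ht0 hv0)
      exact (ENNReal.ofReal_le_iff_le_toReal h4).1 h2
  obtain ⟨u, huA, hud, hcov⟩ := Vitali.exists_disjoint_subfamily_covering_enlargement_ball A
    (fun x => x) ρ _ hR 4 (by norm_num)
  have huc : u.Countable := by
    refine hud.countable_of_isOpen (fun a _ => isOpen_ball) fun a ha => ?_
    exact ⟨a, mem_ball_self (hρ0 a (huA ha))⟩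
  have hsub : A ⊆ ⋃ b ∈ u, ball b (4 * ρ b) := by
    intro a ha
    obtain ⟨b, hb, hab⟩ := hcov a ha
    exact mem_biUnion hb (hab (mem_ball_self (hρ0 a ha)))
  have h5 : ∀ b ∈ u, volume (ball b (4 * ρ b)) ≤ 4 ^ n / t * ∫⁻ y in ball b (ρ b), F y := by
    intro b hb
    have hb0 := hρ0 b (huA hb)
    rw [vol_ball n b _ (by positivity), mul_pow, ENNReal.ofReal_mul (by positivity), mul_assoc,
      ← vol_ball n b _ hb0]
    have h6 : volume (ball b (ρ b)) ≤ t⁻¹ * ∫⁻ y in ball b (ρ b), F y := by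
      rw [← ENNReal.div_eq_inv_mul, ENNReal.le_div_iff_mul_le (Or.inl ht0) (Or.inl ht), mul_comm]
      exact hρ b (huA hb)
    have h7 : ENNReal.ofReal ((4 : ℝ) ^ n) = 4 ^ n := by
      rw [ENNReal.ofReal_pow (by norm_num)]
      norm_num
    rw [h7, div_eq_mul_inv, mul_assoc]
    gcongr
  calc volume A ≤ volume (⋃ b ∈ u, ball b (4 * ρ b)) := measure_mono hsub
    _ ≤ ∑' b : u, volume (ball (b : E n) (4 * ρ b)) := measure_biUnion_le _ huc _
    _ ≤ ∑' b : u, 4 ^ n / t * ∫⁻ y in ball (b : E n) (ρ b), F y :=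
        ENNReal.tsum_le_tsum fun b => h5 b b.2
    _ = 4 ^ n / t * ∑' b : u, ∫⁻ y in ball (b : E n) (ρ b), F y := ENNReal.tsum_mul_left
    _ = 4 ^ n / t * ∫⁻ y in ⋃ b ∈ u, ball b (ρ b), F y := by
        rw [lintegral_biUnion huc (fun b _ => measurableSet_ball) hud]
    _ ≤ 4 ^ n / t * ∫⁻ y, F y := by
        gcongr
        exact Measure.restrict_le_self
    _ = 4 ^ n * (∫⁻ x, F x) / t := by
        rw [div_eq_mul_inv, div_eq_mul_inv]; ring

/-- the centred Hardy-Littlewood maximal function -/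
noncomputable def hlm (f : E n → ℝ≥0∞) (x : E n) : ℝ≥0∞ :=
  ⨆ (ρ : ℝ) (_ : 0 < ρ), (∫⁻ y in ball x ρ, f y) / volume (ball x ρ)

theorem le_hlm (f : E n → ℝ≥0∞) (x : E n) (ρ : ℝ) (hρ : 0 < ρ) :
    ∫⁻ y in ball x ρ, f y ≤ volume (ball x ρ) * hlm f x := by
  have h1 : (∫⁻ y in ball x ρ, f y) / volume (ball x ρ) ≤ hlm f x :=
    le_iSup₂ (f := fun (ρ : ℝ) (_ : 0 < ρ) => (∫⁻ y in ball x ρ, f y) / volume (ball x ρ)) ρ hρ
  rwa [ENNReal.div_le_iff (measure_ball_pos volume _ hρ).ne' measure_ball_lt_top.ne, mul_comm] at h1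

theorem two_zpow_ne_zero (k : ℤ) : (2 : ℝ≥0∞) ^ k ≠ 0 := (ENNReal.zpow_pos (by norm_num) (by norm_num) k).ne'

theorem two_zpow_ne_top (k : ℤ) : (2 : ℝ≥0∞) ^ k ≠ ⊤ :=
  (ENNReal.zpow_lt_top (by norm_num) (by norm_num) k).ne

theorem sum_low (y : ℝ≥0∞) : ∑' k : ℤ, (if (2 : ℝ≥0∞) ^ k < y then (2 : ℝ≥0∞) ^ k else 0) ≤ 2 * y := by
  by_cases h0 : y = 0
  · subst h0
    simp
  by_cases ht : y = ⊤
  · subst ht
    simp
  obtain ⟨K, hK1, hK2⟩ := ENNReal.exists_mem_Ioc_zpow h0 ht (by norm_num : (1 : ℝ≥0∞) < 2) (by norm_num)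
  have hinj : Function.Injective (fun i : ℕ => K - (i : ℤ)) := fun a b h => by
    simp only at h
    omega
  have hsupp : Function.support (fun k : ℤ => if (2 : ℝ≥0∞) ^ k < y then (2 : ℝ≥0∞) ^ k else 0) ⊆
      Set.range (fun i : ℕ => K - (i : ℤ)) := by
    intro k hk
    rw [Function.mem_support] at hk
    by_cases hlt : (2 : ℝ≥0∞) ^ k < y
    · have h1 : (2 : ℝ≥0∞) ^ k < 2 ^ (K + 1) := lt_of_lt_of_le hlt hK2
      have h2 : k < K + 1 := by
        by_contra hge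
        rw [not_lt] at hge
        exact absurd h1 (not_lt.2 (ENNReal.zpow_le_of_le (by norm_num) hge))
      refine ⟨(K - k).toNat, ?_⟩
      simp only
      omega
    · rw [if_neg hlt] at hk
      exact absurd rfl hk
  rw [← hinj.tsum_eq hsupp]
  calc ∑' i : ℕ, (if (2 : ℝ≥0∞) ^ (K - (i : ℤ)) < y then (2 : ℝ≥0∞) ^ (K - (i : ℤ)) else 0)
      ≤ ∑' i : ℕ, (2 : ℝ≥0∞) ^ K * (2⁻¹) ^ i := by
        refine ENNReal.tsum_le_tsum fun i => ?_
        split_ifs
        · rw [ENNReal.zpow_sub (by norm_num) (by norm_num), zpow_natCast, ENNReal.inv_pow]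
        · exact zero_le
    _ = (2 : ℝ≥0∞) ^ K * 2 := by
        rw [ENNReal.tsum_mul_left, ENNReal.tsum_geometric_two]
    _ ≤ y * 2 := by gcongr
    _ = 2 * y := mul_comm _ _

theorem sq_le_sum (y : ℝ≥0∞) :
    y ^ 2 ≤ ∑' k : ℤ, (if 2 * (2 : ℝ≥0∞) ^ k < y then 16 * ((2 : ℝ≥0∞) ^ k) ^ 2 else 0) := by
  by_cases h0 : y = 0
  · subst h0
    simp
  by_cases ht : y = ⊤
  · subst ht
    have : (∑' k : ℤ, (if 2 * (2 : ℝ≥0∞) ^ k < ⊤ then 16 * ((2 : ℝ≥0∞) ^ k) ^ 2 else 0)) = ⊤ := by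
      refine ENNReal.eq_top_of_forall_nnreal_le fun r => ?_
      obtain ⟨k, hk⟩ := exists_nat_ge r
      refine le_trans ?_ (ENNReal.le_tsum (k : ℤ))
      rw [if_pos (ENNReal.mul_lt_top (by norm_num) (two_zpow_ne_top _).lt_top), zpow_natCast]
      have h1 : (k : ℝ≥0∞) ≤ 2 ^ k := by
        exact_mod_cast (Nat.lt_two_pow_self).le
      have h2 : (1 : ℝ≥0∞) ≤ 2 ^ k := one_le_pow₀ (by norm_num)
      calc (r : ℝ≥0∞) ≤ k := by exact_mod_cast hk
        _ ≤ 1 * (2 ^ k * 1) := by rw [mul_one, one_mul]; exact h1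
        _ ≤ 16 * (2 ^ k * 2 ^ k) := by
            gcongr
            norm_num
        _ = _ := by rw [sq]
    rw [this]
    exact le_top
  obtain ⟨K, hK1, hK2⟩ := ENNReal.exists_mem_Ioc_zpow h0 ht (by norm_num : (1 : ℝ≥0∞) < 2) (by norm_num)
  refine le_trans ?_ (ENNReal.le_tsum (K - 1))
  have h2 : (2 : ℝ≥0∞) * 2 ^ (K - 1) = 2 ^ K := by
    have h4 : (2 : ℝ≥0∞) ^ K = 2 ^ (1 + (K - 1)) := by
      congr 1
      ring
    rw [h4, ENNReal.zpow_add (by norm_num) (by norm_num), zpow_one]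
  rw [h2, if_pos hK1]
  have h3 : (2 : ℝ≥0∞) ^ (K + 1) = 4 * 2 ^ (K - 1) := by
    rw [show K + 1 = 2 + (K - 1) by ring, ENNReal.zpow_add (by norm_num) (by norm_num)]
    norm_num
  rw [h3] at hK2
  calc y ^ 2 ≤ (4 * 2 ^ (K - 1)) ^ 2 := by gcongr
    _ = _ := by
      rw [mul_pow]
      norm_num

/-- **The maximal function is bounded on `L^2`.** -/
theorem hlm_sq (hn : 1 ≤ n) {f : E n → ℝ≥0∞} (hf : Measurable f) :
    ∫⁻ x, hlm f x ^ 2 ≤ 32 * 4 ^ n * ∫⁻ x, f x ^ 2 := by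
  by_cases hfin : ∫⁻ x, f x ^ 2 = ⊤
  · rw [hfin, ENNReal.mul_top (by positivity)]
    exact le_top
  set fk : ℤ → E n → ℝ≥0∞ := fun k x => if (2 : ℝ≥0∞) ^ k < f x then f x else 0 with hfk
  have hms : ∀ k : ℤ, MeasurableSet {x | (2 : ℝ≥0∞) ^ k < f x} := fun k =>
    measurableSet_lt measurable_const hf
  have hfkm : ∀ k, Measurable (fk k) := fun k => Measurable.ite (hms k) hf measurable_const
  have hfki : ∀ k, ∫⁻ x, fk k x ≠ ⊤ := by
    intro k
    have h1 : ∀ x, fk k x ≤ ((2 : ℝ≥0∞) ^ k)⁻¹ * f x ^ 2 := by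
      intro x
      simp only [hfk]
      split_ifs with h
      · rw [sq, ← mul_assoc]
        calc f x = 1 * f x := (one_mul _).symm
          _ = ((2 : ℝ≥0∞) ^ k)⁻¹ * 2 ^ k * f x := by
              rw [ENNReal.inv_mul_cancel (two_zpow_ne_zero k) (two_zpow_ne_top k)]
          _ ≤ _ := by gcongr
      · exact zero_le
    refine ne_top_of_le_ne_top ?_ (lintegral_mono h1)
    rw [lintegral_const_mul _ (by fun_prop)]
    exact ENNReal.mul_ne_top (ENNReal.inv_ne_top.2 (two_zpow_ne_zero k)) hfin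
  set A : ℤ → Set (E n) := fun k => {x | 2 * (2 : ℝ≥0∞) ^ k < hlm f x} with hA
  have hvA : ∀ k, volume (A k) ≤ 4 ^ n * (∫⁻ x, fk k x) / 2 ^ k := by
    intro k
    refine weak_vitali n hn (fk k) (hfki k) _ (two_zpow_ne_zero k) (two_zpow_ne_top k) _ ?_
    intro x hx
    have hx' : 2 * (2 : ℝ≥0∞) ^ k < hlm f x := hx
    rw [hlm, lt_iSup_iff] at hx'
    obtain ⟨ρ, hρ'⟩ := hx'
    rw [lt_iSup_iff] at hρ'
    obtain ⟨hρ, hlt⟩ := hρ'
    refine ⟨ρ, hρ, ?_⟩
    have hb0 : volume (ball x ρ) ≠ 0 := (measure_ball_pos volume _ hρ).ne'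
    have hbt : volume (ball x ρ) ≠ ⊤ := measure_ball_lt_top.ne
    rw [ENNReal.lt_div_iff_mul_lt (Or.inl hb0) (Or.inl hbt)] at hlt
    have h1 : ∫⁻ y in ball x ρ, f y ≤ 2 ^ k * volume (ball x ρ) + ∫⁻ y in ball x ρ, fk k y := by
      calc ∫⁻ y in ball x ρ, f y ≤ ∫⁻ y in ball x ρ, (2 ^ k + fk k y) := by
            apply lintegral_mono
            intro y
            simp only [hfk]
            split_ifs with h
            · exact le_add_self
            · rw [add_zero]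
              exact not_lt.1 h
        _ = _ := by
            rw [lintegral_add_left measurable_const, setLIntegral_const]
    have h2 := hlt.le.trans h1
    rw [mul_assoc, two_mul] at h2
    exact (ENNReal.add_le_add_iff_left (ENNReal.mul_ne_top (two_zpow_ne_top k) hbt)).1 h2
  calc ∫⁻ x, hlm f x ^ 2
      ≤ ∫⁻ x, ∑' k : ℤ, (toMeasurable volume (A k)).indicator (fun _ => 16 * ((2 : ℝ≥0∞) ^ k) ^ 2) x := by
        apply lintegral_mono
        intro x
        refine (sq_le_sum _).trans (ENNReal.tsum_le_tsum fun k => ?_)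
        split_ifs with h
        · have hx : x ∈ toMeasurable volume (A k) := subset_toMeasurable volume (A k) h
          rw [indicator_of_mem hx]
        · exact zero_le
    _ = ∑' k : ℤ, 16 * ((2 : ℝ≥0∞) ^ k) ^ 2 * volume (A k) := by
        rw [lintegral_tsum fun k =>
          (measurable_const.indicator (measurableSet_toMeasurable _ _)).aemeasurable]
        congr 1
        funext k
        rw [lintegral_indicator (measurableSet_toMeasurable _ _), setLIntegral_const,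
          measure_toMeasurable]
    _ ≤ ∑' k : ℤ, 16 * 4 ^ n * (2 ^ k * ∫⁻ x, fk k x) := by
        refine ENNReal.tsum_le_tsum fun k => ?_
        calc 16 * ((2 : ℝ≥0∞) ^ k) ^ 2 * volume (A k) ≤
              16 * ((2 : ℝ≥0∞) ^ k) ^ 2 * (4 ^ n * (∫⁻ x, fk k x) / 2 ^ k) := by
              gcongr
              exact hvA k
          _ = 16 * 4 ^ n * ((2 ^ k * ∫⁻ x, fk k x) * (2 ^ k * (2 ^ k)⁻¹)) := by
              rw [div_eq_mul_inv]
              ring
          _ = _ := by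
              rw [ENNReal.mul_inv_cancel (two_zpow_ne_zero k) (two_zpow_ne_top k), mul_one]
    _ = 16 * 4 ^ n * ∫⁻ x, ∑' k : ℤ, 2 ^ k * fk k x := by
        rw [ENNReal.tsum_mul_left, lintegral_tsum fun k => ((hfkm k).const_mul _).aemeasurable]
        congr 2
        funext k
        rw [lintegral_const_mul _ (hfkm k)]
    _ ≤ 16 * 4 ^ n * ∫⁻ x, 2 * f x ^ 2 := by
        gcongr with x
        calc ∑' k : ℤ, 2 ^ k * fk k x
            = ∑' k : ℤ, (if (2 : ℝ≥0∞) ^ k < f x then (2 : ℝ≥0∞) ^ k else 0) * f x := by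
              congr 1
              funext k
              simp only [hfk]
              split_ifs <;> simp
          _ = (∑' k : ℤ, (if (2 : ℝ≥0∞) ^ k < f x then (2 : ℝ≥0∞) ^ k else 0)) * f x :=
              ENNReal.tsum_mul_right
          _ ≤ 2 * f x * f x := by
              gcongr
              exact sum_low _
          _ = _ := by ring
    _ = 32 * 4 ^ n * ∫⁻ x, f x ^ 2 := by
        rw [lintegral_const_mul _ (by fun_prop)]
        ring

end Pool.Agent.U556.BC
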