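import Pool.Agent.U556.BD1

set_option autoImplicit false

/-! Besov capacities, second part, 2: reproducing formula for band-limited functions. -/

namespace Pool.Agent.U556.BC

open MeasureTheory FourierTransform SchwartzMap Set Metric
open scoped ENNReal NNReal ContDiff RealInnerProductSpace

variable {n : ℕ}

/-- band-limited functions are reproduced by a convolution -/
theorem reproduce {φ : E n → ℝ} (hφ : IsCutoff φ) : ∃ Φ : 𝓢(E n, ℂ), ∀ lam : ℝ, 0 < lam →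
    ∀ P : 𝓢(E n, ℂ), (∀ ξ, (φ (lam⁻¹ • ξ) : ℂ) * (𝓕 P : 𝓢(E n, ℂ)) ξ = (𝓕 P : 𝓢(E n, ℂ)) ξ) →
      ∀ y, P y = ∫ w, P w * (((lam ^ n : ℝ) : ℂ) * Φ (lam • (y - w))) := by
  have hc : HasCompactSupport (fun ξ => (φ ξ : ℂ)) :=
    hφ.cut.compact.comp_left (g := fun x : ℝ => (x : ℂ)) (by simp)
  have hs : ContDiff ℝ ∞ (fun ξ => (φ ξ : ℂ)) := Complex.ofRealCLM.contDiff.comp hφ.smooth
  set φS : 𝓢(E n, ℂ) := hc.toSchwartzMap hs with hφS
  have hφSx : ∀ ξ, φS ξ = (φ ξ : ℂ) := fun ξ => rfl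
  refine ⟨𝓕⁻ φS, fun lam hlam P hP y => ?_⟩
  have hc1 : HasCompactSupport (fun ξ : E n => (φ (lam⁻¹ • ξ) : ℂ)) :=
    hc.comp_smul (c := lam⁻¹) (inv_ne_zero hlam.ne')
  have hc2 : HasCompactSupport (fun ξ : E n =>
      Complex.exp (((2 * Real.pi * ⟪ξ, y⟫ : ℝ) : ℂ) * Complex.I) * (φ (lam⁻¹ • ξ) : ℂ)) :=
    hc1.mul_left
  have hs1 : ContDiff ℝ ∞ (fun ξ : E n => (φ (lam⁻¹ • ξ) : ℂ)) := hs.comp (contDiff_const_smul _)
  have hs2 : ContDiff ℝ ∞ (fun ξ : E n =>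
      Complex.exp (((2 * Real.pi * ⟪ξ, y⟫ : ℝ) : ℂ) * Complex.I)) := by
    have h1 : ContDiff ℝ ∞ (fun ξ : E n => (2 * Real.pi * ⟪ξ, y⟫ : ℝ)) :=
      contDiff_const.mul (contDiff_id.inner ℝ contDiff_const)
    exact ((Complex.ofRealCLM.contDiff.comp h1).mul contDiff_const).cexp
  obtain ⟨g, hg⟩ : ∃ g : 𝓢(E n, ℂ), ∀ ξ, g ξ =
      Complex.exp (((2 * Real.pi * ⟪ξ, y⟫ : ℝ) : ℂ) * Complex.I) * (φ (lam⁻¹ • ξ) : ℂ) :=
    ⟨hc2.toSchwartzMap (hs2.mul hs1), fun ξ => rfl⟩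
  have h1 : P y = ∫ ξ, (𝓕 P : 𝓢(E n, ℂ)) ξ * g ξ := by
    have h2 : P y = (𝓕⁻ (𝓕 P : 𝓢(E n, ℂ)) : 𝓢(E n, ℂ)) y := by
      rw [FourierTransform.fourierInv_fourier_eq]
    rw [h2, fourierInv_coe, Real.fourierInv_eq']
    congr 1
    funext ξ
    rw [hg, smul_eq_mul]
    nth_rewrite 1 [← hP ξ]
    ring
  rw [h1, SchwartzMap.integral_fourier_mul_eq]
  congr 1
  funext w
  congr 1
  rw [fourier_coe, fourierInv_coe, Real.fourier_eq', Real.fourierInv_eq']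
  have h3 : (fun ξ : E n => Complex.exp (((-2 * Real.pi * ⟪ξ, w⟫ : ℝ) : ℂ) * Complex.I) • g ξ) =
      fun ξ => (fun ζ => Complex.exp (((2 * Real.pi * ⟪ζ, lam • (y - w)⟫ : ℝ) : ℂ) * Complex.I) •
        φS ζ) (lam⁻¹ • ξ) := by
    funext ξ
    simp only [smul_eq_mul]
    rw [hg, hφSx, ← mul_assoc, ← Complex.exp_add, ← add_mul, ← Complex.ofReal_add]
    congr 4
    rw [real_inner_smul_left, real_inner_smul_right, inner_sub_right]
    field_simp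
    ring
  rw [h3, Measure.integral_comp_smul (μ := volume) (fun ζ : E n =>
    Complex.exp (((2 * Real.pi * ⟪ζ, lam • (y - w)⟫ : ℝ) : ℂ) * Complex.I) • φS ζ),
    finrank_euclideanSpace_fin, abs_of_nonneg (by positivity), Complex.real_smul]
  congr 2
  rw [inv_pow, inv_inv]

/-- the weight `1 + λ |z|` -/
noncomputable def bw (lam : ℝ) (z : E n) : ℝ≥0∞ := ENNReal.ofReal (1 + lam * ‖z‖)

theorem bw_ne_zero {lam : ℝ} (h : 0 < lam) (z : E n) : bw lam z ≠ 0 := by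
  unfold bw
  rw [ENNReal.ofReal_ne_zero_iff]
  positivity

theorem bw_ne_top (lam : ℝ) (z : E n) : bw lam z ≠ ⊤ := ENNReal.ofReal_ne_top

theorem one_le_bw {lam : ℝ} (h : 0 < lam) (z : E n) : 1 ≤ bw lam z := by
  unfold bw
  rw [ENNReal.one_le_ofReal]
  have : 0 ≤ lam * ‖z‖ := by positivity
  linarith

theorem bw_add {lam : ℝ} (h : 0 < lam) (y z w : E n) :
    bw lam (y - w) ≤ bw lam (y - z) * bw lam (z - w) := by
  unfold bw
  rw [← ENNReal.ofReal_mul (by positivity)]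
  apply ENNReal.ofReal_le_ofReal
  have h1 : ‖y - w‖ ≤ ‖y - z‖ + ‖z - w‖ := norm_sub_le_norm_sub_add_norm_sub y z w
  have h2 : 0 ≤ lam * ‖y - z‖ * (lam * ‖z - w‖) := by positivity
  nlinarith

theorem measurable_bw (lam : ℝ) : Measurable (bw lam : E n → ℝ≥0∞) := by
  unfold bw
  fun_prop

end Pool.Agent.U556.BC
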