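import Pool.Agent.U556.BD2

set_option autoImplicit false

/-! Besov capacities, second part, 3: the Peetre maximal inequality. -/

namespace Pool.Agent.U556.BC

open MeasureTheory FourierTransform SchwartzMap Set Metric
open scoped ENNReal NNReal ContDiff RealInnerProductSpace

variable {n : ℕ}

theorem bw_neg_le_one {lam : ℝ} (h : 0 < lam) {M : ℝ} (hM : 0 ≤ M) (z : E n) :
    bw lam z ^ (-M) ≤ 1 := by
  calc bw lam z ^ (-M) ≤ bw lam z ^ (0 : ℝ) :=
        ENNReal.rpow_le_rpow_of_exponent_le (one_le_bw h z) (by linarith)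
    _ = 1 := ENNReal.rpow_zero

theorem peetre_core {r : ℝ} (hr : 0 < r) (hr1 : r ≤ 1) {M : ℝ} (hM : 0 ≤ M) {lam : ℝ}
    (hlam : 0 < lam) (P : E n → ℂ) (hPm : Measurable P) (B : ℝ≥0∞) (hBt : B ≠ ⊤)
    (hB : ∀ z, ‖P z‖ₑ ≤ B) (C : ℝ≥0∞)
    (h : ∀ z, ‖P z‖ₑ ≤ C * ∫⁻ w, ‖P w‖ₑ * bw lam (z - w) ^ (-M)) (y z : E n) :
    ‖P z‖ₑ ^ r * bw lam (y - z) ^ (-(M * r)) ≤
      C * ∫⁻ w, ‖P w‖ₑ ^ r * bw lam (y - w) ^ (-(M * r)) := by
  set F : E n → ℝ≥0∞ := fun w => ‖P w‖ₑ * bw lam (y - w) ^ (-M) with hF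
  have hbm : ∀ c : ℝ, ∀ x : E n, Measurable fun w : E n => bw lam (x - w) ^ c := fun c x =>
    ((measurable_bw lam).comp (measurable_const.sub measurable_id)).pow_const c
  have hFm : Measurable F := hPm.enorm.mul (hbm _ _)
  set N : ℝ≥0∞ := ⨆ w, F w with hN
  have hFN : ∀ w, F w ≤ N := fun w => le_iSup F w
  have hFr : ∀ w, F w ^ r = ‖P w‖ₑ ^ r * bw lam (y - w) ^ (-(M * r)) := by
    intro w
    rw [hF]
    simp only
    rw [ENNReal.mul_rpow_of_nonneg _ _ hr.le, ← ENNReal.rpow_mul]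
    congr 2
    ring
  have hNB : N ≤ B := by
    refine iSup_le fun w => ?_
    have h1 : bw lam (y - w) ^ (-M) ≤ 1 := bw_neg_le_one hlam hM _
    calc F w ≤ ‖P w‖ₑ * 1 := by
          simp only [hF]
          gcongr
      _ ≤ B := by rw [mul_one]; exact hB w
  have hNt : N ≠ ⊤ := ne_top_of_le_ne_top hBt hNB
  have h1 : ∀ z, F z ≤ C * ∫⁻ w, F w := by
    intro z
    have hm : Measurable (fun w => ‖P w‖ₑ * bw lam (z - w) ^ (-M)) := hPm.enorm.mul (hbm _ _)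
    calc F z ≤ (C * ∫⁻ w, ‖P w‖ₑ * bw lam (z - w) ^ (-M)) * bw lam (y - z) ^ (-M) := by
          simp only [hF]
          gcongr
          exact h z
      _ = C * ∫⁻ w, ‖P w‖ₑ * bw lam (z - w) ^ (-M) * bw lam (y - z) ^ (-M) := by
          rw [lintegral_mul_const _ hm, mul_assoc]
      _ ≤ C * ∫⁻ w, F w := by
          gcongr with w
          simp only [hF]
          rw [mul_assoc]
          gcongr
          rw [mul_comm, ← ENNReal.mul_rpow_of_ne_top (bw_ne_top _ _) (bw_ne_top _ _)]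
          rw [ENNReal.rpow_neg, ENNReal.rpow_neg]
          gcongr
          exact bw_add hlam y z w
  have h2 : N ≤ N ^ (1 - r) * (C * ∫⁻ w, F w ^ r) := by
    refine iSup_le fun z => (h1 z).trans ?_
    calc C * ∫⁻ w, F w ≤ C * ∫⁻ w, N ^ (1 - r) * F w ^ r := by
          gcongr with w
          calc F w = F w ^ ((1 - r) + r) := by
                rw [sub_add_cancel, ENNReal.rpow_one]
            _ = F w ^ (1 - r) * F w ^ r := ENNReal.rpow_add_of_nonneg _ _ (by linarith) hr.le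
            _ ≤ _ := mul_le_mul' (ENNReal.rpow_le_rpow (hFN w) (by linarith)) le_rfl
      _ = _ := by
          rw [lintegral_const_mul _ (hFm.pow_const r)]
          ring
  have h3 : N ^ r ≤ C * ∫⁻ w, F w ^ r := by
    by_cases hN0 : N = 0
    · rw [hN0, ENNReal.zero_rpow_of_pos hr]
      exact zero_le
    · have h4 : N = N ^ (1 - r) * N ^ r := by
        rw [← ENNReal.rpow_add_of_nonneg _ _ (by linarith) hr.le, sub_add_cancel, ENNReal.rpow_one]
      have h5 : N ^ (1 - r) ≠ 0 := by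
        rw [Ne, ENNReal.rpow_eq_zero_iff]
        rintro (⟨h, _⟩ | ⟨h, _⟩)
        exacts [hN0 h, hNt h]
      have h6 : N ^ (1 - r) ≠ ⊤ := ENNReal.rpow_ne_top_of_nonneg (by linarith) hNt
      rw [h4] at h2
      rw [← h4] at h2
      have h7 : N ^ (1 - r) * N ^ r ≤ N ^ (1 - r) * (C * ∫⁻ w, F w ^ r) := by
        rw [← h4]
        exact h2
      exact (ENNReal.mul_le_mul_iff_right h5 h6).1 h7
  rw [← hFr z]
  refine (ENNReal.rpow_le_rpow (hFN z) hr.le).trans (h3.trans (le_of_eq ?_))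
  congr 1
  exact lintegral_congr fun w => hFr w

theorem sum_annuli {lam : ℝ} (hlam : 0 < lam) (f : E n → ℝ≥0∞) (hf : Measurable f) (y : E n) :
    ENNReal.ofReal (lam ^ n) * ∫⁻ w, f w * bw lam (y - w) ^ (-((n : ℝ) + 1)) ≤
      2 ^ (n + 2) * volume (ball (0 : E n) 1) * hlm f y := by
  set c : ℕ → ℝ≥0∞ := fun i => 2 ^ (n + 1) * ((2⁻¹) ^ (n + 1)) ^ i with hc
  have hpt : ∀ w, bw lam (y - w) ^ (-((n : ℝ) + 1)) ≤
      ∑' i : ℕ, (ball y (2 ^ i / lam)).indicator (fun _ => c i) w := by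
    intro w
    have hex : ∃ i : ℕ, lam * ‖y - w‖ < 2 ^ i := pow_unbounded_of_one_lt _ (by norm_num)
    classical
    have hspec := Nat.find_spec hex
    have hmin := fun m => Nat.find_min (H := hex) (m := m)
    set i := Nat.find hex with hi
    refine le_trans ?_ (ENNReal.le_tsum i)
    have hmem : w ∈ ball y (2 ^ i / lam) := by
      rw [mem_ball, dist_comm, dist_eq_norm, lt_div_iff₀ hlam, mul_comm]
      exact hspec
    rw [indicator_of_mem hmem]
    rcases Nat.eq_zero_or_pos i with h0 | hpos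
    · rw [h0, hc]
      simp only [pow_zero, mul_one]
      calc bw lam (y - w) ^ (-((n : ℝ) + 1)) ≤ 1 := bw_neg_le_one hlam (by positivity) _
        _ ≤ _ := one_le_pow₀ (by norm_num)
    · obtain ⟨k, hk⟩ := Nat.exists_eq_succ_of_ne_zero hpos.ne'
      have h1 := hmin k (by omega)
      rw [not_lt] at h1
      have h2 : (2 : ℝ≥0∞) ^ k ≤ bw lam (y - w) := by
        unfold bw
        calc (2 : ℝ≥0∞) ^ k = ENNReal.ofReal (2 ^ k) := by
              rw [ENNReal.ofReal_pow (by norm_num)]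
              simp
          _ ≤ _ := ENNReal.ofReal_le_ofReal (by linarith)
      rw [hk, hc]
      simp only
      calc bw lam (y - w) ^ (-((n : ℝ) + 1)) ≤ ((2 : ℝ≥0∞) ^ k) ^ (-((n : ℝ) + 1)) := by
            rw [ENNReal.rpow_neg, ENNReal.rpow_neg]
            gcongr
        _ = 2 ^ (n + 1) * ((2⁻¹) ^ (n + 1)) ^ (k + 1) := by
            rw [ENNReal.rpow_neg, show ((n : ℝ) + 1) = ((n + 1 : ℕ) : ℝ) by push_cast; ring,
              ENNReal.rpow_natCast, pow_succ' ((2⁻¹ : ℝ≥0∞) ^ (n + 1)), ← mul_assoc, ← mul_pow,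
              ENNReal.mul_inv_cancel (by norm_num) (by norm_num), one_pow, one_mul, ← pow_mul,
              ← pow_mul, ENNReal.inv_pow, mul_comm k]
  have hball : ∀ i : ℕ, ENNReal.ofReal (lam ^ n) * volume (ball y (2 ^ i / lam)) =
      (2 ^ n) ^ i * volume (ball (0 : E n) 1) := by
    intro i
    rw [vol_ball n y _ (by positivity), ← mul_assoc, ← ENNReal.ofReal_mul (by positivity),
      ← mul_pow, mul_div_cancel₀ _ hlam.ne', ← pow_mul, ENNReal.ofReal_pow (by norm_num), ← pow_mul,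
      mul_comm i n]
    simp
  calc ENNReal.ofReal (lam ^ n) * ∫⁻ w, f w * bw lam (y - w) ^ (-((n : ℝ) + 1))
      ≤ ENNReal.ofReal (lam ^ n) * ∫⁻ w, ∑' i : ℕ,
          (ball y (2 ^ i / lam)).indicator (fun w => c i * f w) w := by
        gcongr with w
        calc f w * bw lam (y - w) ^ (-((n : ℝ) + 1)) ≤
              f w * ∑' i : ℕ, (ball y (2 ^ i / lam)).indicator (fun _ => c i) w := by
              gcongr
              exact hpt w
          _ = _ := by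
              rw [← ENNReal.tsum_mul_left]
              congr 1
              funext i
              by_cases hw : w ∈ ball y (2 ^ i / lam)
              · rw [indicator_of_mem hw, indicator_of_mem hw, mul_comm]
              · rw [indicator_of_notMem hw, indicator_of_notMem hw, mul_zero]
    _ = ENNReal.ofReal (lam ^ n) * ∑' i : ℕ, c i * ∫⁻ w in ball y (2 ^ i / lam), f w := by
        rw [lintegral_tsum fun i => ((hf.const_mul _).indicator measurableSet_ball).aemeasurable]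
        congr 2
        funext i
        rw [lintegral_indicator measurableSet_ball, lintegral_const_mul _ hf]
    _ ≤ ENNReal.ofReal (lam ^ n) * ∑' i : ℕ, c i * (volume (ball y (2 ^ i / lam)) * hlm f y) := by
        gcongr with i
        exact le_hlm f y _ (by positivity)
    _ = ∑' i : ℕ, c i * ((2 ^ n) ^ i * volume (ball (0 : E n) 1)) * hlm f y := by
        rw [← ENNReal.tsum_mul_left]
        congr 1
        funext i
        rw [← hball i]
        ring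
    _ = ∑' i : ℕ, 2 ^ (n + 1) * volume (ball (0 : E n) 1) * hlm f y * (2⁻¹) ^ i := by
        congr 1
        funext i
        have h1 : (((2 : ℝ≥0∞)⁻¹) ^ (n + 1)) ^ i * (2 ^ n) ^ i = (2⁻¹) ^ i := by
          rw [← mul_pow, pow_succ, mul_right_comm, ← mul_pow,
            ENNReal.inv_mul_cancel (by norm_num) (by norm_num), one_pow, one_mul]
        rw [hc]
        simp only
        rw [← h1]
        ring
    _ = 2 ^ (n + 2) * volume (ball (0 : E n) 1) * hlm f y := by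
        rw [ENNReal.tsum_mul_left, ENNReal.tsum_geometric_two]
        ring

theorem schwartz_decay (Φ : 𝓢(E n, ℂ)) {M : ℝ} : ∃ C : ℝ≥0∞, C ≠ ⊤ ∧
    ∀ x : E n, ‖Φ x‖ₑ ≤ C * ENNReal.ofReal (1 + ‖x‖) ^ (-M) := by
  obtain ⟨K, hK⟩ := exists_nat_ge M
  set A : ℝ := 2 ^ K * (Finset.Iic ((K, 0) : ℕ × ℕ)).sup (fun m => SchwartzMap.seminorm ℝ m.1 m.2) Φ
    with hA
  have hA1 : ∀ x, (1 + ‖x‖) ^ K * ‖Φ x‖ ≤ A := by
    intro x
    have := SchwartzMap.one_add_le_sup_seminorm_apply (𝕜 := ℝ) (m := (K, 0)) (k := K) (n := 0)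
      le_rfl le_rfl Φ x
    rwa [norm_iteratedFDeriv_zero] at this
  refine ⟨ENNReal.ofReal A, ENNReal.ofReal_ne_top, fun x => ?_⟩
  have hb0 : (0 : ℝ) < 1 + ‖x‖ := by positivity
  have h1 : ENNReal.ofReal (1 + ‖x‖) ^ (-(K : ℝ)) ≤ ENNReal.ofReal (1 + ‖x‖) ^ (-M) := by
    apply ENNReal.rpow_le_rpow_of_exponent_le
    · rw [ENNReal.one_le_ofReal]
      linarith [norm_nonneg x]
    · linarith
  refine le_trans ?_ (mul_le_mul' le_rfl h1)
  rw [ENNReal.rpow_neg, ENNReal.rpow_natCast, ← div_eq_mul_inv, ENNReal.le_div_iff_mul_le, mul_comm,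
    ← ENNReal.ofReal_pow hb0.le, ← ofReal_norm, ← ENNReal.ofReal_mul (by positivity)]
  · exact ENNReal.ofReal_le_ofReal (hA1 x)
  · left
    exact pow_ne_zero _ (ENNReal.ofReal_pos.2 hb0).ne'
  · left
    exact ENNReal.pow_ne_top ENNReal.ofReal_ne_top

/-- **The Peetre maximal inequality.** -/
theorem peetre {φ : E n → ℝ} (hφ : IsCutoff φ) {r : ℝ} (hr : 0 < r) (hr1 : r ≤ 1) :
    ∃ C : ℝ≥0∞, C ≠ ⊤ ∧ ∀ lam : ℝ, 0 < lam → ∀ P : 𝓢(E n, ℂ),
      (∀ ξ, (φ (lam⁻¹ • ξ) : ℂ) * (𝓕 P : 𝓢(E n, ℂ)) ξ = (𝓕 P : 𝓢(E n, ℂ)) ξ) →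
      ∀ y z : E n, lam * ‖y - z‖ ≤ 2 * √n → ‖P z‖ₑ ^ r ≤ C * hlm (fun w => ‖P w‖ₑ ^ r) y := by
  obtain ⟨Φ, hΦ⟩ := reproduce hφ
  set M : ℝ := ((n : ℝ) + 1) / r with hM
  have hM0 : 0 ≤ M := by positivity
  have hMr : M * r = (n : ℝ) + 1 := div_mul_cancel₀ _ hr.ne'
  obtain ⟨CΦ, hCΦ, hdec⟩ := schwartz_decay Φ (M := M)
  refine ⟨ENNReal.ofReal (1 + 2 * √n) ^ ((n : ℝ) + 1) *
    (CΦ * (2 ^ (n + 2) * volume (ball (0 : E n) 1))), ?_, fun lam hlam P hP y z hyz => ?_⟩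
  · refine ENNReal.mul_ne_top (ENNReal.rpow_ne_top_of_nonneg (by positivity) ENNReal.ofReal_ne_top)
      (ENNReal.mul_ne_top hCΦ (ENNReal.mul_ne_top (ENNReal.pow_ne_top (by norm_num)) (v1_ne_top n)))
  have hPm : Measurable (P : E n → ℂ) := P.continuous.measurable
  obtain ⟨B, hBt, hB⟩ : ∃ B : ℝ≥0∞, B ≠ ⊤ ∧ ∀ z, ‖P z‖ₑ ≤ B := by
    refine ⟨ENNReal.ofReal (SchwartzMap.seminorm ℝ 0 0 P), ENNReal.ofReal_ne_top, fun z => ?_⟩
    rw [← ofReal_norm]
    exact ENNReal.ofReal_le_ofReal (SchwartzMap.norm_le_seminorm ℝ P z)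
  have h : ∀ z, ‖P z‖ₑ ≤ (ENNReal.ofReal (lam ^ n) * CΦ) *
      ∫⁻ w, ‖P w‖ₑ * bw lam (z - w) ^ (-M) := by
    intro z
    have hm : Measurable (fun w => ‖P w‖ₑ * bw lam (z - w) ^ (-M)) :=
      hPm.enorm.mul (((measurable_bw lam).comp (measurable_const.sub measurable_id)).pow_const _)
    rw [hΦ lam hlam P hP z]
    refine (enorm_integral_le_lintegral_enorm _).trans ?_
    rw [← lintegral_const_mul _ hm]
    refine lintegral_mono fun w => ?_
    have h1 := hdec (lam • (z - w))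
    have h2 : ENNReal.ofReal (1 + ‖lam • (z - w)‖) = bw lam (z - w) := by
      rw [norm_smul, Real.norm_eq_abs, abs_of_pos hlam, bw]
    rw [h2] at h1
    have h3 : ‖((lam ^ n : ℝ) : ℂ)‖ₑ = ENNReal.ofReal (lam ^ n) := by
      rw [← ofReal_norm, Complex.norm_real, Real.norm_eq_abs, abs_of_pos (by positivity)]
    beta_reduce
    rw [enorm_mul, enorm_mul, h3]
    calc ‖P w‖ₑ * (ENNReal.ofReal (lam ^ n) * ‖Φ (lam • (z - w))‖ₑ) ≤
          ‖P w‖ₑ * (ENNReal.ofReal (lam ^ n) * (CΦ * bw lam (z - w) ^ (-M))) := by gcongr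
      _ = _ := by ring
  have h1 := peetre_core hr hr1 hM0 hlam (P : E n → ℂ) hPm B hBt hB _ h y z
  rw [hMr] at h1
  have h2 := sum_annuli hlam (fun w => ‖P w‖ₑ ^ r) (hPm.enorm.pow_const r) y
  have h3 : bw lam (y - z) ^ ((n : ℝ) + 1) ≤ ENNReal.ofReal (1 + 2 * √n) ^ ((n : ℝ) + 1) := by
    apply ENNReal.rpow_le_rpow _ (by positivity)
    unfold bw
    exact ENNReal.ofReal_le_ofReal (by linarith)
  have h4 : ‖P z‖ₑ ^ r = bw lam (y - z) ^ ((n : ℝ) + 1) *
      (‖P z‖ₑ ^ r * bw lam (y - z) ^ (-((n : ℝ) + 1))) := by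
    rw [mul_comm, mul_assoc, ENNReal.rpow_neg, ENNReal.inv_mul_cancel, mul_one]
    · rw [Ne, ENNReal.rpow_eq_zero_iff]
      rintro (⟨h, _⟩ | ⟨h, _⟩)
      exacts [bw_ne_zero hlam _ h, bw_ne_top _ _ h]
    · exact ENNReal.rpow_ne_top_of_nonneg (by positivity) (bw_ne_top _ _)
  rw [h4]
  calc bw lam (y - z) ^ ((n : ℝ) + 1) * (‖P z‖ₑ ^ r * bw lam (y - z) ^ (-((n : ℝ) + 1)))
      ≤ ENNReal.ofReal (1 + 2 * √n) ^ ((n : ℝ) + 1) * ((ENNReal.ofReal (lam ^ n) * CΦ) *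
        ∫⁻ w, ‖P w‖ₑ ^ r * bw lam (y - w) ^ (-((n : ℝ) + 1))) := mul_le_mul' h3 h1
    _ = ENNReal.ofReal (1 + 2 * √n) ^ ((n : ℝ) + 1) * (CΦ * (ENNReal.ofReal (lam ^ n) *
        ∫⁻ w, ‖P w‖ₑ ^ r * bw lam (y - w) ^ (-((n : ℝ) + 1)))) := by ring
    _ ≤ ENNReal.ofReal (1 + 2 * √n) ^ ((n : ℝ) + 1) * (CΦ *
        (2 ^ (n + 2) * volume (ball (0 : E n) 1) * hlm (fun w => ‖P w‖ₑ ^ r) y)) := by gcongr
    _ = _ := by ring

end Pool.Agent.U556.BC
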