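import Pool.Agent.U556.BD3

set_option autoImplicit false

/-! Besov capacities, second part, 4: pointwise bounds of Littlewood-Paley pieces. -/

namespace Pool.Agent.U556.BC

open MeasureTheory FourierTransform SchwartzMap Set Metric
open scoped ENNReal NNReal ContDiff RealInnerProductSpace

variable {n : ℕ}

/-- a Schwartz function is dominated by the sum of its Littlewood-Paley pieces -/
theorem enorm_le_tsum_piece {φ : E n → ℝ} (hφ : IsCutoff φ) (u : 𝓢(E n, ℂ)) (x : E n) :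
    ‖u x‖ₑ ≤ ∑' j : ℕ, ‖piece φ j u x‖ₑ := by
  have hH : ∀ J : ℕ, ∃ H : 𝓢(E n, ℂ), ∀ ξ, H ξ =
      (φ ((1 / 2 : ℝ) ^ J • ξ) : ℂ) * (𝓕 u : 𝓢(E n, ℂ)) ξ := by
    intro J
    have h0 : HasCompactSupport (fun ξ => (φ ((1 / 2 : ℝ) ^ J • ξ) : ℂ) * (𝓕 u : 𝓢(E n, ℂ)) ξ) := by
      have h1 : HasCompactSupport (fun ξ => (φ ξ : ℂ)) :=
        hφ.cut.compact.comp_left (g := fun x : ℝ => (x : ℂ)) (by simp)
      have h2 : HasCompactSupport (fun ξ : E n => (φ ((1 / 2 : ℝ) ^ J • ξ) : ℂ)) :=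
        h1.comp_smul (c := (1 / 2 : ℝ) ^ J) (by positivity)
      exact h2.mul_right
    have h2 : ContDiff ℝ ∞ (fun ξ => (φ ((1 / 2 : ℝ) ^ J • ξ) : ℂ) * (𝓕 u : 𝓢(E n, ℂ)) ξ) :=
      (Complex.ofRealCLM.contDiff.comp (hφ.smooth.comp (contDiff_const_smul _))).mul
        ((𝓕 u : 𝓢(E n, ℂ)).smooth ⊤)
    exact ⟨h0.toSchwartzMap h2, fun ξ => rfl⟩
  choose H hH using hH
  have hsum : ∀ J : ℕ, ∑ j ∈ Finset.range (J + 1), piece φ j u x = (𝓕⁻ (H J) : 𝓢(E n, ℂ)) x := by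
    intro J
    induction J with
    | zero =>
      rw [Finset.sum_range_one, piece_eq 0 u (H 0) (fun ξ => by rw [hH, lp_zero]; simp)]
    | succ J ih =>
      obtain ⟨G, hG⟩ := lp_prod hφ (J + 1) (𝓕 u)
      rw [Finset.sum_range_succ, ih, piece_eq (J + 1) u G hG]
      have h1 : H (J + 1) = H J + G := by
        ext ξ
        rw [add_apply, hH, hH, hG, lp, if_neg (Nat.succ_ne_zero J), Nat.add_sub_cancel]
        push_cast
        ring
      rw [h1, FourierTransform.fourierInv_add, add_apply]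
  have hlim : Filter.Tendsto (fun J : ℕ => (𝓕⁻ (H J) : 𝓢(E n, ℂ)) x) Filter.atTop (nhds (u x)) := by
    have h2 : u x = (𝓕⁻ (𝓕 u : 𝓢(E n, ℂ)) : 𝓢(E n, ℂ)) x := by
      rw [FourierTransform.fourierInv_fourier_eq]
    rw [h2]
    simp_rw [fourierInv_coe, Real.fourierInv_eq']
    obtain ⟨B, hB⟩ := hφ.cut.compact.exists_bound_of_continuous hφ.smooth.continuous
    refine tendsto_integral_of_dominated_convergence (fun ξ => B * ‖(𝓕 u : 𝓢(E n, ℂ)) ξ‖) ?_ ?_ ?_ ?_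
    · intro J
      have h3 : Continuous (fun v : E n => Complex.exp (((2 * Real.pi * ⟪v, x⟫ : ℝ) : ℂ) * Complex.I) •
          (H J) v) := by
        have := (H J).continuous
        fun_prop
      exact h3.aestronglyMeasurable
    · exact ((𝓕 u : 𝓢(E n, ℂ)).integrable.norm).const_mul B
    · intro J
      refine Filter.Eventually.of_forall fun ξ => ?_
      rw [norm_smul, Complex.norm_exp_ofReal_mul_I, one_mul, hH, norm_mul, Complex.norm_real]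
      gcongr
      exact hB _
    · refine Filter.Eventually.of_forall fun ξ => ?_
      apply tendsto_const_nhds.congr'
      obtain ⟨J₀, hJ₀⟩ := pow_unbounded_of_one_lt ‖ξ‖ (by norm_num : (1 : ℝ) < 2)
      filter_upwards [Filter.eventually_ge_atTop J₀] with J hJ
      rw [hH, hφ.one, Complex.ofReal_one, one_mul]
      rw [norm_smul, Real.norm_eq_abs, abs_of_pos (by positivity)]
      have h4 : ‖ξ‖ ≤ 2 ^ J := hJ₀.le.trans (pow_le_pow_right₀ (by norm_num) hJ)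
      calc (1 / 2 : ℝ) ^ J * ‖ξ‖ ≤ (1 / 2 : ℝ) ^ J * 2 ^ J := by gcongr
        _ = 1 := by
          rw [← mul_pow]
          norm_num
  have hlim2 := (continuous_enorm.tendsto (u x)).comp hlim
  refine le_of_tendsto' hlim2 fun J => ?_
  simp only [Function.comp]
  rw [← hsum J]
  refine (enorm_sum_le _ _).trans (ENNReal.sum_le_tsum _)

/-- the square function type majorant -/
noncomputable def gmaj (φ : E n → ℝ) (α r : ℝ) (u : E n → ℂ) (x : E n) : ℝ≥0∞ :=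
  ⨆ j : ℕ, ((2 : ℝ≥0∞) ^ ((j : ℝ) * α) * ‖piece φ j u x‖ₑ) ^ r

theorem measurable_gmaj {φ : E n → ℝ} (hφ : IsCutoff φ) (α r : ℝ) (u : 𝓢(E n, ℂ)) :
    Measurable (gmaj φ α r u) := by
  refine Measurable.iSup fun j => ?_
  have := (continuous_piece hφ j u).measurable
  fun_prop

theorem hlm_le_of_le {f g : E n → ℝ≥0∞} (hg : Measurable g) (c : ℝ≥0∞) (h : ∀ x, f x ≤ c * g x)
    (x : E n) : hlm f x ≤ c * hlm g x := by
  refine iSup₂_le fun ρ hρ => ?_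
  calc (∫⁻ y in ball x ρ, f y) / volume (ball x ρ)
      ≤ (∫⁻ y in ball x ρ, c * g y) / volume (ball x ρ) := by
        gcongr with y
        exact h y
    _ = c * ((∫⁻ y in ball x ρ, g y) / volume (ball x ρ)) := by
        rw [lintegral_const_mul _ hg, mul_div_assoc]
    _ ≤ c * hlm g x := by
        gcongr
        exact le_iSup₂ (f := fun (ρ : ℝ) (_ : 0 < ρ) =>
          (∫⁻ y in ball x ρ, g y) / volume (ball x ρ)) ρ hρ

/-- the pieces on dyadic cubes -/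
theorem piece_le {φ : E n → ℝ} (hφ : IsCutoff φ) {α p : ℝ} (hp : 0 < p) (hp1 : p ≤ 1) :
    ∃ C : ℝ≥0∞, C ≠ ⊤ ∧ ∀ (u : 𝓢(E n, ℂ)) (j : ℕ) (x y : E n), idx j x = idx j y →
      ‖piece φ j u y‖ₑ ^ p ≤
        C * ((2 : ℝ≥0∞) ^ (-(α * p))) ^ j * hlm (gmaj φ α (p / 2) u) x ^ 2 := by
  obtain ⟨C, hC, hP⟩ := peetre hφ (r := p / 2) (by positivity) (by linarith)
  refine ⟨C ^ 2, ENNReal.pow_ne_top hC, fun u j x y hxy => ?_⟩
  obtain ⟨G, hG⟩ := lp_prod hφ j (𝓕 u)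
  have hpe := piece_eq j u G hG
  set P : 𝓢(E n, ℂ) := 𝓕⁻ G with hPdef
  have hFP : (𝓕 P : 𝓢(E n, ℂ)) = G := by
    rw [hPdef, FourierTransform.fourier_fourierInv_eq]
  have hrep : ∀ ξ, (φ (((2 : ℝ) ^ (j + 1))⁻¹ • ξ) : ℂ) * (𝓕 P : 𝓢(E n, ℂ)) ξ =
      (𝓕 P : 𝓢(E n, ℂ)) ξ := by
    intro ξ
    rw [hFP, hG]
    by_cases hξ : (2 : ℝ) ^ (j + 1) ≤ ‖ξ‖
    · rw [hφ.lp_zero_of j ξ hξ]
      simp
    · rw [not_le] at hξ
      rw [hφ.one, Complex.ofReal_one, one_mul]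
      rw [norm_smul, Real.norm_eq_abs, abs_of_pos (by positivity), inv_mul_le_one₀ (by positivity)]
      exact hξ.le
  have hdist : (2 : ℝ) ^ (j + 1) * ‖x - y‖ ≤ 2 * √n := by
    have h1 : ‖x - y‖ ≤ √n * ((2 : ℝ) ^ j)⁻¹ := by
      apply norm_le_of_coord (by positivity)
      intro i
      have h2 := coord_lt (Q := (j, idx j y)) (x := x) (y := y) hxy rfl i
      simp only at h2
      show |x i - y i| ≤ _
      rw [← one_div, le_div_iff₀ (by positivity), mul_comm]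
      exact h2.le
    calc (2 : ℝ) ^ (j + 1) * ‖x - y‖ ≤ (2 : ℝ) ^ (j + 1) * (√n * ((2 : ℝ) ^ j)⁻¹) := by gcongr
      _ = 2 * √n := by
        rw [pow_succ]
        field_simp
  have h1 := hP _ (by positivity) P hrep x y hdist
  have h2 : ∀ w, ‖P w‖ₑ ^ (p / 2) ≤ (2 : ℝ≥0∞) ^ (-((j : ℝ) * α * (p / 2))) *
      gmaj φ α (p / 2) u w := by
    intro w
    have h3 : ((2 : ℝ≥0∞) ^ ((j : ℝ) * α) * ‖P w‖ₑ) ^ (p / 2) ≤ gmaj φ α (p / 2) u w := by
      have := le_iSup (fun j : ℕ => ((2 : ℝ≥0∞) ^ ((j : ℝ) * α) * ‖piece φ j u w‖ₑ) ^ (p / 2)) j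
      rw [hpe] at this
      exact this
    calc ‖P w‖ₑ ^ (p / 2) = (2 : ℝ≥0∞) ^ (-((j : ℝ) * α * (p / 2))) *
          ((2 : ℝ≥0∞) ^ ((j : ℝ) * α) * ‖P w‖ₑ) ^ (p / 2) := by
          rw [ENNReal.mul_rpow_of_nonneg _ _ (by positivity), ← ENNReal.rpow_mul, ← mul_assoc,
            ← ENNReal.rpow_add _ _ (by norm_num) (by norm_num), neg_add_cancel, ENNReal.rpow_zero,
            one_mul]
      _ ≤ _ := by gcongr
  have h3 := hlm_le_of_le (measurable_gmaj hφ α (p / 2) u) _ h2 x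
  have h4 : ‖piece φ j u y‖ₑ ^ p = (‖P y‖ₑ ^ (p / 2)) ^ 2 := by
    rw [hpe, ← ENNReal.rpow_natCast, ← ENNReal.rpow_mul]
    congr 1
    push_cast
    ring
  rw [h4]
  calc (‖P y‖ₑ ^ (p / 2)) ^ 2 ≤ (C * ((2 : ℝ≥0∞) ^ (-((j : ℝ) * α * (p / 2))) *
        hlm (gmaj φ α (p / 2) u) x)) ^ 2 := by
        gcongr
        exact h1.trans (by gcongr)
    _ = C ^ 2 * ((2 : ℝ≥0∞) ^ (-((j : ℝ) * α * (p / 2)))) ^ 2 * hlm (gmaj φ α (p / 2) u) x ^ 2 := by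
        ring
    _ = _ := by
        congr 2
        rw [← ENNReal.rpow_natCast, ← ENNReal.rpow_mul, ← ENNReal.rpow_natCast, ← ENNReal.rpow_mul]
        congr 1
        push_cast
        ring

/-- the majorant is controlled by the Hardy-Bessel quasi-norm -/
theorem lintegral_gmaj_le {φ : E n → ℝ} {α p : ℝ} (hp : 0 < p) (u : E n → ℂ) :
    ∫⁻ x, gmaj φ α (p / 2) u x ^ 2 ≤ hardy φ α p u := by
  unfold hardy
  refine lintegral_mono fun x => ?_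
  have h1 : gmaj φ α (p / 2) u x ≤
      ((∑' j : ℕ, ((2 : ℝ≥0∞) ^ ((j : ℝ) * α) * ‖piece φ j u x‖ₑ) ^ 2) ^ (p / 2)) ^ (1 / 2 : ℝ) := by
    refine iSup_le fun j => ?_
    have he : ∀ S : ℝ≥0∞, (S ^ (p / 2)) ^ (1 / 2 : ℝ) = (S ^ (1 / 2 : ℝ)) ^ (p / 2) := fun S => by
      rw [← ENNReal.rpow_mul, ← ENNReal.rpow_mul, mul_comm]
    rw [he]
    refine ENNReal.rpow_le_rpow ?_ (by positivity)
    have h2 := ENNReal.le_tsum (f := fun j : ℕ => ((2 : ℝ≥0∞) ^ ((j : ℝ) * α) * ‖piece φ j u x‖ₑ) ^ 2) j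
    calc (2 : ℝ≥0∞) ^ ((j : ℝ) * α) * ‖piece φ j u x‖ₑ =
          (((2 : ℝ≥0∞) ^ ((j : ℝ) * α) * ‖piece φ j u x‖ₑ) ^ 2) ^ (1 / 2 : ℝ) := by
          rw [← ENNReal.rpow_natCast, ← ENNReal.rpow_mul]
          norm_num
      _ ≤ _ := by gcongr
  calc gmaj φ α (p / 2) u x ^ 2 ≤ (((∑' j : ℕ, ((2 : ℝ≥0∞) ^ ((j : ℝ) * α) *
        ‖piece φ j u x‖ₑ) ^ 2) ^ (p / 2)) ^ (1 / 2 : ℝ)) ^ 2 := by gcongr
    _ = _ := by
        rw [← ENNReal.rpow_natCast, ← ENNReal.rpow_mul]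
        norm_num

end Pool.Agent.U556.BC
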