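import Pool.Agent.U556.BD4

set_option autoImplicit false

/-! Besov capacities, second part, 5: infima over dyadic cubes and the selection of a cover. -/

namespace Pool.Agent.U556.BC

open MeasureTheory Set Metric
open scoped ENNReal NNReal

variable {n : ℕ}

/-- infimum over the dyadic cube of level `j` containing `x` -/
noncomputable def cinf (H : E n → ℝ≥0∞) (j : ℕ) (x : E n) : ℝ≥0∞ := ⨅ y ∈ cube (j, idx j x), H y

/-- the increments of `cinf` -/
noncomputable def dinf (H : E n → ℝ≥0∞) : ℕ → E n → ℝ≥0∞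
  | 0, x => cinf H 0 x
  | (j + 1), x => cinf H (j + 1) x - cinf H j x

theorem cinf_mono (H : E n → ℝ≥0∞) (j : ℕ) (x : E n) : cinf H j x ≤ cinf H (j + 1) x := by
  refine le_iInf₂ fun y hy => ?_
  have h1 : cube (j + 1, idx (j + 1) x) ⊆ cube (j, idx j x) :=
    cube_subset (x := x) (by simp) rfl rfl
  exact iInf₂_le y (h1 hy)

theorem cinf_le (H : E n → ℝ≥0∞) (j : ℕ) (x : E n) : cinf H j x ≤ H x :=
  iInf₂_le (f := fun y (_ : y ∈ cube (j, idx j x)) => H y) x rfl

theorem sum_dinf (H : E n → ℝ≥0∞) (j : ℕ) (x : E n) :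
    ∑ l ∈ Finset.range (j + 1), dinf H l x = cinf H j x := by
  induction j with
  | zero => simp [dinf]
  | succ j ih =>
    rw [Finset.sum_range_succ, ih, dinf, add_tsub_cancel_of_le (cinf_mono H j x)]

theorem tsum_dinf_le (H : E n → ℝ≥0∞) (x : E n) : ∑' l, dinf H l x ≤ H x := by
  rw [ENNReal.tsum_eq_iSup_nat]
  refine iSup_le fun j => ?_
  rcases j with _ | j
  · simp
  · rw [sum_dinf]
    exact cinf_le H j x

theorem dinf_const (H : E n → ℝ≥0∞) (l : ℕ) {x y : E n} (h : idx l x = idx l y) :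
    dinf H l x = dinf H l y := by
  rcases l with _ | l
  · simp only [dinf, cinf, h]
  · have h2 : idx l x = idx l y := idx_mono (Nat.le_succ l) h
    simp only [dinf, cinf, h, h2]

theorem abel (H : E n → ℝ≥0∞) (β : ℝ≥0∞) (x : E n) :
    ∑' j : ℕ, β ^ j * cinf H j x = (∑' i : ℕ, β ^ i) * ∑' l : ℕ, β ^ l * dinf H l x := by
  have h1 : ∀ j : ℕ, β ^ j * cinf H j x = ∑' l : ℕ, if l ≤ j then β ^ j * dinf H l x else 0 := by
    intro j
    rw [← sum_dinf, Finset.mul_sum, tsum_eq_sum (s := Finset.range (j + 1))]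
    · apply Finset.sum_congr rfl
      intro l hl
      rw [Finset.mem_range] at hl
      rw [if_pos (by omega)]
    · intro l hl
      rw [Finset.mem_range] at hl
      rw [if_neg (by omega)]
  simp_rw [h1]
  rw [ENNReal.tsum_comm, ← ENNReal.tsum_mul_left]
  congr 1
  funext l
  rw [← (ENNReal.summable.sum_add_tsum_nat_add' (f := fun j : ℕ =>
    if l ≤ j then β ^ j * dinf H l x else 0) (k := l))]
  rw [Finset.sum_eq_zero, zero_add]
  · have h2 : ∀ i : ℕ, (if l ≤ i + l then β ^ (i + l) * dinf H l x else 0) =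
        β ^ i * (β ^ l * dinf H l x) := by
      intro i
      rw [if_pos (by omega), pow_add, mul_assoc]
    simp_rw [h2]
    rw [ENNReal.tsum_mul_right]
  · intro j hj
    rw [Finset.mem_range] at hj
    rw [if_neg (by omega)]

theorem measurable_of_const {g : E n → ℝ≥0∞} {l : ℕ} (hg : ∀ x y, idx l x = idx l y → g x = g y) :
    Measurable g := by
  have h1 : Measurable (idx l : E n → Fin n → ℤ) := by
    refine measurable_pi_iff.2 fun i => ?_
    have h2 : Measurable fun x : E n => (2 : ℝ) ^ l * x i := by fun_prop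
    exact Int.measurable_floor.comp h2
  have h3 : g = (fun m : Fin n → ℤ => g (corner (l, m))) ∘ idx l := by
    funext x
    simp only [Function.comp]
    apply hg
    exact (corner_mem (l, idx l x)).symm
  rw [h3]
  exact (Measurable.of_discrete).comp h1

theorem lintegral_const_cubes {g : E n → ℝ≥0∞} {l : ℕ}
    (hg : ∀ x y, idx l x = idx l y → g x = g y) :
    ∫⁻ x, g x = ∑' m : Fin n → ℤ, g (corner (l, m)) * volume (cube (l, m)) := by
  have hU : (univ : Set (E n)) = ⋃ m : Fin n → ℤ, cube (l, m) := by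
    ext x
    simp only [mem_univ, mem_iUnion, true_iff]
    exact ⟨idx l x, rfl⟩
  have hd : Pairwise (Function.onFun Disjoint fun m : Fin n → ℤ => cube (l, m)) := by
    intro m m' hm
    rw [Function.onFun, Set.disjoint_left]
    intro x hx hx'
    apply hm
    rw [← show idx l x = m from hx, ← show idx l x = m' from hx']
  rw [← setLIntegral_univ, hU, lintegral_iUnion (fun m => measurableSet_cube _) hd]
  congr 1
  funext m
  rw [← setLIntegral_const]
  apply setLIntegral_congr_fun (measurableSet_cube _)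
  intro x hx
  apply hg
  rw [show idx l x = m from hx]
  exact (corner_mem (l, m)).symm

/-- **Selection of a cover** from a fractional cover by dyadic cubes. -/
theorem exists_cover (a : ℕ → E n → ℝ≥0∞) (ha : ∀ l x y, idx l x = idx l y → a l x = a l y)
    (K : Set (E n)) (hK : ∀ x ∈ K, 1 ≤ ∑' l, a l x) (w : ℕ → ℝ≥0∞) :
    ∃ G : Set (ℕ × (Fin n → ℤ)), K ⊆ ⋃ Q ∈ G, cube Q ∧
      ∑' Q : G, w (Q : ℕ × (Fin n → ℤ)).1 ≤
        ∑' Q : ℕ × (Fin n → ℤ), w Q.1 * a Q.1 (corner Q) := by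
  classical
  set S : ℕ → E n → ℝ≥0∞ := fun l x => ∑ i ∈ Finset.range l, a i x with hS
  set G : ℝ → Set (ℕ × (Fin n → ℤ)) := fun t =>
    {Q | S Q.1 (corner Q) < ENNReal.ofReal t ∧ ENNReal.ofReal t ≤ S (Q.1 + 1) (corner Q)} with hG
  have hcov : ∀ t ∈ Ioo (0 : ℝ) 1, K ⊆ ⋃ Q ∈ G t, cube Q := by
    intro t ht x hx
    have h1 : ENNReal.ofReal t < ∑' l, a l x := by
      refine lt_of_lt_of_le ?_ (hK x hx)
      rw [← ENNReal.ofReal_one, ENNReal.ofReal_lt_ofReal_iff one_pos]
      exact ht.2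
    rw [ENNReal.tsum_eq_iSup_nat, lt_iSup_iff] at h1
    obtain ⟨l₀, hl₀⟩ := h1
    have hex : ∃ l, ENNReal.ofReal t ≤ S l x := ⟨l₀, hl₀.le⟩
    have hspec := Nat.find_spec hex
    have hmin := fun m => Nat.find_min (H := hex) (m := m)
    set l := Nat.find hex with hl
    have hl0 : l ≠ 0 := by
      intro h0
      rw [h0] at hspec
      simp only [hS, Finset.range_zero, Finset.sum_empty, nonpos_iff_eq_zero,
        ENNReal.ofReal_eq_zero] at hspec
      linarith [ht.1]
    obtain ⟨k, hk⟩ := Nat.exists_eq_succ_of_ne_zero hl0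
    have h2 := hmin k (by omega)
    rw [not_le] at h2
    rw [hk] at hspec
    have hSc : ∀ i ≤ k + 1, S i (corner (k, idx k x)) = S i x := by
      intro i hi
      simp only [hS]
      apply Finset.sum_congr rfl
      intro b hb
      rw [Finset.mem_range] at hb
      apply ha
      apply idx_mono (show b ≤ k by omega)
      exact corner_mem (k, idx k x)
    refine mem_iUnion₂.2 ⟨(k, idx k x), ⟨?_, ?_⟩, rfl⟩
    · simp only
      rw [hSc k (by omega)]
      exact h2
    · simp only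
      rw [hSc (k + 1) le_rfl]
      exact hspec
  set f : ℝ → ℝ≥0∞ := fun t => ∑' Q : ℕ × (Fin n → ℤ), (G t).indicator (fun Q => w Q.1) Q with hf
  have hms : ∀ Q : ℕ × (Fin n → ℤ), MeasurableSet {t | Q ∈ G t} := by
    intro Q
    exact (measurableSet_lt measurable_const ENNReal.measurable_ofReal).inter
      (measurableSet_le ENNReal.measurable_ofReal measurable_const)
  have hfe : ∀ t, f t = ∑' Q : ℕ × (Fin n → ℤ), ({t | Q ∈ G t}).indicator (fun _ => w Q.1) t := by
    intro t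
    simp only [hf]
    congr 1
  have hfm : Measurable f := by
    have : f = fun t => ∑' Q : ℕ × (Fin n → ℤ), ({t | Q ∈ G t}).indicator (fun _ => w Q.1) t :=
      funext hfe
    rw [this]
    exact Measurable.ennreal_tsum fun Q => measurable_const.indicator (hms Q)
  have hvol : ∀ Q : ℕ × (Fin n → ℤ), volume ({t | Q ∈ G t} ∩ Ioo 0 1) ≤ a Q.1 (corner Q) := by
    intro Q
    have hS1 : S (Q.1 + 1) (corner Q) = S Q.1 (corner Q) + a Q.1 (corner Q) := by
      simp only [hS]
      rw [Finset.sum_range_succ]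
    by_cases hat : a Q.1 (corner Q) = ⊤
    · rw [hat]
      exact le_top
    by_cases hSt : S Q.1 (corner Q) = ⊤
    · have : {t | Q ∈ G t} = ∅ := by
        ext t
        simp only [hG, mem_ofPred_eq, mem_empty_iff_false, iff_false]
        rintro ⟨h, _⟩
        rw [hSt] at h
        exact absurd h not_top_lt
      rw [this]
      simp
    · have hsub : {t | Q ∈ G t} ∩ Ioo 0 1 ⊆ Icc (S Q.1 (corner Q)).toReal
          ((S Q.1 (corner Q)).toReal + (a Q.1 (corner Q)).toReal) := by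
        rintro t ⟨⟨h1, h2⟩, h3⟩
        have ht0 : 0 ≤ t := h3.1.le
        constructor
        · have := ENNReal.toReal_mono ENNReal.ofReal_ne_top h1.le
          rwa [ENNReal.toReal_ofReal ht0] at this
        · rw [hS1] at h2
          have := ENNReal.toReal_mono (ENNReal.add_ne_top.2 ⟨hSt, hat⟩) h2
          rwa [ENNReal.toReal_ofReal ht0, ENNReal.toReal_add hSt hat] at this
      refine (measure_mono hsub).trans ?_
      rw [Real.volume_Icc, add_sub_cancel_left, ENNReal.ofReal_toReal hat]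
  obtain ⟨t, ht, hft⟩ := exists_le_setLAverage (μ := (volume : Measure ℝ)) (s := Ioo (0 : ℝ) 1)
    (f := f) (by rw [Real.volume_Ioo]; simp) (by rw [Real.volume_Ioo]; simp) hfm.aemeasurable
  refine ⟨G t, hcov t ht, ?_⟩
  have h1 : ∑' Q : G t, w (Q : ℕ × (Fin n → ℤ)).1 = f t :=
    tsum_subtype (G t) (fun Q : ℕ × (Fin n → ℤ) => w Q.1)
  rw [h1]
  refine hft.trans ?_
  rw [setLAverage_eq, Real.volume_Ioo, sub_zero, ENNReal.ofReal_one, div_one]
  simp_rw [hfe]
  rw [lintegral_tsum fun Q => (measurable_const.indicator (hms Q)).aemeasurable]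
  refine ENNReal.tsum_le_tsum fun Q => ?_
  rw [lintegral_indicator (hms Q), setLIntegral_const, Measure.restrict_apply (hms Q)]
  gcongr
  exact hvol Q

/-- Sets with small dyadic covers are null. -/
theorem hausdorff_null {s : ℝ} (hs : 0 < s) (K : Set (E n))
    (h : ∀ ε : ℝ≥0∞, 0 < ε → ∃ G : Set (ℕ × (Fin n → ℤ)), K ⊆ ⋃ Q ∈ G, cube Q ∧
      ∑' Q : G, (2 : ℝ≥0∞) ^ (-(s * ((Q : ℕ × (Fin n → ℤ)).1 : ℝ))) ≤ ε) : μH[s] K = 0 := by
  choose! G hG1 hG2 using h
  have hε : ∀ k : ℕ, (0 : ℝ≥0∞) < (2⁻¹) ^ k := fun k => ENNReal.pow_pos (by norm_num) k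
  have hdiam : ∀ Q : ℕ × (Fin n → ℤ), ediam (cube Q) ≤ ENNReal.ofReal √n * (2 : ℝ≥0∞) ^ (-(Q.1 : ℝ)) := by
    intro Q
    refine ediam_le fun x hx y hy => ?_
    have h1 : ‖x - y‖ ≤ √n * ((2 : ℝ) ^ Q.1)⁻¹ := by
      apply norm_le_of_coord (by positivity)
      intro i
      have h2 := coord_lt hx hy i
      show |x i - y i| ≤ _
      rw [← one_div, le_div_iff₀ (by positivity), mul_comm]
      exact h2.le
    rw [edist_dist, dist_eq_norm]
    refine (ENNReal.ofReal_le_ofReal h1).trans (le_of_eq ?_)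
    rw [ENNReal.ofReal_mul (Real.sqrt_nonneg _), ENNReal.ofReal_inv_of_pos (by positivity),
      ENNReal.rpow_neg, ENNReal.rpow_natCast, ENNReal.ofReal_pow (by norm_num)]
    simp
  have hpow : ∀ Q : ℕ × (Fin n → ℤ), ((2 : ℝ≥0∞) ^ (-(s * (Q.1 : ℝ)))) ^ (1 / s) =
      (2 : ℝ≥0∞) ^ (-(Q.1 : ℝ)) := by
    intro Q
    rw [← ENNReal.rpow_mul]
    congr 1
    field_simp
  have h1 := Measure.hausdorffMeasure_le_liminf_tsum (ι := fun k : ℕ => (G ((2⁻¹) ^ k) : Set (ℕ × (Fin n → ℤ))))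
    s K (l := Filter.atTop) (fun k : ℕ => ENNReal.ofReal √n * ((2⁻¹ : ℝ≥0∞) ^ k) ^ (1 / s)) ?_
    (fun k Q => cube (Q : ℕ × (Fin n → ℤ))) ?_ ?_
  · refine le_antisymm (h1.trans ?_) bot_le
    have h2 : ∀ k : ℕ, ∑' Q : G ((2⁻¹) ^ k), ediam (cube (Q : ℕ × (Fin n → ℤ))) ^ s ≤
        ENNReal.ofReal √n ^ s * (2⁻¹) ^ k := by
      intro k
      calc ∑' Q : G ((2⁻¹) ^ k), ediam (cube (Q : ℕ × (Fin n → ℤ))) ^ s
          ≤ ∑' Q : G ((2⁻¹) ^ k), ENNReal.ofReal √n ^ s *
            (2 : ℝ≥0∞) ^ (-(s * ((Q : ℕ × (Fin n → ℤ)).1 : ℝ))) := by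
            refine ENNReal.tsum_le_tsum fun Q => ?_
            refine (ENNReal.rpow_le_rpow (hdiam Q) hs.le).trans (le_of_eq ?_)
            rw [ENNReal.mul_rpow_of_nonneg _ _ hs.le, ← ENNReal.rpow_mul]
            congr 2
            ring
        _ = ENNReal.ofReal √n ^ s * ∑' Q : G ((2⁻¹) ^ k),
            (2 : ℝ≥0∞) ^ (-(s * ((Q : ℕ × (Fin n → ℤ)).1 : ℝ))) := ENNReal.tsum_mul_left
        _ ≤ _ := by
            gcongr
            exact hG2 _ (hε k)
    have h3 : Filter.Tendsto (fun k : ℕ => ENNReal.ofReal √n ^ s * (2⁻¹ : ℝ≥0∞) ^ k)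
        Filter.atTop (nhds (ENNReal.ofReal √n ^ s * 0)) :=
      ENNReal.Tendsto.const_mul (ENNReal.tendsto_pow_atTop_nhds_zero_of_lt_one
        (ENNReal.inv_lt_one.2 (by norm_num)))
        (Or.inr (ENNReal.rpow_ne_top_of_nonneg hs.le ENNReal.ofReal_ne_top))
    rw [mul_zero] at h3
    exact (Filter.liminf_le_liminf (Filter.Eventually.of_forall h2)).trans h3.liminf_eq.le
  · have h3 : Filter.Tendsto (fun k : ℕ => ((2⁻¹ : ℝ≥0∞) ^ k) ^ (1 / s)) Filter.atTop
        (nhds ((0 : ℝ≥0∞) ^ (1 / s))) :=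
      ((ENNReal.continuous_rpow_const (y := 1 / s)).tendsto 0).comp
        (ENNReal.tendsto_pow_atTop_nhds_zero_of_lt_one (ENNReal.inv_lt_one.2 (by norm_num)))
    rw [ENNReal.zero_rpow_of_pos (by positivity)] at h3
    have h4 := ENNReal.Tendsto.const_mul (a := ENNReal.ofReal √n) h3 (Or.inr ENNReal.ofReal_ne_top)
    rwa [mul_zero] at h4
  · refine Filter.Eventually.of_forall fun k Q => ?_
    refine (hdiam _).trans ?_
    gcongr
    rw [← hpow]
    gcongr
    exact (ENNReal.le_tsum Q).trans (hG2 _ (hε k))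
  · refine Filter.Eventually.of_forall fun k => ?_
    refine (hG1 _ (hε k)).trans ?_
    rw [biUnion_eq_iUnion]

end Pool.Agent.U556.BC
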