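import Pool.Agent.U556.BD5

set_option autoImplicit false

/-! Besov capacities, second part, 6: sets of vanishing Hardy-Bessel capacity. -/

namespace Pool.Agent.U556.BC

open MeasureTheory FourierTransform SchwartzMap Set Metric
open scoped ENNReal NNReal ContDiff RealInnerProductSpace

variable {n : ℕ}

/-- **The discrete trace inequality.** -/
theorem trace_bound {φ : E n → ℝ} (hφ : IsCutoff φ) (hn : 1 ≤ n) {α p : ℝ} (hα : 0 < α)
    (hp : 0 < p) (hp1 : p ≤ 1) : ∃ C : ℝ≥0∞, C ≠ 0 ∧ C ≠ ⊤ ∧ ∀ u : 𝓢(E n, ℂ),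
      ∃ d : ℕ → E n → ℝ≥0∞, (∀ l x y, idx l x = idx l y → d l x = d l y) ∧
        (∀ x, ‖u x‖ₑ ^ p ≤ C * ∑' l : ℕ, ((2 : ℝ≥0∞) ^ (-(α * p))) ^ l * d l x) ∧
        ∑' l : ℕ, ∫⁻ x, d l x ≤ C * hardy φ α p u := by
  obtain ⟨C₁, hC₁, hpiece⟩ := piece_le hφ (α := α) hp hp1
  set β : ℝ≥0∞ := (2 : ℝ≥0∞) ^ (-(α * p)) with hβ
  have hβ0 : β ≠ 0 := (ENNReal.rpow_pos (by norm_num) (by norm_num)).ne'
  have hβ1 : β < 1 := ENNReal.rpow_lt_one_of_one_lt_of_neg (by norm_num) (by nlinarith)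
  have hβt : β ≠ ⊤ := (hβ1.trans ENNReal.one_lt_top).ne
  have hB : ∑' i : ℕ, β ^ i ≠ ⊤ := by
    rw [ENNReal.tsum_geometric]
    exact ENNReal.inv_ne_top.2 (tsub_pos_of_lt hβ1).ne'
  refine ⟨(C₁ + 1) * ∑' i : ℕ, β ^ i + 32 * 4 ^ n, ?_, ?_, fun u => ?_⟩
  · positivity
  · exact ENNReal.add_ne_top.2 ⟨ENNReal.mul_ne_top (ENNReal.add_ne_top.2 ⟨hC₁, ENNReal.one_ne_top⟩) hB,
      ENNReal.mul_ne_top (by norm_num) (ENNReal.pow_ne_top (by norm_num))⟩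
  set H : E n → ℝ≥0∞ := fun x => hlm (gmaj φ α (p / 2) u) x ^ 2 with hH
  refine ⟨dinf H, fun l x y h => dinf_const H l h, fun x => ?_, ?_⟩
  · have h1 : ∀ j : ℕ, ‖piece φ j u x‖ₑ ^ p ≤ (C₁ + 1) * (β ^ j * cinf H j x) := by
      intro j
      have hc0 : (C₁ + 1) * β ^ j ≠ 0 := mul_ne_zero (by positivity) (pow_ne_zero _ hβ0)
      have hct : (C₁ + 1) * β ^ j ≠ ⊤ := ENNReal.mul_ne_top
        (ENNReal.add_ne_top.2 ⟨hC₁, ENNReal.one_ne_top⟩) (ENNReal.pow_ne_top hβt)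
      rw [← mul_assoc, ← ENNReal.inv_mul_le_iff hc0 hct, cinf]
      refine le_iInf₂ fun y hy => ?_
      rw [ENNReal.inv_mul_le_iff hc0 hct]
      refine (hpiece u j y x hy).trans ?_
      simp only [hH]
      gcongr
      exact le_self_add
    calc ‖u x‖ₑ ^ p ≤ (∑' j : ℕ, ‖piece φ j u x‖ₑ) ^ p := by
          gcongr
          exact enorm_le_tsum_piece hφ u x
      _ ≤ ∑' j : ℕ, ‖piece φ j u x‖ₑ ^ p := tsum_rpow_le hp hp1 _
      _ ≤ ∑' j : ℕ, (C₁ + 1) * (β ^ j * cinf H j x) := ENNReal.tsum_le_tsum h1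
      _ = (C₁ + 1) * (∑' i : ℕ, β ^ i) * ∑' l : ℕ, β ^ l * dinf H l x := by
          rw [ENNReal.tsum_mul_left, abel, mul_assoc]
      _ ≤ _ := by
          gcongr
          exact le_self_add
  · rw [← lintegral_tsum fun l => (measurable_of_const fun x y h => dinf_const H l h).aemeasurable]
    calc ∫⁻ x, ∑' l, dinf H l x ≤ ∫⁻ x, H x := lintegral_mono fun x => tsum_dinf_le H x
      _ ≤ 32 * 4 ^ n * ∫⁻ x, gmaj φ α (p / 2) u x ^ 2 := hlm_sq hn (measurable_gmaj hφ α (p / 2) u)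
      _ ≤ 32 * 4 ^ n * hardy φ α p u := by
          gcongr
          exact lintegral_gmaj_le hp u
      _ ≤ _ := by
          gcongr
          exact le_add_self

theorem exists_of_capB {D : Set 𝓢(E n, ℂ)} {φ : E n → ℝ} {α p : ℝ} {K : Set (E n)}
    (h : capB D φ α p K = 0)
    {δ : ℝ≥0∞} (hδ : 0 < δ) : ∃ u : 𝓢(E n, ℂ), (∀ x ∈ K, 1 ≤ (u x).re) ∧ hardy φ α p u < δ := by
  rw [← h, capB] at hδ
  rw [iInf_lt_iff] at hδ
  obtain ⟨u, hu⟩ := hδ
  rw [iInf_lt_iff] at hu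
  obtain ⟨_, hu⟩ := hu
  rw [iInf_lt_iff] at hu
  obtain ⟨_, hu⟩ := hu
  rw [iInf_lt_iff] at hu
  obtain ⟨h2, hu⟩ := hu
  exact ⟨u, h2, hu⟩

theorem one_le_enorm {z : ℂ} (h : 1 ≤ z.re) {p : ℝ} (hp : 0 < p) : 1 ≤ ‖z‖ₑ ^ p := by
  have h1 : (1 : ℝ≥0∞) ≤ ‖z‖ₑ := by
    rw [← ofReal_norm, ENNReal.one_le_ofReal]
    exact h.trans (Complex.re_le_norm z)
  calc (1 : ℝ≥0∞) = 1 ^ p := (ENNReal.one_rpow p).symm
    _ ≤ _ := ENNReal.rpow_le_rpow h1 hp.le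

/-- **Null sets of `B_{α,p}` are null for the Hausdorff measure.** -/
theorem hausdorff_of_capB {φ : E n → ℝ} (hφ : IsCutoff φ) (hn : 1 ≤ n) {α p : ℝ} (hα : 0 < α)
    (hp : 0 < p) (hp1 : p ≤ 1) (hαp : α * p < n) {D : Set 𝓢(E n, ℂ)} {K : Set (E n)}
    (h0 : capB D φ α p K = 0) :
    μH[n - α * p] K = 0 := by
  obtain ⟨C, hC0, hCt, hC⟩ := trace_bound hφ hn hα hp hp1
  apply hausdorff_null (by linarith)
  intro ε hε
  have hδ : 0 < ε / (C * C) := ENNReal.div_pos hε.ne' (ENNReal.mul_ne_top hCt hCt)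
  obtain ⟨u, hu1, hu2⟩ := exists_of_capB h0 hδ
  obtain ⟨d, hd1, hd2, hd3⟩ := hC u
  set β : ℝ≥0∞ := (2 : ℝ≥0∞) ^ (-(α * p)) with hβ
  obtain ⟨G, hG1, hG2⟩ := exists_cover (fun l x => C * (β ^ l * d l x))
    (fun l x y h => by rw [hd1 l x y h]) K (fun x hx => by
      rw [ENNReal.tsum_mul_left]
      exact (one_le_enorm (hu1 x hx) hp).trans (hd2 x))
    (fun l => (2 : ℝ≥0∞) ^ (-((n - α * p) * (l : ℝ))))
  refine ⟨G, hG1, hG2.trans ?_⟩
  calc ∑' Q : ℕ × (Fin n → ℤ), (2 : ℝ≥0∞) ^ (-((n - α * p) * (Q.1 : ℝ))) *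
        (C * (β ^ Q.1 * d Q.1 (corner Q)))
      = ∑' Q : ℕ × (Fin n → ℤ), C * (d Q.1 (corner Q) * volume (cube Q)) := by
        congr 1
        funext Q
        have h1 : (2 : ℝ≥0∞) ^ (-((n - α * p) * (Q.1 : ℝ))) * β ^ Q.1 = volume (cube Q) := by
          rw [volume_cube, hβ, ← ENNReal.rpow_natCast, ← ENNReal.rpow_mul,
            ← ENNReal.rpow_add _ _ (by norm_num) (by norm_num),
            ← ENNReal.ofReal_rpow_of_pos (by norm_num)]
          congr 1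
          · simp
          · ring
        rw [← h1]
        ring
    _ = C * ∑' l : ℕ, ∫⁻ x, d l x := by
        rw [ENNReal.tsum_mul_left, ENNReal.tsum_prod']
        congr 2
        funext l
        rw [lintegral_const_cubes (hd1 l)]
    _ ≤ C * (C * (ε / (C * C))) := by
        gcongr
        exact hd3.trans (by gcongr)
    _ = ε := by
        rw [← mul_assoc, ENNReal.mul_div_cancel (mul_ne_zero hC0 hC0) (ENNReal.mul_ne_top hCt hCt)]

/-- For `αp ≥ n` only the empty set has vanishing capacity. -/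
theorem empty_of_capB {φ : E n → ℝ} (hφ : IsCutoff φ) (hn : 1 ≤ n) {α p : ℝ} (hα : 0 < α)
    (hp : 0 < p) (hp1 : p ≤ 1) (hαp : n ≤ α * p) {D : Set 𝓢(E n, ℂ)} {K : Set (E n)}
    (h0 : capB D φ α p K = 0) :
    K = ∅ := by
  obtain ⟨C, hC0, hCt, hC⟩ := trace_bound hφ hn hα hp hp1
  by_contra hne
  obtain ⟨x, hx⟩ := Set.nonempty_iff_ne_empty.2 hne
  have hδ : 0 < 1 / (C * C) := ENNReal.div_pos one_ne_zero (ENNReal.mul_ne_top hCt hCt)
  obtain ⟨u, hu1, hu2⟩ := exists_of_capB h0 hδ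
  obtain ⟨d, hd1, hd2, hd3⟩ := hC u
  have h1 : ∀ l : ℕ, ((2 : ℝ≥0∞) ^ (-(α * p))) ^ l * d l x ≤ ∫⁻ x, d l x := by
    intro l
    rw [lintegral_const_cubes (hd1 l)]
    refine le_trans ?_ (ENNReal.le_tsum (idx l x))
    rw [hd1 l x (corner (l, idx l x)) (corner_mem (l, idx l x)).symm, mul_comm]
    gcongr
    rw [volume_cube, ← ENNReal.rpow_natCast, ← ENNReal.rpow_mul,
      ← ENNReal.ofReal_rpow_of_pos (by norm_num)]
    have : ENNReal.ofReal 2 = 2 := by simp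
    rw [this]
    apply ENNReal.rpow_le_rpow_of_exponent_le (by norm_num)
    have : (0 : ℝ) ≤ l := Nat.cast_nonneg l
    simp only
    nlinarith
  have h2 : (1 : ℝ≥0∞) ≤ C * (C * hardy φ α p u) :=
    calc (1 : ℝ≥0∞) ≤ _ := (one_le_enorm (hu1 x hx) hp).trans (hd2 x)
      _ ≤ C * ∑' l : ℕ, ∫⁻ x, d l x := by
          gcongr with l
          exact h1 l
      _ ≤ _ := by gcongr
  have h3 : C * (C * hardy φ α p u) < 1 := by
    rw [← mul_assoc, mul_comm]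
    rw [ENNReal.lt_div_iff_mul_lt (Or.inl (mul_ne_zero hC0 hC0)) (Or.inl (ENNReal.mul_ne_top hCt hCt))]
      at hu2
    exact hu2
  exact absurd h2 (not_le.2 h3)

/-- **Main theorem.** -/
theorem main {φ : E n → ℝ} (hφ : IsCutoff φ) (hn : 1 ≤ n) {α p : ℝ} (hα : 0 < α)
    (hp : 0 < p) (hp1 : p < 1) {D : Set 𝓢(E n, ℂ)}
    (hD : ∀ u : 𝓢(E n, ℂ), HasCompactSupport u → u ∈ D) {K : Set (E n)} (hK : IsCompact K) :
    (capA D φ α p K = 0 ↔ capB D φ α p K = 0) ∧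
    (α * p < n → (capA D φ α p K = 0 ↔ μH[n - α * p] K = 0)) ∧
    (n ≤ α * p → (capA D φ α p K = 0 ↔ K = ∅)) := by
  have hAB : capA D φ α p K = 0 → capB D φ α p K = 0 := fun h =>
    le_antisymm ((capB_le_capA hφ hp hp1.le D K).trans h.le) bot_le
  have hemp : capA D φ α p (∅ : Set (E n)) = 0 := by
    refine le_antisymm ((capA_le (0 : 𝓢(E n, ℂ)) (hD 0 ?_) (fun x => rfl) (fun x hx => absurd hx
      (Set.notMem_empty x))).trans ?_) bot_le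
    · exact HasCompactSupport.zero
    · rw [besov_zero hφ hp]
  refine ⟨⟨hAB, fun h => ?_⟩, fun hαp => ⟨fun h => hausdorff_of_capB hφ hn hα hp hp1.le hαp (hAB h),
    fun h => capA_eq_zero hφ hα hp hp1 hαp hK h hD⟩, fun hαp => ⟨fun h =>
      empty_of_capB hφ hn hα hp hp1.le hαp (hAB h), fun h => ?_⟩⟩
  · rcases lt_or_ge (α * p) n with hαp | hαp
    · exact capA_eq_zero hφ hα hp hp1 hαp hK (hausdorff_of_capB hφ hn hα hp hp1.le hαp h) hD
    · rw [empty_of_capB hφ hn hα hp hp1.le hαp h]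
      exact hemp
  · rw [h]
    exact hemp

/-- Admissible cutoff functions exist. -/
theorem exists_isCutoff (n : ℕ) : ∃ φ : E n → ℝ, IsCutoff φ := by
  let f : ContDiffBump (0 : E n) := ⟨1, 2, one_pos, one_lt_two⟩
  refine ⟨f, f.contDiff, fun ξ hξ => f.one_of_mem_closedBall ?_, fun ξ hξ => f.zero_of_le_dist ?_⟩
  · rw [mem_closedBall_zero_iff]
    exact hξ
  · rw [dist_zero_right]
    exact hξ

end Pool.Agent.U556.BC
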