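import Mathlib

/-!
# Subharmonic functions, the extremal function of a compact set, and the unit circle
-/

open MeasureTheory Filter Topology Set Real InnerProductSpace

noncomputable section

namespace U556.BW

/-- Subharmonic (for `n = 1`: plurisubharmonic) functions on `ℂ` with values in `[-∞, ∞)`, the function
identically `-∞` being allowed (Hörmander's definition): `u` is upper semicontinuous, never `+∞`, and for
every compact `Q` and every real function `h` continuous on `Q` and harmonic in the interior of `Q`,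
`u ≤ h` on the boundary of `Q` implies `u ≤ h` on `Q`. -/
def Subharmonic (u : ℂ → EReal) : Prop :=
  UpperSemicontinuous u ∧ (∀ z, u z ≠ ⊤) ∧
    ∀ (Q : Set ℂ) (h : ℂ → ℝ), IsCompact Q → ContinuousOn h Q → HarmonicOnNhd h (interior Q) →
      (∀ z ∈ frontier Q, u z ≤ (h z : EReal)) → ∀ z ∈ Q, u z ≤ (h z : EReal)

/-- The Siciak–Zaharjuta extremal function of `K ⊆ ℂ`:
`V_K(z) = sup {u(z) : u psh on ℂ, u(ζ) ≤ log⁺|ζ| + O(1), u ≤ 0 on K}`. -/
def extremalFunction (K : Set ℂ) (z : ℂ) : EReal :=
  sSup {t : EReal | ∃ u : ℂ → EReal, Subharmonic u ∧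
    (∃ C : ℝ, ∀ w, u w ≤ ((log⁺ ‖w‖ + C : ℝ) : EReal)) ∧ (∀ w ∈ K, u w ≤ 0) ∧ t = u z}

/-- sub-mean value property of `log⁺|z|` -/
lemma posLog_le_circleAverage (c : ℂ) {r : ℝ} (hr : 0 < r) :
    log⁺ ‖c‖ ≤ circleAverage (fun z : ℂ => log⁺ ‖z‖) c r := by
  have hcont : Continuous (fun z : ℂ => log⁺ ‖z‖) := by
    exact Real.continuous_posLog.comp continuous_norm
  have hci : CircleIntegrable (fun z : ℂ => log⁺ ‖z‖) c r :=
    hcont.continuousOn.circleIntegrable hr.le
  have h0 : 0 ≤ circleAverage (fun z : ℂ => log⁺ ‖z‖) c r := by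
    apply Real.circleAverage_nonneg_of_nonneg
    intro x _
    exact Real.posLog_nonneg
  have h1 : circleAverage (fun z : ℂ => Real.log ‖z - 0‖) c r ≤
      circleAverage (fun z : ℂ => log⁺ ‖z‖) c r := by
    apply Real.circleAverage_mono
    · exact circleIntegrable_log_norm_sub_const r
    · exact hci
    · intro x _
      simp only [sub_zero]
      exact le_max_right _ _
  rw [circleAverage_log_norm_sub_const_eq_log_radius_add_posLog hr.ne'] at h1
  by_cases hc : c = 0
  · subst hc
    simpa using h0
  · have hc' : 0 < ‖c‖ := norm_pos_iff.mpr hc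
    have h2 : Real.log ‖c‖ ≤ Real.log r + log⁺ (|r|⁻¹ * ‖c - 0‖) := by
      have : Real.log (|r|⁻¹ * ‖c - 0‖) ≤ log⁺ (|r|⁻¹ * ‖c - 0‖) := le_max_right _ _
      rw [abs_of_pos hr, sub_zero, Real.log_mul (by positivity) hc'.ne', Real.log_inv] at this
      rw [abs_of_pos hr, sub_zero]
      linarith
    rw [Real.posLog_apply]
    rw [abs_of_pos hr] at h2
    exact max_le h0 (h2.trans h1)

/-- A continuous real function with the sub-mean value property is subharmonic. -/
lemma subharmonic_of_mean (g : ℂ → ℝ) (hg : Continuous g)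
    (hmean : ∀ (c : ℂ) (r : ℝ), 0 < r → g c ≤ circleAverage g c r) :
    Subharmonic (fun z => (g z : EReal)) := by
  refine ⟨?_, fun z => EReal.coe_ne_top _, ?_⟩
  · exact (continuous_coe_real_ereal.comp hg).upperSemicontinuous
  intro Q h hQ hh hharm hbd z₀ hz₀
  rw [EReal.coe_le_coe_iff]
  by_contra hlt
  push Not at hlt
  have hvc : ContinuousOn (fun z => g z - h z) Q := hg.continuousOn.sub hh
  obtain ⟨z₁, hz₁, hmax⟩ := hQ.exists_isMaxOn ⟨z₀, hz₀⟩ hvc
  set M : ℝ := g z₁ - h z₁ with hM
  have hMpos : 0 < M := by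
    have := hmax hz₀
    simp only [Set.mem_ofPred_eq] at this
    linarith
  -- maximisers
  have hFcl : IsCompact (Q ∩ (fun z => g z - h z) ⁻¹' {M}) := by
    apply hQ.of_isClosed_subset _ inter_subset_left
    exact hvc.preimage_isClosed_of_isClosed hQ.isClosed isClosed_singleton
  obtain ⟨z₂, ⟨hz₂Q, hz₂M⟩, hre⟩ := hFcl.exists_isMaxOn ⟨z₁, hz₁, rfl⟩
    Complex.continuous_re.continuousOn
  simp only [mem_preimage, mem_singleton_iff] at hz₂M
  have hz₂i : z₂ ∈ interior Q := by
    by_contra hni
    have hfr : z₂ ∈ frontier Q := by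
      rw [hQ.isClosed.frontier_eq]
      exact ⟨hz₂Q, hni⟩
    have := hbd z₂ hfr
    rw [EReal.coe_le_coe_iff] at this
    linarith
  obtain ⟨r, hr, hball⟩ := Metric.isOpen_iff.mp isOpen_interior z₂ hz₂i
  set s : ℝ := r / 2 with hs
  have hs0 : 0 < s := by positivity
  have hcb : Metric.closedBall z₂ s ⊆ interior Q :=
    (Metric.closedBall_subset_ball (by rw [hs]; linarith)).trans hball
  have hhm : circleAverage h z₂ s = h z₂ := by
    apply InnerProductSpace.HarmonicOnNhd.circleAverage_eq
    intro w hw
    rw [abs_of_pos hs0] at hw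
    exact hharm w (hcb hw)
  have hsub : Metric.sphere z₂ |s| ⊆ Q := by
    rw [abs_of_pos hs0]
    exact (Metric.sphere_subset_closedBall.trans hcb).trans interior_subset
  have hgi : CircleIntegrable g z₂ s := hg.continuousOn.circleIntegrable hs0.le
  have hhi : CircleIntegrable h z₂ s := (hh.mono hsub).circleIntegrable'
  have hle : M ≤ circleAverage (fun z => g z - h z) z₂ s := by
    rw [circleAverage_fun_sub hgi hhi, hhm]
    have := hmean z₂ s hs0
    linarith
  -- strict inequality
  have hlt2 : circleAverage (fun z => g z - h z) z₂ s < M := by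
    have hcont : ContinuousOn (fun θ : ℝ => g (circleMap z₂ s θ) - h (circleMap z₂ s θ))
        (Icc 0 (2 * π)) := by
      apply ContinuousOn.comp (t := Metric.sphere z₂ |s|) (hvc.mono hsub)
        (continuous_circleMap z₂ s).continuousOn
      intro θ _
      exact circleMap_mem_sphere' z₂ s θ
    have hint : ∫ θ in (0 : ℝ)..(2 * π), (g (circleMap z₂ s θ) - h (circleMap z₂ s θ)) <
        ∫ θ in (0 : ℝ)..(2 * π), M := by
      apply intervalIntegral.integral_lt_integral_of_continuousOn_of_le_of_exists_lt
        Real.two_pi_pos hcont continuousOn_const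
      · intro θ _
        exact hmax (hsub (circleMap_mem_sphere' z₂ s θ))
      · refine ⟨0, ⟨le_rfl, Real.two_pi_pos.le⟩, ?_⟩
        have hmem : circleMap z₂ s 0 ∈ Q := hsub (circleMap_mem_sphere' z₂ s 0)
        refine lt_of_le_of_ne (hmax hmem) ?_
        intro heq
        have := hre (a := circleMap z₂ s 0) ⟨hmem, heq⟩
        simp only [Set.mem_ofPred_eq] at this
        have h3 : (circleMap z₂ s 0).re = z₂.re + s := by simp [circleMap]
        rw [h3] at this
        linarith
    rw [circleAverage_def]
    simp only [intervalIntegral.integral_const, sub_zero, smul_eq_mul] at hint ⊢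
    have h2π : (0 : ℝ) < (2 * π)⁻¹ := inv_pos.mpr Real.two_pi_pos
    calc (2 * π)⁻¹ * ∫ θ in (0 : ℝ)..(2 * π), (g (circleMap z₂ s θ) - h (circleMap z₂ s θ))
        < (2 * π)⁻¹ * (2 * π * M) := by
          apply mul_lt_mul_of_pos_left hint h2π
      _ = M := by field_simp
  linarith

lemma subharmonic_posLog : Subharmonic (fun z : ℂ => ((log⁺ ‖z‖ : ℝ) : EReal)) :=
  subharmonic_of_mean _ (Real.continuous_posLog.comp continuous_norm)
    fun c _ hr => posLog_le_circleAverage c hr

/-- Bernstein–Walsh for the unit circle: members of the class are `≤ log⁺|z|`. -/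
lemma le_posLog_of_class {u : ℂ → EReal} (hu : Subharmonic u) {C : ℝ}
    (hC : ∀ w, u w ≤ ((log⁺ ‖w‖ + C : ℝ) : EReal))
    (hK : ∀ w ∈ Metric.sphere (0 : ℂ) 1, u w ≤ 0) (z : ℂ) :
    u z ≤ ((log⁺ ‖z‖ : ℝ) : EReal) := by
  rcases le_or_gt ‖z‖ 1 with hz | hz
  · have h0 : log⁺ ‖z‖ = 0 := by
      rw [Real.posLog_eq_zero_iff, abs_of_nonneg (norm_nonneg z)]; exact hz
    rw [h0]
    have := hu.2.2 (Metric.closedBall 0 1) (fun _ => 0) (isCompact_closedBall _ _)
      continuousOn_const (fun w _ => harmonicAt_const 0) ?_ z (by simpa using hz)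
    · simpa using this
    · intro w hw
      rw [frontier_closedBall _ one_ne_zero] at hw
      simpa using hK w hw
  · have hlz : log⁺ ‖z‖ = Real.log ‖z‖ := by
      apply Real.posLog_eq_log
      rw [abs_of_nonneg (norm_nonneg z)]; exact hz.le
    have hlogpos : 0 < Real.log ‖z‖ := Real.log_pos hz
    -- for every ε
    have key : ∀ ε : ℝ, 0 < ε → u z ≤ (((1 + ε) * Real.log ‖z‖ : ℝ) : EReal) := by
      intro ε hε
      obtain ⟨R, hRz, hR1, hRC⟩ : ∃ R : ℝ, ‖z‖ < R ∧ 1 < R ∧ C ≤ ε * Real.log R := by
        refine ⟨max (‖z‖ + 1) (Real.exp (C / ε) + 1), ?_, ?_, ?_⟩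
        · exact lt_of_lt_of_le (lt_add_one _) (le_max_left _ _)
        · refine lt_of_lt_of_le ?_ (le_max_left _ _)
          linarith
        · have h1 : C / ε ≤ Real.log (max (‖z‖ + 1) (Real.exp (C / ε) + 1)) := by
            rw [Real.le_log_iff_exp_le (by positivity)]
            exact (le_of_lt (lt_add_one _)).trans (le_max_right _ _)
          calc C = ε * (C / ε) := by field_simp
            _ ≤ _ := mul_le_mul_of_nonneg_left h1 hε.le
      set Q : Set ℂ := Metric.closedBall 0 R \ Metric.ball 0 1 with hQdef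
      have hQc : IsCompact Q := (isCompact_closedBall _ _).diff Metric.isOpen_ball
      have hQ1 : ∀ w ∈ Q, 1 ≤ ‖w‖ := by
        intro w hw
        have := hw.2
        simp only [Metric.mem_ball, dist_zero_right, not_lt] at this
        exact this
      have hQne : ∀ w ∈ Q, w ≠ 0 := by
        intro w hw h0
        have := hQ1 w hw
        rw [h0, norm_zero] at this
        linarith
      have := hu.2.2 Q (fun w => (1 + ε) * Real.log ‖w‖) hQc ?_ ?_ ?_ z ?_
      · exact this
      · apply ContinuousOn.mul continuousOn_const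
        apply ContinuousOn.log continuous_norm.continuousOn
        intro w hw
        exact (norm_pos_iff.mpr (hQne w hw)).ne'
      · intro w hw
        have h1 : HarmonicAt (fun w : ℂ => Real.log ‖w‖) w :=
          AnalyticAt.harmonicAt_log_norm (f := fun w => w) analyticAt_id
            (hQne w (interior_subset hw))
        exact h1.const_smul (c := 1 + ε)
      · intro w hw
        have hwQ : w ∈ Q := hQc.isClosed.frontier_subset hw
        have hw' : ‖w‖ = 1 ∨ ‖w‖ = R := by
          by_contra hcon
          push Not at hcon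
          have hi : w ∈ interior Q := by
            rw [mem_interior]
            refine ⟨Metric.ball 0 R \ Metric.closedBall 0 1, ?_, ?_, ?_⟩
            · intro x hx
              exact ⟨Metric.ball_subset_closedBall hx.1,
                fun h => hx.2 (Metric.ball_subset_closedBall h)⟩
            · exact Metric.isOpen_ball.sdiff Metric.isClosed_closedBall
            · have h2 : ‖w‖ ≤ R := by simpa using hwQ.1
              have h3 := hQ1 w hwQ
              refine ⟨by simpa using lt_of_le_of_ne h2 hcon.2, ?_⟩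
              simp only [Metric.mem_closedBall, dist_zero_right, not_le]
              exact lt_of_le_of_ne h3 (Ne.symm hcon.1)
          exact hw.2 hi
        rcases hw' with h | h
        · have := hK w (by simpa using h)
          simpa [h] using this
        · refine (hC w).trans ?_
          rw [EReal.coe_le_coe_iff, h, Real.posLog_eq_log (by rw [abs_of_pos (by linarith)]; exact hR1.le)]
          linarith
      · refine ⟨by simpa using hRz.le, ?_⟩
        simp only [Metric.mem_ball, dist_zero_right, not_lt]
        exact hz.le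
    rw [hlz]
    have ht : Tendsto (fun n : ℕ => (((1 + 1 / ((n : ℝ) + 1)) * Real.log ‖z‖ : ℝ) : EReal)) atTop
        (𝓝 ((Real.log ‖z‖ : ℝ) : EReal)) := by
      apply (continuous_coe_real_ereal.tendsto _).comp
      have := (tendsto_one_div_add_atTop_nhds_zero_nat (𝕜 := ℝ)).const_add 1
      have := this.mul_const (Real.log ‖z‖)
      simpa using this
    exact ge_of_tendsto' ht fun n => key _ (by positivity)

/-- The extremal function of the unit circle is `log⁺|z|`. -/
theorem extremalFunction_circle :
    extremalFunction (Metric.sphere (0 : ℂ) 1) = fun z => ((log⁺ ‖z‖ : ℝ) : EReal) := by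
  funext z
  apply le_antisymm
  · apply sSup_le
    rintro t ⟨u, hu, ⟨C, hC⟩, hK, rfl⟩
    exact le_posLog_of_class hu hC hK z
  · apply le_sSup
    refine ⟨_, subharmonic_posLog, ⟨0, fun w => by simp⟩, ?_, rfl⟩
    intro w hw
    have : ‖w‖ = 1 := by simpa using hw
    simp [this]

end U556.BW
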