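import Pool.Agent.U556.BW1
import Pool.Agent.R212.Psh5

/-!
# The equilibrium measure of the unit circle
-/

open MeasureTheory Filter Topology Set Real InnerProductSpace

open scoped Laplacian ContDiff

noncomputable section

namespace U556.BW

/-- `μ` is the equilibrium measure `dd^c V_K` of the compact set `K ⊆ ℂ` (`V_K` being continuous, so that
`V_K^* = V_K`): `μ` is a probability measure and `∫ φ dμ = (1/2π) ∫ V_K Δφ` for every test function
`φ ∈ C_c^∞(ℂ)`. -/
def IsEquilibriumMeasure (K : Set ℂ) (μ : Measure ℂ) : Prop :=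
  IsProbabilityMeasure μ ∧ ∀ φ : ℂ → ℝ, ContDiff ℝ ∞ φ → HasCompactSupport φ →
    ∫ z, φ z ∂μ = (2 * π)⁻¹ * ∫ z, (extremalFunction K z).toReal * (Δ φ) z

/-- Normalised arc length `dθ/2π` on the unit circle. -/
def circleMeasure : Measure ℂ :=
  Measure.map (fun θ : ℝ => Complex.exp (θ * Complex.I))
    ((ENNReal.ofReal (2 * π))⁻¹ • (volume.restrict (Set.Ioc (-π) π)))

lemma continuous_expI : Continuous (fun θ : ℝ => Complex.exp (θ * Complex.I)) := by fun_prop

lemma integral_circleMeasure (f : ℂ → ℝ) (hf : Continuous f) :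
    ∫ z, f z ∂circleMeasure = (2 * π)⁻¹ * ∫ θ in Set.Ioc (-π) π, f (Complex.exp (θ * Complex.I)) := by
  unfold circleMeasure
  rw [integral_map continuous_expI.aemeasurable hf.aestronglyMeasurable, integral_smul_measure]
  rw [ENNReal.toReal_inv, ENNReal.toReal_ofReal Real.two_pi_pos.le, smul_eq_mul]

instance : IsProbabilityMeasure circleMeasure := by
  constructor
  unfold circleMeasure
  rw [Measure.map_apply continuous_expI.measurable MeasurableSet.univ, preimage_univ,
    Measure.smul_apply, Measure.restrict_apply MeasurableSet.univ, univ_inter, Real.volume_Ioc,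
    smul_eq_mul]
  have : π - -π = 2 * π := by ring
  rw [this]
  apply ENNReal.inv_mul_cancel
  · simp [Real.pi_pos]
  · exact ENNReal.ofReal_ne_top

theorem isEquilibriumMeasure_circle :
    IsEquilibriumMeasure (Metric.sphere (0 : ℂ) 1) circleMeasure := by
  refine ⟨inferInstance, fun φ hφ hs => ?_⟩
  rw [integral_circleMeasure φ hφ.continuous]
  congr 1
  have h1 := Pool.Agent.R212.Psh.integral_W_mul_laplacian hφ 1 hs
  have h0 := Pool.Agent.R212.Psh.integral_W_mul_laplacian hφ 0 hs
  have hcomp : HasCompactSupport (Δ φ) := by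
    apply (hs.iteratedFDeriv (𝕜 := ℝ) 2).mono
    intro x hx hx0
    apply hx
    rw [laplacian_eq_iteratedFDeriv_complexPlane]
    simp [hx0]
  have hΔc : Continuous (Δ φ) := by
    rw [laplacian_eq_iteratedFDeriv_complexPlane]
    have h5 : Continuous (iteratedFDeriv ℝ 2 φ) :=
      (hφ.of_le (WithTop.coe_le_coe.mpr le_top) : ContDiff ℝ 2 φ).continuous_iteratedFDeriv le_rfl
    fun_prop
  have hi : ∀ α : ℝ, Integrable (fun z => Pool.Agent.R212.Psh.W α z * (Δ φ) z) := by
    intro α
    apply Continuous.integrable_of_hasCompactSupport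
    · exact (Pool.Agent.R212.Psh.continuous_W α).mul hΔc
    · exact hcomp.mul_left
  have h2 : ∫ z, (Pool.Agent.R212.Psh.W 1 z * (Δ φ) z - Pool.Agent.R212.Psh.W 0 z * (Δ φ) z)
      = ∫ θ in Ioc (-π) π, φ (Pool.Agent.R212.Psh.ee θ) := by
    rw [integral_sub (hi 1) (hi 0), h1, h0]
    ring
  have h3 : ∀ z : ℂ, (extremalFunction (Metric.sphere (0 : ℂ) 1) z).toReal * (Δ φ) z =
      Pool.Agent.R212.Psh.W 1 z * (Δ φ) z - Pool.Agent.R212.Psh.W 0 z * (Δ φ) z := by
    intro z
    rw [extremalFunction_circle, EReal.toReal_coe, ← sub_mul]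
    congr 1
    rcases le_or_gt ‖z‖ 1 with hz | hz
    · rw [Pool.Agent.R212.Psh.W_of_le hz, Pool.Agent.R212.Psh.W_of_le hz, sub_self,
        Real.posLog_eq_zero_iff, abs_of_nonneg (norm_nonneg z)]
      exact hz
    · rw [Pool.Agent.R212.Psh.W_of_ge hz.le, Pool.Agent.R212.Psh.W_of_ge hz.le,
        Real.posLog_eq_log (by rw [abs_of_nonneg (norm_nonneg z)]; exact hz.le)]
      ring
  simp_rw [h3]
  rw [h2]
  rfl

end U556.BW
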