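import Pool.Agent.U556.BW2

/-!
# Equidistribution of `e^{ij}`, `j = 0, 1, 2, …` on the unit circle (Weyl)
-/

open MeasureTheory Filter Topology Set Real

noncomputable section

namespace U556.BW

/-- The points `x_j = e^{ij}` (`j` radians). -/
def pt (j : ℕ) : ℂ := Complex.exp ((j : ℝ) * Complex.I)

lemma norm_pt (j : ℕ) : ‖pt j‖ = 1 := Complex.norm_exp_ofReal_mul_I _

lemma exp_int_ne_one {n : ℤ} (hn : n ≠ 0) : Complex.exp ((n : ℝ) * Complex.I) ≠ 1 := by
  intro h
  rw [Complex.exp_eq_one_iff] at h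
  obtain ⟨m, hm⟩ := h
  have h1 : ((n : ℝ) : ℂ) = (((m : ℝ) * (2 * π) : ℝ) : ℂ) := by
    have : ((n : ℝ) : ℂ) * Complex.I = (((m : ℝ) * (2 * π) : ℝ) : ℂ) * Complex.I := by
      rw [hm]; push_cast; ring
    exact mul_right_cancel₀ Complex.I_ne_zero this
  have h2 : (n : ℝ) = (m : ℝ) * (2 * π) := by exact_mod_cast h1
  have hm0 : m ≠ 0 := by
    rintro rfl
    apply hn
    have : (n : ℝ) = 0 := by rw [h2]; simp
    exact_mod_cast this
  apply irrational_pi
  refine ⟨(n : ℚ) / (2 * m), ?_⟩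
  push_cast
  rw [h2]
  field_simp

lemma pt_injective : Function.Injective pt := by
  intro i j h
  by_contra hne
  apply exp_int_ne_one (n := (i : ℤ) - j) (by omega)
  unfold pt at h
  have : (((((i : ℤ) - j : ℤ) : ℝ)) : ℂ) * Complex.I = ((i : ℝ) : ℂ) * Complex.I - ((j : ℝ) : ℂ) * Complex.I := by
    push_cast; ring
  rw [this, Complex.exp_sub, h, div_self (Complex.exp_ne_zero _)]

instance factTwoPi : Fact (0 < 2 * π) := ⟨Real.two_pi_pos⟩

/-- averages minus the integral -/
def avg (k : ℕ) (f : C(AddCircle (2 * π), ℂ)) : ℂ :=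
  ((k : ℂ) + 1)⁻¹ * ∑ j ∈ Finset.range (k + 1), f (((j : ℝ) : AddCircle (2 * π)))
    - ∫ t, f t ∂AddCircle.haarAddCircle

lemma avg_add (k : ℕ) (f g : C(AddCircle (2 * π), ℂ)) : avg k (f + g) = avg k f + avg k g := by
  unfold avg
  have hf : Integrable f (AddCircle.haarAddCircle (T := 2 * π)) :=
    f.continuous.integrable_of_hasCompactSupport (HasCompactSupport.of_compactSpace _)
  have hg : Integrable g (AddCircle.haarAddCircle (T := 2 * π)) :=
    g.continuous.integrable_of_hasCompactSupport (HasCompactSupport.of_compactSpace _)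
  simp only [ContinuousMap.add_apply]
  rw [integral_add hf hg, Finset.sum_add_distrib]
  ring

lemma avg_smul (k : ℕ) (c : ℂ) (f : C(AddCircle (2 * π), ℂ)) : avg k (c • f) = c * avg k f := by
  unfold avg
  simp only [ContinuousMap.smul_apply, smul_eq_mul]
  rw [integral_const_mul, ← Finset.mul_sum]
  ring

lemma norm_avg_le (k : ℕ) (f : C(AddCircle (2 * π), ℂ)) : ‖avg k f‖ ≤ 2 * ‖f‖ := by
  unfold avg
  have h1 : ‖((k : ℂ) + 1)⁻¹ * ∑ j ∈ Finset.range (k + 1), f (((j : ℝ) : AddCircle (2 * π)))‖ ≤ ‖f‖ := by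
    rw [norm_mul, norm_inv]
    have h2 : ‖∑ j ∈ Finset.range (k + 1), f (((j : ℝ) : AddCircle (2 * π)))‖ ≤ (k + 1) * ‖f‖ := by
      refine (norm_sum_le _ _).trans ?_
      refine (Finset.sum_le_sum (fun j _ => f.norm_coe_le_norm _)).trans ?_
      simp
    have h3 : ‖(k : ℂ) + 1‖ = (k : ℝ) + 1 := by
      have : ((k : ℂ) + 1) = (((k : ℝ) + 1 : ℝ) : ℂ) := by push_cast; ring
      rw [this, Complex.norm_real, Real.norm_eq_abs, abs_of_pos (by positivity)]
    rw [h3]
    have hk : (0 : ℝ) < (k : ℝ) + 1 := by positivity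
    calc ((k : ℝ) + 1)⁻¹ * ‖∑ j ∈ Finset.range (k + 1), f (((j : ℝ) : AddCircle (2 * π)))‖
        ≤ ((k : ℝ) + 1)⁻¹ * ((k + 1) * ‖f‖) := mul_le_mul_of_nonneg_left h2 (by positivity)
      _ = ‖f‖ := by field_simp
  have h4 : ‖∫ t, f t ∂AddCircle.haarAddCircle‖ ≤ ‖f‖ := by
    have := norm_integral_le_of_norm_le_const (μ := AddCircle.haarAddCircle (T := 2 * π))
      (f := fun t => f t) (C := ‖f‖) (Eventually.of_forall fun t => f.norm_coe_le_norm t)
    simpa using this
  calc _ ≤ _ + _ := norm_sub_le _ _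
    _ ≤ 2 * ‖f‖ := by linarith

lemma avg_fourier (n : ℤ) : Tendsto (fun k => avg k (fourier n)) atTop (𝓝 0) := by
  have hint : ∫ t, (fourier n : C(AddCircle (2 * π), ℂ)) t ∂AddCircle.haarAddCircle
      = if n = 0 then 1 else 0 := by
    have h := congrFun (fourierCoeff_fourier (T := 2 * π) n) 0
    unfold fourierCoeff at h
    simp only [neg_zero, fourier_zero, one_smul] at h
    rw [h, Pi.single_apply]
    by_cases hn : n = 0 <;> simp [hn, eq_comm]
  by_cases hn : n = 0
  · subst hn
    have : ∀ k : ℕ, avg k (fourier 0) = 0 := by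
      intro k
      unfold avg
      rw [hint]
      simp only [fourier_zero, Finset.sum_const, Finset.card_range, nsmul_eq_mul, mul_one, if_true]
      push_cast
      rw [inv_mul_cancel₀ (by exact_mod_cast Nat.succ_ne_zero k), sub_self]
    simp [this]
  · set w : ℂ := Complex.exp ((n : ℝ) * Complex.I) with hw
    have hw1 : w ≠ 1 := exp_int_ne_one hn
    have hwn : ‖w‖ = 1 := Complex.norm_exp_ofReal_mul_I _
    have hval : ∀ j : ℕ, (fourier n : C(AddCircle (2 * π), ℂ)) (((j : ℝ) : AddCircle (2 * π))) = w ^ j := by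
      intro j
      rw [fourier_coe_apply, hw, ← Complex.exp_nat_mul]
      congr 1
      push_cast
      have : (π : ℂ) ≠ 0 := by exact_mod_cast Real.pi_ne_zero
      field_simp
    have hb : ∀ k : ℕ, ‖avg k (fourier n)‖ ≤ ((k : ℝ) + 1)⁻¹ * (2 / ‖w - 1‖) := by
      intro k
      unfold avg
      rw [hint, if_neg hn, sub_zero]
      simp only [hval]
      rw [geom_sum_eq hw1, norm_mul, norm_inv, norm_div]
      have h3 : ‖(k : ℂ) + 1‖ = (k : ℝ) + 1 := by
        have : ((k : ℂ) + 1) = (((k : ℝ) + 1 : ℝ) : ℂ) := by push_cast; ring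
        rw [this, Complex.norm_real, Real.norm_eq_abs, abs_of_pos (by positivity)]
      rw [h3]
      apply mul_le_mul_of_nonneg_left _ (by positivity)
      apply div_le_div_of_nonneg_right _ (norm_nonneg _)
      calc ‖w ^ (k + 1) - 1‖ ≤ ‖w ^ (k + 1)‖ + ‖(1 : ℂ)‖ := norm_sub_le _ _
        _ = 2 := by rw [norm_pow, hwn]; norm_num
    apply squeeze_zero_norm hb
    have h5 : Tendsto (fun k : ℕ => ((k : ℝ) + 1)⁻¹) atTop (𝓝 0) := by
      have := tendsto_one_div_add_atTop_nhds_zero_nat (𝕜 := ℝ)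
      simpa using this
    simpa using h5.mul_const (2 / ‖w - 1‖)

theorem weyl_addCircle (f : C(AddCircle (2 * π), ℂ)) :
    Tendsto (fun k => avg k f) atTop (𝓝 0) := by
  have hspan : ∀ g ∈ Submodule.span ℂ (range (@fourier (2 * π))),
      Tendsto (fun k => avg k g) atTop (𝓝 0) := by
    intro g hg
    induction hg using Submodule.span_induction with
    | mem x hx => obtain ⟨n, rfl⟩ := hx; exact avg_fourier n
    | zero =>
      have : ∀ k, avg k (0 : C(AddCircle (2 * π), ℂ)) = 0 := by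
        intro k
        have := avg_smul k 0 (0 : C(AddCircle (2 * π), ℂ))
        simpa using this
      simp [this]
    | add x y _ _ hx hy =>
      simp_rw [avg_add]
      simpa using hx.add hy
    | smul c x _ hx =>
      simp_rw [avg_smul]
      simpa using hx.const_mul c
  have hcl : f ∈ closure ((Submodule.span ℂ (range (@fourier (2 * π)))) : Set C(AddCircle (2 * π), ℂ)) := by
    have h := span_fourier_closure_eq_top (T := 2 * π)
    have h2 : f ∈ (Submodule.span ℂ (range (@fourier (2 * π)))).topologicalClosure := by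
      rw [h]; trivial
    exact h2
  rw [Metric.tendsto_atTop]
  intro ε hε
  rw [Metric.mem_closure_iff] at hcl
  obtain ⟨g, hg, hfg⟩ := hcl (ε / 4) (by positivity)
  obtain ⟨N, hN⟩ := (Metric.tendsto_atTop.mp (hspan g hg)) (ε / 2) (by positivity)
  refine ⟨N, fun k hk => ?_⟩
  have h1 : avg k f = avg k (f - g) + avg k g := by
    rw [← avg_add]; congr 1; abel
  have h2 := norm_avg_le k (f - g)
  have h3 := hN k hk
  rw [dist_zero_right] at h3 ⊢
  rw [dist_eq_norm] at hfg
  rw [h1]
  calc _ ≤ ‖avg k (f - g)‖ + ‖avg k g‖ := norm_add_le _ _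
    _ < ε := by linarith

/-- Weyl's theorem for the points `pt j`. -/
theorem weyl_circle (f : ℂ → ℝ) (hf : Continuous f) :
    Tendsto (fun k : ℕ => ((k : ℝ) + 1)⁻¹ * ∑ j ∈ Finset.range (k + 1), f (pt j)) atTop
      (𝓝 (∫ z, f z ∂circleMeasure)) := by
  -- the continuous function on the additive circle
  let e : C(AddCircle (2 * π), ℂ) :=
    ⟨fun t => ((f ((AddCircle.toCircle t : Circle) : ℂ) : ℝ) : ℂ), by
      exact Complex.continuous_ofReal.comp (hf.comp (continuous_subtype_val.comp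
        AddCircle.continuous_toCircle))⟩
  have he : ∀ x : ℝ, e ((x : AddCircle (2 * π))) = ((f (Complex.exp (x * Complex.I)) : ℝ) : ℂ) := by
    intro x
    simp only [e, ContinuousMap.coe_mk]
    rw [AddCircle.toCircle_apply_mk, Circle.coe_exp]
    congr 3
    push_cast
    have : (π : ℂ) ≠ 0 := by exact_mod_cast Real.pi_ne_zero
    field_simp
  have hI : ∫ t, e t ∂AddCircle.haarAddCircle = ((∫ z, f z ∂circleMeasure : ℝ) : ℂ) := by
    rw [integral_circleMeasure f hf]
    rw [AddCircle.integral_haarAddCircle]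
    rw [← AddCircle.integral_preimage (2 * π) (-π)]
    have h1 : -π + 2 * π = π := by ring
    rw [h1]
    simp_rw [he]
    rw [integral_complex_ofReal]
    push_cast
    rw [Complex.real_smul]
    push_cast
    rfl
  have h := weyl_addCircle e
  have h' : ∀ k : ℕ, avg k e = ((((k : ℝ) + 1)⁻¹ * ∑ j ∈ Finset.range (k + 1), f (pt j) -
      ∫ z, f z ∂circleMeasure : ℝ) : ℂ) := by
    intro k
    unfold avg
    rw [hI]
    simp_rw [he]
    unfold pt
    push_cast
    rfl
  simp_rw [h'] at h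
  have h2 : Tendsto (fun k : ℕ => (((k : ℝ) + 1)⁻¹ * ∑ j ∈ Finset.range (k + 1), f (pt j) -
      ∫ z, f z ∂circleMeasure : ℝ)) atTop (𝓝 0) := by
    have := (Complex.continuous_re.tendsto 0).comp h
    simp only [Function.comp_def, Complex.ofReal_re, Complex.zero_re] at this
    exact this
  have h3 := h2.add_const (∫ z, f z ∂circleMeasure)
  simpa using h3

end U556.BW
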