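import Mathlib

/-!
# Bergman functions of spaces of polynomials
-/

open MeasureTheory Filter Topology Set Polynomial ComplexConjugate

noncomputable section

namespace U556.BW

/-- `e_0, …, e_k` is an `L²(ν)`-orthonormal basis of the space `P_k` of complex polynomials of degree
`≤ k` (which has dimension `k + 1`). -/
def IsOrthonormalBasis (ν : Measure ℂ) (k : ℕ) (e : Fin (k + 1) → ℂ[X]) : Prop :=
  (∀ i, (e i).natDegree ≤ k) ∧
    ∀ i j, ∫ z, (e i).eval z * conj ((e j).eval z) ∂ν = if i = j then 1 else 0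

/-- The function `|e_0|² + … + |e_k|²`. -/
def sumSq {k : ℕ} (e : Fin (k + 1) → ℂ[X]) (z : ℂ) : ℝ := ∑ i, ‖(e i).eval z‖ ^ 2

/-- `B` is the `k`-th Bergman function of `ν`: `B = |e_0|² + … + |e_k|²` for an orthonormal basis. -/
def IsBergmanFunction (ν : Measure ℂ) (k : ℕ) (B : ℂ → ℝ) : Prop :=
  ∃ e : Fin (k + 1) → ℂ[X], IsOrthonormalBasis ν k e ∧ B = sumSq e

variable {ν : Measure ℂ} (hint : ∀ g : ℂ → ℂ, Continuous g → Integrable g ν)

lemma continuous_eval (p : ℂ[X]) : Continuous (fun z : ℂ => p.eval z) := p.continuous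

lemma continuous_sumSq {k : ℕ} (e : Fin (k + 1) → ℂ[X]) : Continuous (sumSq e) := by
  unfold sumSq
  have : ∀ i, Continuous fun z => (e i).eval z := fun i => (e i).continuous
  fun_prop

include hint in
lemma coeff_eq {k : ℕ} {e : Fin (k + 1) → ℂ[X]} (he : IsOrthonormalBasis ν k e)
    (a : Fin (k + 1) → ℂ) (j : Fin (k + 1)) :
    ∫ z, (∑ i, a i • e i).eval z * conj ((e j).eval z) ∂ν = a j := by
  have h1 : ∀ z, (∑ i, a i • e i).eval z * conj ((e j).eval z) =
      ∑ i, a i * ((e i).eval z * conj ((e j).eval z)) := by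
    intro z
    rw [eval_finsetSum, Finset.sum_mul]
    refine Finset.sum_congr rfl fun i _ => ?_
    rw [eval_smul, smul_eq_mul]; ring
  simp_rw [h1]
  rw [integral_finsetSum]
  · simp_rw [integral_const_mul, he.2]
    simp
  · intro i _
    apply (hint _ _).const_mul
    have h1 := (e i).continuous
    have h2 := (e j).continuous
    exact h1.mul (Complex.continuous_conj.comp h2)

include hint in
lemma exists_coeff {k : ℕ} {e : Fin (k + 1) → ℂ[X]} (he : IsOrthonormalBasis ν k e)
    {p : ℂ[X]} (hp : p.natDegree ≤ k) : ∃ a : Fin (k + 1) → ℂ, p = ∑ i, a i • e i := by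
  have hmem : ∀ q : ℂ[X], q.natDegree ≤ k → q ∈ degreeLT ℂ (k + 1) := by
    intro q hq
    rw [mem_degreeLT]
    exact lt_of_le_of_lt (degree_le_of_natDegree_le hq) (by exact_mod_cast Nat.lt_succ_self k)
  let e' : Fin (k + 1) → degreeLT ℂ (k + 1) := fun i => ⟨e i, hmem _ (he.1 i)⟩
  have hli : LinearIndependent ℂ e' := by
    rw [Fintype.linearIndependent_iff]
    intro g hg j
    have h1 : ∑ i, g i • e i = 0 := by
      have := congrArg (Submodule.subtype _) hg
      simpa [e'] using this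
    have h2 := coeff_eq hint he g j
    rw [h1] at h2
    simpa using h2.symm
  have hfr : Fintype.card (Fin (k + 1)) = Module.finrank ℂ (degreeLT ℂ (k + 1)) := by
    rw [Fintype.card_fin, (degreeLTEquiv ℂ (k + 1)).finrank_eq]
    simp
  let b := basisOfLinearIndependentOfCardEqFinrank hli hfr
  have hb : ⇑b = e' := coe_basisOfLinearIndependentOfCardEqFinrank hli hfr
  refine ⟨fun i => b.repr ⟨p, hmem p hp⟩ i, ?_⟩
  have := congrArg (Submodule.subtype _) (b.sum_repr ⟨p, hmem p hp⟩)
  rw [hb] at this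
  simpa [e'] using this.symm

include hint in
lemma norm_sq_sum {k : ℕ} {e : Fin (k + 1) → ℂ[X]} (he : IsOrthonormalBasis ν k e)
    (a : Fin (k + 1) → ℂ) :
    ∫ z, ‖(∑ i, a i • e i).eval z‖ ^ 2 ∂ν = ∑ i, ‖a i‖ ^ 2 := by
  have h0 : ((∫ z, ‖(∑ i, a i • e i).eval z‖ ^ 2 ∂ν : ℝ) : ℂ) = ((∑ i, ‖a i‖ ^ 2 : ℝ) : ℂ) := by
    rw [← integral_complex_ofReal]
    have h1 : ∀ z, (((‖(∑ i, a i • e i).eval z‖ ^ 2 : ℝ)) : ℂ) =
        ∑ j, conj (a j) * ((∑ i, a i • e i).eval z * conj ((e j).eval z)) := by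
      intro z
      have h2 : (((‖(∑ i, a i • e i).eval z‖ ^ 2 : ℝ)) : ℂ) =
          (∑ i, a i • e i).eval z * conj ((∑ i, a i • e i).eval z) := by
        rw [Complex.mul_conj, Complex.normSq_eq_norm_sq]
      rw [h2]
      have h3 : conj ((∑ i, a i • e i).eval z) = ∑ i, conj ((a i • e i).eval z) := by
        rw [eval_finsetSum, map_sum]
      rw [h3, Finset.mul_sum]
      refine Finset.sum_congr rfl fun j _ => ?_
      rw [eval_smul, smul_eq_mul, map_mul]
      ring
    simp_rw [h1]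
    rw [integral_finsetSum]
    · simp_rw [integral_const_mul, coeff_eq hint he a]
      push_cast
      refine Finset.sum_congr rfl fun j _ => ?_
      rw [mul_comm, Complex.mul_conj, Complex.normSq_eq_norm_sq]
      push_cast; rfl
    · intro j _
      apply (hint _ _).const_mul
      have h1 := (∑ i, a i • e i).continuous
      have h2 := (e j).continuous
      exact h1.mul (Complex.continuous_conj.comp h2)
  exact_mod_cast h0

include hint in
/-- extremal property of the Bergman function -/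
lemma sq_le_bergman {k : ℕ} {B : ℂ → ℝ} (hB : IsBergmanFunction ν k B) {p : ℂ[X]}
    (hp : p.natDegree ≤ k) (z : ℂ) :
    ‖p.eval z‖ ^ 2 ≤ B z * ∫ w, ‖p.eval w‖ ^ 2 ∂ν := by
  obtain ⟨e, he, rfl⟩ := hB
  obtain ⟨a, rfl⟩ := exists_coeff hint he hp
  rw [norm_sq_sum hint he a]
  have h1 : (∑ i, a i • e i).eval z = ∑ i, a i * (e i).eval z := by
    rw [eval_finsetSum]
    refine Finset.sum_congr rfl fun i _ => ?_
    rw [eval_smul, smul_eq_mul]
  rw [h1]
  have h2 : ‖∑ i, a i * (e i).eval z‖ ≤ ∑ i, ‖a i‖ * ‖(e i).eval z‖ := by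
    refine (norm_sum_le _ _).trans (le_of_eq ?_)
    refine Finset.sum_congr rfl fun i _ => norm_mul _ _
  have h3 := Finset.sum_mul_sq_le_sq_mul_sq Finset.univ (fun i => ‖a i‖) (fun i => ‖(e i).eval z‖)
  calc ‖∑ i, a i * (e i).eval z‖ ^ 2 ≤ (∑ i, ‖a i‖ * ‖(e i).eval z‖) ^ 2 :=
        pow_le_pow_left₀ (norm_nonneg _) h2 2
    _ ≤ _ := h3
    _ = _ := by unfold sumSq; ring

lemma bergman_nonneg {k : ℕ} {B : ℂ → ℝ} (hB : IsBergmanFunction ν k B) (z : ℂ) : 0 ≤ B z := by
  obtain ⟨e, he, rfl⟩ := hB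
  unfold sumSq
  positivity

lemma bergman_continuous {k : ℕ} {B : ℂ → ℝ} (hB : IsBergmanFunction ν k B) : Continuous B := by
  obtain ⟨e, he, rfl⟩ := hB
  exact continuous_sumSq e

include hint in
/-- `B(x) ν({x}) ≤ 1` in the form needed: if `c |p(x)|² ≤ ∫ |p|²` for all polynomials then `c B(x) ≤ 1`. -/
lemma mul_bergman_le_one {k : ℕ} {B : ℂ → ℝ} (hB : IsBergmanFunction ν k B) {c : ℝ} (x : ℂ)
    (hc : ∀ p : ℂ[X], c * ‖p.eval x‖ ^ 2 ≤ ∫ w, ‖p.eval w‖ ^ 2 ∂ν) : c * B x ≤ 1 := by
  have hB0 := bergman_nonneg hB x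
  obtain ⟨e, he, rfl⟩ := hB
  rcases hB0.eq_or_lt with h0 | h0
  · rw [← h0]; simp
  have h1 := hc (∑ i, conj ((e i).eval x) • e i)
  rw [norm_sq_sum hint he] at h1
  have h2 : (∑ i, conj ((e i).eval x) • e i).eval x = ((sumSq e x : ℝ) : ℂ) := by
    rw [eval_finsetSum]
    unfold sumSq
    push_cast
    refine Finset.sum_congr rfl fun i _ => ?_
    rw [eval_smul, smul_eq_mul, mul_comm, Complex.mul_conj, Complex.normSq_eq_norm_sq]
    push_cast; rfl
  have h3 : ∑ i, ‖conj ((e i).eval x)‖ ^ 2 = sumSq e x := by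
    unfold sumSq
    refine Finset.sum_congr rfl fun i _ => ?_
    rw [RCLike.norm_conj]
  rw [h2, h3, Complex.norm_real, Real.norm_eq_abs, abs_of_pos h0] at h1
  have h4 : (c * sumSq e x) * sumSq e x ≤ 1 * sumSq e x := by nlinarith
  exact le_of_mul_le_mul_right h4 h0

include hint in
/-- total mass `∫ B_k dν = k + 1` -/
lemma integral_bergman {k : ℕ} {B : ℂ → ℝ} (hB : IsBergmanFunction ν k B) :
    ∫ z, B z ∂ν = (k : ℝ) + 1 := by
  obtain ⟨e, he, rfl⟩ := hB
  unfold sumSq
  rw [integral_finsetSum]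
  · have h1 : ∀ i, ∫ z, ‖(e i).eval z‖ ^ 2 ∂ν = 1 := by
      intro i
      have := he.2 i i
      rw [if_pos rfl] at this
      have h2 : ∀ z, (e i).eval z * conj ((e i).eval z) = ((‖(e i).eval z‖ ^ 2 : ℝ) : ℂ) := by
        intro z
        rw [Complex.mul_conj, Complex.normSq_eq_norm_sq]
      simp_rw [h2] at this
      rw [integral_complex_ofReal] at this
      exact_mod_cast this
    simp_rw [h1]
    simp
  · intro i _
    have h3 : Continuous fun z => (((‖(e i).eval z‖ ^ 2 : ℝ)) : ℂ) := by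
      have := (e i).continuous
      fun_prop
    have h4 := (hint _ h3).re
    simp only [RCLike.re_to_complex, Complex.ofReal_re] at h4
    exact h4

include hint in
/-- Orthonormal bases exist when `‖·‖_{L²(ν)}` is a norm on polynomials. -/
theorem exists_orthonormalBasis (hpos : ∀ p : ℂ[X], p ≠ 0 → 0 < ∫ w, ‖p.eval w‖ ^ 2 ∂ν) (k : ℕ) :
    ∃ e : Fin (k + 1) → ℂ[X], IsOrthonormalBasis ν k e := by
  have hI : ∀ p q : ℂ[X], Integrable (fun z => p.eval z * conj (q.eval z)) ν := fun p q =>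
    hint _ (p.continuous.mul (Complex.continuous_conj.comp q.continuous))
  let core : InnerProductSpace.Core ℂ (degreeLT ℂ (k + 1)) :=
    { inner := fun p q => ∫ z, (q : ℂ[X]).eval z * conj ((p : ℂ[X]).eval z) ∂ν
      conj_inner_symm := by
        intro p q
        change conj (∫ z, (p : ℂ[X]).eval z * conj ((q : ℂ[X]).eval z) ∂ν) = _
        rw [← integral_conj]
        congr 1
        funext z
        rw [map_mul, Complex.conj_conj, mul_comm]
      re_inner_nonneg := by
        intro p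
        change 0 ≤ RCLike.re (∫ z, (p : ℂ[X]).eval z * conj ((p : ℂ[X]).eval z) ∂ν)
        have h2 : ∀ z, (p : ℂ[X]).eval z * conj ((p : ℂ[X]).eval z) =
            ((‖(p : ℂ[X]).eval z‖ ^ 2 : ℝ) : ℂ) := by
          intro z
          rw [Complex.mul_conj, Complex.normSq_eq_norm_sq]
        simp_rw [h2]
        rw [integral_complex_ofReal]
        simp only [RCLike.re_to_complex, Complex.ofReal_re]
        positivity
      add_left := by
        intro p q r
        change ∫ z, (r : ℂ[X]).eval z * conj (((p + q : degreeLT ℂ (k + 1)) : ℂ[X]).eval z) ∂ν = _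
        rw [← integral_add (hI _ _) (hI _ _)]
        congr 1
        funext z
        rw [Submodule.coe_add, eval_add, map_add]
        ring
      smul_left := by
        intro p q r
        change ∫ z, (q : ℂ[X]).eval z * conj (((r • p : degreeLT ℂ (k + 1)) : ℂ[X]).eval z) ∂ν = _
        rw [← integral_const_mul]
        congr 1
        funext z
        rw [Submodule.coe_smul, eval_smul, smul_eq_mul, map_mul]
        ring
      definite := by
        intro p hp
        change ∫ z, (p : ℂ[X]).eval z * conj ((p : ℂ[X]).eval z) ∂ν = 0 at hp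
        by_contra hne
        have hne' : (p : ℂ[X]) ≠ 0 := fun h => hne (Subtype.ext h)
        have h3 := hpos _ hne'
        have h2 : ∀ z, (p : ℂ[X]).eval z * conj ((p : ℂ[X]).eval z) =
            ((‖(p : ℂ[X]).eval z‖ ^ 2 : ℝ) : ℂ) := by
          intro z
          rw [Complex.mul_conj, Complex.normSq_eq_norm_sq]
        simp_rw [h2] at hp
        rw [integral_complex_ofReal] at hp
        have : ∫ w, ‖(p : ℂ[X]).eval w‖ ^ 2 ∂ν = 0 := by exact_mod_cast hp
        linarith }
  let _ : NormedAddCommGroup (degreeLT ℂ (k + 1)) := core.toNormedAddCommGroup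
  let _ : InnerProductSpace ℂ (degreeLT ℂ (k + 1)) := InnerProductSpace.ofCore core.toCore
  have _ : FiniteDimensional ℂ (degreeLT ℂ (k + 1)) :=
    FiniteDimensional.of_injective (degreeLTEquiv ℂ (k + 1)).toLinearMap
      (degreeLTEquiv ℂ (k + 1)).injective
  have hfr : Module.finrank ℂ (degreeLT ℂ (k + 1)) = k + 1 := by
    rw [(degreeLTEquiv ℂ (k + 1)).finrank_eq]
    simp
  let b := (stdOrthonormalBasis ℂ (degreeLT ℂ (k + 1))).reindex (finCongr hfr)
  refine ⟨fun i => ((b i : degreeLT ℂ (k + 1)) : ℂ[X]), ?_, ?_⟩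
  · intro i
    have := (b i).2
    rw [mem_degreeLT] at this
    change ((b i : degreeLT ℂ (k + 1)) : ℂ[X]).natDegree ≤ k
    by_cases h0 : ((b i : degreeLT ℂ (k + 1)) : ℂ[X]) = 0
    · rw [h0]; simp
    · rw [degree_eq_natDegree h0] at this
      have h3 : ((b i : degreeLT ℂ (k + 1)) : ℂ[X]).natDegree < k + 1 := by exact_mod_cast this
      omega
  · intro i j
    have h := (orthonormal_iff_ite.mp b.orthonormal) j i
    have h' : inner ℂ (b j) (b i) = ∫ z, ((b i : degreeLT ℂ (k + 1)) : ℂ[X]).eval z *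
        conj (((b j : degreeLT ℂ (k + 1)) : ℂ[X]).eval z) ∂ν := rfl
    rw [← h', h]
    simp [eq_comm]

end U556.BW
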