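import Pool.Agent.U556.BW3
import Pool.Agent.U556.BW4

/-!
# The measure: point masses at `e^{ij}` with super-exponentially decaying masses
-/

open MeasureTheory Filter Topology Set Polynomial

noncomputable section

namespace U556.BW

/-- Lagrange polynomials -/
def lag (k j : ℕ) : ℂ[X] := Lagrange.basis (Finset.range (k + 1)) pt j

lemma exists_M (k : ℕ) : ∃ M : ℝ, 0 < M ∧ ∀ j ∈ Finset.range (k + 1), ∀ z : ℂ, ‖z‖ = 1 →
    ‖(lag k j).eval z‖ ≤ M := by
  have hc : Continuous (fun z : ℂ => ∑ j ∈ Finset.range (k + 1), ‖(lag k j).eval z‖) := by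
    have : ∀ j, Continuous fun z => (lag k j).eval z := fun j => (lag k j).continuous
    fun_prop
  obtain ⟨C, hC⟩ := (isCompact_sphere (0 : ℂ) 1).exists_bound_of_continuousOn hc.continuousOn
  refine ⟨|C| + 1, by positivity, fun j hj z hz => ?_⟩
  have h1 := hC z (by simpa using hz)
  have h2 : ‖(lag k j).eval z‖ ≤ ∑ j ∈ Finset.range (k + 1), ‖(lag k j).eval z‖ :=
    Finset.single_le_sum (f := fun j => ‖(lag k j).eval z‖) (fun _ _ => norm_nonneg _) hj
  have h3 := Real.le_norm_self (∑ j ∈ Finset.range (k + 1), ‖(lag k j).eval z‖)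
  have h4 := le_abs_self C
  linarith

def MM (k : ℕ) : ℝ := Classical.choose (exists_M k)

lemma MM_spec (k : ℕ) : 0 < MM k ∧ ∀ j ∈ Finset.range (k + 1), ∀ z : ℂ, ‖z‖ = 1 →
    ‖(lag k j).eval z‖ ≤ MM k := Classical.choose_spec (exists_M k)

/-- the masses -/
def cc : ℕ → ℝ
  | 0 => 1
  | (k + 1) => cc k * (1 / 2 * (1 / (1 + ((k : ℝ) + 1) * MM k ^ 2)) * Real.exp (-(2 * (k : ℝ) + 1)))

lemma cc_succ (k : ℕ) : cc (k + 1) =
    cc k * (1 / 2 * (1 / (1 + ((k : ℝ) + 1) * MM k ^ 2)) * Real.exp (-(2 * (k : ℝ) + 1))) := rfl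

lemma cc_pos (k : ℕ) : 0 < cc k := by
  induction k with
  | zero => exact one_pos
  | succ k ih =>
    rw [cc_succ]
    have := (MM_spec k).1
    positivity

lemma fac_le (k : ℕ) : 1 / (1 + ((k : ℝ) + 1) * MM k ^ 2) ≤ 1 := by
  rw [div_le_one (by positivity)]
  have : 0 ≤ ((k : ℝ) + 1) * MM k ^ 2 := by positivity
  linarith

lemma exp_le (k : ℕ) : Real.exp (-(2 * (k : ℝ) + 1)) ≤ 1 := by
  rw [Real.exp_le_one_iff]
  have : (0 : ℝ) ≤ k := by positivity
  linarith

lemma cc_succ_le_half (k : ℕ) : cc (k + 1) ≤ cc k * (1 / 2) := by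
  rw [cc_succ]
  apply mul_le_mul_of_nonneg_left _ (cc_pos k).le
  have h1 := fac_le k
  have h2 := exp_le k
  have h3 : 0 ≤ 1 / (1 + ((k : ℝ) + 1) * MM k ^ 2) := by positivity
  have h4 := Real.exp_pos (-(2 * (k : ℝ) + 1))
  calc 1 / 2 * (1 / (1 + ((k : ℝ) + 1) * MM k ^ 2)) * Real.exp (-(2 * (k : ℝ) + 1))
      ≤ 1 / 2 * 1 * 1 := by
        apply mul_le_mul _ h2 h4.le (by norm_num)
        apply mul_le_mul_of_nonneg_left h1 (by norm_num)
    _ = 1 / 2 := by norm_num

lemma cc_geom (n i : ℕ) : cc (i + n) ≤ cc n * (1 / 2) ^ i := by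
  induction i with
  | zero => simp
  | succ i ih =>
    have h := cc_succ_le_half (i + n)
    have e : i + 1 + n = i + n + 1 := by ring
    rw [e, pow_succ]
    calc cc (i + n + 1) ≤ cc (i + n) * (1 / 2) := h
      _ ≤ (cc n * (1 / 2) ^ i) * (1 / 2) := by
        apply mul_le_mul_of_nonneg_right ih (by norm_num)
      _ = _ := by ring

lemma cc_anti {j k : ℕ} (h : j ≤ k) : cc k ≤ cc j := by
  obtain ⟨i, rfl⟩ := Nat.exists_eq_add_of_le h
  rw [add_comm]
  refine (cc_geom j i).trans ?_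
  have : (1 / 2 : ℝ) ^ i ≤ 1 := pow_le_one₀ (by norm_num) (by norm_num)
  calc cc j * (1 / 2) ^ i ≤ cc j * 1 := mul_le_mul_of_nonneg_left this (cc_pos j).le
    _ = cc j := mul_one _

lemma cc_summable_shift (n : ℕ) : Summable (fun i => cc (i + n)) := by
  apply Summable.of_nonneg_of_le (fun i => (cc_pos _).le) (fun i => cc_geom n i)
  exact (summable_geometric_two).mul_left _

lemma cc_summable : Summable cc := by simpa using cc_summable_shift 0

lemma cc_tail (n : ℕ) : ∑' i, cc (i + n) ≤ 2 * cc n := by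
  calc ∑' i, cc (i + n) ≤ ∑' i : ℕ, cc n * (1 / 2) ^ i :=
        (cc_summable_shift n).tsum_le_tsum (fun i => cc_geom n i) ((summable_geometric_two).mul_left _)
    _ = 2 * cc n := by rw [tsum_mul_left, tsum_geometric_two]; ring

lemma cc_tail_M (k : ℕ) : (2 * cc (k + 1)) * MM k ^ 2 ≤ cc k / ((k : ℝ) + 1) := by
  rw [cc_succ]
  have hM := (MM_spec k).1
  have hc := cc_pos k
  have h2 := exp_le k
  have h4 := Real.exp_pos (-(2 * (k : ℝ) + 1))
  have hk : (0 : ℝ) < (k : ℝ) + 1 := by positivity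
  have hden : 0 < 1 + ((k : ℝ) + 1) * MM k ^ 2 := by positivity
  have h5 : MM k ^ 2 / (1 + ((k : ℝ) + 1) * MM k ^ 2) ≤ 1 / ((k : ℝ) + 1) := by
    rw [div_le_div_iff₀ hden hk]
    nlinarith
  calc 2 * (cc k * (1 / 2 * (1 / (1 + ((k : ℝ) + 1) * MM k ^ 2)) * Real.exp (-(2 * (k : ℝ) + 1)))) *
        MM k ^ 2 = (cc k * (MM k ^ 2 / (1 + ((k : ℝ) + 1) * MM k ^ 2))) *
          Real.exp (-(2 * (k : ℝ) + 1)) := by ring
    _ ≤ (cc k * (1 / ((k : ℝ) + 1))) * 1 := by
        apply mul_le_mul _ h2 h4.le (by positivity)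
        exact mul_le_mul_of_nonneg_left h5 hc.le
    _ = cc k / ((k : ℝ) + 1) := by ring

lemma cc_le_exp (k : ℕ) : cc k ≤ Real.exp (-(k : ℝ) ^ 2) := by
  induction k with
  | zero => simp [cc]
  | succ k ih =>
    rw [cc_succ]
    have h1 := fac_le k
    have h3 : 0 ≤ 1 / (1 + ((k : ℝ) + 1) * MM k ^ 2) := by positivity
    have h4 := Real.exp_pos (-(2 * (k : ℝ) + 1))
    have h5 : 1 / 2 * (1 / (1 + ((k : ℝ) + 1) * MM k ^ 2)) * Real.exp (-(2 * (k : ℝ) + 1)) ≤
        Real.exp (-(2 * (k : ℝ) + 1)) := by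
      calc _ ≤ 1 * Real.exp (-(2 * (k : ℝ) + 1)) := by
            apply mul_le_mul_of_nonneg_right _ h4.le
            linarith
        _ = _ := one_mul _
    calc cc k * (1 / 2 * (1 / (1 + ((k : ℝ) + 1) * MM k ^ 2)) * Real.exp (-(2 * (k : ℝ) + 1)))
        ≤ Real.exp (-(k : ℝ) ^ 2) * Real.exp (-(2 * (k : ℝ) + 1)) := by
          apply mul_le_mul ih h5 (by positivity) (Real.exp_pos _).le
      _ = Real.exp (-((k + 1 : ℕ) : ℝ) ^ 2) := by
          rw [← Real.exp_add]
          congr 1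
          push_cast
          ring

/-- the measure -/
def nu : Measure ℂ := Measure.sum (fun j => ENNReal.ofReal (cc j) • Measure.dirac (pt j))

instance : IsFiniteMeasure nu := by
  constructor
  unfold nu
  rw [Measure.sum_apply _ MeasurableSet.univ]
  simp only [Measure.smul_apply, measure_univ, smul_eq_mul, mul_one]
  rw [← ENNReal.ofReal_tsum_of_nonneg (fun j => (cc_pos j).le) cc_summable]
  exact ENNReal.ofReal_lt_top

lemma nu_compl : nu (Metric.sphere (0 : ℂ) 1)ᶜ = 0 := by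
  unfold nu
  rw [Measure.sum_apply _ Metric.isClosed_sphere.measurableSet.compl]
  have : ∀ j, (ENNReal.ofReal (cc j) • Measure.dirac (pt j)) (Metric.sphere (0 : ℂ) 1)ᶜ = 0 := by
    intro j
    rw [Measure.smul_apply, Measure.dirac_apply' _ Metric.isClosed_sphere.measurableSet.compl]
    simp [norm_pt]
  simp [this]

lemma nu_integrable {E : Type*} [NormedAddCommGroup E] [SecondCountableTopology E] (g : ℂ → E)
    (hg : Continuous g) : Integrable g nu := by
  obtain ⟨C, hC⟩ := (isCompact_sphere (0 : ℂ) 1).exists_bound_of_continuousOn hg.continuousOn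
  apply Integrable.of_bound (C := C)
  · exact hg.aestronglyMeasurable
  · have : ∀ᵐ z ∂nu, z ∈ Metric.sphere (0 : ℂ) 1 := by
      rw [ae_iff]
      exact nu_compl
    filter_upwards [this] with z hz using hC z hz

lemma nu_hasSum (g : ℂ → ℝ) (hg : Continuous g) :
    HasSum (fun j => cc j * g (pt j)) (∫ z, g z ∂nu) := by
  have h := hasSum_integral_measure (nu_integrable g hg)
  have h2 : ∀ j, ∫ z, g z ∂(ENNReal.ofReal (cc j) • Measure.dirac (pt j)) = cc j * g (pt j) := by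
    intro j
    rw [integral_smul_measure, integral_dirac, ENNReal.toReal_ofReal (cc_pos j).le, smul_eq_mul]
  simp_rw [h2] at h
  exact h

lemma nu_atom_le (p : ℂ[X]) (j : ℕ) : cc j * ‖p.eval (pt j)‖ ^ 2 ≤ ∫ w, ‖p.eval w‖ ^ 2 ∂nu := by
  have hc : Continuous fun w : ℂ => ‖p.eval w‖ ^ 2 := by
    have := p.continuous
    fun_prop
  have h := nu_hasSum _ hc
  exact le_hasSum h j (fun i _ => mul_nonneg (cc_pos i).le (by positivity))

/-- `‖·‖_{L²(ν)}` is a norm on the polynomials -/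
lemma nu_pos (p : ℂ[X]) (hp : p ≠ 0) : 0 < ∫ w, ‖p.eval w‖ ^ 2 ∂nu := by
  have hfin : {j : ℕ | p.eval (pt j) = 0}.Finite := by
    have h1 : (p.roots.toFinset : Set ℂ).Finite := Finset.finite_toSet _
    apply (h1.preimage pt_injective.injOn).subset
    intro j hj
    simp only [Set.mem_preimage, Finset.mem_coe, Multiset.mem_toFinset, mem_roots hp]
    exact hj
  obtain ⟨j, hj⟩ := hfin.exists_notMem
  have hj' : p.eval (pt j) ≠ 0 := hj
  refine lt_of_lt_of_le ?_ (nu_atom_le p j)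
  have := cc_pos j
  have : 0 < ‖p.eval (pt j)‖ := norm_pos_iff.mpr hj'
  positivity

/-- polynomials vanishing at the first `n` points have small norm -/
lemma nu_norm_le {p : ℂ[X]} {n : ℕ} {M : ℝ} (h0 : ∀ j < n, p.eval (pt j) = 0)
    (hM : ∀ z : ℂ, ‖z‖ = 1 → ‖p.eval z‖ ≤ M) :
    ∫ w, ‖p.eval w‖ ^ 2 ∂nu ≤ 2 * cc n * M ^ 2 := by
  have hc : Continuous fun w : ℂ => ‖p.eval w‖ ^ 2 := by
    have := p.continuous
    fun_prop
  have h := nu_hasSum _ hc
  have h1 : ∑ j ∈ Finset.range n, cc j * ‖p.eval (pt j)‖ ^ 2 = 0 := by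
    apply Finset.sum_eq_zero
    intro j hj
    rw [h0 j (Finset.mem_range.mp hj)]
    simp
  rw [← h.tsum_eq, ← h.summable.sum_add_tsum_nat_add n, h1, zero_add]
  have hs : Summable (fun i => cc (i + n) * M ^ 2) := (cc_summable_shift n).mul_right _
  have hM0 : 0 ≤ M := (norm_nonneg _).trans (hM 1 (by simp))
  calc ∑' i, cc (i + n) * ‖p.eval (pt (i + n))‖ ^ 2 ≤ ∑' i, cc (i + n) * M ^ 2 := by
        apply Summable.tsum_le_tsum _ ((summable_nat_add_iff n).mpr h.summable) hs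
        intro i
        apply mul_le_mul_of_nonneg_left _ (cc_pos _).le
        exact pow_le_pow_left₀ (norm_nonneg _) (hM _ (norm_pt _)) 2
    _ = (∑' i, cc (i + n)) * M ^ 2 := tsum_mul_right
    _ ≤ 2 * cc n * M ^ 2 := mul_le_mul_of_nonneg_right (cc_tail n) (by positivity)

end U556.BW
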