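import Pool.Agent.U556.BW5

/-!
# (S) holds and (W) fails
-/

open MeasureTheory Filter Topology Set Polynomial

noncomputable section

namespace U556.BW

lemma hint_nu : ∀ g : ℂ → ℂ, Continuous g → Integrable g nu := fun g hg => nu_integrable g hg

lemma mass_le {k : ℕ} {B : ℂ → ℝ} (hB : IsBergmanFunction nu k B) (j : ℕ) :
    cc j * B (pt j) ≤ 1 :=
  mul_bergman_le_one hint_nu hB (pt j) (fun p => nu_atom_le p j)

lemma mass_ge {k : ℕ} {B : ℂ → ℝ} (hB : IsBergmanFunction nu k B) {j : ℕ} (hj : j ≤ k) :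
    1 - 1 / ((k : ℝ) + 1) ≤ cc j * B (pt j) := by
  have hjr : j ∈ Finset.range (k + 1) := Finset.mem_range.mpr (Nat.lt_succ_of_le hj)
  have hinj : Set.InjOn pt (Finset.range (k + 1) : Set ℕ) := pt_injective.injOn
  have hself : (lag k j).eval (pt j) = 1 := Lagrange.eval_basis_self hinj hjr
  have hne : ∀ i ∈ Finset.range (k + 1), i ≠ j → (lag k j).eval (pt i) = 0 := fun i hi hij =>
    Lagrange.eval_basis_of_ne hij.symm hi
  have hdeg : (lag k j).natDegree ≤ k := by
    unfold lag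
    rw [Lagrange.natDegree_basis hinj hjr]
    simp
  have hM := MM_spec k
  have hc : Continuous fun w : ℂ => ‖(lag k j).eval w‖ ^ 2 := by
    have := (lag k j).continuous
    fun_prop
  have h := nu_hasSum _ hc
  have h1 : ∑ i ∈ Finset.range (k + 1), cc i * ‖(lag k j).eval (pt i)‖ ^ 2 = cc j := by
    rw [Finset.sum_eq_single j]
    · rw [hself]; simp
    · intro i hi hij
      rw [hne i hi hij]; simp
    · intro hn; exact absurd hjr hn
  have h2 : ∫ w, ‖(lag k j).eval w‖ ^ 2 ∂nu ≤ cc j + 2 * cc (k + 1) * MM k ^ 2 := by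
    rw [← h.tsum_eq, ← h.summable.sum_add_tsum_nat_add (k + 1), h1]
    have hs : Summable (fun i => cc (i + (k + 1)) * MM k ^ 2) := (cc_summable_shift (k + 1)).mul_right _
    apply add_le_add_right
    calc ∑' i, cc (i + (k + 1)) * ‖(lag k j).eval (pt (i + (k + 1)))‖ ^ 2
        ≤ ∑' i, cc (i + (k + 1)) * MM k ^ 2 := by
          apply Summable.tsum_le_tsum _ ((summable_nat_add_iff (k + 1)).mpr h.summable) hs
          intro i
          apply mul_le_mul_of_nonneg_left _ (cc_pos _).le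
          exact pow_le_pow_left₀ (norm_nonneg _) (hM.2 j hjr _ (norm_pt _)) 2
      _ = (∑' i, cc (i + (k + 1))) * MM k ^ 2 := tsum_mul_right
      _ ≤ 2 * cc (k + 1) * MM k ^ 2 := mul_le_mul_of_nonneg_right (cc_tail _) (by positivity)
  have h3 := cc_tail_M k
  have h4 : cc k / ((k : ℝ) + 1) ≤ cc j / ((k : ℝ) + 1) :=
    div_le_div_of_nonneg_right (cc_anti hj) (by positivity)
  have h5 : ∫ w, ‖(lag k j).eval w‖ ^ 2 ∂nu ≤ cc j * (1 + 1 / ((k : ℝ) + 1)) := by
    calc _ ≤ cc j + 2 * cc (k + 1) * MM k ^ 2 := h2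
      _ ≤ cc j + cc j / ((k : ℝ) + 1) := by linarith
      _ = _ := by ring
  have h6 := sq_le_bergman hint_nu hB hdeg (pt j)
  rw [hself, norm_one, one_pow] at h6
  have hB0 := bergman_nonneg hB (pt j)
  have h7 : 1 ≤ (cc j * B (pt j)) * (1 + 1 / ((k : ℝ) + 1)) := by
    calc (1 : ℝ) ≤ B (pt j) * ∫ w, ‖(lag k j).eval w‖ ^ 2 ∂nu := h6
      _ ≤ B (pt j) * (cc j * (1 + 1 / ((k : ℝ) + 1))) := mul_le_mul_of_nonneg_left h5 hB0
      _ = _ := by ring
  have h8 := mass_le hB j
  have h9 : (0 : ℝ) < 1 / ((k : ℝ) + 1) := by positivity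
  nlinarith

/-- distance to the average at the points -/
lemma S_bound {k : ℕ} {B : ℂ → ℝ} (hB : IsBergmanFunction nu k B) {f : ℂ → ℝ} (hf : Continuous f)
    {F : ℝ} (hF : ∀ j, |f (pt j)| ≤ F) :
    |∫ z, B z * f z ∂nu - ∑ j ∈ Finset.range (k + 1), f (pt j)| ≤ 2 * F := by
  have hBc := bergman_continuous hB
  have hF0 : 0 ≤ F := (abs_nonneg _).trans (hF 0)
  have h1 := nu_hasSum _ hBc
  have h2 := nu_hasSum (fun z => B z * f z) (hBc.mul hf)
  rw [integral_bergman hint_nu hB] at h1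
  have e1 := h1.summable.sum_add_tsum_nat_add (k + 1)
  have e2 := h2.summable.sum_add_tsum_nat_add (k + 1)
  rw [h1.tsum_eq] at e1
  rw [h2.tsum_eq] at e2
  rw [← e2]
  have hs1 : Summable (fun i => cc (i + (k + 1)) * B (pt (i + (k + 1)))) :=
    (summable_nat_add_iff (k + 1)).mpr h1.summable
  have hs2 : Summable (fun i => cc (i + (k + 1)) * (B (pt (i + (k + 1))) * f (pt (i + (k + 1))))) :=
    (summable_nat_add_iff (k + 1)).mpr h2.summable
  have hm0 : ∀ j, 0 ≤ cc j * B (pt j) := fun j => mul_nonneg (cc_pos j).le (bergman_nonneg hB _)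
  -- the sum of the missing masses
  have hsum : ∑ j ∈ Finset.range (k + 1), (1 - cc j * B (pt j)) ≤ 1 := by
    calc ∑ j ∈ Finset.range (k + 1), (1 - cc j * B (pt j))
        ≤ ∑ j ∈ Finset.range (k + 1), 1 / ((k : ℝ) + 1) := by
          apply Finset.sum_le_sum
          intro j hj
          have := mass_ge hB (Nat.lt_succ_iff.mp (Finset.mem_range.mp hj))
          linarith
      _ = 1 := by
          rw [Finset.sum_const, Finset.card_range, nsmul_eq_mul]
          push_cast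
          field_simp
  have htail : ∑' i, cc (i + (k + 1)) * B (pt (i + (k + 1))) =
      ∑ j ∈ Finset.range (k + 1), (1 - cc j * B (pt j)) := by
    rw [Finset.sum_sub_distrib]
    simp only [Finset.sum_const, Finset.card_range, nsmul_eq_mul, mul_one]
    push_cast
    linarith
  have hA : |∑ j ∈ Finset.range (k + 1), cc j * (B (pt j) * f (pt j)) -
      ∑ j ∈ Finset.range (k + 1), f (pt j)| ≤ F * ∑ j ∈ Finset.range (k + 1), (1 - cc j * B (pt j)) := by
    rw [← Finset.sum_sub_distrib, Finset.mul_sum]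
    refine (Finset.abs_sum_le_sum_abs _ _).trans (Finset.sum_le_sum fun j _ => ?_)
    have h8 := mass_le hB j
    have e : cc j * (B (pt j) * f (pt j)) - f (pt j) = -((1 - cc j * B (pt j)) * f (pt j)) := by ring
    rw [e, abs_neg, abs_mul, abs_of_nonneg (by linarith), mul_comm]
    exact mul_le_mul_of_nonneg_right (hF j) (by linarith)
  have hT : |∑' i, cc (i + (k + 1)) * (B (pt (i + (k + 1))) * f (pt (i + (k + 1))))| ≤
      F * ∑' i, cc (i + (k + 1)) * B (pt (i + (k + 1))) := by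
    have hb : ∀ i, |cc (i + (k + 1)) * (B (pt (i + (k + 1))) * f (pt (i + (k + 1))))| ≤
        F * (cc (i + (k + 1)) * B (pt (i + (k + 1)))) := by
      intro i
      have e : cc (i + (k + 1)) * (B (pt (i + (k + 1))) * f (pt (i + (k + 1)))) =
          (cc (i + (k + 1)) * B (pt (i + (k + 1)))) * f (pt (i + (k + 1))) := by ring
      rw [e, abs_mul, abs_of_nonneg (hm0 _), mul_comm]
      exact mul_le_mul_of_nonneg_right (hF _) (hm0 _)
    rw [← tsum_mul_left]
    have := tsum_of_norm_bounded ((hs1.mul_left F).hasSum) (fun i => by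
      rw [Real.norm_eq_abs]; exact hb i)
    simpa [Real.norm_eq_abs] using this
  rw [htail] at hT
  have hfin : F * ∑ j ∈ Finset.range (k + 1), (1 - cc j * B (pt j)) ≤ F * 1 :=
    mul_le_mul_of_nonneg_left hsum hF0
  have e3 : (∑ j ∈ Finset.range (k + 1), cc j * (B (pt j) * f (pt j)) +
      ∑' i, cc (i + (k + 1)) * (B (pt (i + (k + 1))) * f (pt (i + (k + 1))))) -
      ∑ j ∈ Finset.range (k + 1), f (pt j) =
      (∑ j ∈ Finset.range (k + 1), cc j * (B (pt j) * f (pt j)) -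
      ∑ j ∈ Finset.range (k + 1), f (pt j)) +
      ∑' i, cc (i + (k + 1)) * (B (pt (i + (k + 1))) * f (pt (i + (k + 1)))) := by ring
  rw [e3]
  refine (abs_add_le _ _).trans ?_
  linarith

/-- (S): the measures `(k+1)^{-1} B_k ν` converge weak-* to `dθ/2π`. -/
theorem S_holds {B : ℕ → ℂ → ℝ} (hB : ∀ k, IsBergmanFunction nu k (B k)) {f : ℂ → ℝ}
    (hf : Continuous f) :
    Tendsto (fun k : ℕ => ((k : ℝ) + 1)⁻¹ * ∫ z, B k z * f z ∂nu) atTop
      (𝓝 (∫ z, f z ∂circleMeasure)) := by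
  obtain ⟨F, hF⟩ := (isCompact_sphere (0 : ℂ) 1).exists_bound_of_continuousOn hf.continuousOn
  have hF' : ∀ j, |f (pt j)| ≤ F := fun j => hF _ (by simp [norm_pt])
  have hw := weyl_circle f hf
  have hd : Tendsto (fun k : ℕ => ((k : ℝ) + 1)⁻¹ * ∫ z, B k z * f z ∂nu -
      ((k : ℝ) + 1)⁻¹ * ∑ j ∈ Finset.range (k + 1), f (pt j)) atTop (𝓝 0) := by
    have hb : ∀ k : ℕ, ‖((k : ℝ) + 1)⁻¹ * ∫ z, B k z * f z ∂nu -
        ((k : ℝ) + 1)⁻¹ * ∑ j ∈ Finset.range (k + 1), f (pt j)‖ ≤ ((k : ℝ) + 1)⁻¹ * (2 * F) := by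
      intro k
      rw [← mul_sub, norm_mul, Real.norm_eq_abs, Real.norm_eq_abs, abs_of_nonneg (by positivity)]
      exact mul_le_mul_of_nonneg_left (S_bound (hB k) hf hF') (by positivity)
    apply squeeze_zero_norm hb
    have h5 : Tendsto (fun k : ℕ => ((k : ℝ) + 1)⁻¹) atTop (𝓝 0) := by
      have := tendsto_one_div_add_atTop_nhds_zero_nat (𝕜 := ℝ)
      simpa using this
    simpa using h5.mul_const (2 * F)
  have := hd.add hw
  simpa using this

/-- lower bound for the Bergman functions off the circle -/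
lemma log_bergman_ge {k : ℕ} {B : ℂ → ℝ} (hB : IsBergmanFunction nu k B) {z : ℂ} (hz : ‖z‖ ≠ 1) :
    (k : ℝ) ^ 2 + 2 * k * Real.log |‖z‖ - 1| - Real.log 2 - k * Real.log 4 ≤ Real.log (B z) := by
  set d : ℝ := |‖z‖ - 1| with hd
  have hd0 : 0 < d := abs_pos.mpr (sub_ne_zero.mpr hz)
  let p : ℂ[X] := Lagrange.nodal (Finset.range k) pt
  have hdeg : p.natDegree ≤ k := by
    simp only [p]
    rw [Lagrange.natDegree_nodal]
    simp
  have hv : ∀ j < k, p.eval (pt j) = 0 := fun j hj =>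
    Lagrange.eval_nodal_at_node (Finset.mem_range.mpr hj)
  have hM : ∀ w : ℂ, ‖w‖ = 1 → ‖p.eval w‖ ≤ 2 ^ k := by
    intro w hw
    simp only [p]
    rw [Lagrange.eval_nodal, norm_prod]
    calc ∏ j ∈ Finset.range k, ‖w - pt j‖ ≤ ∏ j ∈ Finset.range k, (2 : ℝ) := by
          apply Finset.prod_le_prod (fun _ _ => norm_nonneg _)
          intro j _
          calc ‖w - pt j‖ ≤ ‖w‖ + ‖pt j‖ := norm_sub_le _ _
            _ = 2 := by rw [hw, norm_pt]; norm_num
      _ = 2 ^ k := by simp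
  have hz1 : d ^ k ≤ ‖p.eval z‖ := by
    simp only [p]
    rw [Lagrange.eval_nodal, norm_prod]
    calc d ^ k = ∏ j ∈ Finset.range k, d := by simp
      _ ≤ ∏ j ∈ Finset.range k, ‖z - pt j‖ := by
          apply Finset.prod_le_prod (fun _ _ => hd0.le)
          intro j _
          have := abs_norm_sub_norm_le z (pt j)
          rw [norm_pt] at this
          exact this
  have h1 := nu_norm_le hv hM
  have h2 := sq_le_bergman hint_nu hB hdeg z
  have hB0 := bergman_nonneg hB z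
  have h3 : (d ^ k) ^ 2 ≤ B z * (2 * cc k * (2 ^ k) ^ 2) := by
    calc (d ^ k) ^ 2 ≤ ‖p.eval z‖ ^ 2 := pow_le_pow_left₀ (by positivity) hz1 2
      _ ≤ B z * ∫ w, ‖p.eval w‖ ^ 2 ∂nu := h2
      _ ≤ _ := mul_le_mul_of_nonneg_left h1 hB0
  have hcc := cc_le_exp k
  have h4 : (d ^ k) ^ 2 ≤ B z * (2 * Real.exp (-(k : ℝ) ^ 2) * (2 ^ k) ^ 2) := by
    refine h3.trans (mul_le_mul_of_nonneg_left ?_ hB0)
    gcongr
  have hBpos : 0 < B z := by
    rcases hB0.eq_or_lt with h | h
    · rw [← h, zero_mul] at h4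
      have : 0 < (d ^ k) ^ 2 := by positivity
      linarith
    · exact h
  have h5 := Real.log_le_log (by positivity) h4
  rw [Real.log_mul hBpos.ne' (by positivity), Real.log_mul (by positivity) (by positivity),
    Real.log_mul (by norm_num) (Real.exp_pos _).ne', Real.log_exp, Real.log_pow, Real.log_pow,
    Real.log_pow, Real.log_pow] at h5
  have h6 : Real.log 4 = 2 * Real.log 2 := by
    rw [show (4 : ℝ) = 2 ^ 2 by norm_num, Real.log_pow]; push_cast; ring
  rw [h6]
  push_cast at h5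
  nlinarith

/-- `(2k)^{-1} log B_k → +∞` off the circle -/
theorem log_tendsto {B : ℕ → ℂ → ℝ} (hB : ∀ k, IsBergmanFunction nu k (B k)) {z : ℂ}
    (hz : ‖z‖ ≠ 1) :
    Tendsto (fun k : ℕ => (2 * (k : ℝ))⁻¹ * Real.log (B k z)) atTop atTop := by
  have h1 : Tendsto (fun k : ℕ => (k : ℝ) / 2 + (Real.log |‖z‖ - 1| - Real.log 2 - Real.log 4 / 2))
      atTop atTop := by
    apply tendsto_atTop_add_const_right
    exact tendsto_natCast_atTop_atTop.atTop_div_const (by norm_num)
  apply tendsto_atTop_mono' _ _ h1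
  filter_upwards [eventually_ge_atTop 1] with k hk
  have h := log_bergman_ge (hB k) hz
  have hk' : (1 : ℝ) ≤ k := by exact_mod_cast hk
  have hl2 : 0 ≤ Real.log 2 := Real.log_nonneg (by norm_num)
  have h2k : 0 < 2 * (k : ℝ) := by linarith
  rw [inv_mul_eq_div, le_div_iff₀ h2k]
  nlinarith

end U556.BW
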