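import Pool.Agent.R250.MC2

set_option autoImplicit false

/-! # Exponential moments of a holomorphic function, from a majorant of the derivative on circles

If `g` is nonnegative and nondecreasing on `s < 0` and `|v H'(v)|² ≤ g''(s)` for `|v| = e ^ s`, then the mean of
`exp (Re (conj t H))` over `|v| = e ^ s` is at most `exp (|t|² g s)`.
-/

namespace Pool.Agent.U556.GS

open Complex Metric Set Filter Topology MeasureTheory
open Pool.Agent.W677.Mar
open Pool.Agent.R250.MC

/-- **Exponential moments.** -/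
theorem moments_gen {H : ℂ → ℂ} (hH : DifferentiableOn ℂ H (ball 0 1)) (h0 : H 0 = 0) {g g1 g2 : ℝ → ℝ}
    (hg : ∀ s < 0, HasDerivAt g (g1 s) s) (hg1 : ∀ s < 0, HasDerivAt g1 (g2 s) s)
    (hgn : ∀ s < 0, 0 ≤ g s) (hg1n : ∀ s < 0, 0 ≤ g1 s)
    (hD : ∀ v ∈ ball (0 : ℂ) 1, v ≠ 0 → ‖v * deriv H v‖ ^ 2 ≤ g2 (Real.log ‖v‖)) (t : ℂ) {r : ℝ} (hr0 : 0 < r)
    (hr1 : r < 1) :
    ∫ θ in (0 : ℝ)..(2 * Real.pi), Real.exp ((starRingEnd ℂ) t * H (pt r θ)).re ≤
      2 * Real.pi * Real.exp (‖t‖ ^ 2 * g (Real.log r)) := by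
  have hpi := Real.pi_pos
  obtain ⟨τ, hτ⟩ : ∃ τ, τ = ‖t‖ := ⟨_, rfl⟩
  have hτ0 : 0 ≤ τ := hτ ▸ norm_nonneg t
  rw [← hτ]
  set k : ℂ → ℂ := fun z => (starRingEnd ℂ) t * H z with hk
  have hkD : DifferentiableOn ℂ k (ball 0 1) := hH.const_mul _
  have hkd : ∀ z ∈ ball (0 : ℂ) 1, deriv k z = (starRingEnd ℂ) t * deriv H z := by
    intro z hz
    exact ((hH.differentiableAt (isOpen_ball.mem_nhds hz)).hasDerivAt.const_mul _).deriv
  have hK := kd_of (R₁ := 1) one_pos hkD
  rw [Real.log_one] at hK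
  set K : ℂ → ℂ := fun ζ => k (Complex.exp ζ) with hKd
  set K1 : ℂ → ℂ := fun ζ => Complex.exp ζ * deriv k (Complex.exp ζ) with hK1d
  set G : ℝ → ℝ := fun s => ∫ θ in (0 : ℝ)..(2 * Real.pi), (1 : ℝ) * Real.exp (K (zt s θ)).re with hG
  set G1 : ℝ → ℝ := fun s => ∫ θ in (0 : ℝ)..(2 * Real.pi),
    (1 : ℝ) * (Real.exp (K (zt s θ)).re * (K1 (zt s θ)).re) with hG1
  set G2 : ℝ → ℝ := fun s => (∫ θ in (0 : ℝ)..(2 * Real.pi),
    (1 : ℝ) * (Real.exp (K (zt s θ)).re * ‖K1 (zt s θ)‖ ^ 2)) -
    ∫ θ in (0 : ℝ)..(2 * Real.pi), (0 : ℝ) * Real.exp (K (zt s θ)).re with hG2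
  have dG : ∀ s < 0, HasDerivAt G (G1 s) s := fun s hs => en1 hK wd_one hs
  have dG1 : ∀ s < 0, HasDerivAt G1 (G2 s) s := fun s hs => en2 hK wd_one hs
  have hGn : ∀ s, 0 ≤ G s := by
    intro s
    apply intervalIntegral.integral_nonneg (by positivity)
    intro θ _
    positivity
  have cc : ∀ {f : ℂ → ℂ} {s : ℝ}, s < 0 → ContinuousOn f {ζ : ℂ | ζ.re < 0} →
      Continuous fun θ : ℝ => f (zt s θ) := by
    intro f s hs hf
    apply hf.comp_continuous (zt_cont.comp (continuous_const.prodMk continuous_id))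
    intro θ
    show (zt s θ).re < 0
    rw [zt_re]
    exact hs
  -- smallness of `G1` near `-∞`
  have hsmall : ∀ ε : ℝ, 0 < ε → ∀ s < 0, ∃ a < s, |G1 a| ≤ ε := by
    intro ε hε s hs
    have hcomp : IsCompact (closedBall (0 : ℂ) (1 / 2)) := isCompact_closedBall _ _
    have hsub : closedBall (0 : ℂ) (1 / 2) ⊆ ball 0 1 := closedBall_subset_ball (by norm_num)
    obtain ⟨M, hM⟩ := hcomp.exists_bound_of_continuousOn (hkD.continuousOn.mono hsub)
    obtain ⟨M', hM'⟩ := hcomp.exists_bound_of_continuousOn ((hkD.deriv isOpen_ball).continuousOn.mono hsub)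
    have hM0 : 0 ≤ M := (norm_nonneg _).trans (hM 0 (by simp))
    have hM'0 : 0 ≤ M' := (norm_nonneg _).trans (hM' 0 (by simp))
    obtain ⟨A, hA⟩ : ∃ A, A = 2 * Real.pi * (Real.exp M * M') + 1 := ⟨_, rfl⟩
    have hA0 : 0 < A := by rw [hA]; positivity
    obtain ⟨a, ha⟩ : ∃ a, a = min (s - 1) (min (-1) (Real.log (ε / A))) := ⟨_, rfl⟩
    have ha1 : a < s := by
      have := min_le_left (s - 1) (min (-1) (Real.log (ε / A)))
      rw [ha]; linarith
    have ha2 : a ≤ -1 := by rw [ha]; exact (min_le_right _ _).trans (min_le_left _ _)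
    have ha3 : Real.exp a ≤ ε / A := by
      rw [← Real.exp_log (show 0 < ε / A by positivity)]
      apply Real.exp_le_exp.2
      rw [ha]
      exact (min_le_right _ _).trans (min_le_right _ _)
    have he : Real.exp a ≤ 1 / 2 := by
      have h1 := Real.exp_le_exp.2 ha2
      have h2 := Real.exp_neg_one_lt_d9
      linarith
    refine ⟨a, ha1, ?_⟩
    have hb : ∀ θ ∈ uIoc (0 : ℝ) (2 * Real.pi),
        ‖(1 : ℝ) * (Real.exp (K (zt a θ)).re * (K1 (zt a θ)).re)‖ ≤ Real.exp M * (Real.exp a * M') := by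
      intro θ _
      have hz : Complex.exp (zt a θ) ∈ closedBall (0 : ℂ) (1 / 2) := by
        rw [mem_closedBall_zero_iff, Complex.norm_exp, zt_re]; exact he
      rw [one_mul, norm_mul, Real.norm_of_nonneg (Real.exp_pos _).le]
      apply mul_le_mul _ _ (norm_nonneg _) (Real.exp_pos _).le
      · apply Real.exp_le_exp.2
        exact (re_le_norm _).trans (hM _ hz)
      · rw [Real.norm_eq_abs]
        refine (abs_re_le_norm _).trans ?_
        simp only [hK1d]
        rw [norm_mul, Complex.norm_exp, zt_re]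
        exact mul_le_mul_of_nonneg_left (hM' _ hz) (Real.exp_pos _).le
    have h1 := intervalIntegral.norm_integral_le_of_norm_le_const hb
    rw [sub_zero, abs_of_pos (by positivity)] at h1
    rw [← Real.norm_eq_abs]
    refine h1.trans ?_
    calc Real.exp M * (Real.exp a * M') * (2 * Real.pi) = (2 * Real.pi * (Real.exp M * M')) * Real.exp a := by
          ring
      _ ≤ A * (ε / A) := by
          apply mul_le_mul _ ha3 (Real.exp_pos _).le hA0.le
          rw [hA]; linarith
      _ = ε := by field_simp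
  -- the comparison function
  set S : ℝ → ℝ := fun s => Real.exp (τ ^ 2 * g s) with hS
  set S1 : ℝ → ℝ := fun s => S s * (τ ^ 2 * g1 s) with hS1
  set S2 : ℝ → ℝ := fun s => S s * (τ ^ 2 * g1 s) * (τ ^ 2 * g1 s) + S s * (τ ^ 2 * g2 s) with hS2
  set q : ℝ → ℝ := fun s => τ ^ 2 * g2 s with hq
  have hS0 : ∀ s, 0 < S s := fun s => Real.exp_pos _
  have dS : ∀ s < 0, HasDerivAt S (S1 s) s := by
    intro s hs
    exact ((hg s hs).const_mul (τ ^ 2)).exp
  have dS1 : ∀ s < 0, HasDerivAt S1 (S2 s) s := by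
    intro s hs
    exact (dS s hs).fun_mul ((hg1 s hs).const_mul (τ ^ 2))
  have hS1n : ∀ s < 0, 0 ≤ S1 s := by
    intro s hs
    have := hg1n s hs
    have := (hS0 s).le
    simp only [hS1]
    positivity
  -- the differential inequality for `G`
  have hGi : ∀ s < 0, G2 s ≤ 0 * G1 s + q s * G s := by
    intro s hs
    have c0 := cc hs (kcK hK)
    have c1 := cc hs (kcK1 hK)
    have ce : Continuous fun θ : ℝ => Real.exp (K (zt s θ)).re :=
      Real.continuous_exp.comp (continuous_re.comp c0)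
    have i3 : IntervalIntegrable (fun θ : ℝ => Real.exp (K (zt s θ)).re)
        volume 0 (2 * Real.pi) := ce.intervalIntegrable _ _
    have i4 : IntervalIntegrable (fun θ : ℝ => Real.exp (K (zt s θ)).re * ‖K1 (zt s θ)‖ ^ 2)
        volume 0 (2 * Real.pi) := (ce.mul (c1.norm.pow 2)).intervalIntegrable _ _
    have hpt : ∀ θ : ℝ, ‖K1 (zt s θ)‖ ^ 2 ≤ q s := by
      intro θ
      obtain ⟨v, hv⟩ : ∃ v, v = Complex.exp (zt s θ) := ⟨_, rfl⟩
      have hvn : ‖v‖ = Real.exp s := by rw [hv, Complex.norm_exp, zt_re]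
      have hv1 : v ∈ ball (0 : ℂ) 1 := by
        rw [mem_ball_zero_iff, hvn]; exact Real.exp_lt_one_iff.2 hs
      have hv0 : v ≠ 0 := by rw [hv]; exact Complex.exp_ne_zero _
      have hK1e : K1 (zt s θ) = (starRingEnd ℂ) t * (v * deriv H v) := by
        simp only [hK1d]
        rw [← hv, hkd v hv1]
        ring
      have h1 := hD v hv1 hv0
      rw [hvn, Real.log_exp] at h1
      rw [hK1e, norm_mul, RCLike.norm_conj, ← hτ, mul_pow]
      exact mul_le_mul_of_nonneg_left h1 (sq_nonneg τ)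
    simp only [hG2, hG1, hG, zero_mul, one_mul, intervalIntegral.integral_zero, sub_zero, zero_add]
    have h5 : ∫ θ in (0 : ℝ)..(2 * Real.pi), Real.exp (K (zt s θ)).re * ‖K1 (zt s θ)‖ ^ 2 ≤
        ∫ θ in (0 : ℝ)..(2 * Real.pi), q s * Real.exp (K (zt s θ)).re := by
      apply intervalIntegral.integral_mono_on (by positivity) i4 (i3.const_mul _)
      intro θ _
      have h6 := mul_le_mul_of_nonneg_left (hpt θ) (Real.exp_pos (K (zt s θ)).re).le
      linarith
    rwa [intervalIntegral.integral_const_mul] at h5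
  -- the comparison function is a supersolution
  have hSi : ∀ s < 0, 0 * S1 s + q s * S s ≤ S2 s := by
    intro s hs
    have h1 := (hS0 s).le
    have h2 : 0 ≤ S s * (τ ^ 2 * g1 s) * (τ ^ 2 * g1 s) := by
      rw [mul_assoc]
      exact mul_nonneg h1 (mul_self_nonneg _)
    simp only [hS2, hq]
    linarith
  -- the comparison
  have hw : ∀ s < 0, G1 s * S s - G s * S1 s ≤ 0 := by
    intro s hs
    apply le_of_forall_pos_le_add
    intro ε hε
    rw [zero_add]
    obtain ⟨B, hB⟩ : ∃ B, B = S s + 1 := ⟨_, rfl⟩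
    have hB0 : 0 < B := by rw [hB]; have := hS0 s; linarith
    obtain ⟨a, ha, hae⟩ := hsmall (ε / B) (by positivity) s hs
    have ha0 : a < 0 := ha.trans hs
    have h2 := ode1 (G := G) (G1 := G1) (G2 := G2) (S := S) (S1 := S1) (S2 := S2) (E := fun _ => 1)
      (p := fun _ => 0) (q := q) (a := a) (b := s) (fun u hu => dG u (hu.2.trans_lt hs))
      (fun u hu => dG1 u (hu.2.trans_lt hs)) (fun u hu => dS u (hu.2.trans_lt hs))
      (fun u hu => dS1 u (hu.2.trans_lt hs)) (fun u _ => by
        have := hasDerivAt_const u (1 : ℝ)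
        simpa using this)
      (fun u _ => one_pos) (fun u _ => hGn u) (fun u _ => hS0 u)
      (fun u hu => hGi u (hu.2.trans_lt hs)) (fun u hu => hSi u (hu.2.trans_lt hs))
      ⟨ha.le, le_rfl⟩
    simp only [mul_one] at h2
    refine h2.trans ?_
    have h4 : 0 ≤ G a * S1 a := mul_nonneg (hGn a) (hS1n a ha0)
    have h5 : S a ≤ B := by
      have hm : MonotoneOn S (Icc a s) := by
        apply monotoneOn_of_deriv_nonneg (convex_Icc a s)
        · intro u hu
          exact (dS u (hu.2.trans_lt hs)).continuousAt.continuousWithinAt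
        · intro u hu
          exact (dS u ((interior_subset hu).2.trans_lt hs)).differentiableAt.differentiableWithinAt
        · intro u hu
          have hu' : u < 0 := (interior_subset hu).2.trans_lt hs
          rw [(dS u hu').deriv]
          exact hS1n u hu'
      have := hm ⟨le_rfl, ha.le⟩ ⟨ha.le, le_rfl⟩ ha.le
      rw [hB]; linarith
    have h6 : G1 a ≤ ε / B := (le_abs_self _).trans hae
    have h7 : G1 a * S a ≤ ε / B * B :=
      mul_le_mul h6 h5 (hS0 a).le (by positivity)
    have h8 : ε / B * B = ε := by field_simp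
    linarith
  -- the limit at the centre
  obtain ⟨s₁, hs₁⟩ : ∃ s₁, s₁ = Real.log r := ⟨_, rfl⟩
  have hs₁0 : s₁ < 0 := by rw [hs₁]; exact Real.log_neg hr0 hr1
  have hes₁ : Real.exp s₁ = r := by rw [hs₁]; exact Real.exp_log hr0
  have hmain : G s₁ / S s₁ ≤ 2 * Real.pi := by
    apply le_of_forall_pos_le_add
    intro ε hε
    have hcont : ContinuousAt (fun z : ℂ => k z) 0 :=
      (hkD.differentiableAt (isOpen_ball.mem_nhds (mem_ball_self one_pos))).continuousAt
    have hk0 : k 0 = 0 := by simp only [hk]; rw [h0, mul_zero]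
    obtain ⟨η, hη, hηe⟩ : ∃ η : ℝ, 0 < η ∧ 2 * Real.pi * Real.exp η ≤ 2 * Real.pi + ε := by
      refine ⟨Real.log (1 + ε / (2 * Real.pi)), ?_, ?_⟩
      · apply Real.log_pos
        have : 0 < ε / (2 * Real.pi) := by positivity
        linarith
      · rw [Real.exp_log (by positivity)]
        apply le_of_eq
        field_simp
    rw [Metric.continuousAt_iff] at hcont
    obtain ⟨δ, hδ, hδk⟩ := hcont η hη
    obtain ⟨a, ha⟩ : ∃ a, a = min s₁ (Real.log (δ / 2)) := ⟨_, rfl⟩
    have ha1 : a ≤ s₁ := by rw [ha]; exact min_le_left _ _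
    have ha0 : a < 0 := ha1.trans_lt hs₁0
    have hea : Real.exp a < δ := by
      have h1 : Real.exp a ≤ δ / 2 := by
        rw [← Real.exp_log (show 0 < δ / 2 by positivity)]
        apply Real.exp_le_exp.2
        rw [ha]; exact min_le_right _ _
      linarith
    have h2 := ode2 (G := G) (G1 := G1) (S := S) (S1 := S1) ha1
      (fun u hu => dG u (hu.2.trans_lt hs₁0)) (fun u hu => dS u (hu.2.trans_lt hs₁0))
      (fun u _ => hS0 u) (fun u hu => hw u (hu.2.trans_lt hs₁0))
    refine h2.trans ?_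
    have hSa : 1 ≤ S a := by
      simp only [hS]
      apply Real.one_le_exp
      have := hgn a ha0
      positivity
    have hGa : G a ≤ 2 * Real.pi * Real.exp η := by
      have c0 := cc ha0 (kcK hK)
      have ce : Continuous fun θ : ℝ => Real.exp (K (zt a θ)).re :=
        Real.continuous_exp.comp (continuous_re.comp c0)
      simp only [hG, one_mul]
      calc ∫ θ in (0 : ℝ)..(2 * Real.pi), Real.exp (K (zt a θ)).re
          ≤ ∫ _θ in (0 : ℝ)..(2 * Real.pi), Real.exp η := by
            apply intervalIntegral.integral_mono_on (by positivity) (ce.intervalIntegrable _ _)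
              intervalIntegrable_const
            intro θ _
            apply Real.exp_le_exp.2
            refine (re_le_norm _).trans ?_
            have h3 := hδk (x := Complex.exp (zt a θ)) (by
              rw [dist_zero_right, Complex.norm_exp, zt_re]; exact hea)
            rw [hk0, dist_zero_right] at h3
            exact h3.le
        _ = 2 * Real.pi * Real.exp η := by simp
    rw [div_le_iff₀ (hS0 a)]
    calc G a ≤ 2 * Real.pi + ε := hGa.trans hηe
      _ ≤ (2 * Real.pi + ε) * S a := le_mul_of_one_le_right (by positivity) hSa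
  rw [div_le_iff₀ (hS0 s₁)] at hmain
  have e0 : G s₁ = ∫ θ in (0 : ℝ)..(2 * Real.pi), Real.exp ((starRingEnd ℂ) t * H (pt r θ)).re := by
    simp only [hG, hKd, hk, one_mul]
    refine intervalIntegral.integral_congr fun θ _ => ?_
    rw [exp_zt, hes₁]
  rw [← e0, ← hs₁]
  exact hmain

end Pool.Agent.U556.GS
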