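import Pool.Agent.U556.GS1

set_option autoImplicit false

/-! # From exponential moments to exponential square integrability -/

namespace Pool.Agent.U556.GS

open Complex Metric Set Filter Topology MeasureTheory
open Pool.Agent.W677.Mar
open Pool.Agent.R250.MC

/-- the integral of the question -/
noncomputable def mar (a R : ℝ) (h : ℂ → ℂ) : ℝ :=
  (1 / (2 * Real.pi)) * ∫ θ in (0 : ℝ)..(2 * Real.pi),
    Real.exp (a * ‖h ((R : ℂ) * Complex.exp ((θ : ℂ) * Complex.I))‖ ^ 2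
          / Real.log (R ^ 2 / (R ^ 2 - 1)))

/-- the exponential moments on the circle `|z| = R` -/
def Mom (h : ℂ → ℂ) (R m : ℝ) : Prop :=
  ∀ t : ℂ, ∫ θ in (0 : ℝ)..(2 * Real.pi), Real.exp ((starRingEnd ℂ) t *
    h ((R : ℂ) * Complex.exp ((θ : ℂ) * Complex.I))).re ≤ 2 * Real.pi * Real.exp (‖t‖ ^ 2 * m)

theorem circ_norm {R : ℝ} (hR : 1 < R) (θ : ℝ) : ‖(R : ℂ) * Complex.exp ((θ : ℂ) * Complex.I)‖ = R := by
  rw [norm_mul, Complex.norm_exp_ofReal_mul_I, Complex.norm_real, Real.norm_of_nonneg (by linarith),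
    mul_one]

theorem circ_cont {h : ℂ → ℂ} (hH : Hol h 0) {R : ℝ} (hR : 1 < R) :
    Continuous fun θ : ℝ => h ((R : ℂ) * Complex.exp ((θ : ℂ) * Complex.I)) := by
  apply hH.1.continuousOn.comp_continuous (by fun_prop)
  intro θ
  show 1 < ‖(R : ℂ) * Complex.exp ((θ : ℂ) * Complex.I)‖
  rw [circ_norm hR]
  exact hR

/-- moments from a majorant of the derivative on circles -/
theorem mom_of_majorant {h : ℂ → ℂ} (hH : Hol h 0) {g g1 g2 : ℝ → ℝ}
    (hg : ∀ s, 0 < s → HasDerivAt g (g1 s) s) (hg1 : ∀ s, 0 < s → HasDerivAt g1 (g2 s) s)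
    (hgn : ∀ s, 0 < s → 0 ≤ g s) (hg1n : ∀ s, 0 < s → g1 s ≤ 0)
    (hD : ∀ z : ℂ, 1 < ‖z‖ → ‖z * deriv h z‖ ^ 2 ≤ g2 (Real.log ‖z‖)) {R : ℝ} (hR : 1 < R) :
    Mom h R (g (Real.log R)) := by
  intro t
  have hR0 : 0 < R := by linarith
  have h1 := moments_gen (hat_diff hH) (hat_zero h 0) (g := fun s => g (-s)) (g1 := fun s => -g1 (-s))
    (g2 := fun s => g2 (-s)) ?_ ?_ (fun s hs => hgn _ (by linarith))
    (fun s hs => by
      have := hg1n (-s) (by linarith)
      linarith) ?_ t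
    (r := R⁻¹) (by positivity) (inv_lt_one_of_one_lt₀ hR)
  · have h2 := (circ_int h hR (fun w => Real.exp ((starRingEnd ℂ) t * w).re)).trans_le h1
    simp only [Real.log_inv, neg_neg] at h2
    exact h2
  · intro s hs
    have h3 := (hg (-s) (by linarith)).comp s (hasDerivAt_neg s)
    exact h3.congr_deriv (by ring)
  · intro s hs
    have h3 := ((hg1 (-s) (by linarith)).comp s (hasDerivAt_neg s)).neg
    exact h3.congr_deriv (by ring)
  · intro v hv hv0
    have h3 := hat_deriv hH hv hv0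
    rw [h3, norm_neg]
    have h4 := hD v⁻¹ (inv_ext hv hv0)
    rw [norm_inv, Real.log_inv] at h4
    exact h4

/-- exponential square integrability -/
theorem square_gen {h : ℂ → ℂ} (hH : Hol h 0) {R a m : ℝ} (hR : 1 < R) (ha : 0 < a)
    (hm : 4 * a * m < Real.log (R ^ 2 / (R ^ 2 - 1))) (hB : Mom h R m) :
    mar a R h ≤ 1 / (1 - 4 * a * m / Real.log (R ^ 2 / (R ^ 2 - 1))) := by
  have hpi := Real.pi_pos
  have hR0 : 0 < R := by linarith
  have hL := L_pos hR
  unfold mar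
  obtain ⟨L, hLd⟩ : ∃ L, L = Real.log (R ^ 2 / (R ^ 2 - 1)) := ⟨_, rfl⟩
  rw [← hLd] at hL hm ⊢
  obtain ⟨b, hb⟩ : ∃ b, b = L / (4 * a) := ⟨_, rfl⟩
  have hb0 : 0 < b := by rw [hb]; positivity
  have hbm : m < b := by
    rw [hb, lt_div_iff₀ (by positivity)]
    linarith
  set f : ℝ → ℂ := fun θ => h ((R : ℂ) * Complex.exp ((θ : ℂ) * Complex.I)) with hf
  have hgc : Continuous f := circ_cont hH hR
  have hcomp : IsCompact (sphere (0 : ℂ) R) := isCompact_sphere _ _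
  obtain ⟨M, hM⟩ := hcomp.exists_bound_of_continuousOn (f := h) (hH.1.continuousOn.mono (by
    intro z hz
    rw [mem_sphere_zero_iff_norm] at hz
    show 1 < ‖z‖
    rw [hz]
    exact hR))
  have hgM : ∀ θ, ‖f θ‖ ≤ M := by
    intro θ
    apply hM
    rw [mem_sphere_zero_iff_norm, circ_norm hR]
  have hbm0 : 0 < b - m := by linarith
  obtain ⟨g1, g2⟩ := gauss0 hbm0
  have e1 : (fun t : ℂ => Real.exp (-b * ‖t‖ ^ 2) * (2 * Real.pi * Real.exp (‖t‖ ^ 2 * m))) =
      fun t : ℂ => 2 * Real.pi * Real.exp (-(b - m) * ‖t‖ ^ 2) := by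
    funext t
    have : Real.exp (-(b - m) * ‖t‖ ^ 2) = Real.exp (-b * ‖t‖ ^ 2) * Real.exp (‖t‖ ^ 2 * m) := by
      rw [← Real.exp_add]
      congr 1
      ring
    rw [this]
    ring
  have h1 := gauss_avg hgc hgM hb0 hB (by rw [e1]; exact g1.const_mul _)
  rw [e1, integral_const_mul, g2] at h1
  have e2 : ∀ θ, Real.exp (a * ‖f θ‖ ^ 2 / L) = Real.exp (‖f θ‖ ^ 2 / (4 * b)) := by
    intro θ
    congr 1
    rw [hb]
    field_simp
  simp only [hf] at e2 h1
  simp only [e2]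
  calc (1 / (2 * Real.pi)) * ∫ θ in (0 : ℝ)..(2 * Real.pi),
        Real.exp (‖h ((R : ℂ) * Complex.exp ((θ : ℂ) * Complex.I))‖ ^ 2 / (4 * b))
      ≤ (1 / (2 * Real.pi)) * (b / Real.pi * (2 * Real.pi * (Real.pi / (b - m)))) :=
        mul_le_mul_of_nonneg_left h1 (by positivity)
    _ = b / (b - m) := by field_simp
    _ = 1 / (1 - 4 * a * m / L) := by
        have h2 : 1 - 4 * a * m / L = (b - m) / b := by
          rw [hb]
          field_simp
        rw [h2, one_div, inv_div]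

/-- the uniform version for the class `Σ` -/
theorem uniform_gen {a B K : ℝ} (ha : 0 < a) (hB : a * B < 1) (hK : 0 ≤ K) :
    ∃ C : ℝ, ∀ (R m : ℝ) (Y h : ℂ → ℂ), 1 < R → Hol h 0 → Sg Y (hat h 0) →
      4 * m ≤ B * Real.log (R ^ 2 / (R ^ 2 - 1)) + K → Mom h R m → mar a R h ≤ C := by
  have hpi := Real.pi_pos
  obtain ⟨δ, hδ⟩ : ∃ δ, δ = 1 - a * B := ⟨_, rfl⟩
  have hδ0 : 0 < δ := by rw [hδ]; linarith
  obtain ⟨Λ, hΛ⟩ : ∃ Λ, Λ = 2 * a * K / δ := ⟨_, rfl⟩
  have hΛ0 : 0 ≤ Λ := by rw [hΛ]; positivity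
  refine ⟨max (2 / δ) (Real.exp (a * Λ)), ?_⟩
  intro R m Y h hR hH S hm hMom
  have hR0 : 0 < R := by linarith
  have hL := L_pos hR
  rcases le_or_gt Λ (Real.log (R ^ 2 / (R ^ 2 - 1))) with h1 | h1
  · apply le_trans _ (le_max_left _ _)
    have h3 : 4 * a * m / Real.log (R ^ 2 / (R ^ 2 - 1)) ≤ 1 - δ / 2 := by
      rw [div_le_iff₀ hL]
      have h4 : a * K = δ / 2 * Λ := by rw [hΛ]; field_simp
      have h5 := mul_le_mul_of_nonneg_left h1 (by positivity : 0 ≤ δ / 2)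
      have h6 := mul_le_mul_of_nonneg_left hm ha.le
      rw [hδ] at h4 h5 ⊢
      nlinarith
    have h4 : 4 * a * m < Real.log (R ^ 2 / (R ^ 2 - 1)) := by
      rw [div_le_iff₀ hL] at h3
      nlinarith
    refine (square_gen hH hR ha h4 hMom).trans ?_
    rw [div_le_div_iff₀ (by linarith) hδ0]
    linarith
  · apply le_trans _ (le_max_right _ _)
    have hb : ∀ θ : ℝ, Real.exp (a * ‖h ((R : ℂ) * Complex.exp ((θ : ℂ) * Complex.I))‖ ^ 2
          / Real.log (R ^ 2 / (R ^ 2 - 1))) ≤ Real.exp (a * Λ) := by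
      intro θ
      apply Real.exp_le_exp.2
      have h2 := goluzin_ext S hR (circ_norm hR θ)
      rw [div_le_iff₀ hL]
      have h3 := norm_nonneg (h ((R : ℂ) * Complex.exp ((θ : ℂ) * Complex.I)))
      calc a * ‖h ((R : ℂ) * Complex.exp ((θ : ℂ) * Complex.I))‖ ^ 2
          ≤ a * (Real.log (R ^ 2 / (R ^ 2 - 1))) ^ 2 := by
            apply mul_le_mul_of_nonneg_left _ ha.le
            exact pow_le_pow_left₀ h3 h2 2
        _ ≤ a * Λ * Real.log (R ^ 2 / (R ^ 2 - 1)) := by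
            rw [sq, ← mul_assoc]
            apply mul_le_mul_of_nonneg_right _ hL.le
            exact mul_le_mul_of_nonneg_left h1.le ha.le
    have hgc := circ_cont hH hR
    have h3 : ∫ θ in (0 : ℝ)..(2 * Real.pi),
        Real.exp (a * ‖h ((R : ℂ) * Complex.exp ((θ : ℂ) * Complex.I))‖ ^ 2
          / Real.log (R ^ 2 / (R ^ 2 - 1))) ≤ ∫ _θ in (0 : ℝ)..(2 * Real.pi), Real.exp (a * Λ) := by
      apply intervalIntegral.integral_mono_on (by positivity)
      · apply Continuous.intervalIntegrable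
        exact ((continuous_const.mul (hgc.norm.pow 2)).div_const _).rexp
      · exact intervalIntegrable_const
      · intro θ _
        exact hb θ
    rw [intervalIntegral.integral_const, smul_eq_mul, sub_zero] at h3
    unfold mar
    calc (1 / (2 * Real.pi)) * ∫ θ in (0 : ℝ)..(2 * Real.pi),
        Real.exp (a * ‖h ((R : ℂ) * Complex.exp ((θ : ℂ) * Complex.I))‖ ^ 2
          / Real.log (R ^ 2 / (R ^ 2 - 1)))
        ≤ (1 / (2 * Real.pi)) * (2 * Real.pi * Real.exp (a * Λ)) :=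
          mul_le_mul_of_nonneg_left h3 (by positivity)
      _ = Real.exp (a * Λ) := by field_simp

end Pool.Agent.U556.GS
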