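import Pool.Agent.U556.GS2

set_option autoImplicit false

/-! # Gap series: exponential moments -/

namespace Pool.Agent.U556.GS

open Complex Metric Set Filter Topology MeasureTheory
open Pool.Agent.W677.Mar
open Pool.Agent.R250.MC

/-- `h(z) = ∑ c k z ^ (-n k)` for `|z| > 1`, with `n (k + 1) ≥ q n k` and `n 0 ≥ 1` -/
structure Gap (q : ℝ) (c : ℕ → ℂ) (n : ℕ → ℕ) (h : ℂ → ℂ) : Prop where
  pos : 1 ≤ n 0
  gap : ∀ k, q * n k ≤ n (k + 1)
  sum : ∀ z : ℂ, 1 < ‖z‖ → HasSum (fun k => c k * z⁻¹ ^ n k) (h z)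

section seq

variable {q : ℝ} {n : ℕ → ℕ}

theorem n_pos (hq : 1 < q) (h0 : 1 ≤ n 0) (hg : ∀ k, q * n k ≤ n (k + 1)) (k : ℕ) : 1 ≤ n k := by
  induction k with
  | zero => exact h0
  | succ k ih =>
    have h1 := hg k
    have h2 : (1 : ℝ) ≤ n k := by exact_mod_cast ih
    have h3 : (1 : ℝ) ≤ n (k + 1) := by nlinarith
    exact_mod_cast h3

theorem n_lt (hq : 1 < q) (h0 : 1 ≤ n 0) (hg : ∀ k, q * n k ≤ n (k + 1)) (k : ℕ) : n k < n (k + 1) := by
  have h1 := hg k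
  have h2 : (1 : ℝ) ≤ n k := by exact_mod_cast n_pos hq h0 hg k
  have h3 : (n k : ℝ) < n (k + 1) := by nlinarith
  exact_mod_cast h3

theorem n_mono (hq : 1 < q) (h0 : 1 ≤ n 0) (hg : ∀ k, q * n k ≤ n (k + 1)) : StrictMono n :=
  strictMono_nat_of_lt_succ (n_lt hq h0 hg)

theorem sum_low (hq : 1 < q) (h0 : 1 ≤ n 0) (hg : ∀ k, q * n k ≤ n (k + 1)) (j : ℕ) :
    ∑ k ∈ Finset.range j, (n k : ℝ) ≤ n j / (q - 1) := by
  have hq1 : 0 < q - 1 := by linarith
  induction j with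
  | zero => simp; positivity
  | succ j ih =>
    rw [Finset.sum_range_succ, le_div_iff₀ hq1]
    rw [le_div_iff₀ hq1] at ih
    have := hg j
    nlinarith

theorem sum_high (hq : 1 < q) (h0 : 1 ≤ n 0) (hg : ∀ k, q * n k ≤ n (k + 1)) (j M : ℕ) :
    ∑ k ∈ Finset.range M, (1 : ℝ) / n (j + 1 + k) ≤ (1 / n j - 1 / n (j + M)) / (q - 1) := by
  have hq1 : 0 < q - 1 := by linarith
  induction M with
  | zero => simp
  | succ M ih =>
    rw [Finset.sum_range_succ]
    have h1 := hg (j + M)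
    have h2 : (0 : ℝ) < n (j + M) := by exact_mod_cast n_pos hq h0 hg (j + M)
    have h3 : (0 : ℝ) < n (j + M + 1) := by exact_mod_cast n_pos hq h0 hg (j + M + 1)
    have e : j + 1 + M = j + M + 1 := by ring
    have e' : j + (M + 1) = j + M + 1 := by ring
    rw [e, e']
    have h4 : (1 : ℝ) / n (j + M + 1) ≤ (1 / n (j + M) - 1 / n (j + M + 1)) / (q - 1) := by
      rw [le_div_iff₀ hq1, div_mul_eq_mul_div, one_mul, le_sub_iff_add_le, ← add_div,
        div_le_div_iff₀ h3 h2]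
      linarith
    calc _ ≤ (1 / n j - 1 / n (j + M)) / (q - 1) + (1 / n (j + M) - 1 / n (j + M + 1)) / (q - 1) :=
          add_le_add ih h4
      _ = _ := by rw [← add_div]; congr 1; ring

/-- the kernel -/
noncomputable def ker (n : ℕ → ℕ) (j k : ℕ) : ℝ := (n j : ℝ) * n k / ((n j : ℝ) + n k) ^ 2

theorem ker_symm (j k : ℕ) : ker n j k = ker n k j := by
  unfold ker
  rw [mul_comm, add_comm]

theorem ker_nonneg (j k : ℕ) : 0 ≤ ker n j k := by unfold ker; positivity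

theorem ker_le {j k : ℕ} (hj : 1 ≤ n j) (hk : 1 ≤ n k) : ker n j k ≤ (n k : ℝ) / n j := by
  have h1 : (1 : ℝ) ≤ n j := by exact_mod_cast hj
  have h2 : (1 : ℝ) ≤ n k := by exact_mod_cast hk
  unfold ker
  rw [div_le_div_iff₀ (by positivity) (by positivity)]
  have : (n j : ℝ) * n k * n j ≤ n k * ((n j : ℝ) ^ 2) := by nlinarith
  refine this.trans (mul_le_mul_of_nonneg_left ?_ (by linarith))
  nlinarith

theorem ker_self {j : ℕ} (hj : 1 ≤ n j) : ker n j j = 1 / 4 := by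
  have h1 : (1 : ℝ) ≤ n j := by exact_mod_cast hj
  unfold ker
  field_simp
  ring

theorem row (hq : 1 < q) (h0 : 1 ≤ n 0) (hg : ∀ k, q * n k ≤ n (k + 1)) {j N : ℕ} (hj : j < N) :
    ∑ k ∈ Finset.range N, ker n j k ≤ 1 / 4 + 2 / (q - 1) := by
  have hq1 : 0 < q - 1 := by linarith
  obtain ⟨M, rfl⟩ : ∃ M, N = (j + 1) + M := ⟨N - (j + 1), by omega⟩
  have hp := n_pos hq h0 hg
  have hnj : (1 : ℝ) ≤ n j := by exact_mod_cast hp j
  rw [Finset.sum_range_add, Finset.sum_range_succ, ker_self (hp j)]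
  have h1 : ∑ k ∈ Finset.range j, ker n j k ≤ 1 / (q - 1) := by
    calc ∑ k ∈ Finset.range j, ker n j k ≤ ∑ k ∈ Finset.range j, (n k : ℝ) / n j :=
          Finset.sum_le_sum fun k _ => ker_le (hp j) (hp k)
      _ = (∑ k ∈ Finset.range j, (n k : ℝ)) / n j := by rw [Finset.sum_div]
      _ ≤ (n j / (q - 1)) / n j := div_le_div_of_nonneg_right (sum_low hq h0 hg j) (by linarith)
      _ = 1 / (q - 1) := by field_simp
  have h2 : ∑ k ∈ Finset.range M, ker n j (j + 1 + k) ≤ 1 / (q - 1) := by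
    calc ∑ k ∈ Finset.range M, ker n j (j + 1 + k) ≤ ∑ k ∈ Finset.range M, (n j : ℝ) * (1 / n (j + 1 + k)) :=
          Finset.sum_le_sum fun k _ => by
            rw [ker_symm, mul_one_div]
            exact ker_le (hp _) (hp j)
      _ = n j * ∑ k ∈ Finset.range M, (1 : ℝ) / n (j + 1 + k) := by rw [Finset.mul_sum]
      _ ≤ n j * ((1 / n j - 1 / n (j + M)) / (q - 1)) :=
          mul_le_mul_of_nonneg_left (sum_high hq h0 hg j M) (by linarith)
      _ ≤ n j * ((1 / n j) / (q - 1)) := by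
          apply mul_le_mul_of_nonneg_left _ (by linarith)
          apply div_le_div_of_nonneg_right _ hq1.le
          have : (0 : ℝ) ≤ 1 / n (j + M) := by positivity
          linarith
      _ = 1 / (q - 1) := by field_simp
  have e : (2 : ℝ) / (q - 1) = 1 / (q - 1) + 1 / (q - 1) := by ring
  rw [e]
  linarith

theorem schur (hq : 1 < q) (h0 : 1 ≤ n 0) (hg : ∀ k, q * n k ≤ n (k + 1)) (N : ℕ) (w : ℕ → ℝ) :
    ∑ j ∈ Finset.range N, ∑ k ∈ Finset.range N, ker n j k * (w j * w k) ≤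
      (1 / 4 + 2 / (q - 1)) * ∑ j ∈ Finset.range N, w j ^ 2 := by
  have h1 : ∑ j ∈ Finset.range N, ∑ k ∈ Finset.range N, ker n j k * (w j * w k) ≤
      ∑ j ∈ Finset.range N, ∑ k ∈ Finset.range N, ker n j k * ((w j ^ 2 + w k ^ 2) / 2) := by
    refine Finset.sum_le_sum fun j _ => Finset.sum_le_sum fun k _ => ?_
    apply mul_le_mul_of_nonneg_left _ (ker_nonneg j k)
    nlinarith [sq_nonneg (w j - w k)]
  have h2 : ∑ j ∈ Finset.range N, ∑ k ∈ Finset.range N, ker n j k * (w k ^ 2 / 2) =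
      ∑ j ∈ Finset.range N, ∑ k ∈ Finset.range N, ker n j k * (w j ^ 2 / 2) := by
    rw [Finset.sum_comm]
    refine Finset.sum_congr rfl fun j _ => Finset.sum_congr rfl fun k _ => ?_
    rw [ker_symm]
  have h3 : ∑ j ∈ Finset.range N, ∑ k ∈ Finset.range N, ker n j k * ((w j ^ 2 + w k ^ 2) / 2) =
      ∑ j ∈ Finset.range N, (∑ k ∈ Finset.range N, ker n j k) * w j ^ 2 := by
    have e : ∀ j k, ker n j k * ((w j ^ 2 + w k ^ 2) / 2) = ker n j k * (w j ^ 2 / 2) +
        ker n j k * (w k ^ 2 / 2) := fun j k => by ring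
    simp only [e, Finset.sum_add_distrib]
    rw [h2, ← Finset.sum_add_distrib]
    refine Finset.sum_congr rfl fun j _ => ?_
    rw [Finset.sum_mul, ← Finset.sum_add_distrib]
    refine Finset.sum_congr rfl fun k _ => ?_
    ring
  rw [h3] at h1
  refine h1.trans ?_
  rw [Finset.mul_sum]
  refine Finset.sum_le_sum fun j hj => ?_
  exact mul_le_mul_of_nonneg_right (row hq h0 hg (Finset.mem_range.1 hj)) (sq_nonneg _)

end seq

/-- the partial sums -/
noncomputable def part (c : ℕ → ℂ) (n : ℕ → ℕ) (N : ℕ) (z : ℂ) : ℂ :=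
  ∑ k ∈ Finset.range N, c k * z⁻¹ ^ n k

theorem part_deriv (c : ℕ → ℂ) (n : ℕ → ℕ) (N : ℕ) (hn : ∀ k, 1 ≤ n k) {z : ℂ} (hz : z ≠ 0) :
    HasDerivAt (part c n N) (-(∑ k ∈ Finset.range N, (n k : ℂ) * (c k * z⁻¹ ^ n k)) * z⁻¹) z := by
  have h1 : ∀ k ∈ Finset.range N, HasDerivAt (fun z : ℂ => c k * z⁻¹ ^ n k)
      (c k * ((n k : ℂ) * z⁻¹ ^ (n k - 1) * (-(z ^ 2)⁻¹))) z := fun k _ =>
    ((hasDerivAt_inv hz).pow (n k)).const_mul (c k)
  refine (HasDerivAt.fun_sum h1).congr_deriv ?_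
  rw [neg_mul, Finset.sum_mul, ← Finset.sum_neg_distrib]
  refine Finset.sum_congr rfl fun k _ => ?_
  obtain ⟨m, hm⟩ : ∃ m, n k = m + 1 := ⟨n k - 1, by have := hn k; omega⟩
  rw [hm, Nat.add_sub_cancel, pow_succ z⁻¹ m, sq, mul_inv]
  ring

theorem part_hol (c : ℕ → ℂ) (n : ℕ → ℕ) (N : ℕ) (hn : ∀ k, 1 ≤ n k) : Hol (part c n N) 0 := by
  constructor
  · intro z hz
    have hz0 : z ≠ 0 := by
      rintro rfl
      have : (1 : ℝ) < ‖(0 : ℂ)‖ := hz
      rw [norm_zero] at this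
      linarith
    exact (part_deriv c n N hn hz0).differentiableAt.differentiableWithinAt
  · have h1 : Tendsto (fun z : ℂ => ∑ k ∈ Finset.range N, c k * z⁻¹ ^ n k) (Bornology.cobounded ℂ)
        (𝓝 (∑ k ∈ Finset.range N, c k * 0 ^ n k)) :=
      tendsto_finsetSum _ fun k _ => ((tendsto_inv₀_cobounded).pow (n k)).const_mul (c k)
    have e : ∑ k ∈ Finset.range N, c k * (0 : ℂ) ^ n k = 0 := by
      refine Finset.sum_eq_zero fun k _ => ?_
      rw [zero_pow (by have := hn k; omega), mul_zero]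
    rw [e] at h1
    exact h1

/-- moments of the partial sums -/
theorem part_mom {q : ℝ} {n : ℕ → ℕ} (hq : 1 < q) (h0 : 1 ≤ n 0) (hg : ∀ k, q * n k ≤ n (k + 1))
    (c : ℕ → ℂ) (N : ℕ) {R : ℝ} (hR : 1 < R) :
    Mom (part c n N) R ((1 / 4 + 2 / (q - 1)) * ∑ k ∈ Finset.range N, (‖c k‖ * R⁻¹ ^ n k) ^ 2) := by
  have hp := n_pos hq h0 hg
  have hR0 : 0 < R := by linarith
  set A : ℕ → ℕ → ℝ := fun j k => ‖c j‖ * ‖c k‖ with hA
  have hA0 : ∀ j k, 0 ≤ A j k := fun j k => by simp only [hA]; positivity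
  set g : ℝ → ℝ := fun s => ∑ j ∈ Finset.range N, ∑ k ∈ Finset.range N,
    (ker n j k * A j k) * Real.exp (-((n j : ℝ) + n k) * s) with hgd
  set g1 : ℝ → ℝ := fun s => ∑ j ∈ Finset.range N, ∑ k ∈ Finset.range N,
    (ker n j k * A j k) * (Real.exp (-((n j : ℝ) + n k) * s) * (-((n j : ℝ) + n k))) with hg1d
  set g2 : ℝ → ℝ := fun s => ∑ j ∈ Finset.range N, ∑ k ∈ Finset.range N,
    (ker n j k * A j k) * (Real.exp (-((n j : ℝ) + n k) * s) * (-((n j : ℝ) + n k)) * (-((n j : ℝ) + n k)))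
    with hg2d
  have hex : ∀ (j k : ℕ) (s : ℝ), HasDerivAt (fun s => Real.exp (-((n j : ℝ) + n k) * s))
      (Real.exp (-((n j : ℝ) + n k) * s) * (-((n j : ℝ) + n k))) s := by
    intro j k s
    have := ((hasDerivAt_id s).const_mul (-((n j : ℝ) + n k))).exp
    refine this.congr_deriv ?_
    simp
  have dg : ∀ s, 0 < s → HasDerivAt g (g1 s) s := by
    intro s _
    exact HasDerivAt.fun_sum fun j _ => HasDerivAt.fun_sum fun k _ => (hex j k s).const_mul _
  have dg1 : ∀ s, 0 < s → HasDerivAt g1 (g2 s) s := by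
    intro s _
    exact HasDerivAt.fun_sum fun j _ => HasDerivAt.fun_sum fun k _ =>
      ((hex j k s).mul_const _).const_mul _
  have gn : ∀ s, 0 < s → 0 ≤ g s := by
    intro s _
    refine Finset.sum_nonneg fun j _ => Finset.sum_nonneg fun k _ => ?_
    have := ker_nonneg (n := n) j k
    have := hA0 j k
    positivity
  have g1n : ∀ s, 0 < s → g1 s ≤ 0 := by
    intro s _
    refine Finset.sum_nonpos fun j _ => Finset.sum_nonpos fun k _ => ?_
    have h1 := ker_nonneg (n := n) j k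
    have h2 := hA0 j k
    have h3 : 0 ≤ (ker n j k * A j k) * (Real.exp (-((n j : ℝ) + n k) * s) * ((n j : ℝ) + n k)) := by
      positivity
    linarith
  have hD : ∀ z : ℂ, 1 < ‖z‖ → ‖z * deriv (part c n N) z‖ ^ 2 ≤ g2 (Real.log ‖z‖) := by
    intro z hz
    have hz0 : z ≠ 0 := by
      rintro rfl
      rw [norm_zero] at hz
      linarith
    have hzp : 0 < ‖z‖ := by linarith
    rw [(part_deriv c n N hp hz0).deriv]
    have e1 : z * (-(∑ k ∈ Finset.range N, (n k : ℂ) * (c k * z⁻¹ ^ n k)) * z⁻¹) =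
        -(∑ k ∈ Finset.range N, (n k : ℂ) * (c k * z⁻¹ ^ n k)) := by
      field_simp
    rw [e1, norm_neg]
    have h1 : ‖∑ k ∈ Finset.range N, (n k : ℂ) * (c k * z⁻¹ ^ n k)‖ ≤
        ∑ k ∈ Finset.range N, (n k : ℝ) * (‖c k‖ * ‖z‖⁻¹ ^ n k) := by
      refine (norm_sum_le _ _).trans (le_of_eq ?_)
      refine Finset.sum_congr rfl fun k _ => ?_
      rw [norm_mul, norm_mul, norm_pow, norm_inv, Complex.norm_natCast]
    refine (pow_le_pow_left₀ (norm_nonneg _) h1 2).trans (le_of_eq ?_)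
    rw [sq, Finset.sum_mul_sum]
    simp only [hg2d]
    refine Finset.sum_congr rfl fun j _ => Finset.sum_congr rfl fun k _ => ?_
    have hj : (1 : ℝ) ≤ n j := by exact_mod_cast hp j
    have hk : (1 : ℝ) ≤ n k := by exact_mod_cast hp k
    have e2 : Real.exp (-((n j : ℝ) + n k) * Real.log ‖z‖) = ‖z‖⁻¹ ^ n j * ‖z‖⁻¹ ^ n k := by
      rw [← pow_add]
      have : -((n j : ℝ) + n k) * Real.log ‖z‖ = ((n j + n k : ℕ) : ℝ) * Real.log ‖z‖⁻¹ := by
        rw [Real.log_inv]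
        push_cast
        ring
      rw [this, Real.exp_nat_mul, Real.exp_log (by positivity)]
    rw [e2]
    simp only [hA, ker]
    field_simp
  have h1 := mom_of_majorant (part_hol c n N hp) dg dg1 gn g1n hD hR
  intro t
  refine (h1 t).trans ?_
  have hpi := Real.pi_pos
  apply mul_le_mul_of_nonneg_left _ (by positivity)
  apply Real.exp_le_exp.2
  apply mul_le_mul_of_nonneg_left _ (sq_nonneg _)
  refine le_trans (le_of_eq ?_) (schur hq h0 hg N fun k => ‖c k‖ * R⁻¹ ^ n k)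
  simp only [hgd]
  refine Finset.sum_congr rfl fun j _ => Finset.sum_congr rfl fun k _ => ?_
  have e2 : Real.exp (-((n j : ℝ) + n k) * Real.log R) = R⁻¹ ^ n j * R⁻¹ ^ n k := by
    rw [← pow_add]
    have : -((n j : ℝ) + n k) * Real.log R = ((n j + n k : ℕ) : ℝ) * Real.log R⁻¹ := by
      rw [Real.log_inv]
      push_cast
      ring
    rw [this, Real.exp_nat_mul, Real.exp_log (by positivity)]
  rw [e2]
  simp only [hA]
  ring

end Pool.Agent.U556.GS
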