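import Pool.Agent.U556.GS3

set_option autoImplicit false

/-! # Gap series: the limit of the partial sums -/

namespace Pool.Agent.U556.GS

open Complex Metric Set Filter Topology MeasureTheory
open Pool.Agent.W677.Mar
open Pool.Agent.R250.MC

variable {q : ℝ} {c : ℕ → ℂ} {n : ℕ → ℕ} {h : ℂ → ℂ}

/-- the point of the circle -/
noncomputable def cp (R θ : ℝ) : ℂ := (R : ℂ) * Complex.exp ((θ : ℂ) * Complex.I)

theorem cp_norm {R : ℝ} (hR : 1 < R) (θ : ℝ) : ‖cp R θ‖ = R := circ_norm hR θ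

theorem cp_cont (R : ℝ) : Continuous (cp R) := by
  unfold cp
  fun_prop

theorem gap_w (G : Gap q c n h) {R : ℝ} (hR : 1 < R) : Summable fun k => ‖c k‖ * R⁻¹ ^ n k := by
  have h1 := (G.sum (R : ℂ) (by rw [Complex.norm_real, Real.norm_of_nonneg (by linarith)]; exact hR)).summable.norm
  refine h1.congr fun k => ?_
  rw [norm_mul, norm_pow, norm_inv, Complex.norm_real, Real.norm_of_nonneg (by linarith)]

theorem gap_w0 {R : ℝ} (hR : 1 < R) (k : ℕ) : 0 ≤ ‖c k‖ * R⁻¹ ^ n k := by
  have : 0 < R := by linarith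
  positivity

theorem gap_w2 (G : Gap q c n h) {R : ℝ} (hR : 1 < R) : Summable fun k => (‖c k‖ * R⁻¹ ^ n k) ^ 2 := by
  have h1 := gap_w G hR
  have h0 : ∀ k, 0 ≤ ‖c k‖ * R⁻¹ ^ n k := gap_w0 hR
  refine Summable.of_nonneg_of_le (fun k => sq_nonneg _) (fun k => ?_)
    (h1.mul_left (∑' k, ‖c k‖ * R⁻¹ ^ n k))
  rw [sq]
  exact mul_le_mul_of_nonneg_right (h1.le_tsum k fun j _ => h0 j) (h0 k)

theorem part_le (G : Gap q c n h) {R : ℝ} (hR : 1 < R) (N : ℕ) {z : ℂ} (hz : ‖z‖ = R) :
    ‖part c n N z‖ ≤ ∑' k, ‖c k‖ * R⁻¹ ^ n k := by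
  unfold part
  refine (norm_sum_le _ _).trans ?_
  have e : ∀ k, ‖c k * z⁻¹ ^ n k‖ = ‖c k‖ * R⁻¹ ^ n k := by
    intro k
    rw [norm_mul, norm_pow, norm_inv, hz]
  simp only [e]
  exact (gap_w G hR).sum_le_tsum _ fun k _ => gap_w0 hR k

theorem part_tendsto (G : Gap q c n h) {z : ℂ} (hz : 1 < ‖z‖) :
    Tendsto (fun N => part c n N z) atTop (𝓝 (h z)) := (G.sum z hz).tendsto_sum_nat

theorem part_cont (hn : ∀ k, 1 ≤ n k) (N : ℕ) {R : ℝ} (hR : 1 < R) :
    Continuous fun θ : ℝ => part c n N (cp R θ) := circ_cont (part_hol c n N hn) hR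

/-- **moments of a gap series** -/
theorem gap_mom (hq : 1 < q) (G : Gap q c n h) {R : ℝ} (hR : 1 < R) :
    Mom h R ((1 / 4 + 2 / (q - 1)) * ∑' k, (‖c k‖ * R⁻¹ ^ n k) ^ 2) := by
  have hp := n_pos hq G.pos G.gap
  have hq1 : 0 < q - 1 := by linarith
  have hpi := Real.pi_pos
  intro t
  obtain ⟨W, hW⟩ : ∃ W, W = ∑' k, ‖c k‖ * R⁻¹ ^ n k := ⟨_, rfl⟩
  have hlim : Tendsto (fun N => ∫ θ in (0 : ℝ)..(2 * Real.pi), Real.exp ((starRingEnd ℂ) t *
      part c n N (cp R θ)).re) atTop (𝓝 (∫ θ in (0 : ℝ)..(2 * Real.pi),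
        Real.exp ((starRingEnd ℂ) t * h (cp R θ)).re)) := by
    apply intervalIntegral.tendsto_integral_filter_of_dominated_convergence
      (fun _ => Real.exp (‖t‖ * W))
    · refine Eventually.of_forall fun N => ?_
      apply Continuous.aestronglyMeasurable
      exact (continuous_re.comp ((part_cont hp N hR).const_mul _)).rexp
    · refine Eventually.of_forall fun N => ae_of_all _ fun θ _ => ?_
      rw [Real.norm_of_nonneg (Real.exp_pos _).le]
      apply Real.exp_le_exp.2
      refine (re_le_norm _).trans ?_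
      rw [norm_mul, RCLike.norm_conj, hW]
      exact mul_le_mul_of_nonneg_left (part_le G hR N (cp_norm hR θ)) (norm_nonneg _)
    · exact intervalIntegrable_const
    · refine ae_of_all _ fun θ _ => ?_
      have h1 := part_tendsto G (z := cp R θ) (by rw [cp_norm hR]; exact hR)
      exact ((Real.continuous_exp.comp continuous_re).tendsto _).comp (h1.const_mul _)
  refine le_of_tendsto' hlim fun N => ?_
  refine (part_mom hq G.pos G.gap c N hR t).trans ?_
  apply mul_le_mul_of_nonneg_left _ (by positivity)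
  apply Real.exp_le_exp.2
  apply mul_le_mul_of_nonneg_left _ (sq_nonneg _)
  apply mul_le_mul_of_nonneg_left _ (by positivity)
  exact (gap_w2 G hR).sum_le_tsum _ fun k _ => sq_nonneg _

/-! ### Fourier coefficients -/

theorem int_exp (N : ℤ) : ∫ θ in (0 : ℝ)..(2 * Real.pi), Complex.exp ((N : ℂ) * θ * I) =
    if N = 0 then (2 * Real.pi : ℂ) else 0 := by
  split_ifs with hN
  · subst hN
    simp
  · have hc : (N : ℂ) * I ≠ 0 := mul_ne_zero (by exact_mod_cast hN) I_ne_zero
    have e : ∀ θ : ℝ, Complex.exp ((N : ℂ) * θ * I) = Complex.exp (((N : ℂ) * I) * θ) := by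
      intro θ
      congr 1
      ring
    simp only [e]
    rw [integral_exp_mul_complex hc]
    have e1 : Complex.exp ((N : ℂ) * I * ((2 * Real.pi : ℝ) : ℂ)) = 1 := by
      have := Complex.exp_int_mul_two_pi_mul_I N
      rw [← this]
      congr 1
      push_cast
      ring
    rw [e1]
    simp

/-- the Fourier coefficients of a gap series on a circle -/
theorem gap_coeff (hq : 1 < q) (G : Gap q c n h) {R : ℝ} (hR : 1 < R) (N : ℤ) (z₀ : ℂ)
    (hz : ∀ᶠ M in atTop, ∑ k ∈ Finset.range M, (if N = n k then c k * ((R⁻¹ : ℝ) : ℂ) ^ n k else 0) = z₀) :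
    ∫ θ in (0 : ℝ)..(2 * Real.pi), h (cp R θ) * Complex.exp ((N : ℂ) * θ * I) = 2 * Real.pi * z₀ := by
  have hp := n_pos hq G.pos G.gap
  have hR0 : 0 < R := by linarith
  obtain ⟨W, hW⟩ : ∃ W, W = ∑' k, ‖c k‖ * R⁻¹ ^ n k := ⟨_, rfl⟩
  have hexp : ∀ θ : ℝ, ‖Complex.exp ((N : ℂ) * θ * I)‖ = 1 := by
    intro θ
    have : (N : ℂ) * θ * I = ((N * θ : ℝ) : ℂ) * I := by push_cast; ring
    rw [this, Complex.norm_exp_ofReal_mul_I]
  have hlim : Tendsto (fun M => ∫ θ in (0 : ℝ)..(2 * Real.pi), part c n M (cp R θ) *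
      Complex.exp ((N : ℂ) * θ * I)) atTop (𝓝 (∫ θ in (0 : ℝ)..(2 * Real.pi),
        h (cp R θ) * Complex.exp ((N : ℂ) * θ * I))) := by
    apply intervalIntegral.tendsto_integral_filter_of_dominated_convergence (fun _ => W)
    · refine Eventually.of_forall fun M => ?_
      apply Continuous.aestronglyMeasurable
      exact (part_cont hp M hR).mul (by fun_prop)
    · refine Eventually.of_forall fun M => ae_of_all _ fun θ _ => ?_
      rw [norm_mul, hexp, mul_one, hW]
      exact part_le G hR M (cp_norm hR θ)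
    · exact intervalIntegrable_const
    · refine ae_of_all _ fun θ _ => ?_
      exact (part_tendsto G (z := cp R θ) (by rw [cp_norm hR]; exact hR)).mul_const _
  have hfin : ∀ M, ∫ θ in (0 : ℝ)..(2 * Real.pi), part c n M (cp R θ) * Complex.exp ((N : ℂ) * θ * I) =
      2 * Real.pi * ∑ k ∈ Finset.range M, (if N = n k then c k * ((R⁻¹ : ℝ) : ℂ) ^ n k else 0) := by
    intro M
    have e : ∀ θ : ℝ, part c n M (cp R θ) * Complex.exp ((N : ℂ) * θ * I) =
        ∑ k ∈ Finset.range M, (c k * ((R⁻¹ : ℝ) : ℂ) ^ n k) * Complex.exp (((N - n k : ℤ) : ℂ) * θ * I) := by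
      intro θ
      unfold part
      rw [Finset.sum_mul]
      refine Finset.sum_congr rfl fun k _ => ?_
      have e1 : (cp R θ)⁻¹ ^ n k = ((R⁻¹ : ℝ) : ℂ) ^ n k * Complex.exp (-(n k : ℂ) * θ * I) := by
        unfold cp
        rw [mul_inv, mul_pow, ← Complex.exp_neg, ← Complex.exp_nat_mul]
        push_cast
        congr 2
        ring
      rw [e1, mul_assoc, mul_assoc, ← Complex.exp_add, ← mul_assoc]
      congr 2
      push_cast
      ring
    simp only [e]
    rw [intervalIntegral.integral_finsetSum]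
    · rw [Finset.mul_sum]
      refine Finset.sum_congr rfl fun k _ => ?_
      rw [intervalIntegral.integral_const_mul, int_exp]
      by_cases hk : N = n k
      · rw [if_pos hk, if_pos (by omega)]
        ring
      · rw [if_neg hk, if_neg (by omega)]
        ring
    · intro k _
      apply Continuous.intervalIntegrable
      fun_prop
  refine tendsto_nhds_unique hlim (tendsto_const_nhds.congr' ?_)
  filter_upwards [hz] with M hM
  rw [hfin, hM]

/-- the coefficient at an exponent -/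
theorem coeff_at (hq : 1 < q) (G : Gap q c n h) {R : ℝ} (hR : 1 < R) (k : ℕ) :
    ∫ θ in (0 : ℝ)..(2 * Real.pi), h (cp R θ) * Complex.exp (((n k : ℤ) : ℂ) * θ * I) =
      2 * Real.pi * (c k * ((R⁻¹ : ℝ) : ℂ) ^ n k) := by
  apply gap_coeff hq G hR
  filter_upwards [eventually_gt_atTop k] with M hM
  have hm := n_mono hq G.pos G.gap
  rw [Finset.sum_eq_single k]
  · simp
  · intro j _ hj
    rw [if_neg]
    intro h1
    exact hj (hm.injective (by exact_mod_cast h1.symm))
  · intro h1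
    exact absurd (Finset.mem_range.2 hM) h1

/-- the other coefficients vanish -/
theorem coeff_zero (hq : 1 < q) (G : Gap q c n h) {R : ℝ} (hR : 1 < R) (N : ℤ) (hN : ∀ k, N ≠ n k) :
    ∫ θ in (0 : ℝ)..(2 * Real.pi), h (cp R θ) * Complex.exp ((N : ℂ) * θ * I) = 0 := by
  rw [gap_coeff hq G hR N 0, mul_zero]
  refine Eventually.of_forall fun M => Finset.sum_eq_zero fun k _ => ?_
  rw [if_neg (hN k)]

/-- integration by parts -/
theorem parts (hH : Hol h 0) {R : ℝ} (hR : 1 < R) (N : ℤ) :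
    ∫ θ in (0 : ℝ)..(2 * Real.pi), (cp R θ * deriv h (cp R θ)) * Complex.exp ((N : ℂ) * θ * I) =
      -(N * ∫ θ in (0 : ℝ)..(2 * Real.pi), h (cp R θ) * Complex.exp ((N : ℂ) * θ * I)) := by
  have hR0 : 0 < R := by linarith
  have hd : ∀ θ : ℝ, HasDerivAt (fun θ : ℝ => cp R θ) (cp R θ * I) θ := by
    intro θ
    unfold cp
    have h1 : HasDerivAt (fun θ : ℝ => (θ : ℂ) * I) I θ := by
      simpa using (Complex.ofRealCLM.hasDerivAt (x := θ)).mul_const I
    have := (h1.cexp).const_mul (R : ℂ)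
    refine this.congr_deriv ?_
    ring
  have hh : ∀ θ : ℝ, HasDerivAt (fun θ : ℝ => h (cp R θ)) (deriv h (cp R θ) * (cp R θ * I)) θ := by
    intro θ
    have h1 : DifferentiableAt ℂ h (cp R θ) := by
      apply hH.1.differentiableAt
      apply (isOpen_ext).mem_nhds
      show 1 < ‖cp R θ‖
      rw [cp_norm hR]
      exact hR
    exact h1.hasDerivAt.comp_of_eq θ (hd θ) rfl
  have he : ∀ θ : ℝ, HasDerivAt (fun θ : ℝ => Complex.exp ((N : ℂ) * θ * I))
      (Complex.exp ((N : ℂ) * θ * I) * (N * I)) θ := by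
    intro θ
    have h1 : HasDerivAt (fun θ : ℝ => (N : ℂ) * θ * I) (N * I) θ := by
      have := ((Complex.ofRealCLM.hasDerivAt (x := θ)).const_mul (N : ℂ)).mul_const I
      simpa using this
    exact h1.cexp
  have hcd : Continuous fun θ : ℝ => deriv h (cp R θ) := by
    have h1 : ContinuousOn (deriv h) {z : ℂ | 1 < ‖z‖} := (hH.1.deriv isOpen_ext).continuousOn
    apply h1.comp_continuous (cp_cont R)
    intro θ
    show 1 < ‖cp R θ‖
    rw [cp_norm hR]
    exact hR
  have hch : Continuous fun θ : ℝ => h (cp R θ) := circ_cont hH hR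
  have i1 : IntervalIntegrable (fun θ : ℝ => (cp R θ * deriv h (cp R θ)) * Complex.exp ((N : ℂ) * θ * I))
      volume 0 (2 * Real.pi) :=
    (((cp_cont R).mul hcd).mul (by fun_prop)).intervalIntegrable _ _
  have i2 : IntervalIntegrable (fun θ : ℝ => h (cp R θ) * Complex.exp ((N : ℂ) * θ * I))
      volume 0 (2 * Real.pi) := (hch.mul (by fun_prop)).intervalIntegrable _ _
  have h1 := intervalIntegral.integral_eq_sub_of_hasDerivAt (a := 0) (b := 2 * Real.pi)
    (fun θ _ => (hh θ).mul (he θ)) (by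
      refine ((i1.const_mul I).add (i2.const_mul (N * I))).congr fun θ _ => ?_
      ring)
  have e1 : cp R (2 * Real.pi) = cp R 0 := by
    unfold cp
    push_cast
    rw [Complex.exp_two_pi_mul_I, zero_mul, Complex.exp_zero]
  have e2 : Complex.exp ((N : ℂ) * ((2 * Real.pi : ℝ) : ℂ) * I) = Complex.exp ((N : ℂ) * ((0 : ℝ) : ℂ) * I) := by
    have := Complex.exp_int_mul_two_pi_mul_I N
    push_cast
    rw [mul_zero, zero_mul, Complex.exp_zero, ← this]
    congr 1
    ring
  simp only [Pi.mul_apply] at h1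
  rw [e1, e2, sub_self] at h1
  have e3 : ∀ θ : ℝ, deriv h (cp R θ) * (cp R θ * I) * Complex.exp ((N : ℂ) * θ * I) +
      h (cp R θ) * (Complex.exp ((N : ℂ) * θ * I) * (N * I)) =
      I * ((cp R θ * deriv h (cp R θ)) * Complex.exp ((N : ℂ) * θ * I)) +
      (N * I) * (h (cp R θ) * Complex.exp ((N : ℂ) * θ * I)) := by
    intro θ
    ring
  simp only [e3] at h1
  rw [intervalIntegral.integral_add (i1.const_mul _) (i2.const_mul _),
    intervalIntegral.integral_const_mul, intervalIntegral.integral_const_mul] at h1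
  have h2 : I * ((∫ θ in (0 : ℝ)..(2 * Real.pi), (cp R θ * deriv h (cp R θ)) * Complex.exp ((N : ℂ) * θ * I)) +
      N * ∫ θ in (0 : ℝ)..(2 * Real.pi), h (cp R θ) * Complex.exp ((N : ℂ) * θ * I)) = 0 := by
    rw [← h1]
    ring
  have h3 := (mul_eq_zero.1 h2).resolve_left I_ne_zero
  exact eq_neg_of_add_eq_zero_left h3

end Pool.Agent.U556.GS
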