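import Pool.Agent.U556.GS4

set_option autoImplicit false

/-! # Gap series: the bound of the coefficients, with a Fejér kernel -/

namespace Pool.Agent.U556.GS

open Complex Metric Set Filter Topology MeasureTheory
open Pool.Agent.W677.Mar
open Pool.Agent.R250.MC

variable {q : ℝ} {c : ℕ → ℂ} {n : ℕ → ℕ} {h : ℂ → ℂ}

/-- the values of `z h'(z)` are in a disc -/
theorem disc_bound (hH : Hol h 0) {Y : ℂ → ℂ} (S : Sg Y (hat h 0)) {R : ℝ} (hR : 1 < R) (θ : ℝ) :
    ‖((1 - R⁻¹ ^ 2 : ℝ) : ℂ) * (cp R θ * deriv h (cp R θ)) + ((2 * R⁻¹ ^ 2 : ℝ) : ℂ)‖ ≤ 4 * R⁻¹ := by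
  have hR0 : 0 < R := by linarith
  have hz : ‖cp R θ‖ = R := cp_norm hR θ
  have hz0 : cp R θ ≠ 0 := by rw [← norm_pos_iff, hz]; exact hR0
  have hvn : ‖(cp R θ)⁻¹‖ = R⁻¹ := by rw [norm_inv, hz]
  have hv : (cp R θ)⁻¹ ∈ ball (0 : ℂ) 1 := by
    rw [mem_ball_zero_iff, hvn]
    exact inv_lt_one_of_one_lt₀ hR
  have h1 := kbound S hv
  rw [hat_deriv hH hv (inv_ne_zero hz0), inv_inv, hvn] at h1
  rw [← norm_neg]
  refine le_trans (le_of_eq ?_) h1
  congr 1
  push_cast
  ring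

/-- the powers -/
theorem pow_conj {ω : ℂ} (n₀ i l : ℕ) (θ : ℝ) :
    (ω * Complex.exp ((n₀ : ℂ) * θ * I)) ^ i * (starRingEnd ℂ) ((ω * Complex.exp ((n₀ : ℂ) * θ * I)) ^ l) =
      (ω ^ i * (starRingEnd ℂ) ω ^ l) * Complex.exp ((((n₀ : ℤ) * ((i : ℤ) - l) : ℤ) : ℂ) * θ * I) := by
  rw [map_pow, map_mul, mul_pow, mul_pow, ← Complex.exp_conj, ← Complex.exp_nat_mul, ← Complex.exp_nat_mul]
  have e : (starRingEnd ℂ) ((n₀ : ℂ) * θ * I) = -((n₀ : ℂ) * θ * I) := by
    simp
  rw [e]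
  have e2 : Complex.exp ((((n₀ : ℤ) * ((i : ℤ) - l) : ℤ) : ℂ) * θ * I) =
      Complex.exp ((i : ℂ) * ((n₀ : ℂ) * θ * I)) * Complex.exp ((l : ℂ) * -((n₀ : ℂ) * θ * I)) := by
    rw [← Complex.exp_add]
    congr 1
    push_cast
    ring
  rw [e2]
  ring

theorem coeff_bound (hq : 1 < q) (G : Gap q c n h) (hH : Hol h 0) {Y : ℂ → ℂ} (S : Sg Y (hat h 0))
    {R : ℝ} (hR : 1 < R) (k : ℕ) {m : ℕ} (hm : 1 ≤ m) (hmq : (m : ℝ) ≤ q) :
    (1 - R⁻¹ ^ 2) * ((m : ℝ) - 1) * (n k * (‖c k‖ * R⁻¹ ^ n k)) ≤ m * (4 * R⁻¹ - 2 * R⁻¹ ^ 2) := by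
  have hpi := Real.pi_pos
  have hR0 : 0 < R := by linarith
  have hp := n_pos hq G.pos G.gap
  have hmono := n_mono hq G.pos G.gap
  obtain ⟨r, hr⟩ : ∃ r, r = R⁻¹ := ⟨_, rfl⟩
  have hr0 : 0 < r := by rw [hr]; positivity
  have hr1 : r < 1 := by rw [hr]; exact inv_lt_one_of_one_lt₀ hR
  -- the phase
  obtain ⟨ω, hω, hωc⟩ : ∃ ω : ℂ, ‖ω‖ = 1 ∧ ω * (-(c k)) = ‖c k‖ := by
    by_cases h0 : c k = 0
    · exact ⟨1, norm_one, by rw [h0]; simp⟩
    · have hn : ‖c k‖ ≠ 0 := norm_ne_zero_iff.2 h0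
      refine ⟨-((starRingEnd ℂ) (c k) / ‖c k‖), ?_, ?_⟩
      · rw [norm_neg, norm_div, RCLike.norm_conj, Complex.norm_real, norm_norm, div_self hn]
      · have hn' : (‖c k‖ : ℂ) ≠ 0 := by exact_mod_cast hn
        have e := Complex.conj_mul' (c k)
        field_simp
        linear_combination e
  have hωω : ω * (starRingEnd ℂ) ω = 1 := by
    rw [Complex.mul_conj', hω]
    simp
  set u : ℝ → ℂ := fun θ => cp R θ * deriv h (cp R θ) with hu
  set e : ℝ → ℂ := fun θ => ω * Complex.exp ((n k : ℂ) * θ * I) with he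
  set D : ℝ → ℂ := fun θ => ∑ i ∈ Finset.range m, e θ ^ i with hD
  have hcu : Continuous u := by
    have h1 : ContinuousOn (deriv h) {z : ℂ | 1 < ‖z‖} := (hH.1.deriv isOpen_ext).continuousOn
    refine (cp_cont R).mul (h1.comp_continuous (cp_cont R) fun θ => ?_)
    show 1 < ‖cp R θ‖
    rw [cp_norm hR]
    exact hR
  have hce : Continuous e := by
    simp only [he]
    fun_prop
  have hcD : Continuous D := continuous_finsetSum _ fun i _ => hce.pow i
  have hFe : ∀ θ, ((‖D θ‖ ^ 2 : ℝ) : ℂ) = ∑ i ∈ Finset.range m, ∑ l ∈ Finset.range m,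
      (ω ^ i * (starRingEnd ℂ) ω ^ l) * Complex.exp ((((n k : ℤ) * ((i : ℤ) - l) : ℤ) : ℂ) * θ * I) := by
    intro θ
    have h1 := Complex.mul_conj' (D θ)
    rw [Complex.ofReal_pow, ← h1]
    simp only [hD]
    rw [map_sum, Finset.sum_mul_sum]
    refine Finset.sum_congr rfl fun i _ => Finset.sum_congr rfl fun l _ => ?_
    exact pow_conj (n k) i l θ
  -- the mean of the kernel
  have hF : ∫ θ in (0 : ℝ)..(2 * Real.pi), ((‖D θ‖ ^ 2 : ℝ) : ℂ) = 2 * Real.pi * m := by
    simp only [hFe]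
    rw [intervalIntegral.integral_finsetSum fun i _ => Continuous.intervalIntegrable (by fun_prop) _ _]
    have h1 : ∀ i ∈ Finset.range m, ∫ θ in (0 : ℝ)..(2 * Real.pi), ∑ l ∈ Finset.range m,
        (ω ^ i * (starRingEnd ℂ) ω ^ l) * Complex.exp ((((n k : ℤ) * ((i : ℤ) - l) : ℤ) : ℂ) * θ * I) =
        2 * Real.pi := by
      intro i hi
      rw [intervalIntegral.integral_finsetSum fun l _ => Continuous.intervalIntegrable (by fun_prop) _ _]
      rw [Finset.sum_eq_single i]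
      · rw [intervalIntegral.integral_const_mul, int_exp, sub_self, mul_zero, if_pos rfl, ← mul_pow, hωω,
          one_pow, one_mul]
      · intro l _ hl
        rw [intervalIntegral.integral_const_mul, int_exp, if_neg, mul_zero]
        have : (n k : ℤ) ≠ 0 := by have := hp k; omega
        apply mul_ne_zero this
        omega
      · intro h1
        exact absurd hi h1
    rw [Finset.sum_congr rfl h1, Finset.sum_const, Finset.card_range, nsmul_eq_mul]
    ring
  -- the values of the integrals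
  have hI : ∀ i ∈ Finset.range m, ∀ l ∈ Finset.range m,
      ∫ θ in (0 : ℝ)..(2 * Real.pi), u θ * Complex.exp ((((n k : ℤ) * ((i : ℤ) - l) : ℤ) : ℂ) * θ * I) =
        if i = l + 1 then -((n k : ℂ) * (2 * Real.pi * (c k * (r : ℂ) ^ n k))) else 0 := by
    intro i hi l hl
    have h1 := parts hH hR ((n k : ℤ) * ((i : ℤ) - l))
    simp only [hu]
    rw [h1]
    split_ifs with hil
    · have e1 : (n k : ℤ) * ((i : ℤ) - l) = (n k : ℤ) := by
        rw [hil]
        push_cast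
        ring
      rw [e1, coeff_at hq G hR k, hr]
      push_cast
      ring
    · by_cases hz : (i : ℤ) - l = 0
      · rw [hz]
        simp
      · rw [coeff_zero hq G hR, mul_zero, neg_zero]
        intro j hj
        have hnk : (1 : ℤ) ≤ n k := by exact_mod_cast hp k
        have hnj : (1 : ℤ) ≤ n j := by exact_mod_cast hp j
        rcases lt_or_gt_of_ne hz with h2 | h2
        · nlinarith
        · have h3 : (2 : ℤ) ≤ (i : ℤ) - l := by omega
          have h4 : (i : ℤ) - l < m := by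
            have := Finset.mem_range.1 hi
            omega
          rcases le_or_gt j k with h5 | h5
          · have h6 : (n j : ℤ) ≤ n k := by exact_mod_cast hmono.monotone h5
            nlinarith
          · have h6 : (n (k + 1) : ℝ) ≤ n j := by exact_mod_cast hmono.monotone h5
            have h7 := G.gap k
            have h8 : (m : ℝ) * n k ≤ n j := by
              have : (0 : ℝ) ≤ n k := Nat.cast_nonneg _
              nlinarith
            have h9 : (m : ℤ) * n k ≤ n j := by exact_mod_cast h8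
            nlinarith
  have hUF : ∫ θ in (0 : ℝ)..(2 * Real.pi), u θ * ((‖D θ‖ ^ 2 : ℝ) : ℂ) =
      ((m : ℂ) - 1) * (ω * -((n k : ℂ) * (2 * Real.pi * (c k * (r : ℂ) ^ n k)))) := by
    have e0 : ∀ θ, u θ * ((‖D θ‖ ^ 2 : ℝ) : ℂ) = ∑ i ∈ Finset.range m, ∑ l ∈ Finset.range m,
        (ω ^ i * (starRingEnd ℂ) ω ^ l) * (u θ * Complex.exp ((((n k : ℤ) * ((i : ℤ) - l) : ℤ) : ℂ) * θ * I)) := by
      intro θ
      rw [hFe, Finset.mul_sum]
      refine Finset.sum_congr rfl fun i _ => ?_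
      rw [Finset.mul_sum]
      refine Finset.sum_congr rfl fun l _ => ?_
      ring
    simp only [e0]
    rw [intervalIntegral.integral_finsetSum fun i _ => Continuous.intervalIntegrable (by fun_prop) _ _]
    have h1 : ∀ i ∈ Finset.range m, ∫ θ in (0 : ℝ)..(2 * Real.pi), ∑ l ∈ Finset.range m,
        (ω ^ i * (starRingEnd ℂ) ω ^ l) * (u θ * Complex.exp ((((n k : ℤ) * ((i : ℤ) - l) : ℤ) : ℂ) * θ * I)) =
        ∑ l ∈ Finset.range m, if i = l + 1 then
          ω * -((n k : ℂ) * (2 * Real.pi * (c k * (r : ℂ) ^ n k))) else 0 := by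
      intro i hi
      rw [intervalIntegral.integral_finsetSum fun l _ => Continuous.intervalIntegrable (by fun_prop) _ _]
      refine Finset.sum_congr rfl fun l hl => ?_
      rw [intervalIntegral.integral_const_mul, hI i hi l hl]
      split_ifs with hil
      · rw [hil, pow_succ', mul_assoc, mul_assoc, ← mul_assoc (ω ^ l), ← mul_pow, hωω, one_pow, one_mul]
      · rw [mul_zero]
    rw [Finset.sum_congr rfl h1, Finset.sum_comm]
    have h2 : ∀ l ∈ Finset.range m, (∑ i ∈ Finset.range m, if i = l + 1 then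
          ω * -((n k : ℂ) * (2 * Real.pi * (c k * (r : ℂ) ^ n k))) else 0) =
        if l + 1 < m then ω * -((n k : ℂ) * (2 * Real.pi * (c k * (r : ℂ) ^ n k))) else 0 := by
      intro l _
      rw [Finset.sum_ite_eq' (Finset.range m) (l + 1)]
      simp only [Finset.mem_range]
    rw [Finset.sum_congr rfl h2, ← Finset.sum_filter, Finset.sum_const]
    have h3 : ((Finset.range m).filter fun l => l + 1 < m).card = m - 1 := by
      have : (Finset.range m).filter (fun l => l + 1 < m) = Finset.range (m - 1) := by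
        ext l
        simp only [Finset.mem_filter, Finset.mem_range]
        omega
      rw [this, Finset.card_range]
    rw [h3, nsmul_eq_mul, Nat.cast_sub hm, Nat.cast_one]
  -- the inequality
  set A : ℝ → ℂ := fun θ => ((1 - r ^ 2 : ℝ) : ℂ) * u θ + ((2 * r ^ 2 : ℝ) : ℂ) with hA
  have hAb : ∀ θ, ‖A θ‖ ≤ 4 * r := by
    intro θ
    have := disc_bound hH S hR θ
    rw [← hr] at this
    exact this
  have hcA : Continuous A := (hcu.const_mul _).add continuous_const
  have hcF : Continuous fun θ => ((‖D θ‖ ^ 2 : ℝ) : ℂ) :=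
    Complex.continuous_ofReal.comp (hcD.norm.pow 2)
  have h1 : ‖∫ θ in (0 : ℝ)..(2 * Real.pi), A θ * ((‖D θ‖ ^ 2 : ℝ) : ℂ)‖ ≤ 4 * r * (2 * Real.pi * m) := by
    have h2 : ∫ θ in (0 : ℝ)..(2 * Real.pi), ‖D θ‖ ^ 2 = 2 * Real.pi * m := by
      have h3 := hF
      rw [intervalIntegral.integral_ofReal] at h3
      exact_mod_cast h3
    rw [← h2, ← intervalIntegral.integral_const_mul]
    refine (intervalIntegral.norm_integral_le_integral_norm (by positivity)).trans ?_
    apply intervalIntegral.integral_mono_on (by positivity)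
    · exact (hcA.mul hcF).norm.intervalIntegrable _ _
    · exact ((hcD.norm.pow 2).const_mul _).intervalIntegrable _ _
    · intro θ _
      rw [norm_mul, Complex.norm_real, Real.norm_of_nonneg (by positivity)]
      exact mul_le_mul_of_nonneg_right (hAb θ) (by positivity)
  have h2 : ∫ θ in (0 : ℝ)..(2 * Real.pi), A θ * ((‖D θ‖ ^ 2 : ℝ) : ℂ) =
      (((1 - r ^ 2) * ((m : ℝ) - 1) * (n k * (2 * Real.pi * (‖c k‖ * r ^ n k))) +
        2 * r ^ 2 * (2 * Real.pi * m) : ℝ) : ℂ) := by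
    have e0 : ∀ θ, A θ * ((‖D θ‖ ^ 2 : ℝ) : ℂ) = ((1 - r ^ 2 : ℝ) : ℂ) * (u θ * ((‖D θ‖ ^ 2 : ℝ) : ℂ)) +
        ((2 * r ^ 2 : ℝ) : ℂ) * ((‖D θ‖ ^ 2 : ℝ) : ℂ) := by
      intro θ
      simp only [hA]
      ring
    simp only [e0]
    have hc1 : Continuous fun θ => u θ * ((‖D θ‖ ^ 2 : ℝ) : ℂ) := hcu.mul hcF
    rw [intervalIntegral.integral_add ((hc1.const_mul _).intervalIntegrable _ _)
      ((hcF.const_mul _).intervalIntegrable _ _), intervalIntegral.integral_const_mul,
      intervalIntegral.integral_const_mul, hF, hUF]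
    have e1 : ω * -((n k : ℂ) * (2 * Real.pi * (c k * (r : ℂ) ^ n k))) =
        (n k : ℂ) * (2 * Real.pi * ((‖c k‖ : ℂ) * (r : ℂ) ^ n k)) := by
      rw [← hωc]
      ring
    rw [e1]
    push_cast
    ring
  rw [h2, Complex.norm_real] at h1
  have h3 := (le_abs_self _).trans h1
  rw [← hr]
  have h4 : (2 * Real.pi) * ((1 - r ^ 2) * ((m : ℝ) - 1) * (n k * (‖c k‖ * r ^ n k))) ≤
      (2 * Real.pi) * (m * (4 * r - 2 * r ^ 2)) := by
    linarith
  exact le_of_mul_le_mul_left h4 (by positivity)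

end Pool.Agent.U556.GS
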