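import Mathlib

/-!
# Gaps of compact sets on the line and Newhouse's gap lemma
-/

set_option autoImplicit false

open Set Filter Topology

namespace U556.TK

/-- `(a, b)` is a bounded gap of `K`: `a < b` are points of `K` with no point of `K` strictly between them. -/
def IsGap (K : Set ℝ) (a b : ℝ) : Prop := a < b ∧ a ∈ K ∧ b ∈ K ∧ ∀ x ∈ K, x ≤ a ∨ b ≤ x

/-- `K` is compact with smallest point `p` and largest point `q`, and thick with constant `τ`. -/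
structure TH (K : Set ℝ) (p q τ : ℝ) : Prop where
  cpt : IsCompact K
  pm : p ∈ K
  qm : q ∈ K
  lo : ∀ x ∈ K, p ≤ x
  hi : ∀ x ∈ K, x ≤ q
  two : ∀ a b c d, IsGap K a b → IsGap K c d → b ≤ c → τ * min (b - a) (d - c) ≤ c - b
  left : ∀ a b, IsGap K a b → τ * (b - a) ≤ a - p
  right : ∀ a b, IsGap K a b → τ * (b - a) ≤ q - b

lemma exists_gap {K : Set ℝ} (hK : IsCompact K) {p q x : ℝ} (hp : p ∈ K) (hq : q ∈ K) (hx : x ∉ K)
    (h1 : p ≤ x) (h2 : x ≤ q) : ∃ a b, IsGap K a b ∧ a < x ∧ x < b ∧ p ≤ a ∧ b ≤ q := by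
  obtain ⟨a, ha⟩ := (hK.inter_right (isClosed_Iic (a := x))).exists_isGreatest ⟨p, hp, h1⟩
  obtain ⟨b, hb⟩ := (hK.inter_right (isClosed_Ici (a := x))).exists_isLeast ⟨q, hq, h2⟩
  have hax : a < x := lt_of_le_of_ne ha.1.2 (fun h => hx (h ▸ ha.1.1))
  have hxb : x < b := lt_of_le_of_ne hb.1.2 (fun h => hx (h ▸ hb.1.1))
  refine ⟨a, b, ⟨hax.trans hxb, ha.1.1, hb.1.1, fun y hy => ?_⟩, hax, hxb, ha.2 ⟨hp, h1⟩, hb.2 ⟨hq, h2⟩⟩
  rcases le_total y x with h | h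
  · exact Or.inl (ha.2 ⟨hy, h⟩)
  · exact Or.inr (hb.2 ⟨hy, h⟩)

/-- linked pairs of (degenerate) gaps, the one of `A` to the left -/
def L (A B : Set ℝ) : Set (ℝ × ℝ × ℝ × ℝ) :=
  {z | z.1 ∈ A ∧ z.2.1 ∈ A ∧ z.2.2.1 ∈ B ∧ z.2.2.2 ∈ B ∧ (∀ x ∈ A, x ≤ z.1 ∨ z.2.1 ≤ x) ∧
    (∀ x ∈ B, x ≤ z.2.2.1 ∨ z.2.2.2 ≤ x) ∧ z.1 ≤ z.2.2.1 ∧ z.2.2.1 ≤ z.2.1 ∧ z.2.1 ≤ z.2.2.2}

lemma isCompact_L {A B : Set ℝ} (hA : IsCompact A) (hB : IsCompact B) : IsCompact (L A B) := by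
  have hc : IsCompact (A ×ˢ A ×ˢ B ×ˢ B) := hA.prod (hA.prod (hB.prod hB))
  refine hc.of_isClosed_subset ?_ (fun z hz => ⟨hz.1, hz.2.1, hz.2.2.1, hz.2.2.2.1⟩)
  have e : L A B = (A ×ˢ A ×ˢ B ×ˢ B) ∩ ((⋂ x ∈ A, ({z : ℝ × ℝ × ℝ × ℝ | x ≤ z.1} ∪ {z | z.2.1 ≤ x})) ∩
      ((⋂ x ∈ B, ({z : ℝ × ℝ × ℝ × ℝ | x ≤ z.2.2.1} ∪ {z | z.2.2.2 ≤ x})) ∩
        ({z | z.1 ≤ z.2.2.1} ∩ ({z | z.2.2.1 ≤ z.2.1} ∩ {z | z.2.1 ≤ z.2.2.2})))) := by
    ext z
    simp only [L, mem_ofPred_eq, mem_inter_iff, mem_prod, mem_iInter, mem_union]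
    tauto
  rw [e]
  refine hc.isClosed.inter (IsClosed.inter ?_ (IsClosed.inter ?_ (IsClosed.inter ?_ (IsClosed.inter ?_ ?_))))
  · exact isClosed_biInter fun x _ => (isClosed_le (by fun_prop) (by fun_prop)).union
      (isClosed_le (by fun_prop) (by fun_prop))
  · exact isClosed_biInter fun x _ => (isClosed_le (by fun_prop) (by fun_prop)).union
      (isClosed_le (by fun_prop) (by fun_prop))
  · exact isClosed_le (by fun_prop) (by fun_prop)
  · exact isClosed_le (by fun_prop) (by fun_prop)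
  · exact isClosed_le (by fun_prop) (by fun_prop)

/-- the length function -/
def len (z : ℝ × ℝ × ℝ × ℝ) : ℝ := (z.2.1 - z.1) + (z.2.2.2 - z.2.2.1)

lemma continuous_len : Continuous len := by unfold len; fun_prop

lemma step {A B : Set ℝ} {p q r s τ σ : ℝ} (hA : TH A p q τ) (hB : TH B r s σ) (hσ : 0 < σ)
    (h1 : 1 ≤ τ * σ) (hd : ∀ x ∈ A, x ∉ B) {z : ℝ × ℝ × ℝ × ℝ} (hz : z ∈ L A B) :
    ∃ w ∈ L B A, len w < len z := by
  obtain ⟨a, b, c, d⟩ := z
  obtain ⟨ha, hb, hc, hdB, hAg, hBg, h2, h3, h4⟩ := hz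
  simp only at ha hb hc hdB hAg hBg h2 h3 h4
  have hac : a < c := lt_of_le_of_ne h2 (fun h => hd a ha (h ▸ hc))
  have hcb : c < b := lt_of_le_of_ne h3 (fun h => hd b hb (h ▸ hc))
  have hbd : b < d := lt_of_le_of_ne h4 (fun h => hd b hb (h ▸ hdB))
  have gA : IsGap A a b := ⟨hac.trans hcb, ha, hb, hAg⟩
  have gB : IsGap B c d := ⟨hcb.trans hbd, hc, hdB, hBg⟩
  have hdA : d ∉ A := fun h => hd d h hdB
  have haB : a ∉ B := hd a ha
  by_contra hcon
  push Not at hcon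
  -- the gap of `B` is long
  have e1 : τ * (b - a) < d - c := by
    rcases le_or_gt d q with hdq | hdq
    · obtain ⟨a', b', g', k1, k2, k3, -⟩ := exists_gap hA.cpt hb hA.qm hdA hbd.le hdq
      rcases le_or_gt (b - a) (b' - a') with hl | hl
      · have := hA.two a b a' b' gA g' k3
        rw [min_eq_left hl] at this
        linarith
      · exfalso
        have := hcon (c, d, a', b') ⟨hc, hdB, g'.2.1, g'.2.2.1, hBg, g'.2.2.2, by simp only; linarith,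
          by simp only; linarith, by simp only; linarith⟩
        simp only [len] at this
        linarith
    · have := hA.right a b gA
      linarith
  -- the gap of `A` is long
  have e2 : σ * (d - c) < b - a := by
    rcases le_or_gt r a with hra | hra
    · obtain ⟨c', d', g', k1, k2, -, k4⟩ := exists_gap hB.cpt hB.pm hc haB hra hac.le
      rcases le_or_gt (d - c) (d' - c') with hl | hl
      · have := hB.two c' d' c d g' gB k4
        rw [min_eq_right hl] at this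
        linarith
      · exfalso
        have := hcon (c', d', a, b) ⟨g'.2.1, g'.2.2.1, ha, hb, g'.2.2.2, hAg, by simp only; linarith,
          by simp only; linarith, by simp only; linarith⟩
        simp only [len] at this
        linarith
    · have := hB.left c d gB
      linarith
  have e3 : 0 < b - a := by linarith
  nlinarith [mul_lt_mul_of_pos_left e1 hσ]

/-- **Newhouse's gap lemma** for linked sets. -/
theorem gap_lemma {A B : Set ℝ} {p q r s τ σ : ℝ} (hA : TH A p q τ) (hB : TH B r s σ) (hτ : 0 < τ)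
    (hσ : 0 < σ) (h1 : 1 ≤ τ * σ) (h2 : p ≤ r) (h3 : r ≤ q) (h4 : q ≤ s) : ∃ x, x ∈ A ∧ x ∈ B := by
  by_contra hcon
  push Not at hcon
  have hd' : ∀ x ∈ B, x ∉ A := fun x hx hx' => hcon x hx' hx
  have hrA : r ∉ A := hd' r hB.pm
  obtain ⟨a, b, g, k1, k2, k3, k4⟩ := exists_gap hA.cpt hA.pm hA.qm hrA h2 h3
  have hbB : b ∉ B := hcon b g.2.2.1
  obtain ⟨c, d, g', l1, l2, l3, l4⟩ := exists_gap hB.cpt hB.pm hB.qm hbB k2.le (k4.trans h4)
  have hne : (L A B).Nonempty := ⟨(a, b, c, d), g.2.1, g.2.2.1, g'.2.1, g'.2.2.1, g.2.2.2, g'.2.2.2,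
    by simp only; linarith, by simp only; linarith, by simp only; linarith⟩
  have h1' : 1 ≤ σ * τ := by rw [mul_comm]; exact h1
  obtain ⟨z, hz, hzm⟩ := (isCompact_L hA.cpt hB.cpt).exists_isMinOn hne continuous_len.continuousOn
  obtain ⟨w, hw, hwz⟩ := step hA hB hσ h1 hcon hz
  obtain ⟨w', hw', hwm⟩ := (isCompact_L hB.cpt hA.cpt).exists_isMinOn ⟨w, hw⟩ continuous_len.continuousOn
  obtain ⟨z', hz', hzw⟩ := step hB hA hτ h1' hd' hw'
  have m1 : len z ≤ len z' := hzm hz'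
  have m2 : len w' ≤ len w := hwm hw
  linarith

/-! ### pieces, reflections and images -/

lemma TH.neg {K : Set ℝ} {p q τ : ℝ} (h : TH K p q τ) : TH (-K) (-q) (-p) τ := by
  have hg : ∀ a b, IsGap (-K) a b → IsGap K (-b) (-a) := by
    intro a b g
    refine ⟨by linarith [g.1], g.2.2.1, g.2.1, fun x hx => ?_⟩
    rcases g.2.2.2 (-x) (by simpa using hx) with h | h
    · right; linarith
    · left; linarith
  refine ⟨h.cpt.neg, by simpa using h.qm, by simpa using h.pm, fun x hx => by linarith [h.hi (-x) hx],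
    fun x hx => by linarith [h.lo (-x) hx], fun a b c d g1 g2 hbc => ?_, fun a b g => ?_, fun a b g => ?_⟩
  · have := h.two _ _ _ _ (hg c d g2) (hg a b g1) (by linarith)
    rw [min_comm] at this
    have e1 : -a - -b = b - a := by ring
    have e2 : -c - -d = d - c := by ring
    rw [e1, e2] at this
    linarith
  · have := h.right _ _ (hg a b g)
    have e1 : -a - -b = b - a := by ring
    rw [e1] at this
    linarith
  · have := h.left _ _ (hg a b g)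
    have e1 : -a - -b = b - a := by ring
    rw [e1] at this
    linarith

lemma TH.piece {K : Set ℝ} {p q τ u v : ℝ} (h : TH K p q τ) (hg : IsGap K u v)
    (hm : ∀ a b, IsGap K a b → b ≤ u → b - a ≤ v - u) : TH (K ∩ Iic u) p u τ := by
  have hgap : ∀ a b, IsGap (K ∩ Iic u) a b → IsGap K a b ∧ b ≤ u := by
    intro a b g
    refine ⟨⟨g.1, g.2.1.1, g.2.2.1.1, fun x hx => ?_⟩, g.2.2.1.2⟩
    rcases le_or_gt x u with hxu | hxu
    · exact g.2.2.2 x ⟨hx, hxu⟩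
    · exact Or.inr ((g.2.2.1.2 : b ≤ u).trans hxu.le)
  refine ⟨h.cpt.inter_right isClosed_Iic, ⟨h.pm, h.lo u hg.2.1⟩, ⟨hg.2.1, le_refl u⟩,
    fun x hx => h.lo x hx.1, fun x hx => hx.2, fun a b c d g1 g2 hbc => h.two a b c d (hgap a b g1).1
      (hgap c d g2).1 hbc, fun a b g => h.left a b (hgap a b g).1, fun a b g => ?_⟩
  obtain ⟨g1, g2⟩ := hgap a b g
  have := h.two a b u v g1 hg g2
  rwa [min_eq_left (hm a b g1 g2)] at this

lemma TH.piece' {K : Set ℝ} {p q τ u v : ℝ} (h : TH K p q τ) (hg : IsGap K u v)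
    (hm : ∀ a b, IsGap K a b → b - a ≤ v - u) : TH (K ∩ Ici v) v q τ := by
  have hgap : ∀ a b, IsGap (K ∩ Ici v) a b → IsGap K a b ∧ v ≤ a := by
    intro a b g
    refine ⟨⟨g.1, g.2.1.1, g.2.2.1.1, fun x hx => ?_⟩, g.2.1.2⟩
    rcases le_or_gt v x with hxu | hxu
    · exact g.2.2.2 x ⟨hx, hxu⟩
    · exact Or.inl (hxu.le.trans (g.2.1.2 : v ≤ a))
  refine ⟨h.cpt.inter_right isClosed_Ici, ⟨hg.2.2.1, le_refl v⟩, ⟨h.qm, h.hi v hg.2.2.1⟩,
    fun x hx => hx.2, fun x hx => h.hi x hx.1, fun a b c d g1 g2 hbc => h.two a b c d (hgap a b g1).1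
      (hgap c d g2).1 hbc, fun a b g => ?_, fun a b g => h.right a b (hgap a b g).1⟩
  obtain ⟨g1, g2⟩ := hgap a b g
  have := h.two u v a b hg g1 g2
  rwa [min_eq_right (hm a b g1)] at this

/-- images under maps with bounded distortion -/
lemma TH.image {K : Set ℝ} {p q τ : ℝ} (h : TH K p q τ) {e : ℝ → ℝ} (he : Continuous e) {l M : ℝ}
    (hl : 0 < l) (hlM : l ≤ M) (hτ : 0 < τ)
    (h1 : ∀ x y, x ≤ y → l * (y - x) ≤ e y - e x) (h2 : ∀ x y, x ≤ y → e y - e x ≤ M * (y - x)) :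
    TH (e '' K) (e p) (e q) (τ * (l / M)) := by
  have hM : 0 < M := hl.trans_le hlM
  have hmono : StrictMono e := by
    intro x y hxy
    have := h1 x y hxy.le
    nlinarith [mul_pos hl (sub_pos.2 hxy)]
  have hgap : ∀ a b, IsGap (e '' K) a b → ∃ a' b', IsGap K a' b' ∧ a = e a' ∧ b = e b' := by
    rintro a b ⟨hab, ⟨a', ha', rfl⟩, ⟨b', hb', rfl⟩, hx⟩
    refine ⟨a', b', ⟨hmono.lt_iff_lt.1 hab, ha', hb', fun x hxK => ?_⟩, rfl, rfl⟩
    rcases hx (e x) ⟨x, hxK, rfl⟩ with h | h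
    · exact Or.inl (hmono.le_iff_le.1 h)
    · exact Or.inr (hmono.le_iff_le.1 h)
  have key : ∀ x y X Y : ℝ, x ≤ y → τ * X ≤ y - x → Y ≤ M * X → τ * (l / M) * Y ≤ e y - e x := by
    intro x y X Y hxy hX hY
    have h3 := h1 x y hxy
    have h4 : τ * (l / M) * Y ≤ l * (τ * X) := by
      have : τ * (l / M) * Y ≤ τ * (l / M) * (M * X) :=
        mul_le_mul_of_nonneg_left hY (by positivity)
      refine this.trans (le_of_eq ?_)
      field_simp
    have h5 : l * (τ * X) ≤ l * (y - x) := mul_le_mul_of_nonneg_left hX hl.le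
    linarith
  refine ⟨h.cpt.image he, ⟨p, h.pm, rfl⟩, ⟨q, h.qm, rfl⟩, ?_, ?_, ?_, ?_, ?_⟩
  · rintro _ ⟨x, hx, rfl⟩
    exact hmono.monotone (h.lo x hx)
  · rintro _ ⟨x, hx, rfl⟩
    exact hmono.monotone (h.hi x hx)
  · intro a b c d g1 g2 hbc
    obtain ⟨a', b', g1', rfl, rfl⟩ := hgap a b g1
    obtain ⟨c', d', g2', rfl, rfl⟩ := hgap c d g2
    have hbc' := hmono.le_iff_le.1 hbc
    refine key b' c' _ _ hbc' (h.two a' b' c' d' g1' g2' hbc') ?_
    have e1 := h2 a' b' g1'.1.le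
    have e2 := h2 c' d' g2'.1.le
    rcases le_total (b' - a') (d' - c') with hle | hle
    · rw [min_eq_left hle]
      exact (min_le_left _ _).trans e1
    · rw [min_eq_right hle]
      exact (min_le_right _ _).trans e2
  · intro a b g
    obtain ⟨a', b', g', rfl, rfl⟩ := hgap a b g
    exact key p a' _ _ (h.lo a' g'.2.1) (h.left a' b' g') (h2 a' b' g'.1.le)
  · intro a b g
    obtain ⟨a', b', g', rfl, rfl⟩ := hgap a b g
    exact key b' q _ _ (h.hi b' g'.2.2.1) (h.right a' b' g') (h2 a' b' g'.1.le)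

/-- the largest gap to the left of `w` -/
lemma exists_max_gap {K : Set ℝ} (hK : IsCompact K) {w a₀ b₀ : ℝ} (h0 : IsGap K a₀ b₀) (hw : b₀ ≤ w) :
    ∃ u v, IsGap K u v ∧ v ≤ w ∧ ∀ a b, IsGap K a b → b ≤ w → b - a ≤ v - u := by
  have hc : IsCompact (K ×ˢ K) := hK.prod hK
  have hcl : IsClosed ((K ×ˢ K) ∩ ((⋂ x ∈ K, ({z : ℝ × ℝ | x ≤ z.1} ∪ {z | z.2 ≤ x})) ∩ {z | z.2 ≤ w})) := by
    refine hc.isClosed.inter (IsClosed.inter ?_ ?_)
    · exact isClosed_biInter fun x _ => (isClosed_le (by fun_prop) (by fun_prop)).union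
        (isClosed_le (by fun_prop) (by fun_prop))
    · exact isClosed_le (by fun_prop) (by fun_prop)
  have hcc := hc.of_isClosed_subset hcl inter_subset_left
  have hmem : ∀ a b, IsGap K a b → b ≤ w →
      (a, b) ∈ (K ×ˢ K) ∩ ((⋂ x ∈ K, ({z : ℝ × ℝ | x ≤ z.1} ∪ {z | z.2 ≤ x})) ∩ {z | z.2 ≤ w}) := by
    intro a b g hb
    refine ⟨⟨g.2.1, g.2.2.1⟩, ?_, hb⟩
    simp only [mem_iInter]
    exact fun x hx => g.2.2.2 x hx
  obtain ⟨⟨u, v⟩, hz, hmax⟩ := hcc.exists_isMaxOn ⟨_, hmem a₀ b₀ h0 hw⟩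
    (f := fun z : ℝ × ℝ => z.2 - z.1) (by fun_prop)
  obtain ⟨⟨hu, hv⟩, hz2, hz3⟩ := hz
  simp only [mem_iInter] at hz2
  have hm : ∀ a b, IsGap K a b → b ≤ w → b - a ≤ v - u := fun a b g hb => hmax (hmem a b g hb)
  refine ⟨u, v, ⟨?_, hu, hv, fun x hx => hz2 x hx⟩, hz3, hm⟩
  have := hm a₀ b₀ h0 hw
  linarith [h0.1]

end U556.TK
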