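import Pool.Agent.U556.TK1

/-!
# Nonlinear three-point patterns in thick sets
-/

set_option autoImplicit false

open Set Filter Topology Pointwise

namespace U556.TK

/-- `K` contains `a < b` and `b + e (b - a)`. -/
def Pat (K : Set ℝ) (e : ℝ → ℝ) : Prop := ∃ a b, a ∈ K ∧ b ∈ K ∧ a < b ∧ b + e (b - a) ∈ K

/-- the order isomorphism `e` fixes `0` and has bounded distortion -/
structure Dist (e : ℝ ≃o ℝ) (l M : ℝ) : Prop where
  zero : e 0 = 0
  lpos : 0 < l
  le : l ≤ M
  lo : ∀ x y, x ≤ y → l * (y - x) ≤ e y - e x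
  hi : ∀ x y, x ≤ y → e y - e x ≤ M * (y - x)

lemma Dist.symm {e : ℝ ≃o ℝ} {l M : ℝ} (h : Dist e l M) : Dist e.symm M⁻¹ l⁻¹ := by
  have hM : 0 < M := h.lpos.trans_le h.le
  refine ⟨by rw [← h.zero, OrderIso.symm_apply_apply, h.zero], inv_pos.2 hM,
    inv_anti₀ h.lpos h.le, fun x y hxy => ?_, fun x y hxy => ?_⟩
  · have := h.hi (e.symm x) (e.symm y) (e.symm.monotone hxy)
    rw [e.apply_symm_apply, e.apply_symm_apply] at this
    rw [inv_mul_le_iff₀ hM]
    exact this
  · have := h.lo (e.symm x) (e.symm y) (e.symm.monotone hxy)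
    rw [e.apply_symm_apply, e.apply_symm_apply] at this
    rw [le_inv_mul_iff₀ h.lpos]
    exact this

/-- Half of the cases. -/
lemma half {K : Set ℝ} {p q τ u v : ℝ} (hK : TH K p q τ) (hg : IsGap K u v)
    (hm : ∀ a b, IsGap K a b → b - a ≤ v - u) (hτ : 0 < τ) {e : ℝ ≃o ℝ} {l M : ℝ} (he : Dist e l M)
    (hκ : 1 ≤ τ * (τ * (l / M)))
    (hc : v + e (v - p) ≤ q ∨ (v ≤ u + e (u - p) ∧ u + e (u - p) ≤ q)) : Pat K e := by
  have hM : 0 < M := he.lpos.trans_le he.le
  have hec : Continuous e := e.continuous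
  have hpos : ∀ x, 0 ≤ x → 0 ≤ e x := fun x hx => by rw [← he.zero]; exact e.monotone hx
  set g : ℝ → ℝ := fun b => b + e (b - p) with hgdef
  have hgc : Continuous g := by fun_prop
  have hlo : ∀ x y, x ≤ y → (1 + l) * (y - x) ≤ g y - g x := by
    intro x y hxy
    have := he.lo (x - p) (y - p) (by linarith)
    simp only [hgdef]
    nlinarith
  have hhi : ∀ x y, x ≤ y → g y - g x ≤ (1 + M) * (y - x) := by
    intro x y hxy
    have := he.hi (x - p) (y - p) (by linarith)
    simp only [hgdef]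
    nlinarith
  have hl1 : 0 < 1 + l := by linarith [he.lpos]
  have hlM : 1 + l ≤ 1 + M := by linarith [he.le]
  have hrat : l / M ≤ (1 + l) / (1 + M) := by
    rw [div_le_div_iff₀ hM (by linarith)]
    nlinarith [he.le]
  have hσ : 0 < τ * ((1 + l) / (1 + M)) := by
    have : 0 < 1 + M := by linarith
    positivity
  have h1 : 1 ≤ τ * (τ * ((1 + l) / (1 + M))) :=
    hκ.trans (mul_le_mul_of_nonneg_left (mul_le_mul_of_nonneg_left hrat hτ.le) hτ.le)
  have h1' : 1 ≤ τ * ((1 + l) / (1 + M)) * τ := by rw [mul_comm]; exact h1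
  have hpv : p ≤ v := hK.lo v hg.2.2.1
  have hpq : p ≤ q := hK.lo q hK.qm
  rcases hc with hc | ⟨hc1, hc2⟩
  · have hB := (hK.piece' hg hm).image hgc hl1 hlM hτ hlo hhi
    have k1 : p ≤ g v := by
      have := hpos (v - p) (by linarith)
      simp only [hgdef]
      linarith
    have k2 : q ≤ g q := by
      have := hpos (q - p) (by linarith)
      simp only [hgdef]
      linarith
    obtain ⟨x, hx, b, ⟨hb1, hb2⟩, rfl⟩ := gap_lemma hK hB hτ hσ h1 k1 hc k2
    have hb2' : v ≤ b := hb2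
    have hpu : p ≤ u := hK.lo u hg.2.1
    exact ⟨p, b, hK.pm, hb1, by linarith [hg.1], hx⟩
  · have hA := (hK.piece hg (fun a b g _ => hm a b g)).image hgc hl1 hlM hτ hlo hhi
    have k0 : g p = p := by
      simp only [hgdef, sub_self, he.zero, add_zero]
    rw [k0] at hA
    obtain ⟨x, ⟨b, ⟨hb1, hb2⟩, rfl⟩, hx, hx2⟩ := gap_lemma hA (hK.piece' hg hm) hσ hτ h1' hpv hc1 hc2
    have hx2' : v ≤ g b := hx2
    refine ⟨p, b, hK.pm, hb1, lt_of_le_of_ne (hK.lo b hb1) ?_, hx⟩
    rintro rfl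
    rw [k0] at hx2'
    linarith [hK.lo u hg.2.1, hg.1]

lemma pat_neg {K : Set ℝ} {e : ℝ ≃o ℝ} (h0 : e 0 = 0) (h : Pat (-K) e.symm) : Pat K e := by
  obtain ⟨a, b, ha, hb, hab, hc⟩ := h
  have h0' : e.symm 0 = 0 := by rw [← h0, OrderIso.symm_apply_apply, h0]
  have hpos : 0 < e.symm (b - a) := by rw [← h0']; exact e.symm.strictMono (by linarith)
  refine ⟨-(b + e.symm (b - a)), -b, hc, hb, by linarith, ?_⟩
  have e1 : -b - -(b + e.symm (b - a)) = e.symm (b - a) := by ring
  rw [e1, e.apply_symm_apply]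
  have e2 : -b + (b - a) = -a := by ring
  rw [e2]
  exact ha

/-- The main step: a thick set with a gap contains the pattern. -/
theorem main {K : Set ℝ} {p q τ u v : ℝ} (hK : TH K p q τ) (hg : IsGap K u v)
    (hm : ∀ a b, IsGap K a b → b - a ≤ v - u) (hτ : 1 ≤ τ) {e : ℝ ≃o ℝ} {l M : ℝ} (he : Dist e l M)
    (hκ : 1 ≤ τ * (τ * (l / M))) : Pat K e := by
  by_contra hcon
  have hτ0 : 0 < τ := by linarith
  have hM : 0 < M := he.lpos.trans_le he.le
  have hκ' : 1 ≤ τ * (τ * (M⁻¹ / l⁻¹)) := by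
    have : M⁻¹ / l⁻¹ = l / M := by
      field_simp
    rw [this]; exact hκ
  have n1 : ¬ (v + e (v - p) ≤ q ∨ (v ≤ u + e (u - p) ∧ u + e (u - p) ≤ q)) :=
    fun h => hcon (half hK hg hm hτ0 he hκ h)
  have hgn : IsGap (-K) (-v) (-u) := by
    refine ⟨by linarith [hg.1], by simpa using hg.2.2.1, by simpa using hg.2.1, fun x hx => ?_⟩
    rcases hg.2.2.2 (-x) hx with h | h
    · right; linarith
    · left; linarith
  have hmn : ∀ a b, IsGap (-K) a b → b - a ≤ -u - -v := by
    intro a b g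
    have : IsGap K (-b) (-a) := by
      refine ⟨by linarith [g.1], g.2.2.1, g.2.1, fun x hx => ?_⟩
      rcases g.2.2.2 (-x) (by simpa using hx) with h | h
      · right; linarith
      · left; linarith
    have := hm _ _ this
    linarith
  have n2 : ¬ (-u + e.symm (-u - -q) ≤ -p ∨ (-u ≤ -v + e.symm (-v - -q) ∧ -v + e.symm (-v - -q) ≤ -p)) :=
    fun h => hcon (pat_neg he.zero (half hK.neg hgn hmn hτ0 he.symm hκ' h))
  push Not at n1 n2
  obtain ⟨a1, a2⟩ := n1
  obtain ⟨b1, b2⟩ := n2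
  have e1 : -u - -q = q - u := by ring
  have e2 : -v - -q = q - v := by ring
  rw [e1] at b1
  rw [e2] at b2
  -- `e (u - p) < v - u`
  have c1 : e (u - p) < q - u := by
    rw [← e.lt_symm_apply]
    linarith
  have c2 : e (u - p) < v - u := by
    by_contra h
    push Not at h
    have := a2 (by linarith)
    linarith
  -- `q - v < e (v - u)`
  have c3 : e.symm (q - v) < v - p := by
    rw [e.symm_apply_lt]
    linarith
  have c4 : q - v < e (v - u) := by
    rw [← e.symm_apply_lt]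
    by_contra h
    push Not at h
    have := b2 (by linarith)
    linarith
  have d1 := hK.left u v hg
  have d2 := hK.right u v hg
  have d3 : 0 < v - u := by linarith [hg.1]
  have d4 : v - u ≤ τ * (v - u) := by nlinarith
  have d5 : e (v - u) ≤ e (u - p) := e.monotone (by linarith)
  linarith

/-- A small thick piece at the left end. -/
lemma zoom {K : Set ℝ} {p q τ : ℝ} (hK : TH K p q τ) (hτ : 0 < τ)
    (htd : ∀ x y, x < y → ¬ Icc x y ⊆ K) (hp : ∀ η, 0 < η → ∃ x ∈ K, p < x ∧ x < p + η) {η : ℝ}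
    (hη : 0 < η) : ∃ q', TH (K ∩ Iic q') p q' τ ∧ p < q' ∧ q' ≤ p + η := by
  obtain ⟨x, hx, hpx, hxη⟩ := hp η hη
  have := htd p x hpx
  rw [not_subset] at this
  obtain ⟨z, hz, hzK⟩ := this
  obtain ⟨a, b, hg, h1, h2, h3, h4⟩ := exists_gap hK.cpt hK.pm hx hzK hz.1 hz.2
  obtain ⟨u, v, hg', h5, h6⟩ := exists_max_gap hK.cpt (w := p + η) hg (by linarith)
  refine ⟨u, hK.piece hg' (fun a b g hb => h6 a b g (by linarith [hg'.1])), ?_, by linarith [hg'.1]⟩
  have := hK.left u v hg'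
  have h7 : 0 < v - u := by linarith [hg'.1]
  nlinarith [mul_pos hτ h7]

/-- Extension of a function with bounded distortion on `[0, r]`. -/
lemma exists_ext {f : ℝ → ℝ} {r l m M : ℝ} (hr : 0 < r) (hl : 0 < l) (hlm : l ≤ m) (hmM : m ≤ M)
    (hf : Continuous f) (f0 : f 0 = 0)
    (h : ∀ x y, 0 ≤ x → x ≤ y → y ≤ r → l * (y - x) ≤ f y - f x ∧ f y - f x ≤ M * (y - x)) :
    ∃ e : ℝ ≃o ℝ, Dist e l M ∧ ∀ t, 0 ≤ t → t ≤ r → e t = f t := by
  set c : ℝ → ℝ := fun t => max 0 (min r t) with hc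
  set F : ℝ → ℝ := fun t => f (c t) + m * (t - c t) with hF
  have hcc : Continuous c := by fun_prop
  have hFc : Continuous F := by fun_prop
  have hc0 : ∀ t, 0 ≤ c t := fun t => le_max_left _ _
  have hcr : ∀ t, c t ≤ r := fun t => max_le hr.le (min_le_left _ _)
  have hcm : ∀ x y, x ≤ y → 0 ≤ c y - c x ∧ c y - c x ≤ y - x := by
    intro x y hxy
    have k1 : c x ≤ c y := max_le_max le_rfl (min_le_min le_rfl hxy)
    have k2 : min r y ≤ (y - x) + min r x := by
      rcases le_total r x with h3 | h3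
      · rw [min_eq_left h3]
        linarith [min_le_left r y]
      · rw [min_eq_right h3]
        linarith [min_le_right r y]
    have k3 : c y ≤ (y - x) + c x := by
      refine max_le (by linarith [hc0 x]) (k2.trans ?_)
      linarith [le_max_right 0 (min r x)]
    constructor <;> linarith
  have hlo : ∀ x y, x ≤ y → l * (y - x) ≤ F y - F x := by
    intro x y hxy
    obtain ⟨h1, h2⟩ := hcm x y hxy
    have h3 := (h (c x) (c y) (hc0 x) (by linarith) (hcr y)).1
    simp only [hF]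
    nlinarith [mul_le_mul_of_nonneg_right hlm (sub_nonneg.2 h2)]
  have hhi : ∀ x y, x ≤ y → F y - F x ≤ M * (y - x) := by
    intro x y hxy
    obtain ⟨h1, h2⟩ := hcm x y hxy
    have h3 := (h (c x) (c y) (hc0 x) (by linarith) (hcr y)).2
    simp only [hF]
    nlinarith [mul_le_mul_of_nonneg_right hmM (sub_nonneg.2 h2)]
  have hmono : StrictMono F := by
    intro x y hxy
    have := hlo x y hxy.le
    nlinarith [mul_pos hl (sub_pos.2 hxy)]
  have hF0 : F 0 = 0 := by
    have : c 0 = 0 := by simp [hc, hr.le]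
    simp only [hF, this, f0]
    ring
  have hsurj : Function.Surjective F := by
    refine hFc.surjective ?_ ?_
    · refine tendsto_atTop_mono' atTop ?_ (tendsto_id.const_mul_atTop hl)
      filter_upwards [eventually_ge_atTop 0] with x hx
      have := hlo 0 x hx
      rw [hF0] at this
      simpa using this
    · refine tendsto_atBot_mono' atBot ?_ (tendsto_id.const_mul_atBot hl)
      filter_upwards [eventually_le_atBot 0] with x hx
      have := hlo x 0 hx
      rw [hF0] at this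
      simp only [id]
      linarith
  refine ⟨hmono.orderIsoOfSurjective F hsurj, ⟨hF0, hl, hlm.trans hmM, hlo, hhi⟩, fun t ht htr => ?_⟩
  have : c t = t := by simp [hc, ht, htr]
  show F t = f t
  simp only [hF, this]
  ring

/-- Thick sets contain the pattern for every `C¹` function. -/
theorem pattern {K : Set ℝ} {p q τ : ℝ} (hK : TH K p q τ) (hτ : 1 < τ)
    (htd : ∀ x y, x < y → ¬ Icc x y ⊆ K) (hp : ∀ η, 0 < η → ∃ x ∈ K, p < x ∧ x < p + η)
    {f : ℝ → ℝ} (hf : ContDiff ℝ 1 f) (f0 : f 0 = 0) (f1 : 0 < deriv f 0) :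
    ∃ x t, 0 < t ∧ x - t ∈ K ∧ x ∈ K ∧ x + f t ∈ K := by
  have hτ0 : 0 < τ := by linarith
  set m := deriv f 0 with hmdef
  set ε : ℝ := (τ ^ 2 - 1) / (τ ^ 2 + 1) with hε
  have hτ2 : 1 < τ ^ 2 := by nlinarith
  have hε0 : 0 < ε := div_pos (by linarith) (by linarith)
  have hε1 : ε < 1 := by rw [hε, div_lt_one (by linarith)]; linarith
  have hdc : Continuous (deriv f) := hf.continuous_deriv le_rfl
  obtain ⟨r₀, hr₀, hr₀'⟩ := Metric.continuous_iff.1 hdc 0 (ε * m) (by positivity)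
  set r := r₀ / 2 with hr
  have hrpos : 0 < r := by positivity
  have hd : ∀ x ∈ Icc (0 : ℝ) r, (1 - ε) * m ≤ deriv f x ∧ deriv f x ≤ (1 + ε) * m := by
    intro x hx
    have := hr₀' x (by rw [Real.dist_eq, sub_zero, abs_of_nonneg hx.1]; linarith [hx.2])
    rw [Real.dist_eq, ← hmdef] at this
    have := abs_lt.1 this
    constructor <;> linarith [this.1, this.2]
  have hfd : Differentiable ℝ f := hf.differentiable one_ne_zero
  obtain ⟨e, he, hef⟩ := exists_ext (f := f) (l := (1 - ε) * m) (m := m) (M := (1 + ε) * m) hrpos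
    (mul_pos (by linarith) f1) (by nlinarith) (by nlinarith) hf.continuous f0 (by
      intro x y hx hxy hy
      have hmx : x ∈ Icc (0 : ℝ) r := ⟨hx, hxy.trans hy⟩
      have hmy : y ∈ Icc (0 : ℝ) r := ⟨hx.trans hxy, hy⟩
      exact ⟨(convex_Icc 0 r).mul_sub_le_image_sub_of_le_deriv hf.continuous.continuousOn
          hfd.differentiableOn (fun z hz => (hd z (interior_subset hz)).1) x hmx y hmy hxy,
        (convex_Icc 0 r).image_sub_le_mul_sub_of_deriv_le hf.continuous.continuousOn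
          hfd.differentiableOn (fun z hz => (hd z (interior_subset hz)).2) x hmx y hmy hxy⟩)
  obtain ⟨q', hK', hpq, hqr⟩ := zoom hK hτ0 htd hp hrpos
  have := htd p q' hpq
  rw [not_subset] at this
  obtain ⟨z, hz, hzK⟩ := this
  obtain ⟨a, b, hg, -, -, -, h4⟩ := exists_gap hK'.cpt hK'.pm hK'.qm (x := z)
    (fun h => hzK h.1) hz.1 hz.2
  obtain ⟨u, v, hg', h5, h6⟩ := exists_max_gap hK'.cpt (w := q') hg h4
  have hκ : (1 - ε) * m / ((1 + ε) * m) = 1 / τ ^ 2 := by
    rw [mul_div_mul_right _ _ f1.ne', hε]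
    field_simp
    ring
  obtain ⟨a, b, ha, hb, hab, hc⟩ := main hK' hg' (fun a b g => h6 a b g (hK'.hi b g.2.2.1)) hτ.le he
    (by rw [hκ]; apply le_of_eq; field_simp)
  refine ⟨b, b - a, by linarith, by simpa using ha.1, hb.1, ?_⟩
  rw [← hef (b - a) (by linarith) (by linarith [hK'.lo a ha, hK'.hi b hb])]
  exact hc.1

end U556.TK
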